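import Mathlib

/-!
# DiffLog: iterated differences of the logarithm

`dl [q1, ..., qj] x` is the iterated difference `Δ_{q1} ... Δ_{qj} log` at `x`.
`dl_mvt`: more generally, for `f` smooth on `(0,∞)` the iterated difference of `f` with steps
`q1, ..., qj ≥ 0` is `q1 ... qj f^(j)(ξ)` for some `x ≤ ξ ≤ x + ∑ q` (induction on the list: the mean
value theorem for `g = Δ_{q2} ... Δ_{qj} f` on `[x, x+q1]`, `g' = Δ_{q2} ... Δ_{qj} f'`, induction
for `f'` at the intermediate point; if `q1 = 0` both sides are `0`).  It may be easier to prove it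
directly for the family `f_m(x) = (-1)^m m!/x^(m+1)` (`f_0 = 1/x`, `f_m' = f_{m+1}`) and for `log`
(`log' = f_0`).  `dl_bounds`, `dl_anti` are consequences (for `dl_anti`:
`dl (1::qs) (x+1) - dl (1::qs) x = dl (1::1::qs) x`).  About 120 lines.
-/

set_option autoImplicit false

namespace Pool.Agent.H52.Unc

/-- iterated differences of the logarithm -/
noncomputable def dl : List ℕ → ℝ → ℝ
  | [], x => Real.log x
  | q :: qs, x => dl qs (x + q) - dl qs x

/-- iterated differences of a function -/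
private noncomputable def itd (f : ℝ → ℝ) : List ℕ → ℝ → ℝ
  | [], x => f x
  | q :: qs, x => itd f qs (x + q) - itd f qs x

private lemma dl_eq_itd (qs : List ℕ) (x : ℝ) : dl qs x = itd Real.log qs x := by
  induction qs generalizing x with
  | nil => rfl
  | cons q qs ih =>
    show dl qs (x + q) - dl qs x = itd Real.log qs (x + q) - itd Real.log qs x
    rw [ih, ih]

private lemma itd_deriv {F : ℕ → ℝ → ℝ}
    (hF : ∀ m x, 0 < x → HasDerivAt (F m) (F (m + 1) x) x) (qs : List ℕ) (m : ℕ) {x : ℝ}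
    (hx : 0 < x) : HasDerivAt (itd (F m) qs) (itd (F (m + 1)) qs x) x := by
  induction qs generalizing x with
  | nil => exact hF m x hx
  | cons q qs ih =>
    have h1 := ih hx
    have hq : (0:ℝ) ≤ q := Nat.cast_nonneg q
    have h2 := ih (x := x + q) (by positivity)
    have h3 : HasDerivAt (fun y => itd (F m) qs (y + q)) (itd (F (m + 1)) qs (x + q)) x :=
      HasDerivAt.comp_add_const x (q : ℝ) h2
    exact h3.sub h1

private lemma itd_mvt {F : ℕ → ℝ → ℝ}
    (hF : ∀ m x, 0 < x → HasDerivAt (F m) (F (m + 1) x) x) (qs : List ℕ) (m : ℕ) {x : ℝ}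
    (hx : 0 < x) : ∃ ξ : ℝ, x ≤ ξ ∧ ξ ≤ x + (qs.sum : ℕ) ∧
      itd (F m) qs x = (qs.prod : ℕ) * F (m + qs.length) ξ := by
  induction qs generalizing m x with
  | nil => exact ⟨x, le_rfl, by simp, by simp [itd]⟩
  | cons q qs ih =>
    rcases Nat.eq_zero_or_pos q with hq | hq
    · subst hq
      refine ⟨x, le_rfl, ?_, ?_⟩
      · have : (0:ℝ) ≤ ((0 :: qs).sum : ℕ) := Nat.cast_nonneg _
        linarith
      · simp [itd]
    · have hq' : (0:ℝ) < q := by exact_mod_cast hq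
      have hlt : x < x + q := by linarith
      obtain ⟨c, hc, hc'⟩ := exists_hasDerivAt_eq_slope (itd (F m) qs) (itd (F (m + 1)) qs) hlt
        (fun y hy => (itd_deriv hF qs m (lt_of_lt_of_le hx hy.1)).continuousAt.continuousWithinAt)
        (fun y hy => itd_deriv hF qs m (hx.trans hy.1))
      obtain ⟨ξ, h1, h2, h3⟩ := ih (m + 1) (x := c) (hx.trans hc.1)
      refine ⟨ξ, hc.1.le.trans h1, ?_, ?_⟩
      · rw [List.sum_cons, Nat.cast_add]
        linarith [hc.2]
      · have e : x + q - x = (q:ℝ) := by ring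
        rw [e, h3, eq_div_iff hq'.ne'] at hc'
        show itd (F m) qs (x + q) - itd (F m) qs x = _
        rw [← hc', List.prod_cons, List.length_cons]
        push_cast
        rw [show m + 1 + qs.length = m + (qs.length + 1) by ring]
        ring

/-- the logarithm and its derivatives -/
private noncomputable def lF : ℕ → ℝ → ℝ
  | 0, x => Real.log x
  | m + 1, x => (-1) ^ m * m.factorial / x ^ (m + 1)

private lemma lF_deriv (m : ℕ) (x : ℝ) (hx : 0 < x) : HasDerivAt (lF m) (lF (m + 1) x) x := by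
  cases m with
  | zero =>
    have h := Real.hasDerivAt_log hx.ne'
    have e : lF (0 + 1) x = x⁻¹ := by
      simp [lF]
    rw [e]
    exact h
  | succ m =>
    have h1 : HasDerivAt (fun y : ℝ => y ^ (m + 1)) (((m + 1 : ℕ) : ℝ) * x ^ (m + 1 - 1)) x :=
      hasDerivAt_pow (m + 1) x
    have h2 := (h1.inv (pow_pos hx _).ne').const_mul (((-1) ^ m * m.factorial : ℝ))
    have e : lF (m + 1 + 1) x = ((-1) ^ m * m.factorial : ℝ) *
        (-(((m + 1 : ℕ) : ℝ) * x ^ (m + 1 - 1)) / (x ^ (m + 1)) ^ 2) := by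
      show (-1) ^ (m + 1) * ((m + 1).factorial : ℝ) / x ^ (m + 1 + 1) = _
      rw [Nat.factorial_succ]
      push_cast
      have hx' := hx.ne'
      field_simp
      ring
    rw [e]
    have e2 : lF (m + 1) = fun y => ((-1) ^ m * m.factorial : ℝ) * (y ^ (m + 1))⁻¹ := by
      funext y
      show (-1) ^ m * (m.factorial : ℝ) / y ^ (m + 1) = _
      rw [div_eq_mul_inv]
    rw [e2]
    exact h2

theorem dl_mvt (qs : List ℕ) (hq : qs ≠ []) {x : ℝ} (hx : 0 < x) :
    ∃ ξ : ℝ, x ≤ ξ ∧ ξ ≤ x + (qs.sum : ℕ) ∧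
      (-1) ^ (qs.length + 1) * dl qs x =
        ((qs.length - 1).factorial : ℝ) * (qs.prod : ℕ) / ξ ^ qs.length := by
  obtain ⟨ξ, h1, h2, h3⟩ := itd_mvt lF_deriv qs 0 hx
  refine ⟨ξ, h1, h2, ?_⟩
  have h4 : dl qs x = (qs.prod : ℕ) * lF qs.length ξ := by
    rw [dl_eq_itd]
    have : itd (lF 0) qs x = itd Real.log qs x := rfl
    rw [← this, h3, Nat.zero_add]
  rw [h4]
  obtain ⟨j, hj⟩ : ∃ j, qs.length = j + 1 := by
    cases qs with
    | nil => exact absurd rfl hq
    | cons q qs => exact ⟨qs.length, rfl⟩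
  rw [hj, Nat.add_sub_cancel]
  show (-1) ^ (j + 1 + 1) * (((qs.prod : ℕ) : ℝ) * ((-1) ^ j * j.factorial / ξ ^ (j + 1))) = _
  have h5 : ((-1:ℝ)) ^ (j + 1 + 1) * (-1) ^ j = 1 := by
    rw [← pow_add, show j + 1 + 1 + j = 2 * (j + 1) by ring, pow_mul]
    simp
  calc _ = ((-1:ℝ)) ^ (j + 1 + 1) * (-1) ^ j * ((j.factorial : ℝ) * (qs.prod : ℕ) / ξ ^ (j + 1)) := by
        ring
    _ = _ := by rw [h5, one_mul]

theorem dl_bounds (qs : List ℕ) {x M : ℝ} (hM : 0 < M) (h1 : M ≤ x)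
    (h2 : x + 1 + (qs.sum : ℕ) ≤ 4 * M) :
    (qs.length.factorial : ℝ) * (qs.prod : ℕ) / (4 * M) ^ (qs.length + 1) ≤
        (-1) ^ qs.length * dl (1 :: qs) x ∧
      (-1) ^ qs.length * dl (1 :: qs) x ≤
        (qs.length.factorial : ℝ) * (qs.prod : ℕ) / M ^ (qs.length + 1) := by
  obtain ⟨ξ, h3, h4, h5⟩ := dl_mvt (1 :: qs) (by simp) (lt_of_lt_of_le hM h1)
  rw [List.length_cons, Nat.add_sub_cancel, List.prod_cons, one_mul] at h5
  rw [List.sum_cons, Nat.cast_add, Nat.cast_one] at h4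
  have h6 : ((-1:ℝ)) ^ (qs.length + 1 + 1) = (-1) ^ qs.length := by
    rw [pow_add, pow_add]
    ring
  rw [h6] at h5
  rw [h5]
  have h7 : M ≤ ξ := h1.trans h3
  have h8 : ξ ≤ 4 * M := by linarith
  have hξ : 0 < ξ := lt_of_lt_of_le hM h7
  constructor
  · gcongr
  · gcongr

theorem dl_anti (qs : List ℕ) {x : ℝ} (hx : 0 < x) :
    (-1) ^ qs.length * dl (1 :: qs) (x + 1) ≤ (-1) ^ qs.length * dl (1 :: qs) x := by
  obtain ⟨ξ, h3, h4, h5⟩ := dl_mvt (1 :: 1 :: qs) (by simp) hx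
  have hξ : 0 < ξ := lt_of_lt_of_le hx h3
  have h6 : dl (1 :: 1 :: qs) x = dl (1 :: qs) (x + 1) - dl (1 :: qs) x := by
    show dl (1 :: qs) (x + ((1:ℕ) : ℝ)) - dl (1 :: qs) x = _
    rw [Nat.cast_one]
  rw [h6] at h5
  have h7 : ((-1:ℝ)) ^ ((1 :: 1 :: qs).length + 1) = -(-1) ^ qs.length := by
    simp only [List.length_cons]
    rw [pow_add, pow_add, pow_add]
    ring
  rw [h7] at h5
  have h8 : (0:ℝ) ≤ (((1 :: 1 :: qs).length - 1).factorial : ℝ) * (((1 :: 1 :: qs).prod : ℕ) : ℝ) /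
      ξ ^ (1 :: 1 :: qs).length := by positivity
  rw [← h5] at h8
  nlinarith

end Pool.Agent.H52.Unc
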