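import Mathlib

/-!
# KLg: the Kusmin-Landau inequality for a sequence with monotone phase differences

Let `b n = 1/(exp(i s ψ n) - 1)`.  For `A ≤ n < B`: `a n = b n (a (n+1) - a n)`, `‖b n‖ ≤ π/(2 ψ n)`
(`‖exp(iφ) - 1‖ = 2 |sin(φ/2)|`, `Real.mul_le_sin`), and
`‖b n - b (n+1)‖ ≤ (ψ n - ψ (n+1)) (π²/4)/(ψ n ψ (n+1)) = (π²/4) (1/ψ (n+1) - 1/ψ n)`, which
telescopes.  Abel summation: `‖∑_{A ≤ n < B} a n‖ ≤ π/δ + (π²/4)/δ`, and `‖a B‖ ≤ 1 ≤ π/δ`;
`2π + π²/4 < 9`.  Compare the proof of `kusmin_landau` in `H6/Win/KL.lean`.  About 100 lines.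
-/

set_option autoImplicit false

open Complex

namespace Pool.Agent.H52.Unc

private lemma kl_norm_ge {s φ : ℝ} (hs : s = 1 ∨ s = -1) (h0 : 0 < φ) (h1 : φ ≤ Real.pi) :
    2 * φ / Real.pi ≤ ‖cexp ((s * φ : ℝ) * I) - 1‖ := by
  rw [mul_comm ((s * φ : ℝ) : ℂ) I, Complex.norm_exp_I_mul_ofReal_sub_one]
  have h3 : ‖2 * Real.sin (s * φ / 2)‖ = 2 * |Real.sin (φ / 2)| := by
    rw [norm_mul, Real.norm_eq_abs, Real.norm_eq_abs, abs_of_pos (by norm_num : (0 : ℝ) < 2)]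
    congr 1
    rcases hs with h | h
    · rw [h, one_mul]
    · rw [h, neg_one_mul, neg_div, Real.sin_neg, abs_neg]
  rw [h3]
  have h4 : 2 / Real.pi * (φ / 2) ≤ Real.sin (φ / 2) :=
    Real.mul_le_sin (by positivity) (by linarith)
  have h5 := le_abs_self (Real.sin (φ / 2))
  have h6 : 2 * φ / Real.pi = 2 * (2 / Real.pi * (φ / 2)) := by ring
  rw [h6]
  linarith

private lemma kl_norm_sub {s φ χ : ℝ} (hs : s = 1 ∨ s = -1) (h : χ ≤ φ) :
    ‖cexp ((s * χ : ℝ) * I) - cexp ((s * φ : ℝ) * I)‖ ≤ φ - χ := by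
  have h1 : cexp ((s * χ : ℝ) * I) - cexp ((s * φ : ℝ) * I) =
      -(cexp ((s * χ : ℝ) * I) * (cexp (I * ((s * (φ - χ) : ℝ) : ℂ)) - 1)) := by
    rw [mul_sub, ← Complex.exp_add]
    have : ((s * χ : ℝ) : ℂ) * I + I * ((s * (φ - χ) : ℝ) : ℂ) = ((s * φ : ℝ) : ℂ) * I := by
      push_cast
      ring
    rw [this]
    ring
  rw [h1, norm_neg, norm_mul, Complex.norm_exp_ofReal_mul_I, one_mul]
  refine (Real.norm_exp_I_mul_ofReal_sub_one_le).trans ?_
  rw [Real.norm_eq_abs, abs_mul, abs_of_nonneg (sub_nonneg.2 h)]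
  rcases hs with h | h
  · rw [h]; simp
  · rw [h]; simp

private lemma kl_b_le {s φ : ℝ} (hs : s = 1 ∨ s = -1) (h0 : 0 < φ) (h1 : φ ≤ Real.pi) :
    ‖(1 : ℂ) / (cexp ((s * φ : ℝ) * I) - 1)‖ ≤ Real.pi / (2 * φ) := by
  rw [norm_div, norm_one]
  have h := kl_norm_ge hs h0 h1
  have hpi := Real.pi_pos
  have h2 : Real.pi / (2 * φ) = 1 / (2 * φ / Real.pi) := by
    rw [one_div_div]
  rw [h2]
  exact one_div_le_one_div_of_le (by positivity) h

private lemma kl_b_sub {s φ χ : ℝ} (hs : s = 1 ∨ s = -1) (h0 : 0 < χ) (h : χ ≤ φ)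
    (h1 : φ ≤ Real.pi) :
    ‖(1 : ℂ) / (cexp ((s * φ : ℝ) * I) - 1) - 1 / (cexp ((s * χ : ℝ) * I) - 1)‖ ≤
      Real.pi ^ 2 / 4 * (1 / χ - 1 / φ) := by
  have hφ : 0 < φ := lt_of_lt_of_le h0 h
  have hpi := Real.pi_pos
  have ha := kl_norm_ge hs hφ h1
  have hb := kl_norm_ge hs h0 (h.trans h1)
  have ha0 : cexp ((s * φ : ℝ) * I) - 1 ≠ 0 := by
    intro h'
    rw [h', norm_zero] at ha
    have : 0 < 2 * φ / Real.pi := by positivity
    linarith
  have hb0 : cexp ((s * χ : ℝ) * I) - 1 ≠ 0 := by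
    intro h'
    rw [h', norm_zero] at hb
    have : 0 < 2 * χ / Real.pi := by positivity
    linarith
  have e : (1 : ℂ) / (cexp ((s * φ : ℝ) * I) - 1) - 1 / (cexp ((s * χ : ℝ) * I) - 1) =
      (cexp ((s * χ : ℝ) * I) - cexp ((s * φ : ℝ) * I)) *
        (1 / (cexp ((s * φ : ℝ) * I) - 1)) * (1 / (cexp ((s * χ : ℝ) * I) - 1)) := by
    generalize cexp ((s * φ : ℝ) * I) = P at ha0 ⊢
    generalize cexp ((s * χ : ℝ) * I) = Q at hb0 ⊢
    field_simp
    ring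
  rw [e, norm_mul, norm_mul]
  calc ‖cexp ((s * χ : ℝ) * I) - cexp ((s * φ : ℝ) * I)‖ *
        ‖(1 : ℂ) / (cexp ((s * φ : ℝ) * I) - 1)‖ * ‖(1 : ℂ) / (cexp ((s * χ : ℝ) * I) - 1)‖
      ≤ (φ - χ) * (Real.pi / (2 * φ)) * (Real.pi / (2 * χ)) := by
        have h3 := kl_norm_sub hs h
        have h4 := kl_b_le hs hφ h1
        have h5 := kl_b_le hs h0 (h.trans h1)
        have h6 : 0 ≤ φ - χ := sub_nonneg.2 h
        gcongr
    _ = Real.pi ^ 2 / 4 * (1 / χ - 1 / φ) := by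
        field_simp
        ring

theorem kl_gen {a : ℕ → ℂ} {ψ : ℕ → ℝ} {s δ : ℝ} {A B : ℕ} (hs : s = 1 ∨ s = -1) (hδ : 0 < δ)
    (hδπ : δ ≤ Real.pi) (hAB : A ≤ B) (ha : ∀ n, A ≤ n → n ≤ B → ‖a n‖ ≤ 1)
    (hrec : ∀ n, A ≤ n → n < B → a (n + 1) = cexp ((s * ψ n : ℝ) * I) * a n)
    (h1 : ∀ n, A ≤ n → n < B → δ ≤ ψ n ∧ ψ n ≤ Real.pi)
    (h2 : ∀ n, A ≤ n → n + 1 < B → ψ (n + 1) ≤ ψ n) :
    ‖∑ n ∈ Finset.Icc A B, a n‖ ≤ 9 / δ := by
  have hpi := Real.pi_pos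
  have hpi3 := Real.pi_lt_d2
  have hone : 1 ≤ Real.pi / δ := (one_le_div hδ).2 hδπ
  rcases eq_or_lt_of_le hAB with hAB' | hAB'
  · subst hAB'
    rw [Finset.Icc_self, Finset.sum_singleton]
    refine (ha A le_rfl le_rfl).trans (hone.trans ?_)
    gcongr
    linarith
  set b : ℕ → ℂ := fun n => 1 / (cexp ((s * ψ n : ℝ) * I) - 1) with hb
  have hne : ∀ n, A ≤ n → n < B → cexp ((s * ψ n : ℝ) * I) - 1 ≠ 0 := by
    intro n hn hn' h'
    have h3 := kl_norm_ge hs (lt_of_lt_of_le hδ (h1 n hn hn').1) (h1 n hn hn').2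
    rw [h', norm_zero] at h3
    have h4 := lt_of_lt_of_le hδ (h1 n hn hn').1
    have : 0 < 2 * ψ n / Real.pi := by positivity
    linarith
  have hstep : ∀ n, A ≤ n → n < B → a n = b n * a (n + 1) - b n * a n := by
    intro n hn hn'
    rw [hrec n hn hn', hb]
    have := hne n hn hn'
    field_simp
  have key : ∀ k, A + k < B →
      ‖∑ n ∈ Finset.Ico A (A + k + 1), a n - b (A + k) * a (A + k + 1)‖ ≤
        Real.pi / (2 * δ) + Real.pi ^ 2 / 4 * (1 / ψ (A + k) - 1 / ψ A) := by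
    intro k
    induction k with
    | zero =>
      intro hk
      have e : Finset.Ico A (A + 0 + 1) = {A} := by
        ext n
        simp only [Finset.mem_Ico, Finset.mem_singleton]
        omega
      rw [e, Finset.sum_singleton]
      have h3 : a A - b (A + 0) * a (A + 0 + 1) = -(b A * a A) := by
        have := hstep A le_rfl hAB'
        simp only [Nat.add_zero]
        linear_combination this
      rw [h3, norm_neg, norm_mul]
      have h4 := kl_b_le hs (lt_of_lt_of_le hδ (h1 A le_rfl hAB').1) (h1 A le_rfl hAB').2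
      have h5 : Real.pi / (2 * ψ A) ≤ Real.pi / (2 * δ) := by
        have := (h1 A le_rfl hAB').1
        gcongr
      have h6 := ha A le_rfl hAB
      have h7 : ‖b A‖ ≤ Real.pi / (2 * δ) := h4.trans h5
      calc ‖b A‖ * ‖a A‖ ≤ Real.pi / (2 * δ) * 1 := by gcongr
        _ = Real.pi / (2 * δ) + Real.pi ^ 2 / 4 * (1 / ψ (A + 0) - 1 / ψ A) := by
          simp
    | succ k ih =>
      intro hk
      have ih' := ih (by omega)
      have e : ∑ n ∈ Finset.Ico A (A + (k + 1) + 1), a n =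
          ∑ n ∈ Finset.Ico A (A + k + 1), a n + a (A + k + 1) := by
        rw [show A + (k + 1) + 1 = (A + k + 1) + 1 by ring, Finset.sum_Ico_succ_top (by omega)]
      have h3 : ∑ n ∈ Finset.Ico A (A + (k + 1) + 1), a n -
          b (A + (k + 1)) * a (A + (k + 1) + 1) =
          (∑ n ∈ Finset.Ico A (A + k + 1), a n - b (A + k) * a (A + k + 1)) +
            (b (A + k) - b (A + k + 1)) * a (A + k + 1) := by
        rw [e]
        have h4 := hstep (A + k + 1) (by omega) (by omega)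
        have e2 : A + (k + 1) = A + k + 1 := by ring
        rw [e2]
        linear_combination h4
      rw [h3]
      refine (norm_add_le _ _).trans ?_
      rw [norm_mul]
      have h5 : ‖b (A + k) - b (A + k + 1)‖ ≤
          Real.pi ^ 2 / 4 * (1 / ψ (A + k + 1) - 1 / ψ (A + k)) :=
        kl_b_sub hs (lt_of_lt_of_le hδ (h1 (A + k + 1) (by omega) (by omega)).1)
          (h2 (A + k) (by omega) (by omega)) (h1 (A + k) (by omega) (by omega)).2
      have h6 := ha (A + k + 1) (by omega) (by omega)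
      have h7 : ‖b (A + k) - b (A + k + 1)‖ * ‖a (A + k + 1)‖ ≤
          Real.pi ^ 2 / 4 * (1 / ψ (A + k + 1) - 1 / ψ (A + k)) := by
        calc ‖b (A + k) - b (A + k + 1)‖ * ‖a (A + k + 1)‖ ≤
            ‖b (A + k) - b (A + k + 1)‖ * 1 := by gcongr
          _ ≤ _ := by rw [mul_one]; exact h5
      have e2 : A + (k + 1) = A + k + 1 := by ring
      rw [e2]
      linarith
  obtain ⟨k, rfl⟩ : ∃ k, B = A + k + 1 := ⟨B - A - 1, by omega⟩
  have hk := key k (by omega)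
  have e : ∑ n ∈ Finset.Icc A (A + k + 1), a n =
      (∑ n ∈ Finset.Ico A (A + k + 1), a n - b (A + k) * a (A + k + 1)) +
        b (A + k) * a (A + k + 1) + a (A + k + 1) := by
    rw [← Finset.Ico_add_one_right_eq_Icc, Finset.sum_Ico_succ_top (by omega)]
    ring
  rw [e]
  have h3 := h1 (A + k) (by omega) (by omega)
  have h4 := h1 A le_rfl (by omega)
  have hψ : 0 < ψ (A + k) := lt_of_lt_of_le hδ h3.1
  have hψA : 0 < ψ A := lt_of_lt_of_le hδ h4.1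
  have h5 : ‖b (A + k)‖ ≤ Real.pi / (2 * δ) :=
    (kl_b_le hs hψ h3.2).trans (by gcongr; exact h3.1)
  have h6 := ha (A + k + 1) (by omega) (by omega)
  have h7 : 1 / ψ (A + k) - 1 / ψ A ≤ 1 / δ := by
    have h8 : 1 / ψ (A + k) ≤ 1 / δ := one_div_le_one_div_of_le hδ h3.1
    have h9 : 0 < 1 / ψ A := by positivity
    linarith
  have h8 : ‖b (A + k) * a (A + k + 1)‖ ≤ Real.pi / (2 * δ) := by
    rw [norm_mul]
    calc ‖b (A + k)‖ * ‖a (A + k + 1)‖ ≤ Real.pi / (2 * δ) * 1 := by gcongr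
      _ = _ := mul_one _
  refine (norm_add₃_le).trans ?_
  have h9 : Real.pi ^ 2 / 4 * (1 / ψ (A + k) - 1 / ψ A) ≤ Real.pi ^ 2 / 4 * (1 / δ) := by gcongr
  have h10 : 2 * Real.pi + Real.pi ^ 2 / 4 ≤ 9 := by nlinarith
  calc _ ≤ (Real.pi / (2 * δ) + Real.pi ^ 2 / 4 * (1 / δ)) + Real.pi / (2 * δ) + Real.pi / δ := by
        linarith
    _ = (2 * Real.pi + Real.pi ^ 2 / 4) / δ := by
        field_simp
        ring
    _ ≤ 9 / δ := by gcongr

end Pool.Agent.H52.Unc
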