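import Mathlib
import Pool.Agent.H52.Unc.KLg
import Pool.Agent.H52.Unc.DiffLog

/-!
# KLlog: Kusmin-Landau for the phases `t Δ_{q1} ... Δ_{qj} log n`

`kl_gen` with `a n = exp(i t dl qs n)`, `a (n+1) = exp(i t dl (1::qs) n) a n` (`dl` unfolded),
`ψ n = |t| (-1)^j dl (1::qs) n`, `s = ±1` the sign of `t (-1)^j`, `δ = |t| j! ∏ q/(4M)^(j+1)`.
By `dl_bounds` (`n + 1 + ∑ q ≤ B + ∑ q ≤ 4 M` for `n < B`): `δ ≤ ψ n ≤ |t| j! ∏ q/M^(j+1) ≤ 3 < π`.
`dl_anti` gives the monotonicity.  About 70 lines.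
-/

set_option autoImplicit false

open Complex

namespace Pool.Agent.H52.Unc

theorem kl_log (qs : List ℕ) (hq : ∀ q ∈ qs, 1 ≤ q) {t : ℝ} (ht : t ≠ 0) {A B M : ℕ} (hM : 1 ≤ M)
    (hA : M ≤ A) (hAB : A ≤ B) (hB : B + qs.sum ≤ 4 * M)
    (hsmall : |t| * (qs.length.factorial * (qs.prod : ℕ) : ℝ) ≤ 3 * (M : ℝ) ^ (qs.length + 1)) :
    ‖∑ n ∈ Finset.Icc A B, cexp ((t * dl qs n : ℝ) * I)‖ ≤
      9 * (4 * (M : ℝ)) ^ (qs.length + 1) / (|t| * (qs.length.factorial * (qs.prod : ℕ) : ℝ)) := by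
  set j := qs.length with hj
  set P : ℝ := (j.factorial * (qs.prod : ℕ) : ℝ) with hP
  have hPpos : 0 < P := by
    rw [hP]
    have h1 : 0 < qs.prod := List.prod_pos fun q hq' => hq q hq'
    positivity
  have htpos : 0 < |t| := abs_pos.2 ht
  have hM' : (1 : ℝ) ≤ M := by exact_mod_cast hM
  have hM0 : (0 : ℝ) < M := by linarith
  set δ : ℝ := |t| * P / (4 * (M : ℝ)) ^ (j + 1) with hδ
  have hδpos : 0 < δ := by positivity
  have hup : |t| * P / (M : ℝ) ^ (j + 1) ≤ 3 := by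
    rw [div_le_iff₀ (by positivity)]
    exact hsmall
  have hpi : (3 : ℝ) ≤ Real.pi := Real.pi_gt_three.le
  have hδπ : δ ≤ Real.pi := by
    refine le_trans ?_ (hup.trans hpi)
    rw [hδ]
    gcongr
    linarith
  set ψ : ℕ → ℝ := fun n => |t| * ((-1) ^ j * dl (1 :: qs) n) with hψ
  obtain ⟨σ, hσ, hσt⟩ : ∃ σ : ℝ, (σ = 1 ∨ σ = -1) ∧ σ * |t| = t := by
    rcases lt_or_gt_of_ne ht with h | h
    · exact ⟨-1, Or.inr rfl, by rw [abs_of_neg h]; ring⟩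
    · exact ⟨1, Or.inl rfl, by rw [abs_of_pos h]; ring⟩
  have hsg : ((-1 : ℝ) ^ j = 1 ∨ (-1 : ℝ) ^ j = -1) := neg_one_pow_eq_or ℝ j
  have hs : σ * (-1) ^ j = 1 ∨ σ * (-1) ^ j = -1 := by
    rcases hσ with h | h <;> rcases hsg with h' | h' <;> rw [h, h'] <;> norm_num
  have hsq : ((-1 : ℝ) ^ j) * (-1) ^ j = 1 := by
    rcases hsg with h' | h' <;> rw [h'] <;> norm_num
  have hbd : ∀ n, A ≤ n → n < B → P / (4 * (M : ℝ)) ^ (j + 1) ≤ (-1) ^ j * dl (1 :: qs) n ∧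
      (-1) ^ j * dl (1 :: qs) n ≤ P / (M : ℝ) ^ (j + 1) := by
    intro n hn1 hn2
    have h1 : (M : ℝ) ≤ n := by exact_mod_cast hA.trans hn1
    have h2 : (n : ℝ) + 1 + (qs.sum : ℕ) ≤ 4 * M := by
      have : n + 1 + qs.sum ≤ 4 * M := by omega
      exact_mod_cast this
    exact dl_bounds qs hM0 h1 h2
  have hmain := kl_gen (a := fun n : ℕ => cexp ((t * dl qs n : ℝ) * I)) (ψ := ψ)
    (s := σ * (-1) ^ j) (δ := δ) (A := A) (B := B) hs hδpos hδπ hAB ?_ ?_ ?_ ?_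
  · refine hmain.trans (le_of_eq ?_)
    rw [hδ, div_div_eq_mul_div]
  · intro n _ _
    rw [Complex.norm_exp_ofReal_mul_I]
  · intro n _ _
    rw [← Complex.exp_add, ← add_mul, ← Complex.ofReal_add]
    congr 3
    have h1 : dl (1 :: qs) n = dl qs ((n : ℝ) + (1 : ℕ)) - dl qs n := rfl
    rw [hψ]
    simp only []
    have h2 : σ * (-1) ^ j * (|t| * ((-1) ^ j * dl (1 :: qs) n)) = t * dl (1 :: qs) n := by
      calc σ * (-1) ^ j * (|t| * ((-1) ^ j * dl (1 :: qs) n))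
          = (σ * |t|) * (((-1) ^ j) * (-1) ^ j) * dl (1 :: qs) n := by ring
        _ = t * dl (1 :: qs) n := by rw [hσt, hsq, mul_one]
    rw [h2, h1]
    push_cast
    ring
  · intro n hn1 hn2
    obtain ⟨h1, h2⟩ := hbd n hn1 hn2
    constructor
    · rw [hδ, mul_div_assoc]
      exact mul_le_mul_of_nonneg_left h1 htpos.le
    · refine le_trans ?_ (hup.trans hpi)
      rw [mul_div_assoc]
      exact mul_le_mul_of_nonneg_left h2 htpos.le
  · intro n hn1 _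
    have h1 : (0 : ℝ) < n := by
      have : 0 < n := by omega
      exact_mod_cast this
    have h2 := dl_anti qs h1
    rw [hψ]
    simp only []
    push_cast
    exact mul_le_mul_of_nonneg_left h2 htpos.le

end Pool.Agent.H52.Unc
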