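import Mathlib

/-!
# VdC: the Weyl - van der Corput inequality

`L = B + 1 - A` terms, `ã` the extension by `0` outside `[A, B]`.  `Q ∑ ã = ∑_m ∑_{q<Q} ã(m+q)` with at
most `L + Q - 1 ≤ 2L` nonzero inner sums (`m` from `A - Q + 1` to `B`; shift the index by `Q - 1` to
stay in `ℕ`, or work in `ℤ`).  Cauchy-Schwarz:
`Q² ‖∑ a‖² ≤ 2L ∑_m ‖∑_{q<Q} ã(m+q)‖² = 2L ∑_{q1,q2<Q} ∑_m ã(m+q1) conj ã(m+q2)
≤ 2L (Q L + 2 Q ∑_{1≤q<Q} ‖∑_{n ∈ [A, B-q]} a(n+q) conj a(n)‖)`.  About 110 lines.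
-/

set_option autoImplicit false

open Complex ComplexConjugate

namespace Pool.Agent.H52.Unc

private theorem vdc_shift {A B Q q : ℕ} (hq : q < Q) (G : ℕ → ℂ)
    (hG : ∀ k, ¬ (A + Q ≤ k ∧ k ≤ B + Q) → G k = 0) :
    ∑ m ∈ Finset.Icc (A + 1) (B + Q), G (m + q) = ∑ n ∈ Finset.Icc A B, G (n + Q) := by
  have h1 : ∑ m ∈ Finset.Icc (A + 1) (B + Q), G (m + q) =
      ∑ k ∈ Finset.Icc (A + 1 + q) (B + Q + q), G k := by
    rw [← Finset.map_add_right_Icc, Finset.sum_map]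
    rfl
  have h2 : ∑ n ∈ Finset.Icc A B, G (n + Q) = ∑ k ∈ Finset.Icc (A + Q) (B + Q), G k := by
    rw [← Finset.map_add_right_Icc, Finset.sum_map]
    rfl
  rw [h1, h2]
  symm
  refine Finset.sum_subset ?_ ?_
  · intro k hk
    rw [Finset.mem_Icc] at hk ⊢
    omega
  · intro k _ hk
    rw [Finset.mem_Icc] at hk
    exact hG k hk

private theorem vdc_dist {Q q1 : ℕ} (hq : q1 < Q) (s : ℕ → ℝ) (hs : ∀ n, 0 ≤ s n) :
    ∑ q2 ∈ Finset.range Q, s ((q1 - q2) + (q2 - q1)) ≤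
      s 0 + 2 * ∑ q ∈ Finset.Ico 1 Q, s q := by
  have h0 : ∑ q ∈ Finset.Ico 1 Q, s q = ∑ i ∈ Finset.range (Q - 1), s (1 + i) := by
    rw [Finset.sum_Ico_eq_sum_range]
  have h1 : ∑ q2 ∈ Finset.range q1, s ((q1 - q2) + (q2 - q1)) =
      ∑ i ∈ Finset.range q1, s (1 + i) := by
    rw [← Finset.sum_range_reflect (fun i => s (1 + i))]
    refine Finset.sum_congr rfl (fun i hi => ?_)
    rw [Finset.mem_range] at hi
    congr 1
    omega
  have h2 : ∑ q2 ∈ Finset.Ico (q1 + 1) Q, s ((q1 - q2) + (q2 - q1)) =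
      ∑ i ∈ Finset.range (Q - (q1 + 1)), s (1 + i) := by
    rw [Finset.sum_Ico_eq_sum_range]
    refine Finset.sum_congr rfl (fun i hi => ?_)
    congr 1
    omega
  have h3 : ∑ i ∈ Finset.range q1, s (1 + i) ≤ ∑ i ∈ Finset.range (Q - 1), s (1 + i) := by
    refine Finset.sum_le_sum_of_subset_of_nonneg ?_ (fun i _ _ => hs _)
    intro i hi
    rw [Finset.mem_range] at hi ⊢
    omega
  have h4 : ∑ i ∈ Finset.range (Q - (q1 + 1)), s (1 + i) ≤
      ∑ i ∈ Finset.range (Q - 1), s (1 + i) := by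
    refine Finset.sum_le_sum_of_subset_of_nonneg ?_ (fun i _ _ => hs _)
    intro i hi
    rw [Finset.mem_range] at hi ⊢
    omega
  have h5 : ∑ q2 ∈ Finset.range Q, s ((q1 - q2) + (q2 - q1)) =
      ∑ q2 ∈ Finset.range q1, s ((q1 - q2) + (q2 - q1)) +
        (s 0 + ∑ q2 ∈ Finset.Ico (q1 + 1) Q, s ((q1 - q2) + (q2 - q1))) := by
    rw [← Finset.sum_range_add_sum_Ico _ hq.le, Finset.sum_eq_sum_Ico_succ_bot hq]
    congr 3
    omega
  rw [h5, h1, h2, h0]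
  linarith

theorem vdc (a : ℕ → ℂ) {A B Q : ℕ} (hAB : A ≤ B) (ha : ∀ n, A ≤ n → n ≤ B → ‖a n‖ ≤ 1)
    (hQ : 1 ≤ Q) (hQL : Q ≤ B + 1 - A) :
    ‖∑ n ∈ Finset.Icc A B, a n‖ ^ 2 ≤ 2 * ((B : ℝ) + 1 - A) ^ 2 / Q + 4 * ((B : ℝ) + 1 - A) / Q *
      ∑ q ∈ Finset.Ico 1 Q, ‖∑ n ∈ Finset.Icc A (B - q), a (n + q) * conj (a n)‖ := by
  classical
  set c : ℕ → ℂ := fun k => if A + Q ≤ k ∧ k ≤ B + Q then a (k - Q) else 0 with hc
  have hc0 : ∀ k, ¬ (A + Q ≤ k ∧ k ≤ B + Q) → c k = 0 := by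
    intro k hk
    rw [hc]
    exact if_neg hk
  have hcn : ∀ n, A ≤ n → n ≤ B → c (n + Q) = a n := by
    intro n h1 h2
    rw [hc]
    simp only
    rw [if_pos (by omega), Nat.add_sub_cancel]
  set M : Finset ℕ := Finset.Icc (A + 1) (B + Q) with hM
  set T : ℕ → ℂ := fun m => ∑ q ∈ Finset.range Q, c (m + q) with hT
  set L : ℝ := (B : ℝ) + 1 - A with hL
  have hABR : (A : ℝ) ≤ B := by exact_mod_cast hAB
  have hL1 : 1 ≤ L := by rw [hL]; linarith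
  have hQR : (1 : ℝ) ≤ Q := by exact_mod_cast hQ
  have hQL' : (Q : ℝ) ≤ L := by
    have h1 : Q + A ≤ B + 1 := by omega
    have h2 : (Q : ℝ) + A ≤ B + 1 := by exact_mod_cast h1
    rw [hL]
    linarith
  have hsum : ∑ m ∈ M, T m = Q * ∑ n ∈ Finset.Icc A B, a n := by
    rw [hT]
    simp only
    rw [Finset.sum_comm]
    have h1 : ∀ q ∈ Finset.range Q, ∑ m ∈ M, c (m + q) = ∑ n ∈ Finset.Icc A B, a n := by
      intro q hq
      rw [Finset.mem_range] at hq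
      rw [hM, vdc_shift hq c hc0]
      refine Finset.sum_congr rfl (fun n hn => ?_)
      rw [Finset.mem_Icc] at hn
      exact hcn n hn.1 hn.2
    rw [Finset.sum_congr rfl h1, Finset.sum_const, Finset.card_range, nsmul_eq_mul]
  set s : ℕ → ℝ := fun q => ‖∑ n ∈ Finset.Icc A (B - q), a (n + q) * conj (a n)‖ with hs
  have hs0 : ∀ n, 0 ≤ s n := fun n => norm_nonneg _
  have hD : ∀ q1 ∈ Finset.range Q, ∀ q2 ∈ Finset.range Q, q2 ≤ q1 →
      ∑ m ∈ M, c (m + q1) * conj (c (m + q2)) =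
        ∑ n ∈ Finset.Icc A (B - (q1 - q2)), a (n + (q1 - q2)) * conj (a n) := by
    intro q1 hq1 q2 hq2 h12
    rw [Finset.mem_range] at hq1 hq2
    have h1 := vdc_shift (A := A) (B := B) hq2 (fun k => c (k + (q1 - q2)) * conj (c k))
      (fun k hk => by rw [hc0 k hk, map_zero, mul_zero])
    have h2 : ∑ m ∈ M, c (m + q1) * conj (c (m + q2)) =
        ∑ m ∈ Finset.Icc (A + 1) (B + Q), c (m + q2 + (q1 - q2)) * conj (c (m + q2)) := by
      rw [hM]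
      refine Finset.sum_congr rfl (fun m _ => ?_)
      rw [show m + q2 + (q1 - q2) = m + q1 by omega]
    rw [h2, h1]
    symm
    refine (Finset.sum_congr rfl ?_).trans (Finset.sum_subset (s₂ := Finset.Icc A B)
      (f := fun n => c (n + Q + (q1 - q2)) * conj (c (n + Q))) ?_ ?_)
    · intro n hn
      rw [Finset.mem_Icc] at hn
      rw [hcn n hn.1 (by omega), show n + Q + (q1 - q2) = (n + (q1 - q2)) + Q by omega,
        hcn _ (by omega) (by omega)]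
    · intro n hn
      rw [Finset.mem_Icc] at hn ⊢
      omega
    · intro n hn hn'
      rw [Finset.mem_Icc] at hn hn'
      rw [hc0 (n + Q + (q1 - q2)) (by omega), zero_mul]
  have hDn : ∀ q1 ∈ Finset.range Q, ∀ q2 ∈ Finset.range Q,
      ‖∑ m ∈ M, c (m + q1) * conj (c (m + q2))‖ = s ((q1 - q2) + (q2 - q1)) := by
    intro q1 hq1 q2 hq2
    rcases le_total q2 q1 with h | h
    · rw [hD q1 hq1 q2 hq2 h, hs, show (q1 - q2) + (q2 - q1) = q1 - q2 by omega]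
    · have h3 : ∑ m ∈ M, c (m + q1) * conj (c (m + q2)) =
          conj (∑ m ∈ M, c (m + q2) * conj (c (m + q1))) := by
        rw [map_sum]
        refine Finset.sum_congr rfl (fun m _ => ?_)
        rw [map_mul, Complex.conj_conj, mul_comm]
      rw [h3, Complex.norm_conj, hD q2 hq2 q1 hq1 h, hs,
        show (q1 - q2) + (q2 - q1) = q2 - q1 by omega]
  have hS0 : s 0 ≤ L := by
    rw [hs]
    simp only [Nat.sub_zero, Nat.add_zero]
    refine (norm_sum_le _ _).trans ?_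
    have h1 : ∀ n ∈ Finset.Icc A B, ‖a n * conj (a n)‖ ≤ 1 := by
      intro n hn
      rw [Finset.mem_Icc] at hn
      rw [norm_mul, Complex.norm_conj]
      have h2 := ha n hn.1 hn.2
      nlinarith [norm_nonneg (a n)]
    refine (Finset.sum_le_sum h1).trans ?_
    rw [Finset.sum_const, Nat.card_Icc, nsmul_eq_mul, mul_one, Nat.cast_sub (by omega), hL]
    push_cast
    exact le_refl _
  set P : ℝ := ∑ q ∈ Finset.Ico 1 Q, s q with hP
  have hP0 : 0 ≤ P := Finset.sum_nonneg (fun q _ => hs0 q)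
  have hTsq : ∑ m ∈ M, ‖T m‖ ^ 2 ≤ Q * (L + 2 * P) := by
    have h1 : ((∑ m ∈ M, ‖T m‖ ^ 2 : ℝ) : ℂ) =
        ∑ q1 ∈ Finset.range Q, ∑ q2 ∈ Finset.range Q,
          ∑ m ∈ M, c (m + q1) * conj (c (m + q2)) := by
      push_cast
      have h2 : ∀ m ∈ M, ((‖T m‖ : ℂ)) ^ 2 = ∑ q1 ∈ Finset.range Q, ∑ q2 ∈ Finset.range Q,
          c (m + q1) * conj (c (m + q2)) := by
        intro m _
        rw [← Complex.mul_conj', hT]
        simp only
        rw [map_sum, Finset.sum_mul_sum]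
      rw [Finset.sum_congr rfl h2, Finset.sum_comm]
      refine Finset.sum_congr rfl (fun q1 _ => ?_)
      rw [Finset.sum_comm]
    have h3 : ∑ m ∈ M, ‖T m‖ ^ 2 = ‖((∑ m ∈ M, ‖T m‖ ^ 2 : ℝ) : ℂ)‖ := by
      rw [Complex.norm_real, Real.norm_of_nonneg (Finset.sum_nonneg (fun m _ => by positivity))]
    rw [h3, h1]
    refine (norm_sum_le _ _).trans ?_
    have h4 : ∀ q1 ∈ Finset.range Q, ‖∑ q2 ∈ Finset.range Q,
        ∑ m ∈ M, c (m + q1) * conj (c (m + q2))‖ ≤ L + 2 * P := by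
      intro q1 hq1
      refine (norm_sum_le _ _).trans ?_
      rw [Finset.sum_congr rfl (fun q2 hq2 => hDn q1 hq1 q2 hq2)]
      refine (vdc_dist (Finset.mem_range.1 hq1) s hs0).trans ?_
      linarith
    refine (Finset.sum_le_sum h4).trans ?_
    rw [Finset.sum_const, Finset.card_range, nsmul_eq_mul]
  have hcard : (M.card : ℝ) ≤ 2 * L := by
    rw [hM, Nat.card_Icc]
    have h1 : B + Q + 1 - (A + 1) + A = B + Q := by omega
    have h2 : ((B + Q + 1 - (A + 1) : ℕ) : ℝ) + A = B + Q := by exact_mod_cast h1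
    have h3 : ((B + Q + 1 - (A + 1) : ℕ) : ℝ) = B + Q - A := by linarith
    rw [h3]
    rw [hL] at hQL' ⊢
    linarith
  have hCS : ‖∑ m ∈ M, T m‖ ^ 2 ≤ M.card * ∑ m ∈ M, ‖T m‖ ^ 2 := by
    calc ‖∑ m ∈ M, T m‖ ^ 2 ≤ (∑ m ∈ M, ‖T m‖) ^ 2 :=
          pow_le_pow_left₀ (norm_nonneg _) (norm_sum_le _ _) 2
      _ ≤ M.card * ∑ m ∈ M, ‖T m‖ ^ 2 := sq_sum_le_card_mul_sum_sq
  have hfin : (Q : ℝ) ^ 2 * ‖∑ n ∈ Finset.Icc A B, a n‖ ^ 2 ≤ 2 * L * (Q * (L + 2 * P)) := by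
    calc (Q : ℝ) ^ 2 * ‖∑ n ∈ Finset.Icc A B, a n‖ ^ 2 = ‖∑ m ∈ M, T m‖ ^ 2 := by
          rw [hsum, norm_mul, mul_pow]
          congr 2
          simp
      _ ≤ M.card * ∑ m ∈ M, ‖T m‖ ^ 2 := hCS
      _ ≤ 2 * L * (Q * (L + 2 * P)) :=
          mul_le_mul hcard hTsq (Finset.sum_nonneg (fun m _ => by positivity)) (by positivity)
  have hQ0 : (0 : ℝ) < Q := by linarith
  have hgoal : 2 * L ^ 2 / Q + 4 * L / Q * P = (2 * L * (Q * (L + 2 * P))) / (Q : ℝ) ^ 2 := by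
    field_simp
    ring
  rw [hgoal, le_div_iff₀ (by positivity), mul_comm]
  exact hfin

end Pool.Agent.H52.Unc
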