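import Mathlib
import Pool.Agent.H52.Unc.VdC
import Pool.Agent.H52.Unc.KLlog

/-!
# ZsumStep: iterated Weyl differencing for `n^(it)`

Induction on `r` (all lists).  Write `P = ∏ qs`, `X = A^J/(|t| P)`.
`r = 0` (`qs.length = J`): `kl_log` with `M = A` (`B + ∑ qs ≤ 2A + J Q ≤ 3A`): the sum is
`≤ 9 (4A)^(J+1)/(|t| J! P) ≤ C A X`, and trivially `≤ B + 1 - A ≤ 2 A`; so `≤ C A min(1, X) ≤ C A X^(1/2)`.
Step `r - 1 → r`, `e = 1/2^r ≤ 1/2`: `L = B + 1 - A ≤ 2A`.  If `L < Q`: `‖S‖ ≤ L ≤ Q ≤ A/Q ≤ A Q^(-e)`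
(`Q² ≤ A`).  Otherwise `vdc`; `a (n+q) conj (a n) = exp(i t dl (q::qs) n)`, and by induction (for the
list `q :: qs`, upper end `B - q`, `|t| J! q P Q^(r-1) ≤ |t| J! P Q^r`)
the inner sum is `≤ C A (Q^(-2e) + (X/(q Q^(r-1)))^e)`.  `∑_{q<Q} q^(-e) ≤ 2 Q^(1-e)`
(`q^(-e) ≤ Q^(1/2-e) q^(-1/2)`, `∑_{q<Q} q^(-1/2) ≤ 2 √Q`).  So
`‖S‖² ≤ 8A²/Q + 8A (C A Q^(-2e) + 2 C A (X/Q^r)^e)`, and the square root (`√(x+y+z) ≤ √x+√y+√z`)
gives the claim, because `Q^(-1/2) ≤ Q^(-e)`.  About 200 lines.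
-/

set_option autoImplicit false

open Complex

namespace Pool.Agent.H52.Unc

private lemma zs_sqrt_sum (m : ℕ) : ∑ q ∈ Finset.Ico 1 (m + 1), (1 : ℝ) / √(q : ℝ) ≤ 2 * √(m : ℝ) := by
  induction m with
  | zero => simp
  | succ m ih =>
    rw [Finset.sum_Ico_succ_top (by omega)]
    have h1 : (0:ℝ) < √((m + 1 : ℕ) : ℝ) := Real.sqrt_pos.2 (by positivity)
    have h2 : √(m : ℝ) ≤ √((m + 1 : ℕ) : ℝ) := Real.sqrt_le_sqrt (by push_cast; linarith)
    have h3 : √((m + 1 : ℕ) : ℝ) ^ 2 = (m : ℝ) + 1 := by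
      rw [Real.sq_sqrt (by positivity)]; push_cast; ring
    have h4 : √(m : ℝ) ^ 2 = (m : ℝ) := Real.sq_sqrt (by positivity)
    have h5 : (1 : ℝ) / √((m + 1 : ℕ) : ℝ) ≤ 2 * √((m + 1 : ℕ) : ℝ) - 2 * √(m : ℝ) := by
      rw [div_le_iff₀ h1]
      have h6 : 0 ≤ √(m : ℝ) := Real.sqrt_nonneg _
      nlinarith
    linarith

private lemma zs_trivial (qs : List ℕ) (t : ℝ) {A B : ℕ} (hAB : A ≤ B) :
    ‖∑ n ∈ Finset.Icc A B, cexp ((t * dl qs n : ℝ) * I)‖ ≤ (B : ℝ) + 1 - A := by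
  refine (norm_sum_le _ _).trans ?_
  have : ∀ n ∈ Finset.Icc A B, ‖cexp ((t * dl qs n : ℝ) * I)‖ = 1 := by
    intro n _
    rw [Complex.norm_exp_ofReal_mul_I]
  rw [Finset.sum_congr rfl this]
  simp only [Finset.sum_const, Nat.card_Icc, nsmul_eq_mul, mul_one]
  rw [Nat.cast_sub (by omega)]
  push_cast
  linarith

private lemma zs_sum_le (qs : List ℕ) {Q : ℕ} (h : ∀ q ∈ qs, 1 ≤ q ∧ q < Q) :
    qs.sum ≤ qs.length * Q := by
  induction qs with
  | nil => simp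
  | cons a l ih =>
    have h1 := ih (fun q hq => h q (List.mem_cons_of_mem _ hq))
    have h2 := (h a List.mem_cons_self).2
    simp only [List.sum_cons, List.length_cons]
    nlinarith

private lemma zs_prod_pos (qs : List ℕ) {Q : ℕ} (h : ∀ q ∈ qs, 1 ≤ q ∧ q < Q) :
    1 ≤ qs.prod := by
  induction qs with
  | nil => simp
  | cons a l ih =>
    have h1 := ih (fun q hq => h q (List.mem_cons_of_mem _ hq))
    have h2 := (h a List.mem_cons_self).1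
    simp only [List.prod_cons]
    exact Nat.mul_pos h2 h1

private lemma zs_base (J : ℕ) :
    ∀ (qs : List ℕ) (t : ℝ) (A B Q : ℕ), qs.length = J → 1 ≤ A → A ≤ B → B ≤ 2 * A → 1 ≤ Q →
      J * Q ≤ A → (∀ q ∈ qs, 1 ≤ q ∧ q < Q) → t ≠ 0 →
      |t| * (J.factorial * ((qs.prod : ℕ) : ℝ)) ≤ 3 * (A : ℝ) ^ (J + 1) →
      ‖∑ n ∈ Finset.Icc A B, cexp ((t * dl qs n : ℝ) * I)‖ ≤
        9 * 4 ^ (J + 1) * A * ((A : ℝ) ^ J / (|t| * ((qs.prod : ℕ) : ℝ))) ^ (1 / 2 : ℝ) := by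
  intro qs t A B Q hlen hA hAB hB hQ hJQ hqs ht hsm
  have hA1 : (1:ℝ) ≤ A := by exact_mod_cast hA
  have hA0 : (0:ℝ) < A := by linarith
  have ht0 : 0 < |t| := abs_pos.2 ht
  have hP := zs_prod_pos qs hqs
  have hPr : (1:ℝ) ≤ (qs.prod : ℕ) := by exact_mod_cast hP
  have hP0 : (0:ℝ) < (qs.prod : ℕ) := by linarith
  have hs := zs_sum_le qs hqs
  rw [hlen] at hs
  set X : ℝ := (A : ℝ) ^ J / (|t| * ((qs.prod : ℕ) : ℝ)) with hX
  have hX0 : 0 < X := by rw [hX]; positivity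
  have hk := kl_log qs (fun q hq => (hqs q hq).1) ht (A := A) (B := B) (M := A) hA le_rfl hAB
    (by omega) (by rw [hlen]; exact hsm)
  rw [hlen] at hk
  have hJf : (1:ℝ) ≤ (J.factorial : ℝ) := by exact_mod_cast Nat.one_le_iff_ne_zero.2 (Nat.factorial_ne_zero J)
  have hk2 : ‖∑ n ∈ Finset.Icc A B, cexp ((t * dl qs n : ℝ) * I)‖ ≤ 9 * 4 ^ (J + 1) * A * X := by
    refine hk.trans ?_
    have e1 : 9 * (4 * (A : ℝ)) ^ (J + 1) / (|t| * (J.factorial * (qs.prod : ℕ) : ℝ)) =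
        9 * 4 ^ (J + 1) * A * X / (J.factorial : ℝ) := by
      rw [hX, mul_pow, pow_succ (A : ℝ) J]
      field_simp
    rw [e1]
    exact div_le_self (by positivity) hJf
  have htr := zs_trivial qs t hAB
  have hB2 : (B : ℝ) + 1 - A ≤ 2 * A := by
    have : (B : ℝ) ≤ 2 * A := by exact_mod_cast hB
    linarith
  have h4 : (1:ℝ) ≤ 4 ^ (J + 1) := one_le_pow₀ (by norm_num)
  rcases le_total X 1 with h | h
  · refine hk2.trans ?_
    refine mul_le_mul_of_nonneg_left ?_ (by positivity)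
    calc X = X ^ (1 : ℝ) := (Real.rpow_one X).symm
      _ ≤ X ^ (1 / 2 : ℝ) := Real.rpow_le_rpow_of_exponent_ge hX0 h (by norm_num)
  · have h5 : 1 ≤ X ^ (1 / 2 : ℝ) := Real.one_le_rpow h (by norm_num)
    calc _ ≤ 2 * (A:ℝ) := htr.trans hB2
      _ ≤ 9 * 4 ^ (J + 1) * A * 1 := by nlinarith
      _ ≤ _ := mul_le_mul_of_nonneg_left h5 (by positivity)

private lemma zs_alg {C A u v : ℝ} (hC : 0 < C) (hu : 0 ≤ u) (hv : 0 ≤ v) :
    8 * A ^ 2 * u ^ 2 + 8 * C * A ^ 2 * (u ^ 2 + 2 * v ^ 2) ≤ (4 * (1 + C) * A * (u + v)) ^ 2 := by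
  have hA2 : 0 ≤ A ^ 2 := by positivity
  have huv : 0 ≤ u * v := mul_nonneg hu hv
  have c1 : 0 ≤ C * u ^ 2 := by positivity
  have c2 : 0 ≤ C * v ^ 2 := by positivity
  have c3 : 0 ≤ C * (u * v) := by positivity
  have c4 : 0 ≤ u ^ 2 := by positivity
  have c5 : 0 ≤ v ^ 2 := by positivity
  have k0 : 8 * u ^ 2 + 8 * C * (u ^ 2 + 2 * v ^ 2) ≤ 16 * (1 + C) * (u + v) ^ 2 := by
    have : 16 * (1 + C) * (u + v) ^ 2 = 16 * u ^ 2 + 32 * (u * v) + 16 * v ^ 2 + 16 * (C * u ^ 2) +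
        32 * (C * (u * v)) + 16 * (C * v ^ 2) := by ring
    rw [this]
    have : 8 * u ^ 2 + 8 * C * (u ^ 2 + 2 * v ^ 2) = 8 * u ^ 2 + 8 * (C * u ^ 2) + 16 * (C * v ^ 2) := by
      ring
    rw [this]
    linarith
  have k2 : 16 * (1 + C) ≤ (4 * (1 + C)) ^ 2 := by nlinarith
  calc _ = A ^ 2 * (8 * u ^ 2 + 8 * C * (u ^ 2 + 2 * v ^ 2)) := by ring
    _ ≤ A ^ 2 * (16 * (1 + C) * (u + v) ^ 2) := mul_le_mul_of_nonneg_left k0 hA2
    _ ≤ A ^ 2 * ((4 * (1 + C)) ^ 2 * (u + v) ^ 2) :=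
        mul_le_mul_of_nonneg_left (mul_le_mul_of_nonneg_right k2 (by positivity)) hA2
    _ = _ := by ring

theorem zsum_step (J r : ℕ) (hJ : 1 ≤ J) (hr : r ≤ J) : ∃ C : ℝ, 0 < C ∧
    ∀ (qs : List ℕ) (t : ℝ) (A B Q : ℕ), qs.length + r = J → 1 ≤ A → A ≤ B → B ≤ 2 * A → 1 ≤ Q →
      Q ^ 2 ≤ A → J * Q ≤ A → (∀ q ∈ qs, 1 ≤ q ∧ q < Q) → t ≠ 0 →
      |t| * (J.factorial * ((qs.prod : ℕ) * (Q : ℝ) ^ r)) ≤ 3 * (A : ℝ) ^ (J + 1) →
      ‖∑ n ∈ Finset.Icc A B, cexp ((t * dl qs n : ℝ) * I)‖ ≤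
        C * A * ((Q : ℝ) ^ (-(1 / 2 ^ r) : ℝ) +
          ((A : ℝ) ^ J / (|t| * ((qs.prod : ℕ) * (Q : ℝ) ^ r))) ^ (1 / 2 ^ (r + 1) : ℝ)) := by
  induction r with
  | zero =>
    refine ⟨9 * 4 ^ (J + 1), by positivity, ?_⟩
    intro qs t A B Q hlen hA hAB hB hQ hQ2 hJQ hqs ht hsm
    simp only [pow_zero, mul_one, zero_add, pow_one] at hsm ⊢
    have hb := zs_base J qs t A B Q (by omega) hA hAB hB hQ hJQ hqs ht hsm
    refine hb.trans ?_
    refine mul_le_mul_of_nonneg_left ?_ (by positivity)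
    have : (0:ℝ) ≤ (Q : ℝ) ^ (-(1 / 1) : ℝ) := by positivity
    linarith
  | succ r ih =>
    obtain ⟨C, hC, hI⟩ := ih (by omega)
    refine ⟨4 * (1 + C), by positivity, ?_⟩
    intro qs t A B Q hlen hA hAB hB hQ hQ2 hJQ hqs ht hsm
    have hA1 : (1:ℝ) ≤ A := by exact_mod_cast hA
    have hA0 : (0:ℝ) < A := by linarith
    have hQ1 : (1:ℝ) ≤ Q := by exact_mod_cast hQ
    have hQ0 : (0:ℝ) < Q := by linarith
    have ht0 : 0 < |t| := abs_pos.2 ht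
    have hP := zs_prod_pos qs hqs
    have hPr : (1:ℝ) ≤ (qs.prod : ℕ) := by exact_mod_cast hP
    have hP0 : (0:ℝ) < (qs.prod : ℕ) := by linarith
    have hQ2r : (Q:ℝ) ^ 2 ≤ A := by exact_mod_cast hQ2
    set e : ℝ := 1 / 2 ^ (r + 1) with he
    have he0 : 0 < e := by rw [he]; positivity
    have heh : e ≤ 1 / 2 := by
      rw [he]
      apply one_div_le_one_div_of_le (by norm_num)
      calc (2:ℝ) = 2 ^ 1 := (pow_one 2).symm
        _ ≤ 2 ^ (r + 1) := pow_le_pow_right₀ (by norm_num) (by omega)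
    have he2 : (1 / 2 ^ r : ℝ) = 2 * e := by
      rw [he, pow_succ]; field_simp
    have he3 : (1 / 2 ^ (r + 1 + 1) : ℝ) = e / 2 := by
      rw [he, pow_succ (2:ℝ) (r + 1)]; field_simp
    rw [he3]
    set Y : ℝ := (A : ℝ) ^ J / (|t| * ((qs.prod : ℕ) * (Q : ℝ) ^ (r + 1))) with hY
    have hY0 : 0 < Y := by rw [hY]; positivity
    have hLr : ((B:ℝ) + 1 - A) ≤ 2 * A := by
      have : (B : ℝ) ≤ 2 * A := by exact_mod_cast hB
      linarith
    have hL0 : 0 ≤ ((B:ℝ) + 1 - A) := by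
      have : (A : ℝ) ≤ B := by exact_mod_cast hAB
      linarith
    have hQe : (Q:ℝ) ^ (-1 : ℝ) ≤ (Q:ℝ) ^ (-e) :=
      Real.rpow_le_rpow_of_exponent_le hQ1 (by linarith)
    have hYe : 0 ≤ Y ^ (e / 2) := by positivity
    have hQe0 : 0 < (Q:ℝ) ^ (-e) := by positivity
    rcases Nat.lt_or_ge (B + 1 - A) Q with hcase | hcase
    · have htr := zs_trivial qs t hAB
      have h1 : ((B:ℝ) + 1 - A) ≤ Q := by
        have h2 : B + 1 ≤ Q + A := by omega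
        have h3 : (B:ℝ) + 1 ≤ Q + A := by exact_mod_cast h2
        linarith
      have h2 : (Q:ℝ) ≤ A * (Q:ℝ) ^ (-1 : ℝ) := by
        rw [Real.rpow_neg_one, ← div_eq_mul_inv, le_div_iff₀ hQ0]
        nlinarith
      calc _ ≤ (Q:ℝ) := htr.trans h1
        _ ≤ A * (Q:ℝ) ^ (-1 : ℝ) := h2
        _ ≤ A * (Q:ℝ) ^ (-e) := mul_le_mul_of_nonneg_left hQe hA0.le
        _ ≤ A * ((Q:ℝ) ^ (-e) + Y ^ (e / 2)) := by
            refine mul_le_mul_of_nonneg_left ?_ hA0.le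
            linarith
        _ ≤ 4 * (1 + C) * A * ((Q:ℝ) ^ (-e) + Y ^ (e / 2)) := by
            refine mul_le_mul_of_nonneg_right ?_ (by positivity)
            nlinarith
    · have hv := vdc (fun n : ℕ => cexp ((t * dl qs n : ℝ) * I)) hAB
        (fun n _ _ => by rw [Complex.norm_exp_ofReal_mul_I]) hQ hcase
      have hin : ∀ q ∈ Finset.Ico 1 Q,
          ‖∑ n ∈ Finset.Icc A (B - q), cexp ((t * dl qs ((n + q : ℕ) : ℝ) : ℝ) * I) *
            (starRingEnd ℂ) (cexp ((t * dl qs (n : ℝ) : ℝ) * I))‖ ≤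
            C * A * ((Q:ℝ) ^ (-(2 * e)) + Y ^ e * (√(Q:ℝ) * (1 / √(q:ℝ)))) := by
        intro q hq
        rw [Finset.mem_Ico] at hq
        have hq0 : (0:ℝ) < q := by exact_mod_cast hq.1
        have hqQ : (q:ℝ) ≤ Q := by exact_mod_cast hq.2.le
        have hsum : ∑ n ∈ Finset.Icc A (B - q), cexp ((t * dl qs ((n + q : ℕ) : ℝ) : ℝ) * I) *
            (starRingEnd ℂ) (cexp ((t * dl qs (n : ℝ) : ℝ) * I)) =
            ∑ n ∈ Finset.Icc A (B - q), cexp ((t * dl (q :: qs) n : ℝ) * I) := by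
          refine Finset.sum_congr rfl fun n _ => ?_
          rw [← Complex.exp_conj, ← Complex.exp_add]
          congr 1
          simp only [map_mul, Complex.conj_ofReal, Complex.conj_I, dl]
          push_cast
          ring
        rw [hsum]
        have hi := hI (q :: qs) t A (B - q) Q (by simp only [List.length_cons]; omega) hA (by omega)
          (by omega) hQ hQ2 hJQ
          (by
            intro q' hq'
            rcases List.mem_cons.1 hq' with h | h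
            · rw [h]; exact hq
            · exact hqs q' h) ht
          (by
            refine le_trans ?_ hsm
            refine mul_le_mul_of_nonneg_left ?_ ht0.le
            refine mul_le_mul_of_nonneg_left ?_ (by positivity)
            rw [List.prod_cons, pow_succ, Nat.cast_mul]
            calc (q:ℝ) * ((qs.prod : ℕ) : ℝ) * (Q:ℝ) ^ r = (((qs.prod : ℕ) : ℝ) * (Q:ℝ) ^ r) * q := by ring
              _ ≤ (((qs.prod : ℕ) : ℝ) * (Q:ℝ) ^ r) * Q := mul_le_mul_of_nonneg_left hqQ (by positivity)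
              _ = _ := by ring)
        refine hi.trans ?_
        refine mul_le_mul_of_nonneg_left ?_ (by positivity)
        rw [he2]
        have e1 : (A : ℝ) ^ J / (|t| * (((q :: qs).prod : ℕ) * (Q : ℝ) ^ r)) = Y * ((Q:ℝ) / q) := by
          rw [hY, List.prod_cons, pow_succ, Nat.cast_mul]
          field_simp
        rw [e1, Real.mul_rpow hY0.le (by positivity)]
        have e2 : ((Q:ℝ) / q) ^ e ≤ √(Q:ℝ) * (1 / √(q:ℝ)) := by
          have h1 : (1:ℝ) ≤ (Q:ℝ) / q := by rw [le_div_iff₀ hq0]; linarith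
          calc ((Q:ℝ) / q) ^ e ≤ ((Q:ℝ) / q) ^ (1 / 2 : ℝ) :=
                Real.rpow_le_rpow_of_exponent_le h1 heh
            _ = √((Q:ℝ) / q) := (Real.sqrt_eq_rpow _).symm
            _ = √(Q:ℝ) * (1 / √(q:ℝ)) := by rw [Real.sqrt_div' _ hq0.le]; ring
        have e3 : 0 ≤ Y ^ e := by positivity
        have := mul_le_mul_of_nonneg_left e2 e3
        linarith
      have hs : ∑ q ∈ Finset.Ico 1 Q,
          ‖∑ n ∈ Finset.Icc A (B - q), cexp ((t * dl qs ((n + q : ℕ) : ℝ) : ℝ) * I) *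
            (starRingEnd ℂ) (cexp ((t * dl qs (n : ℝ) : ℝ) * I))‖ ≤
            C * A * (Q * ((Q:ℝ) ^ (-(2 * e)) + 2 * Y ^ e)) := by
        refine (Finset.sum_le_sum hin).trans ?_
        rw [← Finset.mul_sum]
        refine mul_le_mul_of_nonneg_left ?_ (by positivity)
        rw [Finset.sum_add_distrib, ← Finset.mul_sum, ← Finset.mul_sum]
        simp only [Finset.sum_const, Nat.card_Ico, nsmul_eq_mul]
        have h1 : ((Q - 1 : ℕ) : ℝ) ≤ Q := by exact_mod_cast Nat.sub_le Q 1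
        have h2 : ∑ q ∈ Finset.Ico 1 Q, (1 : ℝ) / √(q : ℝ) ≤ 2 * √(Q : ℝ) := by
          have h3 := zs_sqrt_sum (Q - 1)
          rw [Nat.sub_add_cancel hQ] at h3
          refine h3.trans ?_
          have := Real.sqrt_le_sqrt h1
          linarith
        have h4 : √(Q:ℝ) * ∑ q ∈ Finset.Ico 1 Q, (1 : ℝ) / √(q : ℝ) ≤ 2 * Q := by
          calc _ ≤ √(Q:ℝ) * (2 * √(Q : ℝ)) :=
                mul_le_mul_of_nonneg_left h2 (Real.sqrt_nonneg _)
            _ = 2 * (√(Q:ℝ) * √(Q:ℝ)) := by ring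
            _ = 2 * Q := by rw [Real.mul_self_sqrt hQ0.le]
        have h5 : 0 ≤ (Q:ℝ) ^ (-(2 * e)) := by positivity
        have h6 : 0 ≤ Y ^ e := by positivity
        have h7 := mul_le_mul_of_nonneg_right h1 h5
        have h8 := mul_le_mul_of_nonneg_left h4 h6
        nlinarith
      have hQ2e : (Q:ℝ) ^ (-1 : ℝ) ≤ (Q:ℝ) ^ (-(2 * e)) :=
        Real.rpow_le_rpow_of_exponent_le hQ1 (by linarith)
      have hsq1 : (Q:ℝ) ^ (-(2 * e)) = ((Q:ℝ) ^ (-e)) ^ 2 := by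
        rw [← Real.rpow_natCast ((Q:ℝ) ^ (-e)) 2, ← Real.rpow_mul hQ0.le]
        congr 1
        push_cast
        ring
      have hsq2 : Y ^ e = (Y ^ (e / 2)) ^ 2 := by
        rw [← Real.rpow_natCast (Y ^ (e / 2)) 2, ← Real.rpow_mul hY0.le]
        congr 1
        push_cast
        ring
      have hfin : ‖∑ n ∈ Finset.Icc A B, cexp ((t * dl qs n : ℝ) * I)‖ ^ 2 ≤
          (4 * (1 + C) * A * ((Q:ℝ) ^ (-e) + Y ^ (e / 2))) ^ 2 := by
        refine hv.trans ?_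
        set L : ℝ := (B:ℝ) + 1 - A with hL
        have hQi : (Q:ℝ) ^ (-1 : ℝ) = 1 / Q := by rw [Real.rpow_neg_one, one_div]
        rw [hQi] at hQ2e
        have t1 : 2 * L ^ 2 / Q ≤ 8 * (A:ℝ) ^ 2 * (Q:ℝ) ^ (-(2 * e)) := by
          have h1 : L ^ 2 ≤ (2 * (A:ℝ)) ^ 2 := pow_le_pow_left₀ hL0 hLr 2
          calc 2 * L ^ 2 / Q = 2 * L ^ 2 * (1 / Q) := by ring
            _ ≤ 2 * (2 * (A:ℝ)) ^ 2 * (1 / Q) := by
                refine mul_le_mul_of_nonneg_right ?_ (by positivity)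
                linarith
            _ ≤ 2 * (2 * (A:ℝ)) ^ 2 * (Q:ℝ) ^ (-(2 * e)) :=
                mul_le_mul_of_nonneg_left hQ2e (by positivity)
            _ = _ := by ring
        have t2 : 4 * L / Q * ∑ q ∈ Finset.Ico 1 Q,
            ‖∑ n ∈ Finset.Icc A (B - q), cexp ((t * dl qs ((n + q : ℕ) : ℝ) : ℝ) * I) *
              (starRingEnd ℂ) (cexp ((t * dl qs (n : ℝ) : ℝ) * I))‖ ≤
            8 * C * (A:ℝ) ^ 2 * ((Q:ℝ) ^ (-(2 * e)) + 2 * Y ^ e) := by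
          calc _ ≤ 4 * L / Q * (C * A * (Q * ((Q:ℝ) ^ (-(2 * e)) + 2 * Y ^ e))) :=
                mul_le_mul_of_nonneg_left hs (by positivity)
            _ = 4 * L * (C * A * ((Q:ℝ) ^ (-(2 * e)) + 2 * Y ^ e)) := by field_simp
            _ ≤ 4 * (2 * A) * (C * A * ((Q:ℝ) ^ (-(2 * e)) + 2 * Y ^ e)) := by
                refine mul_le_mul_of_nonneg_right ?_ (by positivity)
                linarith
            _ = _ := by ring
        refine (add_le_add t1 t2).trans ?_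
        rw [hsq1, hsq2]
        exact zs_alg hC hQe0.le hYe
      exact (sq_le_sq₀ (norm_nonneg _) (by positivity)).1 hfin

end Pool.Agent.H52.Unc
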