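import Mathlib
import Pool.Agent.H6.Win.KL
import Pool.Agent.H52.Unc.ZsumStep

/-!
# ZsumK: `∑_{A ≤ n ≤ B} n^(-it) ≪ A^(1-δ) + A/|t|` for `1 ≤ |t| ≤ A^k`

`|t| ≤ A`: `kusmin_landau` (`H6/Win/KL.lean`): `24 B/|t| ≤ 48 A/|t|`.
`|t| > A`: `η = 1/(2k)`, `Q = ⌊A^η⌋₊ ≥ A^η/2`, `A` large in terms of `k` (small `A`: trivial bound,
enlarge `C`).  Choose `J ∈ [1, k]` with `A^(J-(J-1/2)η) ≤ |t| ≤ A^(J+1-(J+1/2)η)` (these intervals
tile, from `A^(1-η/2)` to `A^(k+1-(k+1/2)η) ≥ A^k`; e.g. the least `J` with the right inequality).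
`zsum_step J J` with `qs = []` (`dl [] n = log n`, `t` replaced by `-t`): the condition is
`|t| J! Q^J ≤ J! A^(J+1-η/2) ≤ 3 A^(J+1)`, and `A^J/(|t| Q^J) ≤ 2^J A^(-η/2)`, so the sum is
`≤ C A ((A^η/2)^(-1/2^J) + (2^J A^(-η/2))^(1/2^(J+1))) ≤ C' A^(1-δ)` with `δ = (η/2)/2^(k+1)`.
About 150 lines.
-/

set_option autoImplicit false

open Complex

namespace Pool.Agent.H52.Unc

private lemma sum_eq (t : ℝ) (A B : ℕ) (hA : 1 ≤ A) :
    ∑ n ∈ Finset.Icc A B, (n : ℂ) ^ (-(t * I)) =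
      ∑ n ∈ Finset.Icc A B, cexp ((-t * dl [] n : ℝ) * I) := by
  refine Finset.sum_congr rfl fun n hn => ?_
  have hn1 : 1 ≤ n := hA.trans (Finset.mem_Icc.mp hn).1
  have hn0 : (n : ℂ) ≠ 0 := by
    have : n ≠ 0 := by omega
    exact_mod_cast this
  rw [Complex.cpow_def_of_ne_zero hn0]
  congr 1
  have h1 : Complex.log (n : ℂ) = ((Real.log n : ℝ) : ℂ) := by
    rw [Complex.natCast_log]
  rw [h1]
  show _ = ((-t * Real.log n : ℝ) : ℂ) * I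
  push_cast
  ring

private lemma triv_bd (t : ℝ) (A B : ℕ) (hA : 1 ≤ A) (hAB : A ≤ B) (hB : B ≤ 2 * A) :
    ‖∑ n ∈ Finset.Icc A B, (n : ℂ) ^ (-(t * I))‖ ≤ 2 * A := by
  refine (norm_sum_le _ _).trans ?_
  have h1 : ∀ n ∈ Finset.Icc A B, ‖(n : ℂ) ^ (-(t * I))‖ ≤ 1 := by
    intro n hn
    have hn1 : 0 < n := lt_of_lt_of_le hA (Finset.mem_Icc.mp hn).1
    rw [norm_natCast_cpow_of_pos hn1]
    simp
  refine (Finset.sum_le_sum h1).trans ?_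
  rw [Finset.sum_const, Nat.card_Icc, nsmul_eq_mul, mul_one]
  have : B + 1 - A ≤ 2 * A := by omega
  exact_mod_cast this

/-- the case of one `J` -/
private lemma one_J (k J : ℕ) (hJ : 1 ≤ J) (hJk : J ≤ k) (η δ C : ℝ) (hη : η = 1 / (2 * k))
    (hδ : δ = η / 2 / 2 ^ (k + 1)) (hC : 0 < C) (t : ℝ) (A B : ℕ) (hA : 1 ≤ A)
    (hz : ∀ Q : ℕ, 1 ≤ Q → Q ^ 2 ≤ A → J * Q ≤ A →
      |t| * (J.factorial * (Q : ℝ) ^ J) ≤ 3 * (A : ℝ) ^ (J + 1) →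
      ‖∑ n ∈ Finset.Icc A B, (n : ℂ) ^ (-(t * I))‖ ≤
        C * A * ((Q : ℝ) ^ (-(1 / 2 ^ J) : ℝ) +
          ((A : ℝ) ^ J / (|t| * (Q : ℝ) ^ J)) ^ (1 / 2 ^ (J + 1) : ℝ)))
    (h1 : 2 ≤ (A : ℝ) ^ η) (h2 : (k : ℝ) * (A : ℝ) ^ η ≤ A) (h3 : (k.factorial : ℝ) ≤ 3 * (A : ℝ) ^ (η / 2))
    (hlo : (A : ℝ) ^ (J - (J - 1 / 2) * η) ≤ |t|) (hhi : |t| ≤ (A : ℝ) ^ (J + 1 - (J + 1 / 2) * η)) :
    ‖∑ n ∈ Finset.Icc A B, (n : ℂ) ^ (-(t * I))‖ ≤ 4 * C * (A : ℝ) ^ (1 - δ) := by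
  have hA1 : (1 : ℝ) ≤ A := by exact_mod_cast hA
  have hA0 : (0 : ℝ) < A := by linarith
  have hk1 : 1 ≤ k := hJ.trans hJk
  have hk1' : (1 : ℝ) ≤ k := by exact_mod_cast hk1
  have hη0 : 0 < η := by rw [hη]; positivity
  have hη2 : 2 * η * k = 1 := by rw [hη]; field_simp
  have hη1 : 2 * η ≤ 1 := by nlinarith
  set Q : ℕ := ⌊(A : ℝ) ^ η⌋₊ with hQ
  have hQle : (Q : ℝ) ≤ (A : ℝ) ^ η := Nat.floor_le (by positivity)
  have hQge : (A : ℝ) ^ η / 2 ≤ Q := by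
    have := Nat.lt_floor_add_one ((A : ℝ) ^ η)
    rw [← hQ] at this
    linarith
  have hQ1' : (1 : ℝ) ≤ Q := by linarith
  have hQ1 : 1 ≤ Q := by exact_mod_cast hQ1'
  have hQ0 : (0 : ℝ) < Q := by linarith
  have ht0 : 0 < |t| := lt_of_lt_of_le (Real.rpow_pos_of_pos hA0 _) hlo
  have c1 : Q ^ 2 ≤ A := by
    have : (Q : ℝ) ^ 2 ≤ A := by
      calc (Q : ℝ) ^ 2 ≤ ((A : ℝ) ^ η) ^ 2 := by gcongr
        _ = (A : ℝ) ^ (2 * η) := by
            rw [← Real.rpow_natCast, ← Real.rpow_mul hA0.le]; congr 1; push_cast; ring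
        _ ≤ (A : ℝ) ^ (1 : ℝ) := Real.rpow_le_rpow_of_exponent_le hA1 hη1
        _ = A := Real.rpow_one _
    exact_mod_cast this
  have c2 : J * Q ≤ A := by
    have : (J : ℝ) * Q ≤ A := by
      have : (J : ℝ) ≤ k := by exact_mod_cast hJk
      calc (J : ℝ) * Q ≤ k * (A : ℝ) ^ η := by gcongr
        _ ≤ A := h2
    exact_mod_cast this
  have hQJ : (Q : ℝ) ^ J ≤ (A : ℝ) ^ (J * η) := by
    calc (Q : ℝ) ^ J ≤ ((A : ℝ) ^ η) ^ J := by gcongr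
      _ = (A : ℝ) ^ (J * η) := by
          rw [← Real.rpow_natCast, ← Real.rpow_mul hA0.le]; congr 1; ring
  have c3 : |t| * (J.factorial * (Q : ℝ) ^ J) ≤ 3 * (A : ℝ) ^ (J + 1) := by
    have hf : (J.factorial : ℝ) ≤ k.factorial := by exact_mod_cast Nat.factorial_le hJk
    calc |t| * (J.factorial * (Q : ℝ) ^ J)
        ≤ (A : ℝ) ^ (J + 1 - (J + 1 / 2) * η) * ((3 * (A : ℝ) ^ (η / 2)) * (A : ℝ) ^ (J * η)) := by
          have := hf.trans h3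
          gcongr
      _ = 3 * ((A : ℝ) ^ (J + 1 - (J + 1 / 2) * η) * (A : ℝ) ^ (η / 2) * (A : ℝ) ^ (J * η)) := by ring
      _ = 3 * (A : ℝ) ^ (J + 1) := by
          rw [← Real.rpow_add hA0, ← Real.rpow_add hA0]
          congr 1
          rw [← Real.rpow_natCast]
          congr 1
          push_cast; ring
  refine (hz Q hQ1 c1 c2 c3).trans ?_
  have hpow : (0 : ℝ) < 2 ^ J := by positivity
  have hJpow : (2 : ℝ) ^ (J + 1) ≤ 2 ^ (k + 1) := pow_le_pow_right₀ (by norm_num) (by omega)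
  have hδJ : δ ≤ η / 2 / 2 ^ (J + 1) := by
    rw [hδ]
    exact div_le_div_of_nonneg_left (by positivity) (by positivity) hJpow
  have hδJ' : δ ≤ η / 2 ^ J := by
    refine hδJ.trans ?_
    rw [div_div, div_le_div_iff₀ (by positivity) hpow]
    have : (2 : ℝ) ^ J ≤ 2 * 2 ^ (J + 1) := by rw [pow_succ]; nlinarith
    nlinarith
  have d1 : (Q : ℝ) ^ (-(1 / 2 ^ J) : ℝ) ≤ 2 * (A : ℝ) ^ (-δ) := by
    have e1 : (Q : ℝ) ^ (-(1 / 2 ^ J) : ℝ) ≤ ((A : ℝ) ^ η / 2) ^ (-(1 / 2 ^ J) : ℝ) := by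
      refine Real.rpow_le_rpow_of_nonpos (by positivity) hQge ?_
      rw [neg_nonpos]; positivity
    refine e1.trans ?_
    rw [Real.div_rpow (by positivity) (by norm_num), ← Real.rpow_mul hA0.le]
    have e2 : (2 : ℝ) ^ (-(1 / 2 ^ J) : ℝ) = ((2 : ℝ) ^ (1 / 2 ^ J : ℝ))⁻¹ := Real.rpow_neg (by norm_num) _
    rw [e2, div_inv_eq_mul, mul_comm]
    have e3 : (2 : ℝ) ^ (1 / 2 ^ J : ℝ) ≤ 2 := by
      calc (2 : ℝ) ^ (1 / 2 ^ J : ℝ) ≤ (2 : ℝ) ^ (1 : ℝ) := by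
            refine Real.rpow_le_rpow_of_exponent_le (by norm_num) ?_
            rw [div_le_one hpow]
            exact one_le_pow₀ (by norm_num)
        _ = 2 := Real.rpow_one _
    have e4 : (A : ℝ) ^ (η * -(1 / 2 ^ J)) ≤ (A : ℝ) ^ (-δ) := by
      refine Real.rpow_le_rpow_of_exponent_le hA1 ?_
      have : η * -(1 / 2 ^ J) = -(η / 2 ^ J) := by ring
      rw [this]; linarith
    exact mul_le_mul e3 e4 (by positivity) (by norm_num)
  have d2 : ((A : ℝ) ^ J / (|t| * (Q : ℝ) ^ J)) ^ (1 / 2 ^ (J + 1) : ℝ) ≤ 2 * (A : ℝ) ^ (-δ) := by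
    have e1 : (A : ℝ) ^ J / (|t| * (Q : ℝ) ^ J) ≤ 2 ^ J * (A : ℝ) ^ (-(η / 2)) := by
      rw [div_le_iff₀ (by positivity)]
      have e2 : ((A : ℝ) ^ η / 2) ^ J ≤ (Q : ℝ) ^ J := by gcongr
      have e3 : ((A : ℝ) ^ η / 2) ^ J = (A : ℝ) ^ (J * η) / 2 ^ J := by
        rw [div_pow, ← Real.rpow_natCast ((A : ℝ) ^ η), ← Real.rpow_mul hA0.le]
        congr 2; ring
      rw [e3] at e2
      calc (A : ℝ) ^ J = 2 ^ J * (A : ℝ) ^ (-(η / 2)) *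
            ((A : ℝ) ^ (J - (J - 1 / 2) * η) * ((A : ℝ) ^ (J * η) / 2 ^ J)) := by
            have e4 : 2 ^ J * (A : ℝ) ^ (-(η / 2)) *
              ((A : ℝ) ^ (J - (J - 1 / 2) * η) * ((A : ℝ) ^ (J * η) / 2 ^ J)) =
              (A : ℝ) ^ (-(η / 2)) * (A : ℝ) ^ (J - (J - 1 / 2) * η) * (A : ℝ) ^ (J * η) := by
              field_simp
            rw [e4, ← Real.rpow_add hA0, ← Real.rpow_add hA0, ← Real.rpow_natCast]
            congr 1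
            ring
        _ ≤ 2 ^ J * (A : ℝ) ^ (-(η / 2)) * (|t| * (Q : ℝ) ^ J) := by gcongr
    have e5 : ((A : ℝ) ^ J / (|t| * (Q : ℝ) ^ J)) ^ (1 / 2 ^ (J + 1) : ℝ) ≤
        (2 ^ J * (A : ℝ) ^ (-(η / 2))) ^ (1 / 2 ^ (J + 1) : ℝ) :=
      Real.rpow_le_rpow (by positivity) e1 (by positivity)
    refine e5.trans ?_
    rw [Real.mul_rpow (by positivity) (by positivity), ← Real.rpow_mul hA0.le]
    have e6 : ((2 : ℝ) ^ J) ^ (1 / 2 ^ (J + 1) : ℝ) ≤ 2 := by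
      rw [← Real.rpow_natCast, ← Real.rpow_mul (by norm_num)]
      calc (2 : ℝ) ^ ((J : ℝ) * (1 / 2 ^ (J + 1))) ≤ (2 : ℝ) ^ (1 : ℝ) := by
            refine Real.rpow_le_rpow_of_exponent_le (by norm_num) ?_
            rw [mul_one_div, div_le_one (by positivity)]
            have : J < 2 ^ (J + 1) := lt_of_lt_of_le Nat.lt_two_pow_self (Nat.pow_le_pow_right (by norm_num) (by omega))
            exact_mod_cast this.le
        _ = 2 := Real.rpow_one _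
    have e7 : (A : ℝ) ^ (-(η / 2) * (1 / 2 ^ (J + 1))) ≤ (A : ℝ) ^ (-δ) := by
      refine Real.rpow_le_rpow_of_exponent_le hA1 ?_
      have : -(η / 2) * (1 / 2 ^ (J + 1)) = -(η / 2 / 2 ^ (J + 1)) := by ring
      rw [this]; linarith
    exact mul_le_mul e6 e7 (by positivity) (by norm_num)
  calc C * A * ((Q : ℝ) ^ (-(1 / 2 ^ J) : ℝ) +
          ((A : ℝ) ^ J / (|t| * (Q : ℝ) ^ J)) ^ (1 / 2 ^ (J + 1) : ℝ))
      ≤ C * A * (2 * (A : ℝ) ^ (-δ) + 2 * (A : ℝ) ^ (-δ)) := by gcongr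
    _ = 4 * C * ((A : ℝ) ^ (1 : ℝ) * (A : ℝ) ^ (-δ)) := by rw [Real.rpow_one]; ring
    _ = 4 * C * (A : ℝ) ^ (1 - δ) := by rw [← Real.rpow_add hA0]; rfl

theorem zsumK (k : ℕ) (hk : 1 ≤ k) : ∃ δ C : ℝ, 0 < δ ∧ δ ≤ 1 / 2 ∧ 0 < C ∧
    ∀ (t : ℝ) (A B : ℕ), 1 ≤ A → A ≤ B → B ≤ 2 * A → 1 ≤ |t| → |t| ≤ (A : ℝ) ^ k →
      ‖∑ n ∈ Finset.Icc A B, (n : ℂ) ^ (-(t * I))‖ ≤ C * ((A : ℝ) ^ (1 - δ) + A / |t|) := by
  have hk1 : (1 : ℝ) ≤ k := by exact_mod_cast hk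
  obtain ⟨η, hη⟩ : ∃ η : ℝ, η = 1 / (2 * k) := ⟨_, rfl⟩
  obtain ⟨δ, hδ⟩ : ∃ δ : ℝ, δ = η / 2 / 2 ^ (k + 1) := ⟨_, rfl⟩
  have hη0 : 0 < η := by rw [hη]; positivity
  have hη2 : η ≤ 1 / 2 := by
    rw [hη]
    exact one_div_le_one_div_of_le (by norm_num) (by linarith)
  have hδ0 : 0 < δ := by rw [hδ]; positivity
  have hδ2 : δ ≤ 1 / 2 := by
    rw [hδ]
    have : (1 : ℝ) ≤ 2 ^ (k + 1) := one_le_pow₀ (by norm_num)
    calc η / 2 / 2 ^ (k + 1) ≤ η / 2 := div_le_self (by positivity) this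
      _ ≤ 1 / 2 := by linarith
  -- the constants
  have hz : ∀ J : ℕ, ∃ C : ℝ, 0 < C ∧ (1 ≤ J → ∀ (t : ℝ) (A B Q : ℕ), 1 ≤ A → A ≤ B → B ≤ 2 * A →
      1 ≤ Q → Q ^ 2 ≤ A → J * Q ≤ A → t ≠ 0 →
      |t| * (J.factorial * (Q : ℝ) ^ J) ≤ 3 * (A : ℝ) ^ (J + 1) →
      ‖∑ n ∈ Finset.Icc A B, (n : ℂ) ^ (-(t * I))‖ ≤
        C * A * ((Q : ℝ) ^ (-(1 / 2 ^ J) : ℝ) +
          ((A : ℝ) ^ J / (|t| * (Q : ℝ) ^ J)) ^ (1 / 2 ^ (J + 1) : ℝ))) := by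
    intro J
    by_cases hJ : 1 ≤ J
    · obtain ⟨C, hC, h⟩ := zsum_step J J hJ le_rfl
      refine ⟨C, hC, fun _ t A B Q hA hAB hB hQ hQ2 hJQ ht hc => ?_⟩
      have := h [] (-t) A B Q (by simp) hA hAB hB hQ hQ2 hJQ (by simp) (neg_ne_zero.mpr ht)
        (by simpa [abs_neg] using hc)
      rw [sum_eq t A B hA]
      simpa [abs_neg] using this
    · exact ⟨1, one_pos, fun h => absurd h hJ⟩
  choose Cf hCf0 hCf using hz
  -- large A
  have ht1 : Filter.Tendsto (fun A : ℕ => (A : ℝ) ^ η) Filter.atTop Filter.atTop :=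
    (tendsto_rpow_atTop hη0).comp tendsto_natCast_atTop_atTop
  have ht2 : Filter.Tendsto (fun A : ℕ => (A : ℝ) ^ (1 - η)) Filter.atTop Filter.atTop :=
    (tendsto_rpow_atTop (by linarith)).comp tendsto_natCast_atTop_atTop
  have ht3 : Filter.Tendsto (fun A : ℕ => (A : ℝ) ^ (η / 2)) Filter.atTop Filter.atTop :=
    (tendsto_rpow_atTop (by positivity)).comp tendsto_natCast_atTop_atTop
  obtain ⟨A0, hA0⟩ := Filter.eventually_atTop.mp ((ht1.eventually_ge_atTop 2).and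
    ((ht2.eventually_ge_atTop (k : ℝ)).and (ht3.eventually_ge_atTop (k.factorial : ℝ))))
  have hS0 : 0 ≤ ∑ J ∈ Finset.range (k + 1), Cf J := Finset.sum_nonneg fun J _ => (hCf0 J).le
  refine ⟨δ, 48 + 4 * (∑ J ∈ Finset.range (k + 1), Cf J) + 2 * A0, hδ0, hδ2, by positivity, ?_⟩
  intro t A B hA hAB hB ht htk
  have hA1 : (1 : ℝ) ≤ A := by exact_mod_cast hA
  have hAp : (0 : ℝ) < A := by linarith
  have ht0 : 0 < |t| := by linarith
  have htne : t ≠ 0 := abs_pos.mp ht0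
  have hX : (1 : ℝ) ≤ (A : ℝ) ^ (1 - δ) := Real.one_le_rpow hA1 (by linarith)
  have hY : 0 ≤ (A : ℝ) / |t| := by positivity
  have hA0' : (0 : ℝ) ≤ A0 := by positivity
  rcases le_or_gt |t| (A : ℝ) with h | h
  · have h1 := Pool.Agent.H6.Win.kusmin_landau htne hA h hAB
    have hB' : (B : ℝ) ≤ 2 * A := by exact_mod_cast hB
    calc ‖∑ n ∈ Finset.Icc A B, (n : ℂ) ^ (-(t * I))‖ ≤ 24 * B / |t| := h1
      _ ≤ 24 * (2 * A) / |t| := by gcongr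
      _ = 48 * (A / |t|) := by ring
      _ ≤ (48 + 4 * (∑ J ∈ Finset.range (k + 1), Cf J) + 2 * A0) * ((A : ℝ) ^ (1 - δ) + A / |t|) := by
          apply mul_le_mul (by linarith) (by linarith) hY (by positivity)
  · by_cases hAA : A0 ≤ A
    · obtain ⟨g1, g2, g3⟩ := hA0 A hAA
      have g2' : (k : ℝ) * (A : ℝ) ^ η ≤ A := by
        calc (k : ℝ) * (A : ℝ) ^ η ≤ (A : ℝ) ^ (1 - η) * (A : ℝ) ^ η := by gcongr
          _ = A := by rw [← Real.rpow_add hAp]; simp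
      have g3' : (k.factorial : ℝ) ≤ 3 * (A : ℝ) ^ (η / 2) := by
        have : 0 ≤ (A : ℝ) ^ (η / 2) := by positivity
        linarith
      have hex : ∃ J : ℕ, 1 ≤ J ∧ |t| ≤ (A : ℝ) ^ ((J : ℝ) + 1 - (J + 1 / 2) * η) := by
        refine ⟨k, hk, htk.trans ?_⟩
        rw [← Real.rpow_natCast]
        refine Real.rpow_le_rpow_of_exponent_le hA1 ?_
        have : (k : ℝ) * η = 1 / 2 := by rw [hη]; field_simp
        nlinarith
      classical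
      have hJ := Nat.find_spec hex
      set J := Nat.find hex with hJdef
      have hJk : J ≤ k := by
        refine Nat.find_min' hex ⟨hk, htk.trans ?_⟩
        rw [← Real.rpow_natCast]
        refine Real.rpow_le_rpow_of_exponent_le hA1 ?_
        have : (k : ℝ) * η = 1 / 2 := by rw [hη]; field_simp
        nlinarith
      have hlo : (A : ℝ) ^ ((J : ℝ) - (J - 1 / 2) * η) ≤ |t| := by
        rcases Nat.lt_or_ge 1 J with hJ1 | hJ1
        · have h5 := Nat.find_min hex (m := J - 1) (by omega)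
          rw [not_and, not_le] at h5
          have h6 := h5 (by omega)
          refine le_trans (le_of_eq ?_) h6.le
          congr 1
          have : ((J - 1 : ℕ) : ℝ) = J - 1 := by
            rw [Nat.cast_sub (by omega)]; simp
          rw [this]; ring
        · have hJe : J = 1 := le_antisymm hJ1 hJ.1
          rw [hJe]
          refine le_trans ?_ h.le
          calc (A : ℝ) ^ (((1 : ℕ) : ℝ) - (((1 : ℕ) : ℝ) - 1 / 2) * η) ≤ (A : ℝ) ^ (1 : ℝ) := by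
                refine Real.rpow_le_rpow_of_exponent_le hA1 ?_
                push_cast
                nlinarith
            _ = A := Real.rpow_one _
      have h7 := one_J k J hJ.1 hJk η δ (Cf J) hη hδ (hCf0 J) t A B hA
        (fun Q hQ hQ2 hJQ hc => hCf J hJ.1 t A B Q hA hAB hB hQ hQ2 hJQ htne hc) g1 g2' g3' hlo hJ.2
      have h8 : Cf J ≤ ∑ J ∈ Finset.range (k + 1), Cf J :=
        Finset.single_le_sum (f := Cf) (fun i _ => (hCf0 i).le) (Finset.mem_range.mpr (by omega))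
      calc ‖∑ n ∈ Finset.Icc A B, (n : ℂ) ^ (-(t * I))‖ ≤ 4 * Cf J * (A : ℝ) ^ (1 - δ) := h7
        _ ≤ (48 + 4 * (∑ J ∈ Finset.range (k + 1), Cf J) + 2 * A0) * ((A : ℝ) ^ (1 - δ) + A / |t|) := by
            apply mul_le_mul (by linarith) (by linarith) (by positivity) (by positivity)
    · have h9 := triv_bd t A B hA hAB hB
      have h10 : (A : ℝ) ≤ A0 := by
        have : A ≤ A0 := by omega
        exact_mod_cast this
      calc ‖∑ n ∈ Finset.Icc A B, (n : ℂ) ^ (-(t * I))‖ ≤ 2 * A := h9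
        _ ≤ 2 * A0 * 1 := by linarith
        _ ≤ (48 + 4 * (∑ J ∈ Finset.range (k + 1), Cf J) + 2 * A0) * ((A : ℝ) ^ (1 - δ) + A / |t|) := by
            apply mul_le_mul (by linarith) (by linarith) (by norm_num) (by positivity)

end Pool.Agent.H52.Unc
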