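import Mathlib
import Pool.Agent.H52.Unc.VdC
import Pool.Agent.H52.Unc.KLlog

/-!
# Zsum2: `∑_{A ≤ n ≤ B} n^(-it) ≪ √(|t| (1 + log A))` for `A ≤ |t| ≤ A²`

`(n:ℂ)^(-(t I)) = exp(i (-t) log n) = exp(i (-t) dl [] n)`.  `L = B + 1 - A ≤ 2 A`.
`Q0 = ⌊A²/|t|⌋₊` (`1 ≤ Q0 ≤ A`), `Q = min Q0 L`.  `vdc` with `a (n+q) conj (a n) =
exp(i (-t) dl [q] n)` and `kl_log [q]` (`M = A`, `|t| q ≤ A²`, `B + q ≤ 3 A`): inner sum
`≤ 144 A²/(|t| q)`, so `‖S‖² ≤ 2L²/Q + (4L/Q) (144 A²/|t|) (1 + log A)` (`∑_{q<Q} 1/q ≤ 1 + log Q`).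
If `Q = Q0 ≥ A²/(2|t|)`: `2L²/Q ≤ 16 |t|`, second term `≤ 2304 A (1 + log A) ≤ 2304 |t| (1 + log A)`.
If `Q = L`: `2L ≤ 4 |t|`, `4 · 144 A²/|t| (1 + log A) ≤ 576 |t| (1 + log A)` (`A ≤ |t|`).
About 120 lines.
-/

set_option autoImplicit false

open Complex

namespace Pool.Agent.H52.Unc

theorem zsum2_harm {Q A : ℕ} (hQ : 1 ≤ Q) (hQA : Q ≤ A) :
    ∑ q ∈ Finset.Ico 1 Q, (1 : ℝ) / q ≤ 1 + Real.log A := by
  have h1 : ∑ q ∈ Finset.Ico 1 Q, (1 : ℝ) / q ≤ ((harmonic A : ℚ) : ℝ) := by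
    rw [harmonic]
    push_cast
    rw [Finset.sum_Ico_eq_sum_range]
    calc ∑ k ∈ Finset.range (Q - 1), (1 : ℝ) / ((1 + k : ℕ) : ℝ)
        = ∑ k ∈ Finset.range (Q - 1), ((k : ℝ) + 1)⁻¹ := by
          refine Finset.sum_congr rfl fun k _ => ?_
          push_cast
          rw [one_div, add_comm]
      _ ≤ ∑ k ∈ Finset.range A, ((k : ℝ) + 1)⁻¹ := by
          refine Finset.sum_le_sum_of_subset_of_nonneg ?_ ?_
          · intro k hk
            rw [Finset.mem_range] at hk ⊢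
            omega
          · intro k _ _
            positivity
  exact h1.trans (harmonic_le_one_add_log A)

theorem zsum2 : ∃ C : ℝ, 0 < C ∧ ∀ (t : ℝ) (A B : ℕ), 1 ≤ A → A ≤ B → B ≤ 2 * A →
    (A : ℝ) ≤ |t| → |t| ≤ (A : ℝ) ^ 2 →
    ‖∑ n ∈ Finset.Icc A B, (n : ℂ) ^ (-(t * I))‖ ≤ C * √(|t| * (1 + Real.log A)) := by
  refine ⟨49, by norm_num, fun t A B hA hAB hB h1 h2 => ?_⟩
  have hA0 : (0:ℝ) < A := by exact_mod_cast hA
  have hA1 : (1:ℝ) ≤ A := by exact_mod_cast hA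
  have ht0 : 0 < |t| := lt_of_lt_of_le hA0 h1
  have ht : t ≠ 0 := abs_pos.1 ht0
  have hlog : 0 ≤ Real.log A := Real.log_nonneg hA1
  set x : ℝ := (A:ℝ) ^ 2 / |t| with hx
  have hxt : x * |t| = (A:ℝ) ^ 2 := by rw [hx]; field_simp
  have hx1 : 1 ≤ x := by rw [hx, le_div_iff₀ ht0]; linarith
  have hxA : x ≤ A := by rw [hx, div_le_iff₀ ht0]; nlinarith
  obtain ⟨L, hL⟩ : ∃ L : ℕ, L = B + 1 - A := ⟨_, rfl⟩
  have hL1 : 1 ≤ L := by omega
  have hL2 : L ≤ 2 * A := by omega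
  have hLr : ((B:ℝ) + 1 - A) = (L:ℝ) := by
    rw [hL, Nat.cast_sub (by omega)]; push_cast; ring
  have hL1r : (1:ℝ) ≤ L := by exact_mod_cast hL1
  have hL2r : (L:ℝ) ≤ 2 * A := by exact_mod_cast hL2
  obtain ⟨Q, hQ⟩ : ∃ Q : ℕ, Q = min ⌊x⌋₊ L := ⟨_, rfl⟩
  have hfl : 1 ≤ ⌊x⌋₊ := Nat.le_floor (by exact_mod_cast hx1)
  have hQ1 : 1 ≤ Q := by rw [hQ]; exact le_min hfl hL1
  have hQL : Q ≤ L := by rw [hQ]; exact min_le_right _ _
  have hQx : (Q:ℝ) ≤ x := by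
    refine le_trans (Nat.cast_le.2 (?_ : Q ≤ ⌊x⌋₊)) (Nat.floor_le (by linarith))
    rw [hQ]; exact min_le_left _ _
  have hQAr : (Q:ℝ) ≤ A := hQx.trans hxA
  have hQA : Q ≤ A := by exact_mod_cast hQAr
  have hQ0 : (0:ℝ) < Q := by exact_mod_cast hQ1
  have haexp : ∀ n : ℕ, 1 ≤ n → (n : ℂ) ^ (-(t * I)) = cexp ((-t * Real.log n : ℝ) * I) := by
    intro n hn
    have hn0 : (n:ℂ) ≠ 0 := by
      have : n ≠ 0 := by omega
      exact_mod_cast this
    rw [cpow_def_of_ne_zero hn0, ← Complex.natCast_log]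
    congr 1
    push_cast
    ring
  have hnorm : ∀ n, A ≤ n → n ≤ B → ‖(n : ℂ) ^ (-(t * I))‖ ≤ 1 := by
    intro n hn _
    rw [haexp n (by omega), Complex.norm_exp_ofReal_mul_I]
  have hv := vdc (fun n : ℕ => (n : ℂ) ^ (-(t * I))) hAB hnorm hQ1 (by omega)
  rw [hLr] at hv
  have hin : ∀ q ∈ Finset.Ico 1 Q,
      ‖∑ n ∈ Finset.Icc A (B - q), ((n + q : ℕ) : ℂ) ^ (-(t * I)) *
        (starRingEnd ℂ) ((n : ℂ) ^ (-(t * I)))‖ ≤ 144 * x * (1 / q) := by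
    intro q hq
    rw [Finset.mem_Ico] at hq
    have hq0 : (0:ℝ) < q := by exact_mod_cast hq.1
    have hqx : (q:ℝ) ≤ x := le_trans (by exact_mod_cast hq.2.le) hQx
    have hsum : ∑ n ∈ Finset.Icc A (B - q), ((n + q : ℕ) : ℂ) ^ (-(t * I)) *
        (starRingEnd ℂ) ((n : ℂ) ^ (-(t * I))) =
        ∑ n ∈ Finset.Icc A (B - q), cexp (((-t) * dl [q] n : ℝ) * I) := by
      refine Finset.sum_congr rfl fun n hn => ?_
      rw [Finset.mem_Icc] at hn
      rw [haexp (n + q) (by omega), haexp n (by omega), ← Complex.exp_conj, ← Complex.exp_add]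
      congr 1
      simp only [map_mul, Complex.conj_ofReal, Complex.conj_I, dl]
      push_cast
      ring
    have hk := kl_log [q] (by simpa using hq.1) (t := -t) (neg_ne_zero.2 ht)
      (A := A) (B := B - q) (M := A) hA le_rfl (by omega)
      (by simp only [List.sum_cons, List.sum_nil]; omega)
      (by
        simp only [abs_neg, List.length_cons, List.length_nil, List.prod_cons, List.prod_nil,
          zero_add, Nat.factorial_one, Nat.cast_one, one_mul, mul_one]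
        have : |t| * q ≤ x * |t| := by nlinarith
        rw [hxt] at this
        have h3 : (0:ℝ) ≤ (A:ℝ) ^ (1 + 1) := by positivity
        calc |t| * q ≤ (A:ℝ) ^ 2 := this
          _ ≤ 3 * (A:ℝ) ^ (1 + 1) := by norm_num at h3 ⊢; linarith)
    rw [hsum]
    refine hk.trans (le_of_eq ?_)
    simp only [abs_neg, List.length_cons, List.length_nil, List.prod_cons, List.prod_nil,
      zero_add, Nat.factorial_one, Nat.cast_one, one_mul, mul_one]
    rw [hx]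
    field_simp
    ring
  have hs : ∑ q ∈ Finset.Ico 1 Q,
      ‖∑ n ∈ Finset.Icc A (B - q), ((n + q : ℕ) : ℂ) ^ (-(t * I)) *
        (starRingEnd ℂ) ((n : ℂ) ^ (-(t * I)))‖ ≤ 144 * x * (1 + Real.log A) := by
    calc _ ≤ ∑ q ∈ Finset.Ico 1 Q, 144 * x * (1 / (q:ℝ)) := Finset.sum_le_sum hin
      _ = 144 * x * ∑ q ∈ Finset.Ico 1 Q, 1 / (q:ℝ) := by rw [Finset.mul_sum]
      _ ≤ 144 * x * (1 + Real.log A) :=
          mul_le_mul_of_nonneg_left (zsum2_harm hQ1 hQA) (by positivity)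
  have hi : (L:ℝ) ^ 2 / Q ≤ 8 * |t| ∧ (L:ℝ) / Q * x ≤ 4 * |t| := by
    rcases le_total ⌊x⌋₊ L with h | h
    · rw [min_eq_left h] at hQ
      have hh : x ≤ 2 * Q := by
        have h3 := Nat.lt_floor_add_one x
        rw [← hQ] at h3
        have h4 : (1:ℝ) ≤ Q := by exact_mod_cast hQ1
        linarith
      constructor
      · rw [div_le_iff₀ hQ0]
        have h5 : (L:ℝ) ^ 2 ≤ (2 * A) ^ 2 := pow_le_pow_left₀ (by linarith) hL2r 2
        have h6 : 4 * |t| * x ≤ 4 * |t| * (2 * Q) :=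
          mul_le_mul_of_nonneg_left hh (by positivity)
        nlinarith
      · rw [div_mul_eq_mul_div, div_le_iff₀ hQ0]
        have h5 : (L:ℝ) * x ≤ (2 * A) * (2 * Q) :=
          mul_le_mul hL2r hh (by linarith) (by positivity)
        have h6 : (2 * A) * (2 * Q) ≤ (2 * |t|) * (2 * (Q:ℝ)) :=
          mul_le_mul_of_nonneg_right (by linarith) (by positivity)
        linarith
    · rw [min_eq_right h] at hQ
      have hQr : (Q:ℝ) = L := by rw [hQ]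
      have hL0 : (0:ℝ) < L := by linarith
      rw [hQr]
      constructor
      · rw [div_le_iff₀ hL0]
        have h5 : (L:ℝ) ≤ 2 * |t| := by linarith
        nlinarith
      · rw [div_self hL0.ne', one_mul]
        linarith
  have hfin : ‖∑ n ∈ Finset.Icc A B, (n : ℂ) ^ (-(t * I))‖ ^ 2 ≤
      49 ^ 2 * (|t| * (1 + Real.log A)) := by
    have h5 : 4 * (L:ℝ) / Q * ∑ q ∈ Finset.Ico 1 Q,
        ‖∑ n ∈ Finset.Icc A (B - q), ((n + q : ℕ) : ℂ) ^ (-(t * I)) *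
        (starRingEnd ℂ) ((n : ℂ) ^ (-(t * I)))‖ ≤
        4 * (L:ℝ) / Q * (144 * x * (1 + Real.log A)) :=
      mul_le_mul_of_nonneg_left hs (by positivity)
    have h6 : 4 * (L:ℝ) / Q * (144 * x * (1 + Real.log A)) =
        576 * ((L:ℝ) / Q * x) * (1 + Real.log A) := by ring
    have h7 : 576 * ((L:ℝ) / Q * x) * (1 + Real.log A) ≤
        576 * (4 * |t|) * (1 + Real.log A) :=
      mul_le_mul_of_nonneg_right (mul_le_mul_of_nonneg_left hi.2 (by norm_num)) (by linarith)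
    have h8 : 2 * (L:ℝ) ^ 2 / Q = 2 * ((L:ℝ) ^ 2 / Q) := by ring
    have h9 : 0 ≤ |t| * Real.log A := by positivity
    have hv2 := hv
    rw [h8] at hv2
    calc _ ≤ _ := hv2
      _ ≤ 2 * (8 * |t|) + 576 * (4 * |t|) * (1 + Real.log A) := by
          refine add_le_add (mul_le_mul_of_nonneg_left hi.1 (by norm_num)) ?_
          exact h5.trans (h6.le.trans h7)
      _ ≤ 49 ^ 2 * (|t| * (1 + Real.log A)) := by nlinarith
  have h10 : 49 * √(|t| * (1 + Real.log A)) = √(49 ^ 2 * (|t| * (1 + Real.log A))) := by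
    rw [Real.sqrt_mul' (49 ^ 2) (mul_nonneg ht0.le (by linarith) : (0:ℝ) ≤ |t| * (1 + Real.log A)),
      Real.sqrt_sq (by norm_num)]
  rw [h10]
  exact Real.le_sqrt_of_sq_le hfin

end Pool.Agent.H52.Unc
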