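import Mathlib
import Pool.Agent.H6.Win.KL
import Pool.Agent.H52.Unc.Zsum2
import Pool.Agent.H52.Unc.ZsumK

/-!
# Gram: `∑_{N1 ≤ n ≤ N2} n^(-1-iu)`

The terms `n ≥ |u|`: Abel summation with `kusmin_landau` (`‖∑_{A ≤ n ≤ m} n^(-iu)‖ ≤ 24 m/|u|` for
`A ≥ |u|`): `≤ (C/|u|) (1 + log N2)`.
The terms `N1 ≤ n < |u|`: dyadic blocks `[A, B]`, `B ≤ 2A`, `A = 2^j N1`; in a block Abel summation
gives `‖∑ n^(-1-iu)‖ ≤ (2/A) max_{B' ≤ B} ‖∑_{A ≤ n ≤ B'} n^(-iu)‖`.
`gram2`: `zsum2` applies (`A < |u| ≤ H ≤ N1² ≤ A²`): block `≤ 2 C √(H (1 + log N2))/A`, and the blocks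
sum to `≤ 4 C √H (1 + log N2)/N1` (geometric series).
`gramK`: `zsumK`: block `≤ 2 C (A^(-δ) + 1/|u|) ≤ 2 C (N1^(-δ) + 1/|u|)`, at most `2 (1 + log N2)`
blocks.  (A common lemma by strong induction on `N2`: if every block `[A, B]`, `N1 ≤ A ≤ B ≤ 2A`,
`B ≤ N2`, is `≤ F A` then the whole sum is at most the sum of `F` over `A = 2^j N1 ≤ N2`.)
About 170 lines.
-/

set_option autoImplicit false

open Complex

namespace Pool.Agent.H52.Unc

/-- Abel summation with the weights `1/n`. -/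
lemma abel_bound (a : ℕ → ℂ) (g : ℕ → ℝ) {A B : ℕ} (hA : 1 ≤ A) (hAB : A ≤ B)
    (hg : ∀ m, A ≤ m → m ≤ B → ‖∑ n ∈ Finset.Icc A m, a n‖ ≤ g m) :
    ‖∑ n ∈ Finset.Icc A B, (n : ℂ)⁻¹ * a n‖ ≤
      ∑ n ∈ Finset.Ico A B, ((n : ℝ)⁻¹ - ((n + 1 : ℕ) : ℝ)⁻¹) * g n + (B : ℝ)⁻¹ * g B := by
  have key : ‖∑ n ∈ Finset.Icc A B, (n : ℂ)⁻¹ * a n -
      (B : ℂ)⁻¹ * ∑ n ∈ Finset.Icc A B, a n‖ ≤
        ∑ n ∈ Finset.Ico A B, ((n : ℝ)⁻¹ - ((n + 1 : ℕ) : ℝ)⁻¹) * g n := by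
    induction B, hAB using Nat.le_induction with
    | base => simp
    | succ B hAB ih =>
      have ih' := ih (fun m h1 h2 => hg m h1 (by omega))
      have hB : (0 : ℝ) < B := by
        have : 0 < B := by omega
        exact_mod_cast this
      rw [← Finset.insert_Icc_right_eq_Icc_add_one (by omega : A ≤ B + 1),
        Finset.sum_insert (by simp), Finset.sum_insert (by simp),
        Finset.sum_Ico_succ_top (by omega)]
      have e : ((B + 1 : ℕ) : ℂ)⁻¹ * a (B + 1) + ∑ n ∈ Finset.Icc A B, (n : ℂ)⁻¹ * a n -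
          ((B + 1 : ℕ) : ℂ)⁻¹ * (a (B + 1) + ∑ n ∈ Finset.Icc A B, a n) =
          (∑ n ∈ Finset.Icc A B, (n : ℂ)⁻¹ * a n - (B : ℂ)⁻¹ * ∑ n ∈ Finset.Icc A B, a n) +
          ((((B : ℝ)⁻¹ - ((B + 1 : ℕ) : ℝ)⁻¹ : ℝ) : ℂ)) * ∑ n ∈ Finset.Icc A B, a n := by
        push_cast
        ring
      rw [e]
      refine (norm_add_le _ _).trans (add_le_add ih' ?_)
      rw [norm_mul, Complex.norm_real, Real.norm_eq_abs, abs_of_nonneg]
      · apply mul_le_mul_of_nonneg_left (hg B hAB (by omega))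
        rw [sub_nonneg]
        apply inv_anti₀ hB
        push_cast
        linarith
      · rw [sub_nonneg]
        apply inv_anti₀ hB
        push_cast
        linarith
  have h1 : ‖(B : ℂ)⁻¹ * ∑ n ∈ Finset.Icc A B, a n‖ ≤ (B : ℝ)⁻¹ * g B := by
    rw [norm_mul, norm_inv, Complex.norm_natCast]
    exact mul_le_mul_of_nonneg_left (hg B hAB le_rfl) (by positivity)
  calc ‖∑ n ∈ Finset.Icc A B, (n : ℂ)⁻¹ * a n‖
      = ‖(∑ n ∈ Finset.Icc A B, (n : ℂ)⁻¹ * a n - (B : ℂ)⁻¹ * ∑ n ∈ Finset.Icc A B, a n) +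
          (B : ℂ)⁻¹ * ∑ n ∈ Finset.Icc A B, a n‖ := by rw [sub_add_cancel]
    _ ≤ _ := (norm_add_le _ _).trans (add_le_add key h1)

/-- a block with a constant bound for the partial sums -/
lemma block_bound (a : ℕ → ℂ) {M : ℝ} {A B : ℕ} (hA : 1 ≤ A) (hAB : A ≤ B)
    (hg : ∀ m, A ≤ m → m ≤ B → ‖∑ n ∈ Finset.Icc A m, a n‖ ≤ M) :
    ‖∑ n ∈ Finset.Icc A B, (n : ℂ)⁻¹ * a n‖ ≤ M / A := by
  refine (abel_bound a (fun _ => M) hA hAB hg).trans ?_
  have h1 : ∑ n ∈ Finset.Ico A B, ((n : ℝ)⁻¹ - ((n + 1 : ℕ) : ℝ)⁻¹) * M =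
      ((A : ℝ)⁻¹ - (B : ℝ)⁻¹) * M := by
    rw [← Finset.sum_mul]
    congr 1
    have h2 := Finset.sum_Ico_sub (f := fun n : ℕ => -(n : ℝ)⁻¹) hAB
    have h3 : ∑ n ∈ Finset.Ico A B, ((n : ℝ)⁻¹ - ((n + 1 : ℕ) : ℝ)⁻¹) =
        ∑ n ∈ Finset.Ico A B, (-((n + 1 : ℕ) : ℝ)⁻¹ - -(n : ℝ)⁻¹) := by
      apply Finset.sum_congr rfl
      intro n _
      ring
    rw [h3, h2]
    ring
  rw [h1, div_eq_inv_mul]
  apply le_of_eq
  ring

lemma harm_le {A B : ℕ} (hA : 1 ≤ A) (hAB : A ≤ B) :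
    ∑ n ∈ Finset.Ico A B, ((n + 1 : ℕ) : ℝ)⁻¹ ≤ Real.log B := by
  have key : ∑ n ∈ Finset.Ico A B, ((n + 1 : ℕ) : ℝ)⁻¹ ≤ Real.log B - Real.log A := by
    induction B, hAB using Nat.le_induction with
    | base => simp
    | succ B hAB ih =>
      rw [Finset.sum_Ico_succ_top (by omega)]
      have hB : (0 : ℝ) < B := by
        have : 0 < B := by omega
        exact_mod_cast this
      have h1 : ((B + 1 : ℕ) : ℝ)⁻¹ ≤ Real.log ((B + 1 : ℕ) : ℝ) - Real.log B := by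
        rw [← Real.log_div (by positivity) hB.ne']
        have h2 := Real.one_sub_inv_le_log_of_pos (x := ((B + 1 : ℕ) : ℝ) / B) (by positivity)
        refine le_trans (le_of_eq ?_) h2
        push_cast
        field_simp
        ring
      linarith
  have h2 : 0 ≤ Real.log A := Real.log_natCast_nonneg A
  linarith

/-- the terms `n ≥ |u|` -/
lemma tail_bound {u : ℝ} (hu : 1 ≤ |u|) {A B : ℕ} (hA : 1 ≤ A) (huA : |u| ≤ A) (hAB : A ≤ B) :
    ‖∑ n ∈ Finset.Icc A B, (n : ℂ)⁻¹ * (n : ℂ) ^ (-(u * I))‖ ≤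
      24 * (1 + Real.log B) * (1 / |u|) := by
  have hu0 : u ≠ 0 := by
    intro h
    rw [h, abs_zero] at hu
    linarith
  have hup : 0 < |u| := by linarith
  refine (abel_bound (fun n => (n : ℂ) ^ (-(u * I))) (fun m => 24 * m / |u|) hA hAB
    (fun m h1 _ => Pool.Agent.H6.Win.kusmin_landau hu0 hA huA h1)).trans ?_
  have hB : (0 : ℝ) < B := by
    have : 0 < B := by omega
    exact_mod_cast this
  have h1 : ∑ n ∈ Finset.Ico A B, ((n : ℝ)⁻¹ - ((n + 1 : ℕ) : ℝ)⁻¹) * (24 * n / |u|) =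
      24 / |u| * ∑ n ∈ Finset.Ico A B, ((n + 1 : ℕ) : ℝ)⁻¹ := by
    rw [Finset.mul_sum]
    apply Finset.sum_congr rfl
    intro n hn
    have hn0 : (0 : ℝ) < n := by
      have : 0 < n := by
        have := (Finset.mem_Ico.mp hn).1
        omega
      exact_mod_cast this
    push_cast
    field_simp
    ring
  have h2 : (B : ℝ)⁻¹ * (24 * B / |u|) = 24 / |u| := by
    field_simp
  rw [h1, h2]
  have h3 := harm_le hA hAB
  have h4 : 24 / |u| * ∑ n ∈ Finset.Ico A B, ((n + 1 : ℕ) : ℝ)⁻¹ ≤ 24 / |u| * Real.log B :=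
    mul_le_mul_of_nonneg_left h3 (by positivity)
  calc _ ≤ 24 / |u| * Real.log B + 24 / |u| := by linarith
    _ = 24 * (1 + Real.log B) * (1 / |u|) := by ring

/-- dyadic decomposition -/
lemma dyad (f : ℕ → ℂ) (G Φ : ℕ → ℝ) {N1 N2 : ℕ} (hN1 : 1 ≤ N1)
    (h0 : ∀ A, N1 ≤ A → A ≤ N2 → G A ≤ Φ A)
    (h1 : ∀ A, N1 ≤ A → 2 * A ≤ N2 → G A + Φ (2 * A) ≤ Φ A)
    (hb : ∀ A B, N1 ≤ A → A ≤ B → B ≤ 2 * A → B ≤ N2 → ‖∑ n ∈ Finset.Icc A B, f n‖ ≤ G A) :
    ∀ d A, N2 - A ≤ d → N1 ≤ A → A ≤ N2 → ‖∑ n ∈ Finset.Icc A N2, f n‖ ≤ Φ A := by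
  intro d
  induction d with
  | zero =>
    intro A hd h2 h3
    exact (hb A N2 h2 h3 (by omega) le_rfl).trans (h0 A h2 h3)
  | succ d ih =>
    intro A hd h2 h3
    by_cases h4 : N2 ≤ 2 * A
    · exact (hb A N2 h2 h3 h4 le_rfl).trans (h0 A h2 h3)
    · have e : ∑ n ∈ Finset.Icc A N2, f n =
          ∑ n ∈ Finset.Icc A (2 * A - 1), f n + ∑ n ∈ Finset.Icc (2 * A) N2, f n := by
        have e1 : ∀ x y : ℕ, Finset.Icc x y = Finset.Ico x (y + 1) := by
          intro x y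
          ext z
          simp only [Finset.mem_Icc, Finset.mem_Ico]
          omega
        rw [e1, e1, e1, Nat.sub_add_cancel (by omega)]
        exact (Finset.sum_Ico_consecutive f (by omega) (by omega)).symm
      rw [e]
      refine (norm_add_le _ _).trans ((add_le_add (hb A (2 * A - 1) h2 (by omega) (by omega)
        (by omega)) (ih (2 * A) (by omega) (by omega) (by omega))).trans (h1 A h2 (by omega)))

theorem gram2 : ∃ C : ℝ, 1 ≤ C ∧ ∀ (N1 N2 : ℕ) (H u : ℝ), 1 ≤ N1 → N1 ≤ N2 → 1 ≤ |u| → |u| ≤ H →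
    H ≤ (N1 : ℝ) ^ 2 →
    ‖∑ n ∈ Finset.Icc N1 N2, (n : ℂ)⁻¹ * (n : ℂ) ^ (-(u * I))‖ ≤
      C * (1 + Real.log N2) * (1 / |u| + √H / N1) := by
  obtain ⟨C, hC, hz⟩ := zsum2
  refine ⟨max 24 (2 * C), le_trans (by norm_num) (le_max_left _ _), ?_⟩
  intro N1 N2 H u hN1 hN12 hu huH hH
  have hN1r : (1 : ℝ) ≤ N1 := by exact_mod_cast hN1
  have hN2r : (1 : ℝ) ≤ N2 := by
    have : 1 ≤ N2 := hN1.trans hN12
    exact_mod_cast this
  have hlog : 0 ≤ Real.log N2 := Real.log_natCast_nonneg N2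
  have hup : 0 < |u| := by linarith
  have hH0 : 0 < H := by linarith
  -- the first part
  have P1 : ∀ M : ℕ, N1 ≤ M → M ≤ N2 → (M : ℝ) < |u| →
      ‖∑ n ∈ Finset.Icc N1 M, (n : ℂ)⁻¹ * (n : ℂ) ^ (-(u * I))‖ ≤
        2 * C * (1 + Real.log N2) * (√H / N1) := by
    intro M hM hM2 hMu
    have h1 := dyad (fun n => (n : ℂ)⁻¹ * (n : ℂ) ^ (-(u * I)))
      (fun A => C * √(H * (1 + Real.log N2)) / A)
      (fun A => 2 * (C * √(H * (1 + Real.log N2))) / A) (N1 := N1) (N2 := M) hN1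
      (by
        intro A hA _
        have hA0 : (0 : ℝ) < A := by
          have : 0 < A := by omega
          exact_mod_cast this
        have : 0 ≤ C * √(H * (1 + Real.log N2)) := by positivity
        exact div_le_div_of_nonneg_right (by linarith) hA0.le)
      (by
        intro A hA _
        have hA0 : (0 : ℝ) < A := by
          have : 0 < A := by omega
          exact_mod_cast this
        apply le_of_eq
        push_cast
        field_simp
        ring)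
      (by
        intro A B hA hAB hB2 hBM
        apply block_bound _ (by omega) hAB
        intro m hm1 hm2
        have hAr : (N1 : ℝ) ≤ A := by exact_mod_cast hA
        have hAM : (A : ℝ) ≤ M := by
          have : A ≤ M := by omega
          exact_mod_cast this
        refine (hz u A m (by omega) hm1 (by omega) (by linarith) ?_).trans ?_
        · calc |u| ≤ (N1 : ℝ) ^ 2 := huH.trans hH
            _ ≤ (A : ℝ) ^ 2 := by gcongr
        · have hAN2 : Real.log A ≤ Real.log N2 := by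
            apply Real.log_le_log (by linarith)
            have : A ≤ N2 := by omega
            exact_mod_cast this
          have hA0 : 0 ≤ Real.log A := Real.log_natCast_nonneg A
          gcongr)
      (M - N1) N1 le_rfl le_rfl hM
    refine h1.trans ?_
    have h2 : √(H * (1 + Real.log N2)) ≤ √H * (1 + Real.log N2) := by
      rw [Real.sqrt_mul hH0.le]
      apply mul_le_mul_of_nonneg_left _ (Real.sqrt_nonneg _)
      rw [Real.sqrt_le_left (by linarith)]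
      nlinarith
    have h3 : (0 : ℝ) < N1 := by linarith
    calc 2 * (C * √(H * (1 + Real.log N2))) / N1 ≤ 2 * (C * (√H * (1 + Real.log N2))) / N1 := by
          gcongr
      _ = 2 * C * (1 + Real.log N2) * (√H / N1) := by ring
  have hmax1 : 24 * (1 + Real.log N2) * (1 / |u|) ≤
      max 24 (2 * C) * (1 + Real.log N2) * (1 / |u|) := by
    gcongr
    exact le_max_left _ _
  have hmax2 : 2 * C * (1 + Real.log N2) * (√H / N1) ≤
      max 24 (2 * C) * (1 + Real.log N2) * (√H / N1) := by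
    gcongr
    exact le_max_right _ _
  have hpos1 : 0 ≤ max 24 (2 * C) * (1 + Real.log N2) * (1 / |u|) := by positivity
  have hpos2 : 0 ≤ max 24 (2 * C) * (1 + Real.log N2) * (√H / N1) := by positivity
  rw [mul_add]
  by_cases hc1 : |u| ≤ N1
  · have := tail_bound hu hN1 hc1 hN12
    linarith
  by_cases hc2 : (N2 : ℝ) < |u|
  · have := P1 N2 hN12 le_rfl hc2
    linarith
  push Not at hc1 hc2
  set N0 := ⌈|u|⌉₊ with hN0
  have h1 : |u| ≤ N0 := Nat.le_ceil _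
  have h2 : N0 ≤ N2 := Nat.ceil_le.mpr hc2
  have h3 : N1 < N0 := Nat.lt_ceil.mpr hc1
  have h4 : ((N0 - 1 : ℕ) : ℝ) < |u| := Nat.lt_ceil.mp (by omega)
  have e : ∑ n ∈ Finset.Icc N1 N2, (n : ℂ)⁻¹ * (n : ℂ) ^ (-(u * I)) =
      ∑ n ∈ Finset.Icc N1 (N0 - 1), (n : ℂ)⁻¹ * (n : ℂ) ^ (-(u * I)) +
        ∑ n ∈ Finset.Icc N0 N2, (n : ℂ)⁻¹ * (n : ℂ) ^ (-(u * I)) := by
    have e1 : ∀ x y : ℕ, Finset.Icc x y = Finset.Ico x (y + 1) := by
      intro x y
      ext z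
      simp only [Finset.mem_Icc, Finset.mem_Ico]
      omega
    rw [e1, e1, e1, Nat.sub_add_cancel (by omega)]
    exact (Finset.sum_Ico_consecutive _ (by omega) (by omega)).symm
  rw [e]
  have h5 := P1 (N0 - 1) (by omega) (by omega) h4
  have h6 := tail_bound hu (by omega : 1 ≤ N0) h1 h2
  refine (norm_add_le _ _).trans ?_
  linarith

theorem gramK (k : ℕ) (hk : 1 ≤ k) : ∃ δ C : ℝ, 0 < δ ∧ δ ≤ 1 / 2 ∧ 1 ≤ C ∧
    ∀ (N1 N2 : ℕ) (u : ℝ), 1 ≤ N1 → N1 ≤ N2 → 1 ≤ |u| → |u| ≤ (N1 : ℝ) ^ k →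
    ‖∑ n ∈ Finset.Icc N1 N2, (n : ℂ)⁻¹ * (n : ℂ) ^ (-(u * I))‖ ≤
      C * (1 + Real.log N2) * (1 / |u| + (N1 : ℝ) ^ (-δ)) := by
  obtain ⟨δ, C, hδ, hδ2, hC, hz⟩ := zsumK k hk
  refine ⟨δ, max 1 (4 * C), hδ, hδ2, le_max_left _ _, ?_⟩
  intro N1 N2 u hN1 hN12 hu hH
  have hN1r : (1 : ℝ) ≤ N1 := by exact_mod_cast hN1
  have hlog : 0 ≤ Real.log N2 := Real.log_natCast_nonneg N2
  have hup : 0 < |u| := by linarith
  set g : ℝ := 2 * C * (1 / |u| + (N1 : ℝ) ^ (-δ)) with hg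
  have hg0 : 0 ≤ g := by positivity
  have h1 := dyad (fun n => (n : ℂ)⁻¹ * (n : ℂ) ^ (-(u * I)))
    (fun _ => g) (fun A => g * (1 + 2 * (Real.log N2 - Real.log A))) (N1 := N1) (N2 := N2) hN1
    (by
      intro A hA hA2
      have hA0 : (0 : ℝ) < A := by
        have : 0 < A := by omega
        exact_mod_cast this
      have h2 : Real.log A ≤ Real.log N2 := Real.log_le_log hA0 (by exact_mod_cast hA2)
      show g ≤ g * (1 + 2 * (Real.log N2 - Real.log A))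
      nlinarith)
    (by
      intro A hA hA2
      have hA0 : (0 : ℝ) < A := by
        have : 0 < A := by omega
        exact_mod_cast this
      have h2 : Real.log ((2 * A : ℕ) : ℝ) = Real.log 2 + Real.log A := by
        push_cast
        rw [Real.log_mul (by norm_num) hA0.ne']
      have h3 := Real.log_two_gt_d9
      show g + g * (1 + 2 * (Real.log N2 - Real.log ((2 * A : ℕ) : ℝ))) ≤
        g * (1 + 2 * (Real.log N2 - Real.log A))
      rw [h2]
      nlinarith)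
    (by
      intro A B hA hAB hB2 hBM
      have hAr : (N1 : ℝ) ≤ A := by exact_mod_cast hA
      have hA0 : (0 : ℝ) < A := by linarith
      have h2 := block_bound (fun n => (n : ℂ) ^ (-(u * I))) (M := C * ((A : ℝ) ^ (1 - δ) + A / |u|))
        (by omega : 1 ≤ A) hAB (by
          intro m hm1 hm2
          refine hz u A m (by omega) hm1 (by omega) hu ?_
          calc |u| ≤ (N1 : ℝ) ^ k := hH
            _ ≤ (A : ℝ) ^ k := by gcongr)
      refine h2.trans ?_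
      have h3 : C * ((A : ℝ) ^ (1 - δ) + A / |u|) / A = C * (1 / |u| + (A : ℝ) ^ (-δ)) := by
        rw [show (1 : ℝ) - δ = 1 + (-δ) from by ring, Real.rpow_add hA0, Real.rpow_one]
        field_simp
        ring
      rw [h3, hg]
      have h4 : (A : ℝ) ^ (-δ) ≤ (N1 : ℝ) ^ (-δ) :=
        Real.rpow_le_rpow_of_nonpos (by linarith) hAr (by linarith)
      have h5 : C * (1 / |u| + (A : ℝ) ^ (-δ)) ≤ C * (1 / |u| + (N1 : ℝ) ^ (-δ)) := by gcongr
      have h6 : 0 ≤ C * (1 / |u| + (N1 : ℝ) ^ (-δ)) := by positivity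
      linarith)
    (N2 - N1) N1 le_rfl le_rfl hN12
  refine h1.trans ?_
  have h2 : 0 ≤ Real.log N1 := Real.log_natCast_nonneg N1
  calc g * (1 + 2 * (Real.log N2 - Real.log N1)) ≤ g * (2 * (1 + Real.log N2)) := by
        gcongr
        linarith
    _ = 4 * C * (1 + Real.log N2) * (1 / |u| + (N1 : ℝ) ^ (-δ)) := by rw [hg]; ring
    _ ≤ max 1 (4 * C) * (1 + Real.log N2) * (1 / |u| + (N1 : ℝ) ^ (-δ)) := by
        gcongr
        exact le_max_right _ _

end Pool.Agent.H52.Unc
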