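import Mathlib
import Pool.Agent.H76.CR.Defs

/-!
# Definitions: the density hypothesis for uncrowded zeros
-/

set_option autoImplicit false

open Complex

namespace Pool.Agent.H52.Unc

/-- The number of distinct zeros `u` of `ζ` with `|u - ρ| ≤ r` and `Re u ≥ β`. -/
noncomputable def rz (r β : ℝ) (ρ : ℂ) : ℕ :=
  {u : ℂ | riemannZeta u = 0 ∧ β ≤ u.re ∧ ‖u - ρ‖ ≤ r}.ncard

/-- `∑_{p ≤ M} p^(-it)` -/
noncomputable def pSum (M : ℕ) (t : ℝ) : ℂ :=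
  ∑ p ∈ (Finset.Icc 1 M).filter Nat.Prime, (p : ℂ) ^ (-(t * I))

/-- the truncated polynomial `∑_{N^(1-7θ) ≤ n ≤ N} Λ(n) (log n)^k / k! n^(-1-a-it)` -/
noncomputable def tPoly (θ a : ℝ) (k : ℕ) (N t : ℝ) : ℂ :=
  ∑ n ∈ Finset.Icc ⌈N ^ (1 - 7 * θ)⌉₊ ⌊N⌋₊, (Pool.Agent.H76.CR.dco a k n : ℂ) * (n : ℂ) ^ (-(t * I))

end Pool.Agent.H52.Unc
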