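import Mathlib
import Pool.Agent.H52.Unc.Defs
import Pool.Agent.H76.CR.ZFacts

/-!
# RzF: finiteness and monotonicity of `rz`

`rz_finite`: subset of the finite set of `near_finite` (`H76/CR/ZFacts`).
`card_le_rz`, `rz_mono`: `Set.ncard_le_ncard`, `Set.ncard_coe_finset`.  About 40 lines.
-/

set_option autoImplicit false

open Complex

namespace Pool.Agent.H52.Unc

open Pool.Agent.H76.CR

theorem rz_finite {r β : ℝ} {ρ : ℂ} (h : r < |ρ.im|) :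
    {u : ℂ | riemannZeta u = 0 ∧ β ≤ u.re ∧ ‖u - ρ‖ ≤ r}.Finite :=
  (near_finite h).subset fun _ hu => ⟨hu.1, hu.2.2⟩

theorem card_le_rz {r β : ℝ} {ρ : ℂ} (h : r < |ρ.im|) (S : Finset ℂ)
    (hS : ∀ u ∈ S, riemannZeta u = 0 ∧ β ≤ u.re ∧ ‖u - ρ‖ ≤ r) : S.card ≤ rz r β ρ := by
  rw [← Set.ncard_coe_finset S]
  exact Set.ncard_le_ncard (fun u hu => hS u hu) (rz_finite h)

theorem rz_mono {r r' β β' : ℝ} {ρ : ℂ} (h : r' < |ρ.im|) (hr : r ≤ r') (hβ : β' ≤ β) :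
    rz r β ρ ≤ rz r' β' ρ :=
  Set.ncard_le_ncard (fun _ hu => ⟨hu.1, hβ.trans hu.2.1, hu.2.2.trans hr⟩) (rz_finite h)

end Pool.Agent.H52.Unc
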