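import Mathlib
import Pool.Agent.H52.Unc.RzF

/-!
# LargeU: a crowded zero forces a large value of `ζ` nearby, slightly to its left at most

Given `r` (radius), `ε` and the zero `ρ = β + iγ`, `β ≥ σ > 1/2`.  Choose `A ≥ 1` with
`r² ≤ 2 A (ε/4)` (`A = 2 r²/ε + 1`), centre `s0 = 1 + A + iγ`.  A point `u` with `re u ≥ β - ε`,
`re u < 1`, `‖u-ρ‖ ≤ r` satisfies `‖u - s0‖² ≤ (A+1-β+ε)² + r² ≤ (A+1-β+ε+ε/4)²` (`A+1-β+ε ≥ A`).
Let `R2 = A + 1 - β + 2ε`; then `‖u-s0‖ ≤ R2 - 3ε/4 ≤ q R2` with `q = 1 - (3ε/4)/(A+1+2ε) < 1`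
independent of `ρ`.  `closedBall s0 R2` lies in `re ≥ β - 2ε`, and `‖s - ρ‖ ≤ R2 + A + 1 ≤ C`.
Apply `loc_log` (`H6/Win/LocLog.lean`) to the RESCALED function `f z = ζ(s0 + R2 z)` with centre `0`,
radii `q/2 < q < 1` (so that the constant `K` does not depend on `ρ`): if `‖f‖ ≤ exp Λ ‖f 0‖` on the
closed unit ball then `f` has at most `K Λ` distinct zeros in the ball of radius `q`.
Lower bound `‖ζ(s0)‖ ≥ c0 > 0` (`norm_inv_riemannZeta_le`).  If `‖ζ(s)‖ < H^c'` for all `s` with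
`re s ≥ β - 2ε`, `‖s-ρ‖ ≤ C`, take `Λ = c' log H + log(1/c0) + 1`: `c log H ≤ rz ≤ K Λ`, false for
`c' = c/(2K)` and `H ≥ C`.  (`|γ| ≥ C` keeps everything away from the pole.)  About 130 lines.
-/

set_option autoImplicit false

open Complex Metric

namespace Pool.Agent.H52.Unc

open Pool.Agent.H6 Pool.Agent.H6.Win Pool.Agent.H76.CR

private lemma aux_sq {x y r B A ε : ℝ} (hx0 : 0 ≤ x) (hxB : x ≤ B) (hy : |y| ≤ r)
    (hAε : r ^ 2 ≤ A * ε / 2) (hAB : A ≤ B) (hε : 0 < ε) :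
    x ^ 2 + y ^ 2 ≤ (B + ε / 4) ^ 2 := by
  have h1 : x ^ 2 ≤ B ^ 2 := pow_le_pow_left₀ hx0 hxB 2
  have h2 : y ^ 2 ≤ r ^ 2 := sq_le_sq' (abs_le.1 hy).1 (abs_le.1 hy).2
  have h3 : A * ε / 2 ≤ B * ε / 2 := by gcongr
  have h4 : (B + ε / 4) ^ 2 = B ^ 2 + B * ε / 2 + (ε / 4) ^ 2 := by ring
  have h5 : 0 ≤ (ε / 4) ^ 2 := sq_nonneg _
  rw [h4]; linarith

theorem largeU {r ε c : ℝ} (hr : 0 < r) (hε : 0 < ε) (hε1 : ε ≤ 1) (hc : 0 < c) :
    ∃ c' C : ℝ, 0 < c' ∧ 1 ≤ C ∧ ∀ (ρ : ℂ) (H : ℝ), riemannZeta ρ = 0 → 1 / 2 ≤ ρ.re →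
      C ≤ |ρ.im| → C ≤ H → c * Real.log H ≤ rz r (ρ.re - ε) ρ →
      ∃ s : ℂ, ρ.re - 2 * ε ≤ s.re ∧ ‖s - ρ‖ ≤ C ∧ H ^ c' < ‖riemannZeta s‖ := by
  set A : ℝ := 2 * r ^ 2 / ε + 1 with hA
  have hA1 : 1 ≤ A := by
    have : 0 ≤ 2 * r ^ 2 / ε := by positivity
    rw [hA]; linarith
  have hAε : r ^ 2 ≤ A * ε / 2 := by
    rw [hA]
    have h1 : (2 * r ^ 2 / ε + 1) * ε / 2 = r ^ 2 + ε / 2 := by
      field_simp
    rw [h1]; linarith
  set D : ℝ := A + 1 + 2 * ε with hD
  have hD0 : 0 < D := by rw [hD]; linarith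
  set q : ℝ := 1 - 3 * ε / 4 / D with hq
  have hq1 : q < 1 := by
    have : 0 < 3 * ε / 4 / D := by positivity
    rw [hq]; linarith
  have hq0 : 0 < q := by
    have : 3 * ε / 4 / D < 1 := by
      rw [div_lt_one hD0, hD]; linarith
    rw [hq]; linarith
  obtain ⟨K, hK, hloc⟩ := loc_log (R0 := q / 2) (R1 := q) (R2 := 1) (by linarith) (by linarith)
    hq1
  set B : ℝ := |∑' n : ℕ, 1 / (n : ℝ) ^ (2 : ℝ)| + 1 with hB
  have hB1 : 1 ≤ B := by
    rw [hB]; linarith [abs_nonneg (∑' n : ℕ, 1 / (n : ℝ) ^ (2 : ℝ))]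
  have hlB : 0 ≤ Real.log B := Real.log_nonneg hB1
  refine ⟨c / (2 * K), max (2 * A + 5) (Real.exp (2 * K * (Real.log B + 1) / c + 1)),
    by positivity, le_trans (by linarith) (le_max_left _ _), ?_⟩
  intro ρ H hρ hre him hH hnear
  have hHA : 2 * A + 5 ≤ H := (le_max_left _ _).trans hH
  have hH0 : 0 < H := by linarith
  have him3 : 2 * A + 5 ≤ |ρ.im| := (le_max_left _ _).trans him
  have hlogH : 2 * K * (Real.log B + 1) / c + 1 ≤ Real.log H := by
    rw [Real.le_log_iff_exp_le hH0]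
    exact (le_max_right _ _).trans hH
  have hlogH0 : 0 < Real.log H := Real.log_pos (by linarith)
  have hre1 : ρ.re < 1 := re_lt_one hρ
  by_contra hcon
  push Not at hcon
  set s0 : ℂ := ((1 + A : ℝ) : ℂ) + ρ.im * I with hs0
  have hs0re : s0.re = 1 + A := by simp [hs0]
  have hs0im : s0.im = ρ.im := by simp [hs0]
  have hdist : ‖s0 - ρ‖ = 1 + A - ρ.re := by
    have h1 : s0 - ρ = ((1 + A - ρ.re : ℝ) : ℂ) := by
      apply Complex.ext
      · simp [hs0]
      · simp [hs0]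
    rw [h1, Complex.norm_real, Real.norm_eq_abs, abs_of_pos (by linarith)]
  have hζ0 : riemannZeta s0 ≠ 0 :=
    riemannZeta_ne_zero_of_one_le_re (by rw [hs0re]; linarith)
  have hζlow : 1 ≤ B * ‖riemannZeta s0‖ := by
    have h1 := norm_inv_riemannZeta_le (s := s0) (x := 2) (by norm_num) (by rw [hs0re]; linarith)
    have hpos : 0 < ‖riemannZeta s0‖ := norm_pos_iff.2 hζ0
    rw [norm_inv, inv_le_iff_one_le_mul₀ hpos] at h1
    refine h1.trans ?_
    gcongr
    rw [hB]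
    linarith [le_abs_self (∑' n : ℕ, 1 / (n : ℝ) ^ (2 : ℝ))]
  set Λ : ℝ := c / (2 * K) * Real.log H + Real.log B + 1 with hΛ
  have hΛ0 : 0 < Λ := by
    have : 0 < c / (2 * K) * Real.log H := by positivity
    rw [hΛ]; linarith
  have hexp : H ^ (c / (2 * K)) * B ≤ Real.exp Λ := by
    have hB0 : 0 < B := by linarith
    rw [hΛ, Real.exp_add, Real.exp_add, Real.exp_log hB0, Real.rpow_def_of_pos hH0,
      mul_comm (Real.log H)]
    have h1 : (1:ℝ) ≤ Real.exp 1 := Real.one_le_exp (by norm_num)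
    have h2 : 0 ≤ Real.exp (c / (2 * K) * Real.log H) * B := by positivity
    exact le_mul_of_one_le_right h2 h1
  set R : ℝ := A + 1 - ρ.re + 2 * ε with hR
  have hR0 : 0 < R := by rw [hR]; linarith
  have hRD : R ≤ D := by rw [hR, hD]; linarith
  have hqR : R - 3 * ε / 4 ≤ q * R := by
    have h1 : 3 * ε / 4 / D * R ≤ 3 * ε / 4 := by
      rw [div_mul_eq_mul_div, div_le_iff₀ hD0]
      gcongr
    rw [hq]; linarith
  have hball : ∀ z ∈ closedBall (0 : ℂ) 1, ‖(R : ℂ) * z‖ ≤ R := by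
    intro z hz
    rw [mem_closedBall, dist_zero_right] at hz
    rw [norm_mul, Complex.norm_real, Real.norm_eq_abs, abs_of_pos hR0]
    exact mul_le_of_le_one_right hR0.le hz
  have han : AnalyticOnNhd ℂ (fun z => riemannZeta (s0 + R * z)) (closedBall 0 1) := by
    intro z hz
    have hz1 := hball z hz
    have h1 : s0 + R * z ≠ 1 := by
      intro h
      have h2 : (R : ℂ) * z = 1 - s0 := by rw [← h]; ring
      have h3 := (abs_im_le_norm ((R : ℂ) * z)).trans hz1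
      rw [h2, sub_im, one_im, zero_sub, abs_neg, hs0im] at h3
      rw [hR] at h3
      linarith
    have h3 : DifferentiableOn ℂ riemannZeta {1}ᶜ := fun w hw =>
      (differentiableAt_riemannZeta hw).differentiableWithinAt
    have h4 : AnalyticAt ℂ riemannZeta (s0 + R * z) :=
      h3.analyticAt (isOpen_compl_singleton.mem_nhds h1)
    exact h4.comp_of_eq (analyticAt_const.add (analyticAt_const.mul analyticAt_id)) rfl
  have hbd : ∀ z ∈ closedBall (0 : ℂ) 1, ‖(fun z => riemannZeta (s0 + R * z)) z‖ ≤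
      Real.exp Λ * ‖(fun z => riemannZeta (s0 + R * z)) 0‖ := by
    intro z hz
    have hz1 := hball z hz
    simp only [mul_zero, add_zero]
    have h0 : ρ.re - 2 * ε ≤ (s0 + R * z).re := by
      rw [add_re, hs0re]
      have h5 := (abs_re_le_norm ((R : ℂ) * z)).trans hz1
      rw [abs_le] at h5
      rw [hR] at h5
      linarith [h5.1]
    have h1 : ‖s0 + R * z - ρ‖ ≤
        max (2 * A + 5) (Real.exp (2 * K * (Real.log B + 1) / c + 1)) := by
      refine le_trans ?_ (le_max_left _ _)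
      calc ‖s0 + R * z - ρ‖ = ‖(R * z) + (s0 - ρ)‖ := by congr 1; ring
        _ ≤ ‖(R : ℂ) * z‖ + ‖s0 - ρ‖ := norm_add_le _ _
        _ ≤ 2 * A + 5 := by rw [hdist]; rw [hR] at hz1; linarith
    have h2 := hcon _ h0 h1
    have hHp : 0 ≤ H ^ (c / (2 * K)) := by positivity
    calc ‖riemannZeta (s0 + R * z)‖ ≤ H ^ (c / (2 * K)) := h2
      _ = H ^ (c / (2 * K)) * 1 := by ring
      _ ≤ H ^ (c / (2 * K)) * (B * ‖riemannZeta s0‖) := by gcongr
      _ = H ^ (c / (2 * K)) * B * ‖riemannZeta s0‖ := by ring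
      _ ≤ _ := by gcongr
  obtain ⟨S, hS, hord, hsum, -⟩ := hloc (fun z => riemannZeta (s0 + R * z)) 0 Λ hΛ0 han
    (by simpa using hζ0) hbd
  have hRne : (R : ℂ) ≠ 0 := by exact_mod_cast hR0.ne'
  have hcard : (rz r (ρ.re - ε) ρ : ℝ) ≤ S.card := by
    have h1 : rz r (ρ.re - ε) ρ ≤ S.card := by
      unfold rz
      have hinj : Function.Injective (fun u : ℂ => (u - s0) / R) := by
        intro u v huv
        have h2 : (u - s0) / R = (v - s0) / R := huv
        rw [div_left_inj' hRne] at h2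
        exact sub_left_injective h2
      rw [← Set.ncard_coe_finset S, ← Set.ncard_image_of_injective _ hinj]
      refine Set.ncard_le_ncard ?_ S.finite_toSet
      rintro z ⟨u, ⟨hu, hure, hur⟩, rfl⟩
      rw [Finset.mem_coe, hS, mem_closedBall, dist_zero_right]
      constructor
      · simp only
        rw [norm_div, Complex.norm_real, Real.norm_eq_abs, abs_of_pos hR0, div_le_iff₀ hR0]
        refine le_trans ?_ hqR
        have hu1 : u.re < 1 := re_lt_one hu
        have h3 : ‖u - s0‖ ^ 2 ≤ (R - 3 * ε / 4) ^ 2 := by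
          have h5 : |u.im - ρ.im| ≤ r := by
            have h6 := (abs_im_le_norm (u - ρ)).trans hur
            rwa [sub_im] at h6
          have h7 := aux_sq (x := 1 + A - u.re) (B := A + 1 - ρ.re + ε) (by linarith)
            (by linarith) h5 hAε (by linarith) hε
          have h8 : R - 3 * ε / 4 = A + 1 - ρ.re + ε + ε / 4 := by rw [hR]; ring
          rw [Complex.sq_norm, Complex.normSq_apply, sub_re, sub_im, hs0re, hs0im, h8]
          refine le_trans (le_of_eq ?_) h7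
          ring
        have h4 : 0 ≤ R - 3 * ε / 4 := by rw [hR]; linarith
        exact (sq_le_sq₀ (norm_nonneg _) h4).1 h3
      · simp only
        have h3 : s0 + R * ((u - s0) / R) = u := by
          rw [mul_div_cancel₀ _ hRne]; ring
        rw [h3, hu]
    exact_mod_cast h1
  have hcard2 : (S.card : ℝ) ≤ K * Λ := by
    refine le_trans ?_ hsum
    have h1 : (S.card : ℝ) = ∑ u ∈ S, (1 : ℝ) := by simp
    rw [h1]
    refine Finset.sum_le_sum fun u hu => ?_
    exact_mod_cast hord u hu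
  have hfin : c * Real.log H ≤ K * Λ := hnear.trans (hcard.trans hcard2)
  have hKΛ : K * Λ = c / 2 * Real.log H + K * (Real.log B + 1) := by
    rw [hΛ]; field_simp; ring
  rw [hKΛ] at hfin
  have h9 : c * (2 * K * (Real.log B + 1) / c + 1) = 2 * K * (Real.log B + 1) + c := by
    field_simp
  have h10 : c * (2 * K * (Real.log B + 1) / c + 1) ≤ c * Real.log H := by gcongr
  rw [h9] at h10
  linarith

end Pool.Agent.H52.Unc
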