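import Mathlib
import Pool.Agent.H76.CR.ZFacts

/-!
# SpreadU: from separated ordinates to all zeros, with multiplicity, `Re ρ ≥ σ > 1/2`

As `H76/CR/Spread.lean` (copy), with `local_count` for `σ1' = 1/2 + (σ-1/2)/3 < σ' = 1/2 +
2(σ-1/2)/3 < σ`, which covers heights `|im - t| ≤ σ' - σ1'`, so a bounded number (depending on `σ`) of
values of `t` covers a unit interval; the constant `C` depends on `σ`.  About 130 lines.
-/

set_option autoImplicit false

open Complex

namespace Pool.Agent.H52.Unc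

open Pool.Agent.H6 Pool.Agent.H6.Win Pool.Agent.H76.CR

theorem spreadU {σ : ℝ} (hσ : 1 / 2 < σ) : ∃ C : ℝ, 0 < C ∧ ∀ (T H B : ℝ) (S : Finset ℂ),
    1 ≤ T → 0 ≤ H → 0 ≤ B →
    (∀ ρ ∈ S, riemannZeta ρ = 0 ∧ σ ≤ ρ.re ∧ T ≤ ρ.im ∧ ρ.im ≤ T + H) →
    (∀ X : Finset ℝ, (∀ x ∈ X, ∃ ρ ∈ S, ρ.im = x) → (∀ x ∈ X, ∀ y ∈ X, x ≠ y → 1 ≤ |x - y|) →
      (X.card : ℝ) ≤ B) →
    ∑ ρ ∈ S, (analyticOrderNatAt riemannZeta ρ : ℝ) ≤ C * B * Real.log (T + H + 3) := by
  classical
  -- the parameters
  set τ : ℝ := min σ 1 with hτ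
  have hτ1 : 1 / 2 < τ := lt_min hσ (by norm_num)
  have hτ2 : τ ≤ 1 := min_le_right _ _
  have hτσ : τ ≤ σ := min_le_left _ _
  set δ : ℝ := (τ - 1 / 2) / 3 with hδ
  have hδ0 : 0 < δ := by rw [hδ]; linarith
  obtain ⟨C, hC, hloc⟩ := local_count (σ1 := 1 / 2 + δ) (σ := 1 / 2 + 2 * δ) (by linarith)
    (by linarith) (by rw [hδ]; linarith)
  obtain ⟨m, hm⟩ := exists_nat_ge (1 / (2 * δ))
  have hmpos : (0 : ℝ) < m := lt_of_lt_of_le (by positivity) hm
  have hm1 : 1 ≤ m := by
    have : 0 < m := by exact_mod_cast hmpos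
    omega
  have hm1R : (1 : ℝ) ≤ m := by exact_mod_cast hm1
  have hmδ : 1 / (2 * (m : ℝ)) ≤ δ := by
    rw [div_le_iff₀ (by positivity)] at hm ⊢
    linarith
  set M : ℕ := 2 * m with hM
  have hMpos : (0 : ℤ) < (M : ℤ) := by rw [hM]; push_cast; omega
  have hMR : (M : ℝ) = 2 * m := by rw [hM]; push_cast; ring
  refine ⟨M * C, by rw [hMR]; positivity, ?_⟩
  intro T H B S hT hH hB hS hX
  set Lg : ℝ := Real.log (T + H + 3) with hLg
  have hLg0 : 0 ≤ Lg := Real.log_nonneg (by linarith)
  set φ : ℂ → ℤ := fun ρ => ⌊(m : ℝ) * ρ.im⌋ with hφ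
  have hfl : ∀ ρ : ℂ, (φ ρ : ℝ) ≤ m * ρ.im ∧ m * ρ.im < φ ρ + 1 := fun ρ =>
    ⟨Int.floor_le _, Int.lt_floor_add_one _⟩
  set Q : Finset ℤ := S.image φ with hQ
  have hch : ∀ q ∈ Q, ∃ ρ ∈ S, φ ρ = q := fun q hq => by
    rw [hQ, Finset.mem_image] at hq
    exact hq
  choose! f hf1 hf2 using hch
  -- the number of classes
  have hclass : ∀ r ∈ Finset.range M,
      ((Q.filter (fun q => q % (M : ℤ) = (r : ℤ))).card : ℝ) ≤ B := by
    intro r _
    have hsep : ∀ q ∈ Q.filter (fun q => q % (M : ℤ) = (r : ℤ)),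
        ∀ q' ∈ Q.filter (fun q => q % (M : ℤ) = (r : ℤ)), q < q' → 1 ≤ (f q').im - (f q).im := by
      intro q hq q' hq' hlt
      rw [Finset.mem_filter] at hq hq'
      have hdvd : (M : ℤ) ∣ q' - q := by
        have : q ≡ q' [ZMOD (M : ℤ)] := by
          unfold Int.ModEq
          rw [hq.2, hq'.2]
        exact this.dvd
      have hle : (M : ℤ) ≤ q' - q := Int.le_of_dvd (by omega) hdvd
      have h1 := (hfl (f q)).2
      have h2 := (hfl (f q')).1
      rw [hf2 q hq.1] at h1
      rw [hf2 q' hq'.1] at h2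
      have h3 : (2 * m : ℝ) ≤ q' - q := by
        rw [← hMR]
        exact_mod_cast hle
      have h4 : (m : ℝ) * 1 ≤ m * ((f q').im - (f q).im) := by
        rw [mul_sub]; linarith
      exact le_of_mul_le_mul_left h4 hmpos
    have hinj : Set.InjOn (fun q => (f q).im)
        (Q.filter (fun q => q % (M : ℤ) = (r : ℤ)) : Set ℤ) := by
      intro q hq q' hq' he
      rw [Finset.mem_coe] at hq hq'
      simp only at he
      rcases lt_trichotomy q q' with h | h | h
      · have := hsep q hq q' hq' h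
        linarith
      · exact h
      · have := hsep q' hq' q hq h
        linarith
    rw [← Finset.card_image_of_injOn hinj]
    apply hX
    · intro x hx
      rw [Finset.mem_image] at hx
      obtain ⟨q, hq, rfl⟩ := hx
      rw [Finset.mem_filter] at hq
      exact ⟨f q, hf1 q hq.1, rfl⟩
    · intro x hx y hy hne
      rw [Finset.mem_image] at hx hy
      obtain ⟨q, hq, rfl⟩ := hx
      obtain ⟨q', hq', rfl⟩ := hy
      rcases lt_trichotomy q q' with h | h | h
      · rw [abs_sub_comm]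
        exact (hsep q hq q' hq' h).trans (le_abs_self _)
      · exact absurd (by rw [h]) hne
      · exact (hsep q' hq' q hq h).trans (le_abs_self _)
  have hcard : (Q.card : ℝ) ≤ M * B := by
    have h1 : Q.card = ∑ r ∈ Finset.range M, (Q.filter (fun q => q % (M : ℤ) = (r : ℤ))).card := by
      have hmaps : ∀ q ∈ Q, (q % (M : ℤ)).toNat ∈ Finset.range M := by
        intro q _
        rw [Finset.mem_range]
        have h1 := Int.emod_nonneg q hMpos.ne'
        have h2 := Int.emod_lt_of_pos q hMpos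
        omega
      rw [Finset.card_eq_sum_card_fiberwise hmaps]
      refine Finset.sum_congr rfl fun r _ => ?_
      congr 1
      apply Finset.filter_congr
      intro q _
      have h1 := Int.emod_nonneg q hMpos.ne'
      constructor
      · intro h
        omega
      · intro h
        omega
    rw [h1]
    push_cast
    calc (∑ r ∈ Finset.range M, ((Q.filter (fun q => q % (M : ℤ) = (r : ℤ))).card : ℝ))
        ≤ ∑ r ∈ Finset.range M, B := Finset.sum_le_sum hclass
      _ = M * B := by simp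
  -- one fibre
  have hfib : ∀ q ∈ Q, ∑ ρ ∈ S.filter (fun ρ => φ ρ = q),
      (analyticOrderNatAt riemannZeta ρ : ℝ) ≤ C * Lg := by
    intro q hq
    set t : ℝ := (q + 1 / 2) / m with ht
    have hmt : (m : ℝ) * t = q + 1 / 2 := by rw [ht]; field_simp
    have h := hloc t (S.filter (fun ρ => φ ρ = q)) ?_
    · have hne : ∀ ρ ∈ S.filter (fun ρ => φ ρ = q), ρ ≠ 1 := by
        intro ρ hρ
        rw [Finset.mem_filter] at hρ
        rintro rfl
        have := (hS 1 hρ.1).2.2.1
        simp at this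
        linarith
      rw [Finset.sum_congr rfl (fun ρ hρ => by rw [← zord_eq (hne ρ hρ)])]
      refine h.trans ?_
      have h1 := hf1 q hq
      have h2 := hfl (f q)
      rw [hf2 q hq] at h2
      have h3 := (hS _ h1).2.2
      have ht0 : 0 ≤ t := by
        have : (m : ℝ) * 0 ≤ m * t := by
          rw [hmt]
          have h5 : (m : ℝ) * 1 ≤ m * (f q).im := by
            exact mul_le_mul_of_nonneg_left (by linarith) hmpos.le
          linarith
        exact le_of_mul_le_mul_left this hmpos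
      rw [abs_of_nonneg ht0, hLg]
      have h4 : t + 2 ≤ T + H + 3 := by
        have : (m : ℝ) * (t - 1) ≤ m * (T + H) := by
          have h5 : (m : ℝ) * (f q).im ≤ m * (T + H) :=
            mul_le_mul_of_nonneg_left h3.2 hmpos.le
          rw [mul_sub, hmt]
          linarith
        have := le_of_mul_le_mul_left this hmpos
        linarith
      have h5 : Real.log (t + 2) ≤ Real.log (T + H + 3) := Real.log_le_log (by linarith) h4
      exact mul_le_mul_of_nonneg_left h5 hC.le
    · intro u hu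
      rw [Finset.mem_filter] at hu
      obtain ⟨a1, a2, a3, a4⟩ := hS u hu.1
      have h2 := hfl u
      rw [hu.2] at h2
      refine ⟨by rw [hδ]; linarith, ?_, ?_⟩
      · have h6 : 1 / 2 + 2 * δ - (1 / 2 + δ) = δ := by ring
        rw [h6]
        refine le_trans ?_ hmδ
        have h7 : (m : ℝ) * |u.im - t| ≤ 1 / 2 := by
          rw [← abs_of_pos hmpos, ← abs_mul, mul_sub, hmt, abs_le]
          constructor <;> linarith
        rw [le_div_iff₀ (by positivity)]
        linarith
      · have hu1 : u ≠ 1 := by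
          rintro rfl
          simp at a3
          linarith
        exact (zetaPole_eq_zero_iff hu1).2 a1
  calc ∑ ρ ∈ S, (analyticOrderNatAt riemannZeta ρ : ℝ)
      = ∑ q ∈ Q, ∑ ρ ∈ S.filter (fun ρ => φ ρ = q), (analyticOrderNatAt riemannZeta ρ : ℝ) :=
        (Finset.sum_fiberwise_of_maps_to (fun ρ hρ => Finset.mem_image_of_mem φ hρ) _).symm
    _ ≤ ∑ q ∈ Q, C * Lg := Finset.sum_le_sum hfib
    _ = Q.card * (C * Lg) := by rw [Finset.sum_const, nsmul_eq_mul]
    _ ≤ M * B * (C * Lg) := by gcongr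
    _ = M * C * B * Lg := by ring

end Pool.Agent.H52.Unc
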