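import Mathlib

/-!
# Halasz: Halász's inequality for separated points, weights `1/n`

Choose `η x` with `‖η x‖ ≤ 1` and `∑_x ‖F x‖ = ∑_x η x F x`, `F x = ∑ b n n^(-ix)`.  Exchange the sums:
`= ∑_n (√n b n) (1/√n) ∑_x η x n^(-ix)`; Cauchy-Schwarz gives
`(∑ ‖F x‖)² ≤ (∑ n ‖b n‖²) ∑_n (1/n) ‖∑_x η x n^(-ix)‖²`, and the last sum is
`∑_{x,y} η x conj(η y) ∑_n n^(-1) n^(-i(x-y)) ≤ ∑_{x,y} ‖∑_n n^(-1-i(x-y))‖`.
Diagonal: `∑_{n ≤ N2} 1/n ≤ 1 + log N2 ≤ G` each.  Off the diagonal `hgram`; for fixed `x`,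
`∑_{y ≠ x} 1/|x-y| ≤ 2 (1 + log H)` (the points `y > x` satisfy `m ≤ y - x < m + 1` for distinct
`m = 1, ..., ⌊H⌋`: `⌊y - x⌋` is injective on them by separation; harmonic sum).  About 140 lines.
-/

set_option autoImplicit false

open Complex

namespace Pool.Agent.H52.Unc

private theorem e_eq (n : ℕ) (hn : 1 ≤ n) (x : ℝ) :
    (n : ℂ) ^ (-(x * I)) = cexp (((-(x * Real.log n) : ℝ) : ℂ) * I) := by
  have hn0 : (n : ℂ) ≠ 0 := by
    have : n ≠ 0 := by omega
    exact_mod_cast this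
  rw [cpow_def_of_ne_zero hn0, ← natCast_log]
  congr 1
  push_cast
  ring

private theorem e_mul (n : ℕ) (hn : 1 ≤ n) (x y : ℝ) :
    (n : ℂ) ^ (-(x * I)) * (starRingEnd ℂ) ((n : ℂ) ^ (-(y * I))) =
      (n : ℂ) ^ (-(((x - y : ℝ) : ℂ) * I)) := by
  rw [e_eq n hn, e_eq n hn, e_eq n hn, ← Complex.exp_conj, map_mul, conj_ofReal, conj_I,
    ← Complex.exp_add]
  congr 1
  push_cast
  ring

/-- half of the harmonic sum over separated points -/
private theorem half {H : ℝ} (hH : 1 ≤ H) (Y : Finset ℝ) (hY : ∀ y ∈ Y, 1 ≤ y ∧ y ≤ H)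
    (hsep : ∀ x ∈ Y, ∀ y ∈ Y, x ≠ y → 1 ≤ |x - y|) : ∑ y ∈ Y, 1 / y ≤ 1 + Real.log H := by
  have hinj : Set.InjOn (fun y : ℝ => ⌊y⌋₊) (Y : Set ℝ) := by
    intro x hx y hy hxy
    by_contra hne
    have h1 := hsep x hx y hy hne
    have hx0 : 0 ≤ x := by linarith [(hY x hx).1]
    have hy0 : 0 ≤ y := by linarith [(hY y hy).1]
    have a1 := Nat.floor_le hx0
    have a2 := Nat.lt_floor_add_one x
    have b1 := Nat.floor_le hy0
    have b2 := Nat.lt_floor_add_one y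
    simp only at hxy
    rw [hxy] at a1 a2
    have : |x - y| < 1 := by
      rw [abs_lt]
      constructor <;> linarith
    linarith
  calc ∑ y ∈ Y, 1 / y ≤ ∑ y ∈ Y, ((⌊y⌋₊ : ℝ))⁻¹ := by
        apply Finset.sum_le_sum
        intro y hy
        rw [one_div]
        have hf : 1 ≤ ⌊y⌋₊ := Nat.le_floor (by push_cast; exact (hY y hy).1)
        have : (0 : ℝ) < ⌊y⌋₊ := by exact_mod_cast hf
        exact inv_anti₀ this (Nat.floor_le (by linarith [(hY y hy).1]))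
    _ = ∑ m ∈ Y.image (fun y : ℝ => ⌊y⌋₊), ((m : ℝ))⁻¹ := by
        rw [Finset.sum_image]
        intro x hx y hy h
        exact hinj hx hy h
    _ ≤ ∑ m ∈ Finset.Icc 1 ⌊H⌋₊, ((m : ℝ))⁻¹ := by
        apply Finset.sum_le_sum_of_subset_of_nonneg
        · intro m hm
          rw [Finset.mem_image] at hm
          obtain ⟨y, hy, rfl⟩ := hm
          rw [Finset.mem_Icc]
          exact ⟨Nat.le_floor (by push_cast; exact (hY y hy).1), Nat.floor_le_floor (hY y hy).2⟩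
        · intro m _ _
          positivity
    _ = ((harmonic ⌊H⌋₊ : ℚ) : ℝ) := by
        rw [harmonic_eq_sum_Icc]
        push_cast
        rfl
    _ ≤ 1 + Real.log H := harmonic_floor_le_one_add_log H hH

private theorem both {T H : ℝ} (hH : 1 ≤ H) (X : Finset ℝ) (hX : ∀ x ∈ X, T ≤ x ∧ x ≤ T + H)
    (hsep : ∀ x ∈ X, ∀ y ∈ X, x ≠ y → 1 ≤ |x - y|) (x : ℝ) (hx : x ∈ X) :
    ∑ y ∈ X.erase x, 1 / |x - y| ≤ 2 * (1 + Real.log H) := by
  classical
  rw [← Finset.sum_filter_add_sum_filter_not (X.erase x) (fun y => x < y)]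
  have h1 : ∑ y ∈ (X.erase x).filter (fun y => x < y), 1 / |x - y| ≤ 1 + Real.log H := by
    have := half hH (((X.erase x).filter (fun y => x < y)).image (fun y => y - x)) ?_ ?_
    · rw [Finset.sum_image (fun a _ b _ h => by simpa using h)] at this
      refine le_trans (le_of_eq ?_) this
      apply Finset.sum_congr rfl
      intro y hy
      rw [Finset.mem_filter] at hy
      rw [abs_of_nonpos (by linarith), neg_sub]
    · intro z hz
      rw [Finset.mem_image] at hz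
      obtain ⟨y, hy, rfl⟩ := hz
      rw [Finset.mem_filter, Finset.mem_erase] at hy
      have h2 := hsep x hx y hy.1.2 (Ne.symm hy.1.1)
      rw [abs_of_nonpos (by linarith), neg_sub] at h2
      exact ⟨h2, by linarith [(hX x hx).1, (hX y hy.1.2).2]⟩
    · intro z hz z' hz' hne
      rw [Finset.mem_image] at hz hz'
      obtain ⟨y, hy, rfl⟩ := hz
      obtain ⟨y', hy', rfl⟩ := hz'
      rw [Finset.mem_filter, Finset.mem_erase] at hy hy'
      have h3 : y ≠ y' := fun h => hne (by rw [h])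
      have := hsep y hy.1.2 y' hy'.1.2 h3
      have h4 : y - x - (y' - x) = y - y' := by ring
      rwa [h4]
  have h2 : ∑ y ∈ (X.erase x).filter (fun y => ¬ x < y), 1 / |x - y| ≤ 1 + Real.log H := by
    have := half hH (((X.erase x).filter (fun y => ¬ x < y)).image (fun y => x - y)) ?_ ?_
    · rw [Finset.sum_image (fun a _ b _ h => by simpa using h)] at this
      refine le_trans (le_of_eq ?_) this
      apply Finset.sum_congr rfl
      intro y hy
      rw [Finset.mem_filter] at hy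
      rw [abs_of_nonneg (by linarith [not_lt.1 hy.2])]
    · intro z hz
      rw [Finset.mem_image] at hz
      obtain ⟨y, hy, rfl⟩ := hz
      rw [Finset.mem_filter, Finset.mem_erase] at hy
      have h2 := hsep x hx y hy.1.2 (Ne.symm hy.1.1)
      rw [abs_of_nonneg (by linarith [not_lt.1 hy.2])] at h2
      exact ⟨h2, by linarith [(hX x hx).2, (hX y hy.1.2).1]⟩
    · intro z hz z' hz' hne
      rw [Finset.mem_image] at hz hz'
      obtain ⟨y, hy, rfl⟩ := hz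
      obtain ⟨y', hy', rfl⟩ := hz'
      rw [Finset.mem_filter, Finset.mem_erase] at hy hy'
      have h3 : y' ≠ y := fun h => hne (by rw [h])
      have := hsep y' hy'.1.2 y hy.1.2 h3
      have h4 : x - y - (x - y') = y' - y := by ring
      rwa [h4]
  linarith

theorem halasz {N1 N2 : ℕ} (h1 : 1 ≤ N1) (b : ℕ → ℂ) (X : Finset ℝ) {T H G g : ℝ} (hH : 1 ≤ H)
    (hG : 1 + Real.log N2 ≤ G) (hg : 0 ≤ g) (hX : ∀ x ∈ X, T ≤ x ∧ x ≤ T + H)
    (hsep : ∀ x ∈ X, ∀ y ∈ X, x ≠ y → 1 ≤ |x - y|)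
    (hgram : ∀ u : ℝ, 1 ≤ |u| → |u| ≤ H →
      ‖∑ n ∈ Finset.Icc N1 N2, (n : ℂ)⁻¹ * (n : ℂ) ^ (-(u * I))‖ ≤ G * (1 / |u| + g)) :
    (∑ x ∈ X, ‖∑ n ∈ Finset.Icc N1 N2, b n * (n : ℂ) ^ (-(x * I))‖) ^ 2 ≤
      (∑ n ∈ Finset.Icc N1 N2, (n : ℝ) * ‖b n‖ ^ 2) *
        (G * (X.card * (3 + 2 * Real.log H) + (X.card : ℝ) ^ 2 * g)) := by
  classical
  set S := Finset.Icc N1 N2 with hS
  set F : ℝ → ℂ := fun x => ∑ n ∈ S, b n * (n : ℂ) ^ (-(x * I)) with hF
  have hn1 : ∀ n ∈ S, 1 ≤ n := fun n hn => h1.trans (Finset.mem_Icc.1 hn).1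
  have hG0 : 0 ≤ G := by
    have := Real.log_natCast_nonneg N2
    linarith
  -- unimodular factors
  set η : ℝ → ℂ := fun x => if F x = 0 then 0 else (starRingEnd ℂ) (F x) / ‖F x‖ with hη
  have hη1 : ∀ x, ‖η x‖ ≤ 1 := by
    intro x
    simp only [hη]
    split_ifs with h
    · simp
    · rw [norm_div, RCLike.norm_conj, Complex.norm_real, norm_norm, div_self (norm_ne_zero_iff.2 h)]
  have hηF : ∀ x, η x * F x = (‖F x‖ : ℂ) := by
    intro x
    simp only [hη]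
    split_ifs with h
    · simp [h]
    · have h2 : (‖F x‖ : ℂ) ≠ 0 := by exact_mod_cast norm_ne_zero_iff.2 h
      rw [div_mul_eq_mul_div, mul_comm, Complex.mul_conj, Complex.normSq_eq_norm_sq]
      push_cast
      field_simp
  set A : ℕ → ℂ := fun n => ∑ x ∈ X, η x * (n : ℂ) ^ (-(x * I)) with hA
  have hsum : ((∑ x ∈ X, ‖F x‖ : ℝ) : ℂ) = ∑ n ∈ S, b n * A n := by
    push_cast
    calc ∑ x ∈ X, (‖F x‖ : ℂ) = ∑ x ∈ X, η x * F x := Finset.sum_congr rfl fun x _ => (hηF x).symm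
      _ = ∑ x ∈ X, ∑ n ∈ S, b n * (η x * (n : ℂ) ^ (-(x * I))) := by
          apply Finset.sum_congr rfl
          intro x _
          rw [hF, Finset.mul_sum]
          apply Finset.sum_congr rfl
          intro n _
          ring
      _ = ∑ n ∈ S, ∑ x ∈ X, b n * (η x * (n : ℂ) ^ (-(x * I))) := Finset.sum_comm
      _ = _ := by
          apply Finset.sum_congr rfl
          intro n _
          rw [hA, Finset.mul_sum]
  have hle : ∑ x ∈ X, ‖F x‖ ≤ ∑ n ∈ S, ‖b n‖ * ‖A n‖ := by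
    have h2 : 0 ≤ ∑ x ∈ X, ‖F x‖ := Finset.sum_nonneg fun x _ => norm_nonneg _
    have h3 : ‖((∑ x ∈ X, ‖F x‖ : ℝ) : ℂ)‖ = ∑ x ∈ X, ‖F x‖ := by
      rw [Complex.norm_real, Real.norm_of_nonneg h2]
    rw [← h3, hsum]
    refine (norm_sum_le _ _).trans (le_of_eq ?_)
    exact Finset.sum_congr rfl fun n _ => norm_mul _ _
  -- Cauchy-Schwarz
  have hcs : (∑ n ∈ S, ‖b n‖ * ‖A n‖) ^ 2 ≤
      (∑ n ∈ S, (n : ℝ) * ‖b n‖ ^ 2) * ∑ n ∈ S, ‖A n‖ ^ 2 / n := by
    have h2 := Finset.sum_mul_sq_le_sq_mul_sq S (fun n => √(n : ℝ) * ‖b n‖)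
      (fun n => ‖A n‖ / √(n : ℝ))
    have h3 : ∀ n ∈ S, √(n : ℝ) * ‖b n‖ * (‖A n‖ / √(n : ℝ)) = ‖b n‖ * ‖A n‖ := by
      intro n hn
      have : (0 : ℝ) < n := by exact_mod_cast hn1 n hn
      have h4 : √(n : ℝ) ≠ 0 := (Real.sqrt_pos.2 this).ne'
      field_simp
    have h5 : ∀ n ∈ S, (√(n : ℝ) * ‖b n‖) ^ 2 = (n : ℝ) * ‖b n‖ ^ 2 := by
      intro n _
      rw [mul_pow, Real.sq_sqrt (Nat.cast_nonneg n)]
    have h6 : ∀ n ∈ S, (‖A n‖ / √(n : ℝ)) ^ 2 = ‖A n‖ ^ 2 / n := by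
      intro n _
      rw [div_pow, Real.sq_sqrt (Nat.cast_nonneg n)]
    rw [Finset.sum_congr rfl h3, Finset.sum_congr rfl h5, Finset.sum_congr rfl h6] at h2
    exact h2
  -- the Gram sum
  set Γ : ℝ → ℂ := fun u => ∑ n ∈ S, (n : ℂ)⁻¹ * (n : ℂ) ^ (-(u * I)) with hΓ
  have hgr : ∑ n ∈ S, ‖A n‖ ^ 2 / n ≤ ∑ x ∈ X, ∑ y ∈ X, ‖Γ (x - y)‖ := by
    have h2 : ((∑ n ∈ S, ‖A n‖ ^ 2 / n : ℝ) : ℂ) =
        ∑ x ∈ X, ∑ y ∈ X, η x * (starRingEnd ℂ) (η y) * Γ (x - y) := by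
      push_cast
      have h3 : ∀ n ∈ S, (‖A n‖ : ℂ) ^ 2 / n = ∑ x ∈ X, ∑ y ∈ X,
          η x * (starRingEnd ℂ) (η y) * ((n : ℂ)⁻¹ * (n : ℂ) ^ (-(((x - y : ℝ) : ℂ) * I))) := by
        intro n hn
        have h4 : (‖A n‖ : ℂ) ^ 2 = A n * (starRingEnd ℂ) (A n) := by
          rw [Complex.mul_conj, Complex.normSq_eq_norm_sq]
          push_cast
          rfl
        rw [h4, hA]
        simp only
        rw [map_sum, Finset.sum_mul_sum, Finset.sum_div]
        apply Finset.sum_congr rfl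
        intro x _
        rw [Finset.sum_div]
        apply Finset.sum_congr rfl
        intro y _
        rw [map_mul, ← e_mul n (hn1 n hn) x y]
        ring
      rw [Finset.sum_congr rfl h3, Finset.sum_comm]
      apply Finset.sum_congr rfl
      intro x _
      rw [Finset.sum_comm]
      apply Finset.sum_congr rfl
      intro y _
      rw [hΓ, Finset.mul_sum]
    have h0 : 0 ≤ ∑ n ∈ S, ‖A n‖ ^ 2 / (n : ℝ) := Finset.sum_nonneg fun n _ => by positivity
    calc ∑ n ∈ S, ‖A n‖ ^ 2 / (n : ℝ) = ‖((∑ n ∈ S, ‖A n‖ ^ 2 / n : ℝ) : ℂ)‖ := by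
          rw [Complex.norm_real, Real.norm_of_nonneg h0]
      _ ≤ ∑ x ∈ X, ∑ y ∈ X, ‖η x * (starRingEnd ℂ) (η y) * Γ (x - y)‖ := by
          rw [h2]
          exact (norm_sum_le _ _).trans (Finset.sum_le_sum fun x _ => norm_sum_le _ _)
      _ ≤ _ := by
          apply Finset.sum_le_sum
          intro x _
          apply Finset.sum_le_sum
          intro y _
          rw [norm_mul, norm_mul, RCLike.norm_conj]
          calc ‖η x‖ * ‖η y‖ * ‖Γ (x - y)‖ ≤ 1 * 1 * ‖Γ (x - y)‖ := by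
                gcongr
                · exact hη1 x
                · exact hη1 y
            _ = _ := by ring
  have hΓ0 : ‖Γ 0‖ ≤ G := by
    refine le_trans ?_ hG
    calc ‖Γ 0‖ ≤ ∑ n ∈ S, ((n : ℝ))⁻¹ := by
          refine (norm_sum_le _ _).trans (le_of_eq ?_)
          apply Finset.sum_congr rfl
          intro n hn
          simp
      _ ≤ ∑ n ∈ Finset.Icc 1 N2, ((n : ℝ))⁻¹ := by
          refine Finset.sum_le_sum_of_subset_of_nonneg (Finset.Icc_subset_Icc_left h1) ?_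
          intro n _ _
          positivity
      _ = ((harmonic N2 : ℚ) : ℝ) := by
          rw [harmonic_eq_sum_Icc]
          push_cast
          rfl
      _ ≤ _ := harmonic_le_one_add_log N2
  have hrow : ∀ x ∈ X, ∑ y ∈ X, ‖Γ (x - y)‖ ≤
      G * (3 + 2 * Real.log H) + G * (X.card * g) := by
    intro x hx
    rw [← Finset.add_sum_erase X _ hx, sub_self]
    have h2 : ∑ y ∈ X.erase x, ‖Γ (x - y)‖ ≤ ∑ y ∈ X.erase x, (G * (1 / |x - y|) + G * g) := by
      apply Finset.sum_le_sum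
      intro y hy
      rw [Finset.mem_erase] at hy
      have h3 := hsep x hx y hy.2 (Ne.symm hy.1)
      have h4 : |x - y| ≤ H := by
        rw [abs_le]
        constructor
        · linarith [(hX x hx).1, (hX y hy.2).2]
        · linarith [(hX x hx).2, (hX y hy.2).1]
      have h5 := hgram (x - y) h3 h4
      rw [mul_add] at h5
      exact h5
    rw [Finset.sum_add_distrib, ← Finset.mul_sum, Finset.sum_const, nsmul_eq_mul] at h2
    have h6 := both hH X hX hsep x hx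
    have h7 : G * ∑ y ∈ X.erase x, 1 / |x - y| ≤ G * (2 * (1 + Real.log H)) :=
      mul_le_mul_of_nonneg_left h6 hG0
    have h8 : ((X.erase x).card : ℝ) * (G * g) ≤ X.card * (G * g) := by
      apply mul_le_mul_of_nonneg_right _ (by positivity)
      exact_mod_cast Finset.card_erase_le
    calc ‖Γ 0‖ + ∑ y ∈ X.erase x, ‖Γ (x - y)‖ ≤
        G + (G * (2 * (1 + Real.log H)) + X.card * (G * g)) := by linarith
      _ = _ := by ring
  have htot : ∑ n ∈ S, ‖A n‖ ^ 2 / n ≤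
      G * (X.card * (3 + 2 * Real.log H) + (X.card : ℝ) ^ 2 * g) := by
    refine hgr.trans ((Finset.sum_le_sum hrow).trans (le_of_eq ?_))
    rw [Finset.sum_const, nsmul_eq_mul]
    ring
  have hD0 : 0 ≤ ∑ n ∈ S, (n : ℝ) * ‖b n‖ ^ 2 := Finset.sum_nonneg fun n _ => by positivity
  calc (∑ x ∈ X, ‖F x‖) ^ 2 ≤ (∑ n ∈ S, ‖b n‖ * ‖A n‖) ^ 2 := by
        apply pow_le_pow_left₀ (Finset.sum_nonneg fun x _ => norm_nonneg _) hle
    _ ≤ _ := hcs
    _ ≤ _ := mul_le_mul_of_nonneg_left htot hD0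

end Pool.Agent.H52.Unc
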