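import Mathlib

/-!
# The three density bounds
-/

set_option autoImplicit false

namespace Pool.Agent.H52.Unc

/-- The density bounds at abscissa `σ` for windows of length `H`: `n ≤ H^(2(1-σ)+ε)`;
`n ≤ H^((1-σ)/(2σ-1)+ε)` if `σ > 3/4`; `n ≤ H^(ε(1-σ))` if `σ ≥ σ2`. -/
def DensityBounds (ε σ2 σ H n : ℝ) : Prop :=
  n ≤ H ^ (2 * (1 - σ) + ε) ∧ (3 / 4 < σ → n ≤ H ^ ((1 - σ) / (2 * σ - 1) + ε)) ∧
    (σ2 ≤ σ → n ≤ H ^ (ε * (1 - σ)))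

end Pool.Agent.H52.Unc
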