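import Mathlib
import Pool.Agent.H76.CR.Defs
import Pool.Agent.H6.Win.Hfun

/-!
# HlocU: the regularised logarithmic derivative on a large disc around `1 + a + it`

As `H76/CR/Hloc.lean` (a copy of `exists_H` of `H6/Win/Hfun.lean`), but with centre
`c = pt a t = 1 + a + it` and radii `R0 = a+1-σ1 < R1 = a+1-m < R2 = a+1/2`, `m = (1/2+σ1)/2`,
so that everything happens in `Re ≥ 1/2`.

Zeros and bound off the zeros: `loc_log` (`H6/Win/LocLog.lean`) for `f = zetaPole`, centre `c`,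
`Λ = D log(|t|+2)`: `norm_zetaPole_le` gives `‖zetaPole z‖ ≤ 2 (1+‖z‖)^2 ≤ 2 (|t| + 2a + 4)^2` on
`closedBall c R2`, and `‖zetaPole c‖ = ‖c-1‖ ‖ζ(c)‖ ≥ a / K0`, `K0 = ∑ n^(-(1+a))`
(`norm_inv_riemannZeta_le`, see the proof of `zetaPole_ratio` in `H6/Win/ZetaLoc.lean`).
The analytic function: `exists_factor` on `closedBall c R2`, put the factors of the zeros in
`closedBall c R1` aside (`order_eq_of_factor`), `H = -(deriv g1 / g1)`; it is analytic on
`closedBall c R1`, equals `hline S` off the zeros, and the bound extends to all points of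
`closedBall c R0` by continuity (`zetaPole_eventually_ne`).
-/

set_option autoImplicit false

open Complex Metric Filter Topology Set

namespace Pool.Agent.H52.Unc

open Pool.Agent.H6 Pool.Agent.H6.Win Pool.Agent.H76.CR

/-- size of `zetaPole` compared with its value at `1 + a + it`. -/
private lemma ratioU {a : ℝ} (ha : 0 < a) : ∃ K : ℝ, 1 ≤ K ∧ ∀ t : ℝ,
    ∀ z ∈ closedBall (pt a t) (a + 1 / 2),
    ‖zetaPole z‖ ≤ K * (|t| + 2) ^ 2 * ‖zetaPole (pt a t)‖ := by
  set K0 : ℝ := ∑' n : ℕ, 1 / (n : ℝ) ^ (1 + a) with hK0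
  have hK00 : 0 ≤ K0 := tsum_nonneg fun n => by positivity
  refine ⟨max 1 (2 * (a + 2) ^ 2 * (K0 / a)), le_max_left _ _, fun t z hz => ?_⟩
  set c : ℂ := pt a t with hc
  have hcre : c.re = 1 + a := by rw [hc, pt]; simp
  have hcim : c.im = t := by rw [hc, pt]; simp
  rw [mem_closedBall, dist_eq_norm] at hz
  have hre : 1 / 2 ≤ z.re := by
    have h1 := (Complex.abs_re_le_norm (z - c)).trans hz
    rw [Complex.sub_re, hcre, abs_le] at h1
    linarith [h1.1]
  have h1 := norm_zetaPole_le hre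
  have ht := abs_nonneg t
  have hcn : ‖c‖ ≤ 1 + a + |t| := by
    have h2 := Complex.norm_le_abs_re_add_abs_im c
    rw [hcre, hcim, abs_of_pos (by linarith : (0:ℝ) < 1 + a)] at h2
    exact h2
  have hz2 : ‖z‖ ≤ |t| + 2 * a + 3 / 2 := by
    calc ‖z‖ = ‖(z - c) + c‖ := by ring_nf
      _ ≤ ‖z - c‖ + ‖c‖ := norm_add_le _ _
      _ ≤ |t| + 2 * a + 3 / 2 := by linarith
  have h2 : ‖zetaPole z‖ ≤ 2 * ((a + 2) ^ 2 * (|t| + 2) ^ 2) := by
    refine h1.trans ?_
    have h7 := norm_nonneg z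
    have h8 : 1 + ‖z‖ ≤ (a + 2) * (|t| + 2) := by nlinarith
    have h9 : (1 + ‖z‖) ^ 2 ≤ ((a + 2) * (|t| + 2)) ^ 2 := by gcongr
    rw [mul_pow] at h9
    linarith
  have h3 := norm_inv_riemannZeta_le (s := c) (x := 1 + a) (by linarith) (by rw [hcre])
  have hcne : c ≠ 1 := by
    intro h; rw [h] at hcre; simp at hcre; linarith
  have hζ : riemannZeta c ≠ 0 := riemannZeta_ne_zero_of_one_le_re (by rw [hcre]; linarith)
  have h4 : zetaPole c = (c - 1) * riemannZeta c := by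
    unfold zetaPole
    rw [Function.update_of_ne hcne]
  have h5 : a ≤ ‖c - 1‖ := by
    have := Complex.abs_re_le_norm (c - 1)
    rw [Complex.sub_re, hcre, Complex.one_re] at this
    have h6 : |1 + a - 1| = a := by rw [add_sub_cancel_left, abs_of_pos ha]
    rw [h6] at this
    exact this
  have h6 : 1 ≤ K0 / a * ‖zetaPole c‖ := by
    rw [h4, norm_mul]
    rw [norm_inv] at h3
    have hpos : 0 < ‖riemannZeta c‖ := norm_pos_iff.2 hζ
    have h7 : 1 ≤ K0 * ‖riemannZeta c‖ := by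
      rw [inv_le_iff_one_le_mul₀ hpos] at h3
      exact h3
    have h8 : K0 * ‖riemannZeta c‖ = a * (K0 / a * ‖riemannZeta c‖) := by
      field_simp
    have h9 : 0 ≤ K0 / a * ‖riemannZeta c‖ := by positivity
    calc (1:ℝ) ≤ a * (K0 / a * ‖riemannZeta c‖) := by rw [← h8]; exact h7
      _ ≤ ‖c - 1‖ * (K0 / a * ‖riemannZeta c‖) := mul_le_mul_of_nonneg_right h5 h9
      _ = _ := by ring
  calc ‖zetaPole z‖ ≤ 2 * ((a + 2) ^ 2 * (|t| + 2) ^ 2) := h2
    _ = 2 * ((a + 2) ^ 2 * (|t| + 2) ^ 2) * 1 := by ring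
    _ ≤ 2 * ((a + 2) ^ 2 * (|t| + 2) ^ 2) * (K0 / a * ‖zetaPole c‖) := by gcongr
    _ = 2 * (a + 2) ^ 2 * (K0 / a) * (|t| + 2) ^ 2 * ‖zetaPole c‖ := by ring
    _ ≤ max 1 (2 * (a + 2) ^ 2 * (K0 / a)) * (|t| + 2) ^ 2 * ‖zetaPole c‖ := by
        gcongr
        exact le_max_right _ _

private theorem zeta_locU {a R0 R1 : ℝ} (ha : 0 < a) (h0 : 0 < R0) (h01 : R0 < R1)
    (h12 : R1 < a + 1 / 2) :
    ∃ C : ℝ, 0 < C ∧ ∀ t : ℝ, ∃ S : Finset ℂ,
      (∀ u, u ∈ S ↔ (u ∈ closedBall (pt a t) R1 ∧ zetaPole u = 0)) ∧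
      (∀ u ∈ S, 1 ≤ zord u) ∧
      (∑ u ∈ S, (zord u : ℝ)) ≤ C * Real.log (|t| + 2) ∧
      ∀ z ∈ closedBall (pt a t) R0, zetaPole z ≠ 0 →
        ‖deriv zetaPole z / zetaPole z - ∑ u ∈ S, (zord u : ℂ) / (z - u)‖ ≤
          C * Real.log (|t| + 2) := by
  obtain ⟨C, hC, hmain⟩ := loc_log (R0 := R0) (R1 := R1) (R2 := a + 1 / 2) h0 h01 h12
  obtain ⟨K, hK1, hK⟩ := ratioU ha
  have hl2 : 0 < Real.log 2 := Real.log_pos (by norm_num)
  set D : ℝ := Real.log K / Real.log 2 + 2 with hD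
  have hDpos : 0 < D := by
    have : 0 ≤ Real.log K := Real.log_nonneg hK1
    positivity
  refine ⟨C * D, by positivity, fun t => ?_⟩
  have ht := abs_nonneg t
  set x : ℝ := |t| + 2 with hx
  have hx2 : 2 ≤ x := by rw [hx]; linarith
  have hlx : 0 < Real.log x := log_two_add_pos t
  have hbound : K * x ^ 2 ≤ Real.exp (D * Real.log x) := by
    have e1 : Real.exp (D * Real.log x) = Real.exp (Real.log K / Real.log 2 * Real.log x) *
        x ^ 2 := by
      rw [hD, add_mul, Real.exp_add]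
      congr 1
      rw [← Real.exp_log (show (0:ℝ) < x ^ 2 by positivity), Real.log_pow]
      norm_num
    rw [e1]
    have e2 : K ≤ Real.exp (Real.log K / Real.log 2 * Real.log x) := by
      have : Real.log K ≤ Real.log K / Real.log 2 * Real.log x := by
        rw [div_mul_eq_mul_div, le_div_iff₀ hl2]
        have := Real.log_nonneg hK1
        have := Real.log_le_log (by norm_num) hx2
        gcongr
      calc K = Real.exp (Real.log K) := (Real.exp_log (by linarith)).symm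
        _ ≤ _ := Real.exp_le_exp.2 this
    gcongr
  obtain ⟨S, hS1, hS2, hS3, hS4⟩ := hmain zetaPole (pt a t) (D * Real.log x) (by positivity)
    (fun z _ => zetaPole_analyticAt z)
    (zetaPole_ne_zero_of_one_le (by rw [pt]; simp; linarith))
    (fun z hz => (hK t z hz).trans (by gcongr))
  refine ⟨S, hS1, hS2, hS3.trans (le_of_eq (by ring)), fun z hz hne => (hS4 z hz hne).trans
    (le_of_eq (by ring))⟩

theorem exists_HlocU {a σ1 : ℝ} (ha : 0 < a) (hσ1 : 1 / 2 < σ1) (hσ2 : σ1 < 1) :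
    ∃ C : ℝ, 0 < C ∧ ∀ t : ℝ, ∃ (S : Finset ℂ) (H : ℂ → ℂ),
    (∀ u, u ∈ S ↔ (u ∈ closedBall (pt a t) (a + 1 - (1 / 2 + σ1) / 2) ∧ zetaPole u = 0)) ∧
    (∀ u ∈ S, 1 ≤ zord u) ∧
    (∑ u ∈ S, (zord u : ℝ)) ≤ C * Real.log (|t| + 2) ∧
    (∀ z ∈ closedBall (pt a t) (a + 1 - σ1),
      DifferentiableAt ℂ H z ∧ ‖H z‖ ≤ C * Real.log (|t| + 2)) ∧
    ∀ z ∈ closedBall (pt a t) (a + 1 - σ1), 1 < z.re → H z = hline S z := by
  classical
  set R1 : ℝ := a + 1 - (1 / 2 + σ1) / 2 with hR1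
  set ρ : ℝ := (a + 1 - σ1 + R1) / 2 with hρ
  have hr1 : a + 1 - σ1 < ρ := by rw [hρ, hR1]; linarith
  have hr2 : ρ < R1 := by rw [hρ, hR1]; linarith
  have hr3 : R1 < a + 1 / 2 := by rw [hR1]; linarith
  obtain ⟨C, hC, hloc⟩ := zeta_locU (a := a) (R0 := ρ) (R1 := R1) ha (by linarith) hr2 hr3
  refine ⟨C, hC, fun t => ?_⟩
  obtain ⟨S, hS1, hS2, hS3, hS4⟩ := hloc t
  set c : ℂ := pt a t with hc
  have hcre : c.re = 1 + a := by rw [hc, pt]; simp
  set Ω : Set ℂ := ball c ρ with hΩ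
  have hΩo : IsOpen Ω := isOpen_ball
  have hcne : zetaPole c ≠ 0 := zetaPole_ne_zero_of_one_le (by rw [hcre]; linarith)
  obtain ⟨S2, n, g, hg, hgne, hS, hfac⟩ := exists_factor (r := a + 1 / 2) (by linarith)
    (f := zetaPole) (c := c) (fun z _ => zetaPole_analyticAt z) hcne
  have hΩball : Ω ⊆ ball c (a + 1 / 2) := ball_subset_ball (by linarith)
  have hSball : ∀ u ∈ S, u ∈ ball c (a + 1 / 2) := by
    intro u hu
    have := ((hS1 u).1 hu).1
    rw [mem_closedBall] at this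
    rw [mem_ball]
    linarith
  have hfact0 : ∀ z ∈ closedBall c (a + 1 / 2), zetaPole z = 0 → z ∈ S2 ∧ n z ≠ 0 := by
    intro z hz h0
    have h3 := h0
    rw [hfac z hz] at h3
    rcases mul_eq_zero.1 h3 with h | h
    · rw [Finset.prod_eq_zero_iff] at h
      obtain ⟨v, hv, h4⟩ := h
      have h5 : z - v = 0 := by
        by_contra h6
        exact (pow_ne_zero _ h6) h4
      have h6 : n v ≠ 0 := by
        intro h7
        rw [h7, pow_zero] at h4
        exact one_ne_zero h4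
      have h8 : v = z := (sub_eq_zero.1 h5).symm
      subst h8
      exact ⟨hv, h6⟩
    · exact absurd h (hgne z hz)
  have hZS2 : S ⊆ S2 := fun u hu =>
    (hfact0 u (ball_subset_closedBall (hSball u hu)) ((hS1 u).1 hu).2).1
  have hord : ∀ u ∈ S, zord u = n u := fun u hu =>
    order_eq_of_factor hg hgne (fun z _ => zetaPole_analyticAt z) hfac (hZS2 hu) (hSball u hu)
  set g1 : ℂ → ℂ := fun z => (∏ u ∈ S2 \ S, (z - u) ^ (n u)) * g z with hg1
  have hfac' : ∀ z ∈ closedBall c (a + 1 / 2),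
      zetaPole z = (∏ u ∈ S, (z - u) ^ (n u)) * g1 z := by
    intro z hz
    rw [hfac z hz, hg1]
    simp only
    rw [← mul_assoc]
    congr 1
    rw [mul_comm]
    exact (Finset.prod_sdiff hZS2).symm
  have hg1an : ∀ s ∈ Ω, AnalyticAt ℂ g1 s := by
    intro s hs
    apply AnalyticAt.mul _ (hg s (ball_subset_closedBall (hΩball hs)))
    apply Finset.analyticAt_fun_prod
    intro u _
    exact ((analyticAt_id.sub analyticAt_const).pow _)
  have hg1ne : ∀ s ∈ Ω, g1 s ≠ 0 := by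
    intro s hs
    have hs2 := ball_subset_closedBall (hΩball hs)
    refine mul_ne_zero (Finset.prod_ne_zero_iff.2 fun u hu => ?_) (hgne s hs2)
    rw [Finset.mem_sdiff] at hu
    by_cases hnu : n u = 0
    · rw [hnu, pow_zero]; exact one_ne_zero
    · apply pow_ne_zero
      intro h
      have h1 : u = s := (sub_eq_zero.1 h).symm
      subst h1
      apply hu.2
      rw [hS1]
      refine ⟨?_, (hS u hu.1).2⟩
      rw [hΩ, mem_ball] at hs
      rw [mem_closedBall]
      linarith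
  set H : ℂ → ℂ := fun s => -(deriv g1 s / g1 s) with hH
  have hHd : ∀ s ∈ Ω, DifferentiableAt ℂ H s := by
    intro s hs
    exact ((hg1an s hs).deriv.differentiableAt.div (hg1an s hs).differentiableAt (hg1ne s hs)).neg
  have hHeq : ∀ s ∈ Ω, zetaPole s ≠ 0 → H s = hline S s := by
    intro s hs hs0
    have hzu : ∀ u ∈ S, s - u ≠ 0 := by
      intro u hu h
      have : u = s := (sub_eq_zero.1 h).symm
      rw [this, hS1] at hu
      exact hs0 hu.2
    have e1 : deriv zetaPole s / zetaPole s = (∑ u ∈ S, (n u : ℂ) / (s - u)) +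
        deriv g1 s / g1 s := by
      have h1 : zetaPole =ᶠ[𝓝 s] fun z => (∏ u ∈ S, (z - u) ^ (n u)) * g1 z := by
        filter_upwards [isOpen_ball.mem_nhds (hΩball hs)] with w hw
        exact hfac' w (ball_subset_closedBall hw)
      have h2 : logDeriv zetaPole s = logDeriv (fun z => (∏ u ∈ S, (z - u) ^ (n u)) * g1 z) s := by
        rw [logDeriv_apply, logDeriv_apply, h1.deriv_eq, h1.self_of_nhds]
      rw [← logDeriv_apply, ← logDeriv_apply, h2, logDeriv_mul]
      · congr 1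
        rw [logDeriv_prod]
        · refine Finset.sum_congr rfl fun u hu => ?_
          rw [logDeriv_fun_pow (by fun_prop), logDeriv_apply]
          simp [div_eq_mul_inv]
        · intro u hu
          exact pow_ne_zero _ (hzu u hu)
        · intro u hu
          fun_prop
      · exact Finset.prod_ne_zero_iff.2 fun u hu => pow_ne_zero _ (hzu u hu)
      · exact hg1ne s hs
      · fun_prop
      · exact (hg1an s hs).differentiableAt
    have e2 : ∑ u ∈ S, (zord u : ℂ) / (s - u) = ∑ u ∈ S, (n u : ℂ) / (s - u) :=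
      Finset.sum_congr rfl fun u hu => by rw [hord u hu]
    rw [hline, e1, e2, hH]
    ring
  have hin : ∀ z ∈ closedBall c (a + 1 - σ1), z ∈ Ω := by
    intro z hz
    rw [mem_closedBall] at hz
    rw [hΩ, mem_ball]
    linarith
  refine ⟨S, H, hS1, hS2, hS3, ?_, ?_⟩
  · intro s hs
    have hsΩ : s ∈ Ω := hin s hs
    refine ⟨hHd s hsΩ, ?_⟩
    have hcont : Tendsto (fun z => ‖H z‖) (𝓝[≠] s) (𝓝 ‖H s‖) :=
      ((hHd s hsΩ).continuousAt.norm).tendsto.mono_left nhdsWithin_le_nhds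
    refine le_of_tendsto hcont ?_
    filter_upwards [zetaPole_eventually_ne s, mem_nhdsWithin_of_mem_nhds (hΩo.mem_nhds hsΩ)]
      with z hz1 hz2
    rw [hHeq z hz2 hz1]
    have h5 := hS4 z (ball_subset_closedBall hz2) hz1
    have h6 : hline S z = -(deriv zetaPole z / zetaPole z - ∑ u ∈ S, (zord u : ℂ) / (z - u)) := by
      rw [hline]; ring
    rw [h6, norm_neg]
    exact h5
  · intro z hz hz1
    exact hHeq z (hin z hz) (zetaPole_ne_zero_of_one_le hz1.le)

end Pool.Agent.H52.Unc
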