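import Mathlib
import Pool.Agent.H52.Unc.HlocU
import Pool.Agent.H76.CR.DerivL

/-!
# DkLocalU: local formula for `Dk`, any disc around `1 + a + it` inside `Re ≥ σ1 > 1/2`

As `H76/CR/DkLocal.lean`, with `HlocU` in place of `Hloc` and `r` in place of `2R`.
Let `s0 = pt a t`, `S'`, `H` from `exists_HlocU`.  By `neg_logDeriv_zetaPole` (`H6/Win/Line.lean`) and
the definition of `hline`, for `1 < z.re` near `s0` (inside the ball)
`LSeries Λ z = H z + 1/(z-1) - ∑ u ∈ S', zord u / (z - u)`.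
Take the `k`-th derivative at `s0` and multiply by `(-1)^k/k!`:
`Dk a k t = (-1)^k/k! H^(k)(s0) + 1/(s0-1)^(k+1) - ∑ u ∈ S', zord u/(s0-u)^(k+1)`.
`S := S'.filter (‖s0 - u‖ < r)`; every zero `u` of `zetaPole` with `‖s0-u‖ < r ≤ a+1-σ1` lies in `S'`.
Errors: `‖H^(k)(s0)‖/k! ≤ C log(|t|+2) (a+1-σ1)^(-k)` (Cauchy on the ball of radius `a+1-σ1`;
`Complex.norm_iteratedDeriv_le_of_forall_mem_sphere_norm_le`), and
`(a+1-σ1)^(-k) ≤ (a+1-σ1) r^(-(k+1))`; `‖s0-1‖ ≥ |t| ≥ r`; the zeros of `S' \ S` have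
`‖s0-u‖ ≥ r` and total multiplicity `≤ C log(|t|+2)`; `log (|t|+2) ≥ log 2`.  About 130 lines.
-/

set_option autoImplicit false

open Complex Metric Filter Topology

namespace Pool.Agent.H52.Unc

open Pool.Agent.H6 Pool.Agent.H6.Win Pool.Agent.H76.CR

private lemma iter_inv_sub (k : ℕ) (u s : ℂ) :
    iteratedDeriv k (fun z : ℂ => (z - u)⁻¹) s = (-1) ^ k * (k.factorial : ℂ) / (s - u) ^ (k + 1) := by
  have h := iteratedDeriv_comp_sub_const k (fun z : ℂ => z⁻¹) u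
  rw [h]
  have h2 : iteratedDeriv k (fun z : ℂ => z⁻¹) (s - u)
      = (-1) ^ k * (k.factorial : ℂ) * (s - u) ^ (-1 - k : ℤ) := by
    rw [iteratedDeriv_eq_iterate]
    exact iter_deriv_inv k (s - u)
  show iteratedDeriv k (fun z : ℂ => z⁻¹) (s - u) = _
  rw [h2, div_eq_mul_inv]
  congr 1
  rw [show (-1 - k : ℤ) = -((k + 1 : ℕ) : ℤ) by push_cast; ring, zpow_neg, zpow_natCast]

private lemma contDiffAt_inv_sub {u s : ℂ} (h : s ≠ u) (k : ℕ) :
    ContDiffAt ℂ k (fun z : ℂ => (z - u)⁻¹) s :=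
  (contDiffAt_id.sub contDiffAt_const).inv (sub_ne_zero.2 h)

theorem Dk_localU {a σ1 : ℝ} (ha : 0 < a) (hσ1 : 1 / 2 < σ1) (hσ2 : σ1 < 1) :
    ∃ C : ℝ, 0 < C ∧ ∀ r t : ℝ, 0 < r → r ≤ a + 1 - σ1 → r ≤ |t| →
      ∃ S : Finset ℂ, (∀ u, u ∈ S ↔ (‖pt a t - u‖ < r ∧ zetaPole u = 0)) ∧
      (∀ u ∈ S, 1 ≤ zord u) ∧
      ∀ k : ℕ, ‖Dk a k t + ∑ u ∈ S, (zord u : ℂ) / (pt a t - u) ^ (k + 1)‖ ≤
        C * Real.log (|t| + 2) / r ^ (k + 1) := by
  classical
  obtain ⟨C0, hC0, hH⟩ := exists_HlocU ha hσ1 hσ2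
  have hR0 : 0 < a + 1 - σ1 := by linarith
  have hlog2 : 0 < Real.log 2 := Real.log_pos (by norm_num)
  refine ⟨C0 * (a + 1 - σ1) + 1 / Real.log 2 + C0, by positivity, fun r t hr hr1 ht => ?_⟩
  obtain ⟨S', H, hS', hord, hcount, hHb, hHeq⟩ := hH t
  set R0 : ℝ := a + 1 - σ1 with hR0def
  set s0 : ℂ := pt a t with hs0
  have hs0re : s0.re = 1 + a := by simp [hs0, pt]
  have hs0im : s0.im = t := by simp [hs0, pt]
  have hL0 : 0 < Real.log (|t| + 2) := by
    apply Real.log_pos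
    have := abs_nonneg t
    linarith
  have hlog1 : 1 ≤ 1 / Real.log 2 * Real.log (|t| + 2) := by
    rw [one_div, inv_mul_eq_div, one_le_div hlog2]
    apply Real.log_le_log (by norm_num)
    have := abs_nonneg t
    linarith
  have hball : ∀ z, ‖z - s0‖ ≤ R0 → z ∈ closedBall s0 R0 := by
    intro z hz
    rwa [mem_closedBall, dist_eq_norm]
  refine ⟨S'.filter (fun u => ‖s0 - u‖ < r), fun u => ?_, fun u hu => hord u
    (Finset.mem_filter.1 hu).1, fun k => ?_⟩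
  · rw [Finset.mem_filter, hS']
    constructor
    · rintro ⟨⟨h1, h2⟩, h3⟩
      exact ⟨h3, h2⟩
    · rintro ⟨h3, h2⟩
      refine ⟨⟨?_, h2⟩, h3⟩
      have h4 : ‖u - s0‖ ≤ R0 := by rw [norm_sub_rev]; linarith
      exact closedBall_subset_closedBall (by linarith) (hball u h4)
  -- the local formula
  set F : ℂ → ℂ := LSeries (fun n => (ArithmeticFunction.vonMangoldt n : ℂ)) with hF
  have hzero : ∀ u ∈ S', s0 ≠ u := by
    intro u hu hcon
    have h1 := ((hS' u).1 hu).2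
    rw [← hcon] at h1
    exact zetaPole_ne_zero_of_one_le (s := s0) (by rw [hs0re]; linarith) h1
  have hs01 : s0 ≠ 1 := by
    intro h
    rw [h] at hs0re
    simp at hs0re
    linarith
  have hev : F =ᶠ[𝓝 s0] fun z => (H z + (z - 1)⁻¹) - ∑ u ∈ S', (zord u : ℂ) * (z - u)⁻¹ := by
    have o1 : {z : ℂ | 1 < z.re} ∈ 𝓝 s0 :=
      (isOpen_lt continuous_const Complex.continuous_re).mem_nhds (by
        show 1 < s0.re
        rw [hs0re]; linarith)
    filter_upwards [o1, ball_mem_nhds s0 hR0] with z hz1 hz2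
    have hz3 : z ∈ closedBall s0 R0 := hball z (by
      rw [mem_ball, dist_eq_norm] at hz2; exact hz2.le)
    have h1 := hHeq z hz3 hz1
    rw [hline, neg_logDeriv_zetaPole hz1] at h1
    rw [h1, hF, one_div]
    simp only [div_eq_mul_inv]
    ring
  have hHd : DifferentiableOn ℂ H (ball s0 R0) := fun z hz =>
    ((hHb z (hball z (by rw [mem_ball, dist_eq_norm] at hz; exact hz.le))).1).differentiableWithinAt
  have hHc : ContDiffAt ℂ k H s0 :=
    ((hHd.analyticOnNhd isOpen_ball) s0 (mem_ball_self hR0)).contDiffAt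
  have hinv1 : ContDiffAt ℂ k (fun z : ℂ => (z - 1)⁻¹) s0 := contDiffAt_inv_sub hs01 k
  have hsum : ∀ u ∈ S', ContDiffAt ℂ k (fun z : ℂ => (zord u : ℂ) * (z - u)⁻¹) s0 := fun u hu =>
    contDiffAt_const.mul (contDiffAt_inv_sub (hzero u hu) k)
  have hder : iteratedDeriv k F s0 = iteratedDeriv k H s0 +
      (-1) ^ k * (k.factorial : ℂ) / (s0 - 1) ^ (k + 1) -
      ∑ u ∈ S', (zord u : ℂ) * ((-1) ^ k * (k.factorial : ℂ) / (s0 - u) ^ (k + 1)) := by
    rw [hev.iteratedDeriv_eq k, iteratedDeriv_fun_sub (hHc.add hinv1) (ContDiffAt.sum hsum),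
      iteratedDeriv_fun_add hHc hinv1, iter_inv_sub, iteratedDeriv_fun_sum hsum]
    congr 1
    refine Finset.sum_congr rfl fun u hu => ?_
    rw [iteratedDeriv_const_mul_field, iter_inv_sub]
  have hk0 : (k.factorial : ℂ) ≠ 0 := by exact_mod_cast k.factorial_ne_zero
  have hsq : ((-1 : ℂ)) ^ k * (-1) ^ k = 1 := by
    rw [← mul_pow]; norm_num
  have hDk : Dk a k t = (-1) ^ k / (k.factorial : ℂ) * iteratedDeriv k H s0 +
      1 / (s0 - 1) ^ (k + 1) - ∑ u ∈ S', (zord u : ℂ) / (s0 - u) ^ (k + 1) := by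
    rw [Dk_eq ha k t, ← hs0, ← hF, hder, mul_sub, mul_add, Finset.mul_sum]
    congr 1
    · congr 1
      rw [div_mul_div_comm, ← mul_assoc, hsq, one_mul]
      rw [mul_comm (k.factorial : ℂ), div_mul_cancel_right₀ hk0, one_div]
    · refine Finset.sum_congr rfl fun u hu => ?_
      calc (-1 : ℂ) ^ k / (k.factorial : ℂ) *
            ((zord u : ℂ) * ((-1) ^ k * (k.factorial : ℂ) / (s0 - u) ^ (k + 1)))
          = ((-1 : ℂ) ^ k * (-1) ^ k) * ((k.factorial : ℂ) / (k.factorial : ℂ)) *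
            ((zord u : ℂ) / (s0 - u) ^ (k + 1)) := by ring
        _ = _ := by rw [hsq, div_self hk0]; ring
  have hsplit : Dk a k t + ∑ u ∈ S'.filter (fun u => ‖s0 - u‖ < r),
      (zord u : ℂ) / (s0 - u) ^ (k + 1) =
      (-1) ^ k / (k.factorial : ℂ) * iteratedDeriv k H s0 + 1 / (s0 - 1) ^ (k + 1) -
        ∑ u ∈ S'.filter (fun u => ¬ ‖s0 - u‖ < r), (zord u : ℂ) / (s0 - u) ^ (k + 1) := by
    rw [hDk, ← Finset.sum_filter_add_sum_filter_not S' (fun u => ‖s0 - u‖ < r)]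
    ring
  have hP : 0 < r ^ (k + 1) := by positivity
  rw [hsplit]
  -- three error terms
  have e1 : ‖(-1 : ℂ) ^ k / (k.factorial : ℂ) * iteratedDeriv k H s0‖ ≤
      C0 * R0 * Real.log (|t| + 2) / r ^ (k + 1) := by
    have h1 : ‖iteratedDeriv k H s0‖ ≤
        k.factorial * (C0 * Real.log (|t| + 2)) / R0 ^ k := by
      refine Complex.norm_iteratedDeriv_le_of_forall_mem_sphere_norm_le k hR0 ?_ ?_
      · refine DifferentiableOn.diffContOnCl ?_
        rw [closure_ball s0 hR0.ne']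
        intro z hz
        exact ((hHb z (hball z (by
          rw [mem_closedBall, dist_eq_norm] at hz; exact hz))).1).differentiableWithinAt
      · intro z hz
        exact (hHb z (hball z (by
          rw [mem_sphere, dist_eq_norm] at hz; exact hz.le))).2
    have hkf : (0 : ℝ) < k.factorial := by exact_mod_cast k.factorial_pos
    rw [norm_mul, norm_div, norm_pow, norm_neg, norm_one, one_pow, Complex.norm_natCast]
    calc 1 / (k.factorial : ℝ) * ‖iteratedDeriv k H s0‖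
        ≤ 1 / (k.factorial : ℝ) * (k.factorial * (C0 * Real.log (|t| + 2)) / R0 ^ k) := by
          gcongr
      _ = C0 * R0 * Real.log (|t| + 2) / R0 ^ (k + 1) := by
          field_simp
          ring
      _ ≤ C0 * R0 * Real.log (|t| + 2) / r ^ (k + 1) := by
          have h3 : r ^ (k + 1) ≤ R0 ^ (k + 1) := pow_le_pow_left₀ hr.le hr1 _
          exact div_le_div_of_nonneg_left (by positivity) hP h3
  have e2 : ‖1 / (s0 - 1) ^ (k + 1)‖ ≤
      1 / Real.log 2 * Real.log (|t| + 2) / r ^ (k + 1) := by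
    have h1 : r ≤ ‖s0 - 1‖ := by
      have h2 := Complex.abs_im_le_norm (s0 - 1)
      simp only [Complex.sub_im, Complex.one_im, sub_zero, hs0im] at h2
      linarith
    rw [norm_div, norm_one, norm_pow]
    have h3 : r ^ (k + 1) ≤ ‖s0 - 1‖ ^ (k + 1) :=
      pow_le_pow_left₀ hr.le h1 _
    calc 1 / ‖s0 - 1‖ ^ (k + 1) ≤ 1 / r ^ (k + 1) :=
          div_le_div_of_nonneg_left zero_le_one hP h3
      _ ≤ 1 / Real.log 2 * Real.log (|t| + 2) / r ^ (k + 1) :=
          div_le_div_of_nonneg_right hlog1 hP.le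
  have e3 : ‖∑ u ∈ S'.filter (fun u => ¬ ‖s0 - u‖ < r), (zord u : ℂ) / (s0 - u) ^ (k + 1)‖ ≤
      C0 * Real.log (|t| + 2) / r ^ (k + 1) := by
    calc ‖∑ u ∈ S'.filter (fun u => ¬ ‖s0 - u‖ < r), (zord u : ℂ) / (s0 - u) ^ (k + 1)‖
        ≤ ∑ u ∈ S'.filter (fun u => ¬ ‖s0 - u‖ < r), (zord u : ℝ) / r ^ (k + 1) := by
          refine norm_sum_le_of_le _ fun u hu => ?_
          have h1 := (Finset.mem_filter.1 hu).2
          rw [not_lt] at h1
          rw [norm_div, norm_pow, Complex.norm_natCast]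
          gcongr
      _ ≤ ∑ u ∈ S', (zord u : ℝ) / r ^ (k + 1) :=
          Finset.sum_le_sum_of_subset_of_nonneg (Finset.filter_subset _ _)
            (fun u _ _ => by positivity)
      _ = (∑ u ∈ S', (zord u : ℝ)) / r ^ (k + 1) := by rw [Finset.sum_div]
      _ ≤ _ := by gcongr
  calc _ ≤ ‖(-1 : ℂ) ^ k / (k.factorial : ℂ) * iteratedDeriv k H s0 + 1 / (s0 - 1) ^ (k + 1)‖ +
        ‖∑ u ∈ S'.filter (fun u => ¬ ‖s0 - u‖ < r), (zord u : ℂ) / (s0 - u) ^ (k + 1)‖ :=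
        norm_sub_le _ _
    _ ≤ (‖(-1 : ℂ) ^ k / (k.factorial : ℂ) * iteratedDeriv k H s0‖ + ‖1 / (s0 - 1) ^ (k + 1)‖) +
        ‖∑ u ∈ S'.filter (fun u => ¬ ‖s0 - u‖ < r), (zord u : ℂ) / (s0 - u) ^ (k + 1)‖ := by
        gcongr
        exact norm_add_le _ _
    _ ≤ (C0 * R0 * Real.log (|t| + 2) / r ^ (k + 1) +
          1 / Real.log 2 * Real.log (|t| + 2) / r ^ (k + 1)) +
          C0 * Real.log (|t| + 2) / r ^ (k + 1) := by gcongr
    _ = _ := by ring

end Pool.Agent.H52.Unc
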