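import Mathlib
import Pool.Agent.H76.CR.Poly
import Pool.Agent.H52.Unc.DkLocalU
import Pool.Agent.H52.Unc.RzF

/-!
# DetectU: a zero with few distinct neighbours to its right makes some `Dk` large

As `H76/CR/Detect.lean`.  Let `ρ = β + iγ`, `s0 = pt a γ`, `R = a + 1 - β` (so `s0 - ρ = R > a`,
`R ≤ a + 1 - σ ≤ 2a`), `r = (1+η) R ≤ a+1-σ1`, `S` from `Dk_localU` (needs `r ≤ |γ|`: put
`C ≥ 2 (a+1)`, `r ≤ 2 (a+1)`).  For `u ∈ S`: `‖u - ρ‖ ≤ r + R ≤ 3 R ≤ 3 (a + 1 - σ)`,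
`re u ≥ 1 + a - r = β - η R ≥ β - η (a+1-σ)`, `u ≠ 1` (`|γ| > r + R`), so
`S.card ≤ rz (3 (a+1-σ)) (β - η (a+1-σ)) ρ` (`card_le_rz`).
`w u = R/(s0-u)`, injective on `S`, `W = S.image w`, `n = W.card = S.card ≤ κ k0/log(160/κ)`;
`w ρ = 1`; `‖w u‖ ≤ R/a ≤ 2` (`re (s0-u) ≥ a` since `re u < 1`).  `c` from `exists_poly`:
`∑_j c_j R^(k0+1+j) D_{k0+j}(γ) = - ∑_{u∈S} zord u (∑_j c_j (w u)^(k0+1+j)) + E`.
The double sum is a sum of `zord u` over a subset of `S` containing `ρ`, hence a real number `≥ 1`.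
`‖E‖ ≤ (∑‖c_j‖) C0 log(|γ|+2) (1+η)^(-(k0+1))`, `∑‖c_j‖ ≤ (160/κ)^n (1-κ)^(-(k0+1)) ≤
exp(κ k0 + 2κ (k0+1))` (`-log(1-κ) ≤ 2κ`), and `log(1+η) ≥ η/2 ≥ 4κ` with the surplus
`η/2 - 3κ ≥ η/8`, so `‖E‖ ≤ 1/2` if `k0 ≥ C loglog + C`.  Hence some `j < n` has
`R^(k0+1+j) ‖D_{k0+j}(γ)‖ ≥ (1/2) exp(-3κ k0 - 2κ) ≥ exp(-5κ k0)` for `k0 ≥ C`;
`k = k0+j ≤ (1+κ) k0`.  About 170 lines.
-/

set_option autoImplicit false

open Complex

namespace Pool.Agent.H52.Unc

open Pool.Agent.H6 Pool.Agent.H6.Win Pool.Agent.H76.CR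

private lemma DetectU_inv {κ : ℝ} (hκ : 0 < κ) (hκ2 : κ ≤ 1 / 2) (m : ℕ) :
    ((1 - κ) ^ m)⁻¹ ≤ Real.exp (2 * κ * m) := by
  have h1 : (1 - κ)⁻¹ ≤ Real.exp (2 * κ) := by
    have h2 : (1 - κ)⁻¹ = κ / (1 - κ) + 1 := by
      have : 1 - κ ≠ 0 := by linarith
      field_simp
      ring
    rw [h2]
    refine (Real.add_one_le_exp _).trans (Real.exp_le_exp.2 ?_)
    rw [div_le_iff₀ (by linarith)]
    nlinarith
  rw [← inv_pow]
  have h3 : 2 * κ * (m : ℝ) = m * (2 * κ) := by ring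
  rw [h3, Real.exp_nat_mul]
  exact pow_le_pow_left₀ (inv_nonneg.2 (by linarith)) h1 m

private lemma DetectU_eta {η : ℝ} (hη : 0 < η) (hη1 : η ≤ 1) (m : ℕ) :
    ((1 + η) ^ m)⁻¹ ≤ Real.exp (-(η / 2) * m) := by
  have h1 : Real.exp (η / 2) ≤ 1 + η := by
    have h2 := Real.abs_exp_sub_one_sub_id_le (x := η / 2) (by rw [abs_of_pos (by linarith)]; linarith)
    have h3 := (abs_le.1 h2).2
    nlinarith
  have h4 : -(η / 2) * (m : ℝ) = -(m * (η / 2)) := by ring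
  rw [h4, Real.exp_neg, Real.exp_nat_mul]
  exact inv_anti₀ (by positivity) (pow_le_pow_left₀ (Real.exp_nonneg _) h1 m)

theorem detectU {a η κ σ σ1 : ℝ} (hκ : 0 < κ) (hκη : 8 * κ ≤ η) (hη1 : η ≤ 1)
    (hσ1 : 1 / 2 < σ1) (hσ : σ < 1) (ha : 1 - σ ≤ a)
    (hr : (1 + η) * (a + 1 - σ) ≤ a + 1 - σ1) :
    ∃ C : ℝ, 0 < C ∧ ∀ (ρ : ℂ) (k0 : ℕ), riemannZeta ρ = 0 → σ ≤ ρ.re → C ≤ |ρ.im| →
      C * Real.log (Real.log (|ρ.im| + 2)) + C ≤ k0 →
      (rz (3 * (a + 1 - σ)) (ρ.re - η * (a + 1 - σ)) ρ : ℝ) ≤ κ / Real.log (160 / κ) * k0 →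
      ∃ k : ℕ, k0 ≤ k ∧ (k : ℝ) ≤ (1 + κ) * k0 ∧
        Real.exp (-(5 * κ * k0)) ≤ (a + 1 - ρ.re) ^ (k + 1) * ‖Dk a k ρ.im‖ := by
  classical
  have ha0 : 0 < a := by linarith
  have hη0 : 0 < η := by linarith
  have hκ8 : κ ≤ 1 / 8 := by linarith
  have hσ12 : σ1 < 1 := by nlinarith [mul_pos hη0 (show 0 < a + 1 - σ by linarith)]
  obtain ⟨C0, hC0, hloc⟩ := Dk_localU ha0 hσ1 hσ12
  have hl0 : 0 < Real.log (2 * C0 + 1) := Real.log_pos (by linarith)
  obtain ⟨C, hC⟩ : ∃ C : ℝ, C = 8 * a + 8 + 8 / η * (1 + Real.log (2 * C0 + 1)) + 1 / κ := ⟨_, rfl⟩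
  have hp1 : 0 < 8 / η * (1 + Real.log (2 * C0 + 1)) := by positivity
  have hp2 : 0 < 1 / κ := by positivity
  have hCpos : 0 < C := by rw [hC]; positivity
  have hC8 : 8 * a + 8 ≤ C := by rw [hC]; linarith
  have hCκ : 1 + 1 / κ ≤ C := by rw [hC]; linarith
  have hCη : 1 + Real.log (2 * C0 + 1) ≤ η / 8 * C := by
    have h1 : 8 / η * (1 + Real.log (2 * C0 + 1)) ≤ C := by rw [hC]; linarith
    calc 1 + Real.log (2 * C0 + 1) = η / 8 * (8 / η * (1 + Real.log (2 * C0 + 1))) := by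
          field_simp
      _ ≤ η / 8 * C := mul_le_mul_of_nonneg_left h1 (by positivity)
  refine ⟨C, hCpos, fun ρ k0 hρ hβ hγ hk0 hcard => ?_⟩
  obtain ⟨β, hβd⟩ : ∃ β, β = ρ.re := ⟨_, rfl⟩
  obtain ⟨γ, hγd⟩ : ∃ γ, γ = ρ.im := ⟨_, rfl⟩
  rw [← hγd] at hγ hk0
  rw [← hβd] at hβ hcard
  rw [← hβd, ← hγd]
  have hβ1 : β < 1 := by rw [hβd]; exact re_lt_one hρ
  obtain ⟨R, hR⟩ : ∃ R, R = a + 1 - β := ⟨_, rfl⟩
  rw [← hR]
  have hRa : a < R := by rw [hR]; linarith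
  have hR0 : 0 < R := by linarith
  have hR2 : R ≤ a + 1 - σ := by rw [hR]; linarith
  have hR2a : R ≤ 2 * a := by linarith
  obtain ⟨r, hrd⟩ : ∃ r, r = (1 + η) * R := ⟨_, rfl⟩
  have hr0 : 0 < r := by rw [hrd]; positivity
  have hrR : R < r := by rw [hrd]; nlinarith
  have hr1 : r ≤ a + 1 - σ1 := by
    refine le_trans ?_ hr
    rw [hrd]
    exact mul_le_mul_of_nonneg_left hR2 (by linarith)
  have hr2R : r ≤ 2 * R := by rw [hrd]; nlinarith
  have hrγ : r < |γ| := by linarith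
  obtain ⟨S, hS, hord, hT⟩ := hloc r γ hr0 hr1 hrγ.le
  obtain ⟨s0, hs0⟩ : ∃ s0, s0 = pt a γ := ⟨_, rfl⟩
  rw [← hs0] at hS hT
  have hs0re : s0.re = 1 + a := by simp [hs0, pt]
  have hs0im : s0.im = γ := by simp [hs0, pt]
  have hs0ρ : s0 - ρ = (R : ℂ) := by
    apply Complex.ext
    · rw [sub_re, hs0re, ofReal_re, ← hβd, hR]
      ring
    · rw [sub_im, hs0im, ofReal_im, ← hγd, sub_self]
  have hne1 : ∀ u ∈ S, u ≠ 1 := by
    intro u hu h1
    have h2 := ((hS u).1 hu).1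
    have h3 : |(s0 - u).im| ≤ ‖s0 - u‖ := abs_im_le_norm _
    rw [sub_im, hs0im, h1, one_im, sub_zero] at h3
    rw [h1] at h2
    linarith
  have hzero : ∀ u ∈ S, riemannZeta u = 0 := fun u hu =>
    (zetaPole_eq_zero_iff (hne1 u hu)).1 ((hS u).1 hu).2
  have hnorm : ∀ u ∈ S, a < ‖s0 - u‖ := by
    intro u hu
    have h1 : (s0 - u).re ≤ ‖s0 - u‖ := re_le_norm _
    have h2 := re_lt_one (hzero u hu)
    rw [sub_re, hs0re] at h1
    linarith
  have hsub0 : ∀ u ∈ S, s0 - u ≠ 0 := by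
    intro u hu h
    have := hnorm u hu
    rw [h, norm_zero] at this
    linarith
  -- the number of zeros
  have hn : (S.card : ℝ) ≤ κ / Real.log (160 / κ) * k0 := by
    refine le_trans ?_ hcard
    have h1 : S.card ≤ rz (3 * (a + 1 - σ)) (β - η * (a + 1 - σ)) ρ := by
      refine card_le_rz (by rw [← hγd]; linarith) S fun u hu => ⟨hzero u hu, ?_, ?_⟩
      · have h2 := ((hS u).1 hu).1
        have h3 : (s0 - u).re ≤ ‖s0 - u‖ := re_le_norm _
        rw [sub_re, hs0re] at h3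
        have h4 : η * R ≤ η * (a + 1 - σ) := mul_le_mul_of_nonneg_left hR2 hη0.le
        have h5 : r = R + η * R := by rw [hrd]; ring
        linarith
      · have h2 := ((hS u).1 hu).1
        have h3 : u - ρ = -(s0 - u) + (s0 - ρ) := by ring
        have h4 : ‖u - ρ‖ ≤ ‖s0 - u‖ + ‖s0 - ρ‖ := by
          rw [h3]
          refine (norm_add_le _ _).trans ?_
          rw [norm_neg]
        rw [hs0ρ, norm_real, Real.norm_eq_abs, abs_of_pos hR0] at h4
        linarith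
    exact_mod_cast h1
  have hlog1 : 1 ≤ Real.log (160 / κ) := by
    have h1 : Real.exp 1 ≤ 160 / κ := by
      rw [le_div_iff₀ hκ]
      have := Real.exp_one_lt_d9
      nlinarith
    calc (1 : ℝ) = Real.log (Real.exp 1) := (Real.log_exp 1).symm
      _ ≤ _ := Real.log_le_log (Real.exp_pos 1) h1
  have hlog0 : 0 < Real.log (160 / κ) := by linarith
  -- the points `w u`
  let w : ℂ → ℂ := fun u => (R : ℂ) / (s0 - u)
  have hRc : (R : ℂ) ≠ 0 := ofReal_ne_zero.2 hR0.ne'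
  have hwinj : Set.InjOn w S := by
    intro u hu v hv huv
    have h1 := hsub0 u hu
    have h2 := hsub0 v hv
    have h3 : (R : ℂ) / (s0 - u) = (R : ℂ) / (s0 - v) := huv
    rw [div_eq_div_iff h1 h2] at h3
    have h4 := mul_left_cancel₀ hRc h3
    have h5 : s0 - (s0 - v) = s0 - (s0 - u) := by rw [h4]
    rw [sub_sub_cancel, sub_sub_cancel] at h5
    exact h5.symm
  have hWcard : (S.image w).card = S.card := Finset.card_image_of_injOn hwinj
  have hρS : ρ ∈ S := by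
    refine (hS ρ).2 ⟨?_, ?_⟩
    · rw [hs0ρ, norm_real, Real.norm_eq_abs, abs_of_pos hR0]
      exact hrR
    · have h1 : ρ ≠ 1 := by
        intro h
        rw [h, one_im] at hγd
        rw [hγd, abs_zero] at hrγ
        linarith
      exact (zetaPole_eq_zero_iff h1).2 hρ
  have hwρ : w ρ = 1 := by
    show (R : ℂ) / (s0 - ρ) = 1
    rw [hs0ρ, div_self hRc]
  have h1W : (1 : ℂ) ∈ S.image w := Finset.mem_image.2 ⟨ρ, hρS, hwρ⟩
  have hW2 : ∀ x ∈ S.image w, ‖x‖ ≤ 2 := by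
    intro x hx
    obtain ⟨u, hu, rfl⟩ := Finset.mem_image.1 hx
    show ‖(R : ℂ) / (s0 - u)‖ ≤ 2
    rw [norm_div, norm_real, Real.norm_eq_abs, abs_of_pos hR0,
      div_le_iff₀ (by linarith [hnorm u hu])]
    linarith [hnorm u hu]
  obtain ⟨c, hcb, hc1, hcw⟩ := exists_poly hκ (by linarith) (S.image w) h1W hW2 k0
  rw [hWcard] at hcb hc1 hcw
  -- bound for the coefficients
  have hcexp : ∑ j ∈ Finset.range S.card, ‖c j‖ ≤ Real.exp (κ * k0 + 2 * κ * (k0 + 1)) := by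
    refine hcb.trans ?_
    rw [Real.exp_add]
    refine mul_le_mul ?_ ?_ (by
      have : 0 < 1 - κ := by linarith
      positivity) (Real.exp_nonneg _)
    · have h1 : (160 / κ) ^ S.card = Real.exp (S.card * Real.log (160 / κ)) := by
        rw [Real.exp_nat_mul, Real.exp_log (by positivity)]
      rw [h1]
      refine Real.exp_le_exp.2 ?_
      calc (S.card : ℝ) * Real.log (160 / κ) ≤ κ / Real.log (160 / κ) * k0 * Real.log (160 / κ) :=
            mul_le_mul_of_nonneg_right hn hlog0.le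
        _ = κ * k0 := by field_simp
    · have h1 := DetectU_inv hκ (by linarith) (k0 + 1)
      rw [Nat.cast_add, Nat.cast_one] at h1
      exact h1
  -- size of `L`
  obtain ⟨L, hL⟩ : ∃ L, L = Real.log (|γ| + 2) := ⟨_, rfl⟩
  rw [← hL] at hk0
  have hγ8 : 8 ≤ |γ| := by linarith
  have hL1 : 1 ≤ L := by
    rw [hL]
    have h1 : Real.exp 1 ≤ |γ| + 2 := by
      have := Real.exp_one_lt_d9
      linarith
    calc (1 : ℝ) = Real.log (Real.exp 1) := (Real.log_exp 1).symm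
      _ ≤ _ := Real.log_le_log (Real.exp_pos 1) h1
  have hL0 : 0 < L := by linarith
  have hlL : 0 ≤ Real.log L := Real.log_nonneg hL1
  have hk0C : C ≤ k0 := by nlinarith [mul_nonneg hCpos.le hlL]
  have hkey : Real.log L + Real.log (2 * C0 + 1) ≤ η / 8 * k0 := by
    have h1 : η / 8 * (C * Real.log L + C) ≤ η / 8 * k0 :=
      mul_le_mul_of_nonneg_left hk0 (by positivity)
    have h2 : (1 + Real.log (2 * C0 + 1)) * (Real.log L + 1) ≤ η / 8 * C * (Real.log L + 1) :=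
      mul_le_mul_of_nonneg_right hCη (by linarith)
    nlinarith [mul_nonneg hl0.le hlL]
  -- the identity
  have hmain : (1 : ℝ) / 2 ≤ ∑ j ∈ Finset.range S.card,
      ‖c j‖ * (R ^ (k0 + j + 1) * ‖Dk a (k0 + j) γ‖) := by
    have hid : ∑ j ∈ Finset.range S.card, c j * (R : ℂ) ^ (k0 + j + 1) * Dk a (k0 + j) γ =
        ∑ j ∈ Finset.range S.card, c j * (R : ℂ) ^ (k0 + j + 1) *
          (Dk a (k0 + j) γ + ∑ u ∈ S, (zord u : ℂ) / (s0 - u) ^ (k0 + j + 1)) -
        ∑ u ∈ S, (zord u : ℂ) * ∑ j ∈ Finset.range S.card, c j * w u ^ (k0 + 1 + j) := by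
      have h1 : ∑ u ∈ S, (zord u : ℂ) * ∑ j ∈ Finset.range S.card, c j * w u ^ (k0 + 1 + j) =
          ∑ j ∈ Finset.range S.card, c j * (R : ℂ) ^ (k0 + j + 1) *
            ∑ u ∈ S, (zord u : ℂ) / (s0 - u) ^ (k0 + j + 1) := by
        simp only [Finset.mul_sum]
        rw [Finset.sum_comm]
        refine Finset.sum_congr rfl fun j _ => Finset.sum_congr rfl fun u _ => ?_
        show (zord u : ℂ) * (c j * ((R : ℂ) / (s0 - u)) ^ (k0 + 1 + j)) = _
        rw [show k0 + 1 + j = k0 + j + 1 by omega, div_pow]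
        ring
      rw [h1, ← Finset.sum_sub_distrib]
      refine Finset.sum_congr rfl fun j _ => ?_
      ring
    have hZ : 1 ≤ ‖∑ u ∈ S, (zord u : ℂ) * ∑ j ∈ Finset.range S.card, c j * w u ^ (k0 + 1 + j)‖ := by
      refine le_trans ?_ (re_le_norm _)
      rw [re_sum]
      have hterm : ∀ u ∈ S, 0 ≤ ((zord u : ℂ) *
          ∑ j ∈ Finset.range S.card, c j * w u ^ (k0 + 1 + j)).re := by
        intro u hu
        rcases hcw (w u) (Finset.mem_image_of_mem w hu) with h | h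
        · rw [h, mul_one, natCast_re]
          exact Nat.cast_nonneg _
        · rw [h, mul_zero, zero_re]
      refine le_trans ?_ (Finset.single_le_sum hterm hρS)
      have h2 : ∑ j ∈ Finset.range S.card, c j * w ρ ^ (k0 + 1 + j) = 1 := by
        rw [hwρ]
        simp only [one_pow, mul_one]
        exact hc1
      rw [h2, mul_one, natCast_re]
      exact_mod_cast hord ρ hρS
    have hE : ‖∑ j ∈ Finset.range S.card, c j * (R : ℂ) ^ (k0 + j + 1) *
          (Dk a (k0 + j) γ + ∑ u ∈ S, (zord u : ℂ) / (s0 - u) ^ (k0 + j + 1))‖ ≤ 1 / 2 := by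
      have h1 : ∀ j ∈ Finset.range S.card, ‖c j * (R : ℂ) ^ (k0 + j + 1) *
          (Dk a (k0 + j) γ + ∑ u ∈ S, (zord u : ℂ) / (s0 - u) ^ (k0 + j + 1))‖ ≤
          ‖c j‖ * (C0 * L * Real.exp (-(η / 2) * (k0 + 1))) := by
        intro j _
        rw [norm_mul, norm_mul, norm_pow, norm_real, Real.norm_eq_abs, abs_of_pos hR0, mul_assoc]
        refine mul_le_mul_of_nonneg_left ?_ (norm_nonneg _)
        have h2 := hT (k0 + j)
        rw [← hL] at h2
        calc R ^ (k0 + j + 1) * ‖Dk a (k0 + j) γ + ∑ u ∈ S, (zord u : ℂ) /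
              (s0 - u) ^ (k0 + j + 1)‖ ≤ R ^ (k0 + j + 1) * (C0 * L / r ^ (k0 + j + 1)) :=
              mul_le_mul_of_nonneg_left h2 (by positivity)
          _ = C0 * L * ((1 + η) ^ (k0 + j + 1))⁻¹ := by
              rw [hrd, mul_pow]
              have h3 : R ^ (k0 + j + 1) ≠ 0 := by positivity
              have h4 : (1 + η) ^ (k0 + j + 1) ≠ 0 := by positivity
              field_simp
          _ ≤ C0 * L * Real.exp (-(η / 2) * (k0 + 1)) := by
              refine mul_le_mul_of_nonneg_left ?_ (by positivity)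
              refine (DetectU_eta hη0 hη1 (k0 + j + 1)).trans (Real.exp_le_exp.2 ?_)
              push_cast
              nlinarith [mul_nonneg hη0.le (Nat.cast_nonneg j : (0 : ℝ) ≤ (j : ℝ))]
      refine (norm_sum_le _ _).trans ((Finset.sum_le_sum h1).trans ?_)
      rw [← Finset.sum_mul]
      have h5 : (∑ j ∈ Finset.range S.card, ‖c j‖) *
          (C0 * L * Real.exp (-(η / 2) * (k0 + 1))) ≤
          Real.exp (κ * k0 + 2 * κ * (k0 + 1)) *
            (C0 * L * Real.exp (-(η / 2) * (k0 + 1))) :=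
        mul_le_mul_of_nonneg_right hcexp (by positivity)
      refine h5.trans ?_
      have h6 : Real.exp (κ * k0 + 2 * κ * (k0 + 1)) *
            (C0 * L * Real.exp (-(η / 2) * (k0 + 1))) =
          C0 * L * Real.exp (κ * k0 + 2 * κ * (k0 + 1) + -(η / 2) * (k0 + 1)) := by
        rw [Real.exp_add (κ * k0 + 2 * κ * (k0 + 1)) (-(η / 2) * (k0 + 1))]
        ring
      rw [h6]
      have hk00 : (0 : ℝ) ≤ k0 := Nat.cast_nonneg k0
      have h7 : κ * k0 + 2 * κ * (k0 + 1) + -(η / 2) * (k0 + 1) ≤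
          -(Real.log L + Real.log (2 * C0 + 1)) := by
        nlinarith [mul_nonneg (show 0 ≤ η - 8 * κ by linarith) hk00]
      have h8 : Real.exp (κ * k0 + 2 * κ * (k0 + 1) + -(η / 2) * (k0 + 1)) ≤
          (L * (2 * C0 + 1))⁻¹ := by
        refine (Real.exp_le_exp.2 h7).trans ?_
        rw [Real.exp_neg, Real.exp_add, Real.exp_log hL0, Real.exp_log (by linarith)]
      calc C0 * L * Real.exp (κ * k0 + 2 * κ * (k0 + 1) + -(η / 2) * (k0 + 1))
          ≤ C0 * L * (L * (2 * C0 + 1))⁻¹ := mul_le_mul_of_nonneg_left h8 (by positivity)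
        _ = C0 / (2 * C0 + 1) := by
            have h9 : L ≠ 0 := hL0.ne'
            have h10 : 2 * C0 + 1 ≠ 0 := by linarith
            field_simp
        _ ≤ 1 / 2 := by
            rw [div_le_iff₀ (by linarith)]
            linarith
    have hlow : (1 : ℝ) / 2 ≤
        ‖∑ j ∈ Finset.range S.card, c j * (R : ℂ) ^ (k0 + j + 1) * Dk a (k0 + j) γ‖ := by
      rw [hid]
      have h1 := norm_sub_norm_le
        (∑ u ∈ S, (zord u : ℂ) * ∑ j ∈ Finset.range S.card, c j * w u ^ (k0 + 1 + j))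
        (∑ j ∈ Finset.range S.card, c j * (R : ℂ) ^ (k0 + j + 1) *
          (Dk a (k0 + j) γ + ∑ u ∈ S, (zord u : ℂ) / (s0 - u) ^ (k0 + j + 1)))
      rw [norm_sub_rev] at h1
      linarith
    refine hlow.trans ((norm_sum_le _ _).trans (le_of_eq ?_))
    refine Finset.sum_congr rfl fun j _ => ?_
    rw [norm_mul, norm_mul, norm_pow, norm_real, Real.norm_eq_abs, abs_of_pos hR0, mul_assoc]
  -- conclusion
  by_contra hcon
  push Not at hcon
  have hbad : ∀ j ∈ Finset.range S.card, R ^ (k0 + j + 1) * ‖Dk a (k0 + j) γ‖ ≤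
      Real.exp (-(5 * κ * k0)) := by
    intro j hj
    refine (hcon (k0 + j) (Nat.le_add_right _ _) ?_).le
    have h1 : (j : ℝ) ≤ S.card := by
      have := (Finset.mem_range.1 hj).le
      exact_mod_cast this
    have h2 : κ / Real.log (160 / κ) * k0 ≤ κ * k0 := by
      refine mul_le_mul_of_nonneg_right ?_ (Nat.cast_nonneg k0)
      rw [div_le_iff₀ hlog0]
      nlinarith
    rw [Nat.cast_add]
    linarith
  have hup : ∑ j ∈ Finset.range S.card, ‖c j‖ * (R ^ (k0 + j + 1) * ‖Dk a (k0 + j) γ‖) ≤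
      Real.exp (κ * k0 + 2 * κ * (k0 + 1)) * Real.exp (-(5 * κ * k0)) := by
    refine (Finset.sum_le_sum fun j hj =>
      mul_le_mul_of_nonneg_left (hbad j hj) (norm_nonneg _)).trans ?_
    rw [← Finset.sum_mul]
    exact mul_le_mul_of_nonneg_right hcexp (Real.exp_nonneg _)
  rw [← Real.exp_add] at hup
  have h1 : κ * k0 + 2 * κ * (k0 + 1) + -(5 * κ * k0) ≤ -2 := by
    have h2 : 1 + 1 / κ ≤ (k0 : ℝ) := hCκ.trans hk0C
    have h3 : κ * (1 + 1 / κ) ≤ κ * k0 := mul_le_mul_of_nonneg_left h2 hκ.le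
    have h4 : κ * (1 + 1 / κ) = κ + 1 := by field_simp
    rw [h4] at h3
    linarith
  have h2 : Real.exp (κ * k0 + 2 * κ * (k0 + 1) + -(5 * κ * k0)) ≤ Real.exp (-2) :=
    Real.exp_le_exp.2 h1
  have h3 : Real.exp (-2) < 1 / 2 := by
    rw [Real.exp_neg, inv_lt_comm₀ (Real.exp_pos _) (by norm_num)]
    have := Real.add_one_le_exp (2 : ℝ)
    norm_num
    linarith
  linarith

end Pool.Agent.H52.Unc
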