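import Mathlib
import Pool.Agent.H76.CR.DerivL
import Pool.Agent.H52.Unc.Defs

/-!
# PartSumU: small prime sums make all the truncated polynomials small

As `H76/CR/PartSum.lean`, but with the saving `M^(β-ε)`, `β ≥ 1/2 + ε`, `28 θ ≤ ε`; constants uniform
in `β`.  Assume `‖pSum M t‖ < M^(β-ε)` for all integers `M ∈ [N^(1-ε), N]`.  Let
`M0 = ⌈N^(1-7θ)⌉₊` (then `M0 - 1 ≥ N^(1-ε)` for `N` large).
(1) for `M0 ≤ M ≤ N`: `A(M) = ∑_{M0 ≤ n ≤ M} Λ(n) n^(-it)`.  Prime powers contribute at most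
`C √M (log M)²` (crude: at most `√M log₂ M` proper prime powers up to `M`, each `Λ ≤ log M`).  Abel
summation FROM `M0` (only values `P(m)` with `m ≥ M0 - 1` occur):
`∑_{M0 ≤ p ≤ M} log p p^(-it) = log M P(M) - log M0 P(M0-1) - ∑_{M0 ≤ m < M} P(m) (log(m+1) - log m)`,
so `‖A(M)‖ ≤ 3 (1 + log N) N^(β-ε) + C √N (log N)² ≤ C (1+log N)² N^(β-ε)` (`β - ε ≥ 1/2`).
(2) `g(n) = dco a k n / Λ(n) = (log n)^k/k! n^(-(1+a))`: unimodal in `n`, `0 ≤ g(n) ≤ a^(-k) n^(-1) ≤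
a^(-k) N^(-(1-7θ))` for `n ≥ M0` (`(a log n)^k/k! ≤ n^a`); total variation `≤ 2 sup` — or, to avoid
unimodality, `|g'(x)| ≤ (k/log x + 1 + a) g(x)/x ≤ C(a) a^(-k) x^(-2)` since `k ≤ a log N ≤ 2 a log x`,
so the total variation is `≤ C(a) a^(-k) N^(-(1-7θ))`.
(3) Abel summation: `‖tPoly‖ ≤ C a^(-k) (1+log N)² N^(β-ε-1+7θ)`, hence
`a^(k+1) ‖tPoly‖ < N^(-(1-β)-ε/4)` for `N ≥ N0` (`7θ ≤ ε/4`).  About 170 lines.
-/

set_option autoImplicit false

open Complex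

namespace Pool.Agent.H52.Unc

open Pool.Agent.H76.CR

/-- Abel summation on `Icc A B`. -/
private theorem abel_icc (f : ℕ → ℂ) (h : ℕ → ℝ) {A : ℕ} (hA : 1 ≤ A) (B : ℕ) (hAB : A ≤ B) :
    ∑ n ∈ Finset.Icc A B, (h n : ℂ) * f n =
      (h B : ℂ) * (∑ n ∈ Finset.Icc 1 B, f n) - (h A : ℂ) * (∑ n ∈ Finset.Icc 1 (A - 1), f n) +
      ∑ m ∈ Finset.Ico A B, ((h m : ℂ) - h (m + 1)) * (∑ n ∈ Finset.Icc 1 m, f n) := by
  induction B, hAB using Nat.le_induction with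
  | base =>
    obtain ⟨A', rfl⟩ : ∃ A', A = A' + 1 := ⟨A - 1, by omega⟩
    rw [Finset.sum_Icc_succ_top (by omega : 1 ≤ A' + 1)]
    simp
    ring
  | succ B hB ih =>
    rw [Finset.sum_Icc_succ_top (by omega), ih, Finset.sum_Icc_succ_top (by omega),
      Finset.sum_Ico_succ_top hB]
    ring

private theorem log_pow_le {a x : ℝ} (ha : 0 < a) (hx : 1 ≤ x) (k : ℕ) :
    Real.log x ^ k / (k.factorial : ℝ) ≤ (a ^ k)⁻¹ * x ^ a := by
  have hl : 0 ≤ Real.log x := Real.log_nonneg hx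
  have h1 := Real.pow_div_factorial_le_exp (a * Real.log x) (by positivity) k
  have h2 : Real.exp (a * Real.log x) = x ^ a := by
    rw [Real.rpow_def_of_pos (by linarith), mul_comm]
  rw [h2, mul_pow] at h1
  have hak : 0 < a ^ k := by positivity
  rw [← div_eq_inv_mul, le_div_iff₀ hak]
  calc Real.log x ^ k / (k.factorial : ℝ) * a ^ k = a ^ k * Real.log x ^ k / (k.factorial : ℝ) := by
        ring
    _ ≤ _ := h1

/-- `Λ`-free part times `log`. -/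
private noncomputable def hf (a : ℝ) (k : ℕ) (x : ℝ) : ℝ :=
  Real.log x ^ (k + 1) / (k.factorial : ℝ) * x ^ (-(1 + a))

private theorem hf_deriv {a x : ℝ} (hx : 0 < x) (k : ℕ) :
    HasDerivAt (hf a k) (((k + 1 : ℝ) * Real.log x ^ k * x⁻¹) / (k.factorial : ℝ) * x ^ (-(1 + a)) +
      Real.log x ^ (k + 1) / (k.factorial : ℝ) * (-(1 + a) * x ^ (-(1 + a) - 1))) x := by
  have h1 := (Real.hasDerivAt_log hx.ne').pow (k + 1)
  have h2 := (h1.div_const (k.factorial : ℝ)).mul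
    (Real.hasDerivAt_rpow_const (x := x) (p := -(1 + a)) (Or.inl hx.ne'))
  refine h2.congr_deriv ?_
  simp

private theorem hf_bound {a x L : ℝ} (ha : 0 < a) (hx : 1 ≤ x) (hL : Real.log x ≤ L) (k : ℕ) :
    |hf a k x| ≤ (a ^ k)⁻¹ * L * x⁻¹ := by
  have hx0 : 0 < x := by linarith
  have hl : 0 ≤ Real.log x := Real.log_nonneg hx
  have h1 := log_pow_le ha hx k
  have hak : 0 < (a ^ k)⁻¹ := by positivity
  have e1 : hf a k x = (Real.log x ^ k / (k.factorial : ℝ)) * Real.log x * x ^ (-(1 + a)) := by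
    rw [hf, pow_succ]; ring
  have e2 : 0 ≤ hf a k x := by rw [e1]; positivity
  rw [abs_of_nonneg e2, e1]
  have e3 : x ^ a * x ^ (-(1 + a)) = x⁻¹ := by
    rw [← Real.rpow_add hx0, ← Real.rpow_neg_one]
    congr 1; ring
  calc (Real.log x ^ k / (k.factorial : ℝ)) * Real.log x * x ^ (-(1 + a))
      ≤ ((a ^ k)⁻¹ * x ^ a) * L * x ^ (-(1 + a)) := by
        gcongr
    _ = (a ^ k)⁻¹ * L * (x ^ a * x ^ (-(1 + a))) := by ring
    _ = _ := by rw [e3]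

private theorem hf_diff {a L A : ℝ} (ha : 0 < a) (hL : 1 ≤ L) (hA : 1 ≤ A) {k : ℕ}
    (hk : (k : ℝ) ≤ a * L) {m : ℝ} (hm : A ≤ m) (hm2 : Real.log (m + 1) ≤ L) :
    |hf a k m - hf a k (m + 1)| ≤ (a ^ k)⁻¹ * ((1 + a) * L) * (A⁻¹) ^ 2 := by
  have hm0 : 0 < m := by linarith
  have hA0 : 0 < A := by linarith
  obtain ⟨c, hc, hc2⟩ := exists_hasDerivAt_eq_slope (hf a k) _ (show m < m + 1 by linarith)
    (fun x hx => ((hf_deriv (a := a) (by linarith [hx.1] : 0 < x) k).continuousAt).continuousWithinAt)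
    (fun x hx => hf_deriv (a := a) (by linarith [hx.1] : 0 < x) k)
  have hc1 : 1 ≤ c := by linarith [hc.1]
  have hc0 : 0 < c := by linarith
  have hAc : A ≤ c := by linarith [hc.1]
  have hlc : 0 ≤ Real.log c := Real.log_nonneg hc1
  have hlL : Real.log c ≤ L := (Real.log_le_log hc0 hc.2.le).trans hm2
  have h1 := log_pow_le ha hc1 k
  have e0 : hf a k m - hf a k (m + 1) = -((hf a k (m + 1) - hf a k m) / (m + 1 - m)) := by
    rw [show m + 1 - m = (1:ℝ) by ring, div_one]; ring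
  rw [e0, ← hc2, abs_neg]
  have e1 : ((k + 1 : ℝ) * Real.log c ^ k * c⁻¹) / (k.factorial : ℝ) * c ^ (-(1 + a)) +
      Real.log c ^ (k + 1) / (k.factorial : ℝ) * (-(1 + a) * c ^ (-(1 + a) - 1)) =
      (Real.log c ^ k / (k.factorial : ℝ)) * c ^ (-(2 + a)) *
        ((k + 1 : ℝ) - (1 + a) * Real.log c) := by
    have h3 : c ^ (-(1 + a) - 1) = c ^ (-(2 + a)) := by congr 1; ring
    have h4 : c⁻¹ * c ^ (-(1 + a)) = c ^ (-(2 + a)) := by
      rw [← Real.rpow_neg_one, ← Real.rpow_add hc0]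
      congr 1; ring
    rw [h3, ← h4, pow_succ]; ring
  rw [e1, abs_mul, abs_of_nonneg (by positivity :
    0 ≤ (Real.log c ^ k / (k.factorial : ℝ)) * c ^ (-(2 + a)))]
  have h5 : |(k + 1 : ℝ) - (1 + a) * Real.log c| ≤ (1 + a) * L := by
    rw [abs_le]
    have h6 : (1 + a) * Real.log c ≤ (1 + a) * L := by
      exact mul_le_mul_of_nonneg_left hlL (by linarith)
    have h7 : 0 ≤ (1 + a) * Real.log c := by positivity
    have h8 : (0:ℝ) ≤ k := by positivity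
    constructor <;> linarith
  have e3 : c ^ a * c ^ (-(2 + a)) = (c⁻¹) ^ 2 := by
    rw [← Real.rpow_add hc0, inv_pow, ← Real.rpow_natCast c 2, ← Real.rpow_neg hc0.le]
    congr 1; push_cast; ring
  have h9 : c⁻¹ ≤ A⁻¹ := inv_anti₀ hA0 hAc
  have h10 : 0 ≤ c⁻¹ := by positivity
  calc (Real.log c ^ k / (k.factorial : ℝ)) * c ^ (-(2 + a)) *
        |(k + 1 : ℝ) - (1 + a) * Real.log c|
      ≤ ((a ^ k)⁻¹ * c ^ a) * c ^ (-(2 + a)) * ((1 + a) * L) := by gcongr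
    _ = (a ^ k)⁻¹ * ((1 + a) * L) * (c ^ a * c ^ (-(2 + a))) := by ring
    _ = (a ^ k)⁻¹ * ((1 + a) * L) * (c⁻¹) ^ 2 := by rw [e3]
    _ ≤ _ := by gcongr

private theorem log_small {ε C : ℝ} (hε : 0 < ε) (hC : 0 < C) :
    ∃ N0 : ℝ, 1 ≤ N0 ∧ ∀ N : ℝ, N0 ≤ N →
    1 ≤ Real.log N ∧ C * Real.log N < N ^ (ε / 4) := by
  have h1 := (isLittleO_log_rpow_atTop (show 0 < ε / 4 by positivity)).bound
    (show (0:ℝ) < 1 / (2 * C) by positivity)
  rw [Filter.eventually_atTop] at h1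
  obtain ⟨N1, hN1⟩ := h1
  refine ⟨max N1 (Real.exp 1), le_max_of_le_right (Real.one_le_exp (by norm_num)), fun N hN => ?_⟩
  have hNe : Real.exp 1 ≤ N := (le_max_right _ _).trans hN
  have hN0 : 0 < N := (Real.exp_pos 1).trans_le hNe
  have hl : 1 ≤ Real.log N := by
    rw [Real.le_log_iff_exp_le hN0]; exact hNe
  refine ⟨hl, ?_⟩
  have h2 := hN1 N ((le_max_left _ _).trans hN)
  have hp : 0 < N ^ (ε / 4) := by positivity
  rw [Real.norm_of_nonneg (by linarith), Real.norm_of_nonneg hp.le, one_div,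
    ← div_eq_inv_mul, le_div_iff₀ (by positivity)] at h2
  nlinarith

theorem part_sumU {θ a ε : ℝ} (hθ : 0 < θ) (ha : 0 < a) (hε : 0 < ε) (hε1 : ε ≤ 1 / 4)
    (hθε : 28 * θ ≤ ε) :
    ∃ N0 : ℝ, 1 ≤ N0 ∧ ∀ (β N t : ℝ) (k : ℕ), 1 / 2 + ε ≤ β → β ≤ 1 → N0 ≤ N →
      (k : ℝ) ≤ a * Real.log N →
      (∀ M : ℕ, N ^ (1 - ε) ≤ M → (M : ℝ) ≤ N → ‖pSum M t‖ < (M : ℝ) ^ (β - ε)) →
      a ^ (k + 1) * ‖tPoly θ a k N t‖ < N ^ (-(1 - β) - ε / 4) := by
  obtain ⟨N0, hN01, hN0⟩ := log_small (C := 8 + a * (5 + a)) hε (by positivity)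
  refine ⟨N0, hN01, fun β N t k hβ hβ1 hN hk hP => ?_⟩
  obtain ⟨hL1, hL8⟩ := hN0 N hN
  set L := Real.log N with hL
  have hN1 : 1 ≤ N := hN01.trans hN
  have hNpos : 0 < N := by linarith
  set A : ℕ := ⌈N ^ (1 - 7 * θ)⌉₊ with hA
  set B : ℕ := ⌊N⌋₊ with hB
  have hak : 0 < a ^ k := by positivity
  have hRHS : 0 < N ^ (-(1 - β) - ε / 4) := by positivity
  rw [tPoly]
  have hBN : (B : ℝ) ≤ N := Nat.floor_le hNpos.le
  rcases Nat.lt_or_ge B A with hBA | hAB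
  · rw [Finset.Icc_eq_empty (by omega)]
    simpa using hRHS
  -- sizes
  have hAθ : N ^ (1 - 7 * θ) ≤ A := Nat.le_ceil _
  have hA1 : N ^ (1 - ε / 4) ≤ A := by
    refine le_trans ?_ hAθ
    exact Real.rpow_le_rpow_of_exponent_le hN1 (by linarith)
  have hA1' : (1:ℝ) ≤ A := (Real.one_le_rpow hN1 (by linarith)).trans hA1
  have hAn : 1 ≤ A := by exact_mod_cast hA1'
  have hApos : (0:ℝ) < A := by linarith
  have hABr : (A : ℝ) ≤ B := by exact_mod_cast hAB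
  have haL : 0 < a * (5 + a) * L := by positivity
  -- `N ^ (1 - ε) + 1 ≤ A`
  have hA2 : N ^ (1 - ε) + 1 ≤ A := by
    refine le_trans ?_ hA1
    have e1 : N ^ (1 - ε / 4) = N ^ (1 - ε) * (N ^ (ε / 4) * N ^ (ε / 2)) := by
      rw [← Real.rpow_add hNpos, ← Real.rpow_add hNpos]
      congr 1; ring
    have e2 : 1 ≤ N ^ (1 - ε) := Real.one_le_rpow hN1 (by linarith)
    have e3 : 1 ≤ N ^ (ε / 2) := Real.one_le_rpow hN1 (by linarith)
    have e5 : 2 ≤ N ^ (ε / 4) := by nlinarith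
    have e4 : 2 ≤ N ^ (ε / 4) * N ^ (ε / 2) := by nlinarith
    rw [e1]
    nlinarith
  -- the prime sums
  set f : ℕ → ℂ := fun n => if n.Prime then (n : ℂ) ^ (-(t * I)) else 0 with hf0
  have hfsum : ∀ m : ℕ, ∑ n ∈ Finset.Icc 1 m, f n =
      ∑ p ∈ (Finset.Icc 1 m).filter Nat.Prime, (p : ℂ) ^ (-(t * I)) := by
    intro m
    rw [hf0, Finset.sum_filter]
  have hF : ∀ m : ℕ, A - 1 ≤ m → m ≤ B → ‖∑ n ∈ Finset.Icc 1 m, f n‖ ≤ N ^ (β - ε) := by
    intro m h1 h2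
    have h3 : (m : ℝ) ≤ N := by
      have : (m : ℝ) ≤ B := by exact_mod_cast h2
      linarith
    have h4 : N ^ (1 - ε) ≤ m := by
      have : (A : ℝ) ≤ m + 1 := by
        have : A ≤ m + 1 := by omega
        exact_mod_cast this
      linarith
    rw [hfsum]
    refine (show ‖∑ p ∈ (Finset.Icc 1 m).filter Nat.Prime, (p : ℂ) ^ (-(t * I))‖ ≤ (m : ℝ) ^ (β - ε)
      from (hP m h4 h3).le).trans ?_
    exact Real.rpow_le_rpow (by positivity) h3 (by linarith)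
  -- norms of the twists
  have htw : ∀ n : ℕ, 1 ≤ n → ‖(n : ℂ) ^ (-(t * I))‖ = 1 := by
    intro n hn
    rw [Complex.norm_natCast_cpow_of_pos (by omega)]
    simp
  -- splitting
  have hsplit : ∑ n ∈ Finset.Icc A B, (dco a k n : ℂ) * (n : ℂ) ^ (-(t * I)) =
      ∑ n ∈ Finset.Icc A B, (hf a k n : ℂ) * f n +
      ∑ n ∈ (Finset.Icc A B).filter (fun n => ¬ n.Prime),
        (dco a k n : ℂ) * (n : ℂ) ^ (-(t * I)) := by
    rw [Finset.sum_filter, ← Finset.sum_add_distrib]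
    refine Finset.sum_congr rfl fun n _ => ?_
    by_cases hn : n.Prime
    · have e : dco a k n = hf a k n := by
        rw [dco, hf, ArithmeticFunction.vonMangoldt_apply_prime hn, pow_succ]
        ring
      simp [hf0, hn, e]
    · simp [hf0, hn]
  -- first part
  have hlogle : ∀ x : ℝ, 1 ≤ x → x ≤ N → Real.log x ≤ L := fun x h1 h2 =>
    Real.log_le_log (by linarith) h2
  have hpart1 : ‖∑ n ∈ Finset.Icc A B, (hf a k n : ℂ) * f n‖ ≤
      (a ^ k)⁻¹ * ((3 + a) * L) * (N ^ (β - ε) * (N * (A : ℝ)⁻¹ ^ 2)) := by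
    rw [abel_icc f (fun n => hf a k n) hAn B hAB]
    have hAinv : (A:ℝ)⁻¹ ≤ N * (A : ℝ)⁻¹ ^ 2 := by
      rw [sq, ← mul_assoc]
      have : 1 ≤ N * (A:ℝ)⁻¹ := by
        rw [← div_eq_mul_inv, le_div_iff₀ hApos]; linarith
      have h0 : 0 < (A:ℝ)⁻¹ := by positivity
      nlinarith
    have hBA' : (B:ℝ)⁻¹ ≤ (A:ℝ)⁻¹ := inv_anti₀ hApos hABr
    have t1 : ‖(hf a k B : ℂ) * (∑ n ∈ Finset.Icc 1 B, f n)‖ ≤
        (a ^ k)⁻¹ * L * (N ^ (β - ε) * (N * (A : ℝ)⁻¹ ^ 2)) := by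
      rw [norm_mul, Complex.norm_real, Real.norm_eq_abs]
      have h1 := hf_bound (L := L) ha (by linarith : (1:ℝ) ≤ B) (hlogle _ (by linarith) hBN) k
      have h2 := hF B (by omega) le_rfl
      calc |hf a k B| * ‖∑ n ∈ Finset.Icc 1 B, f n‖
          ≤ ((a ^ k)⁻¹ * L * (N * (A : ℝ)⁻¹ ^ 2)) * N ^ (β - ε) := by
            have h3 : (a ^ k)⁻¹ * L * (B:ℝ)⁻¹ ≤ (a ^ k)⁻¹ * L * (N * (A : ℝ)⁻¹ ^ 2) := by
              gcongr; linarith
            exact mul_le_mul (h1.trans h3) h2 (norm_nonneg _) (by positivity)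
        _ = _ := by ring
    have t2 : ‖(hf a k A : ℂ) * (∑ n ∈ Finset.Icc 1 (A - 1), f n)‖ ≤
        (a ^ k)⁻¹ * L * (N ^ (β - ε) * (N * (A : ℝ)⁻¹ ^ 2)) := by
      rw [norm_mul, Complex.norm_real, Real.norm_eq_abs]
      have h1 := hf_bound (L := L) ha hA1' (hlogle _ (by linarith) (by linarith)) k
      have h2 := hF (A - 1) le_rfl (by omega)
      calc |hf a k A| * ‖∑ n ∈ Finset.Icc 1 (A - 1), f n‖
          ≤ ((a ^ k)⁻¹ * L * (N * (A : ℝ)⁻¹ ^ 2)) * N ^ (β - ε) := by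
            have h3 : (a ^ k)⁻¹ * L * (A:ℝ)⁻¹ ≤ (a ^ k)⁻¹ * L * (N * (A : ℝ)⁻¹ ^ 2) := by
              gcongr
            exact mul_le_mul (h1.trans h3) h2 (norm_nonneg _) (by positivity)
        _ = _ := by ring
    have t3 : ‖∑ m ∈ Finset.Ico A B, ((hf a k m : ℂ) - (hf a k ((m + 1 : ℕ) : ℝ) : ℂ)) *
        (∑ n ∈ Finset.Icc 1 m, f n)‖ ≤
        (a ^ k)⁻¹ * ((1 + a) * L) * (N ^ (β - ε) * (N * (A : ℝ)⁻¹ ^ 2)) := by
      calc _ ≤ ∑ m ∈ Finset.Ico A B, (a ^ k)⁻¹ * ((1 + a) * L) * ((A:ℝ)⁻¹) ^ 2 * N ^ (β - ε) := by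
            refine norm_sum_le_of_le _ fun m hm => ?_
            rw [Finset.mem_Ico] at hm
            have hmA : (A:ℝ) ≤ m := by exact_mod_cast hm.1
            have hm1 : (m:ℝ) + 1 ≤ N := by
              have : m + 1 ≤ B := hm.2
              have : ((m + 1 : ℕ) : ℝ) ≤ B := by exact_mod_cast this
              push_cast at this
              linarith
            rw [norm_mul, ← Complex.ofReal_sub, Complex.norm_real, Real.norm_eq_abs]
            push_cast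
            exact mul_le_mul (hf_diff ha hL1 hA1' hk hmA
              (hlogle _ (by linarith) hm1)) (hF m (by omega) hm.2.le) (norm_nonneg _)
              (by positivity)
        _ = ((B - A : ℕ) : ℝ) * ((a ^ k)⁻¹ * ((1 + a) * L) * ((A:ℝ)⁻¹) ^ 2 * N ^ (β - ε)) := by
            rw [Finset.sum_const, nsmul_eq_mul, Nat.card_Ico]
        _ ≤ N * ((a ^ k)⁻¹ * ((1 + a) * L) * ((A:ℝ)⁻¹) ^ 2 * N ^ (β - ε)) := by
            gcongr
            have : ((B - A : ℕ) : ℝ) ≤ B := by exact_mod_cast Nat.sub_le _ _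
            linarith
        _ = _ := by ring
    refine (norm_add_le _ _).trans ?_
    refine (add_le_add (norm_sub_le _ _) le_rfl).trans ?_
    calc _ ≤ (a ^ k)⁻¹ * L * (N ^ (β - ε) * (N * (A : ℝ)⁻¹ ^ 2)) +
          (a ^ k)⁻¹ * L * (N ^ (β - ε) * (N * (A : ℝ)⁻¹ ^ 2)) +
          (a ^ k)⁻¹ * ((1 + a) * L) * (N ^ (β - ε) * (N * (A : ℝ)⁻¹ ^ 2)) :=
          add_le_add (add_le_add t1 t2) t3
      _ = _ := by ring
  -- second part
  have hpart2 : ‖∑ n ∈ (Finset.Icc A B).filter (fun n => ¬ n.Prime),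
        (dco a k n : ℂ) * (n : ℂ) ^ (-(t * I))‖ ≤
      (a ^ k)⁻¹ * (2 * L) * (N ^ (1 / 2 : ℝ) * (A : ℝ)⁻¹) := by
    have hpsi := Chebyshev.psi_sub_theta_le hN1
    rw [Chebyshev.psi_sub_theta_eq_sum_not_prime] at hpsi
    calc _ ≤ ∑ n ∈ (Finset.Icc A B).filter (fun n => ¬ n.Prime),
          (a ^ k)⁻¹ * (A:ℝ)⁻¹ * ArithmeticFunction.vonMangoldt n := by
          refine norm_sum_le_of_le _ fun n hn => ?_
          rw [Finset.mem_filter, Finset.mem_Icc] at hn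
          have hn1 : 1 ≤ n := hAn.trans hn.1.1
          have hnA : (A:ℝ) ≤ n := by exact_mod_cast hn.1.1
          have hn1r : (1:ℝ) ≤ n := by exact_mod_cast hn1
          have hn0 : (0:ℝ) < n := by linarith
          have hdn : 0 ≤ dco a k n := dco_nonneg a k n
          rw [norm_mul, htw n hn1, mul_one, Complex.norm_real, Real.norm_of_nonneg hdn, dco]
          have h1 := log_pow_le ha hn1r k
          have e3 : (n:ℝ) ^ a * (n:ℝ) ^ (-(1 + a)) = (n:ℝ)⁻¹ := by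
            rw [← Real.rpow_add hn0, ← Real.rpow_neg_one]
            congr 1; ring
          have hΛ : 0 ≤ ArithmeticFunction.vonMangoldt n := ArithmeticFunction.vonMangoldt_nonneg
          calc ArithmeticFunction.vonMangoldt n * (Real.log n ^ k / (k.factorial : ℝ)) *
                (n : ℝ) ^ (-(1 + a))
              ≤ ArithmeticFunction.vonMangoldt n * ((a ^ k)⁻¹ * (n:ℝ) ^ a) *
                (n : ℝ) ^ (-(1 + a)) := by gcongr
            _ = (a ^ k)⁻¹ * ((n:ℝ) ^ a * (n:ℝ) ^ (-(1 + a))) *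
                ArithmeticFunction.vonMangoldt n := by ring
            _ = (a ^ k)⁻¹ * (n:ℝ)⁻¹ * ArithmeticFunction.vonMangoldt n := by rw [e3]
            _ ≤ _ := by
              have : (n:ℝ)⁻¹ ≤ (A:ℝ)⁻¹ := inv_anti₀ hApos hnA
              gcongr
      _ = (a ^ k)⁻¹ * (A:ℝ)⁻¹ * ∑ n ∈ (Finset.Icc A B).filter (fun n => ¬ n.Prime),
          ArithmeticFunction.vonMangoldt n := by rw [Finset.mul_sum]
      _ ≤ (a ^ k)⁻¹ * (A:ℝ)⁻¹ * (2 * √N * Real.log N) := by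
          gcongr
          refine le_trans ?_ hpsi
          apply Finset.sum_le_sum_of_subset_of_nonneg
          · intro n hn
            rw [Finset.mem_filter, Finset.mem_Icc] at hn
            rw [Finset.mem_filter, Finset.mem_Ioc]
            exact ⟨⟨by omega, hn.1.2⟩, hn.2⟩
          · intro n _ _
            exact ArithmeticFunction.vonMangoldt_nonneg
      _ = _ := by rw [Real.sqrt_eq_rpow]; ring
  -- the end
  have hAinv : (A:ℝ)⁻¹ ≤ N ^ (-(1 - ε / 4)) := by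
    rw [Real.rpow_neg hNpos.le]
    exact inv_anti₀ (by positivity) hA1
  have hs1 : N ^ (β - ε) * (N * (A : ℝ)⁻¹ ^ 2) ≤ N ^ (-(1 - β) - ε / 2) := by
    calc N ^ (β - ε) * (N * (A : ℝ)⁻¹ ^ 2)
        ≤ N ^ (β - ε) * (N * (N ^ (-(1 - ε / 4))) ^ 2) := by gcongr
      _ = N ^ (β - ε) * (N ^ (1:ℝ) * N ^ (-(1 - ε / 4) * 2)) := by
          rw [Real.rpow_one, Real.rpow_mul hNpos.le]
          norm_num
      _ = N ^ (-(1 - β) - ε / 2) := by
          rw [← Real.rpow_add hNpos, ← Real.rpow_add hNpos]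
          congr 1; ring
  have hs2 : N ^ (1 / 2 : ℝ) * (A : ℝ)⁻¹ ≤ N ^ (-(1 - β) - ε / 2) := by
    calc N ^ (1 / 2 : ℝ) * (A : ℝ)⁻¹ ≤ N ^ (1 / 2 : ℝ) * N ^ (-(1 - ε / 4)) := by gcongr
      _ = N ^ (1 / 2 - (1 - ε / 4) : ℝ) := by rw [← Real.rpow_add hNpos]; congr 1
      _ ≤ _ := Real.rpow_le_rpow_of_exponent_le hN1 (by linarith)
  have hsum : ‖∑ n ∈ Finset.Icc A B, (dco a k n : ℂ) * (n : ℂ) ^ (-(t * I))‖ ≤
      (a ^ k)⁻¹ * ((5 + a) * L) * N ^ (-(1 - β) - ε / 2) := by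
    rw [hsplit]
    refine (norm_add_le _ _).trans ?_
    calc _ ≤ (a ^ k)⁻¹ * ((3 + a) * L) * (N ^ (β - ε) * (N * (A : ℝ)⁻¹ ^ 2)) +
          (a ^ k)⁻¹ * (2 * L) * (N ^ (1 / 2 : ℝ) * (A : ℝ)⁻¹) := add_le_add hpart1 hpart2
      _ ≤ (a ^ k)⁻¹ * ((3 + a) * L) * N ^ (-(1 - β) - ε / 2) +
          (a ^ k)⁻¹ * (2 * L) * N ^ (-(1 - β) - ε / 2) := by
          gcongr
      _ = _ := by ring
  have hfin : a * (5 + a) * L * N ^ (-(1 - β) - ε / 2) < N ^ (-(1 - β) - ε / 4) := by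
    have e1 : N ^ (-(1 - β) - ε / 4) = N ^ (ε / 4) * N ^ (-(1 - β) - ε / 2) := by
      rw [← Real.rpow_add hNpos]; congr 1; ring
    rw [e1]
    have : 0 < N ^ (-(1 - β) - ε / 2) := by positivity
    have e2 : a * (5 + a) * L < N ^ (ε / 4) := by nlinarith
    exact mul_lt_mul_of_pos_right e2 this
  calc a ^ (k + 1) * ‖∑ n ∈ Finset.Icc A B, (dco a k n : ℂ) * (n : ℂ) ^ (-(t * I))‖
      ≤ a ^ (k + 1) * ((a ^ k)⁻¹ * ((5 + a) * L) * N ^ (-(1 - β) - ε / 2)) := by gcongr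
    _ = a * (5 + a) * L * N ^ (-(1 - β) - ε / 2) := by
        rw [pow_succ]; field_simp
    _ < _ := hfin

end Pool.Agent.H52.Unc
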