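import Mathlib
import Pool.Agent.H76.CR.Sep
import Pool.Agent.H76.CR.DerivL
import Pool.Agent.H52.Unc.Defs

/-!
# RareSepU: few separated points where one of the polynomials is large, any `a > 0`, any exponent

As `H76/CR/RareSep.lean` (copy).  For `n ≥ 1`: `a^(k+1) dco a k n = a (Λ(n)/n) ((a log n)^k/k!)
e^(-a log n) ≤ a log n/n`.  Put `S = Icc ⌈N^(1-7θ)⌉₊ ⌊N⌋₊`, `M = ⌊N⌋₊`.
`∑_{n ∈ S} (a log n/n)² ≤ 2 a² (log N)² N^(-(1-7θ))`.  For each `k ≤ a log N` let `X_k` be the points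
of `X` with `N^(-μ) ≤ a^(k+1) ‖tPoly‖`: `sep_mean` with `H = N` gives
`card X_k ≤ 4 C a² N^(2μ+7θ) (1+log N)³`.  Sum over the at most `a log N + 1` values of `k`
(`X ⊆ ⋃ X_k`): `≤ N^(2μ+9θ)` for `N ≥ N0(θ, a)` (uniform in `μ`).  About 110 lines.
-/

set_option autoImplicit false

open Complex

namespace Pool.Agent.H52.Unc

open Pool.Agent.H76.CR

private theorem rsu_ev (θ K : ℝ) (hθ : 0 < θ) : ∃ N0 : ℝ, 256 ≤ N0 ∧ ∀ N : ℝ, N0 ≤ N →
    K * (1 + Real.log N) ^ 4 ≤ N ^ (2 * θ) := by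
  have h1 := (isLittleO_log_rpow_atTop (r := θ / 4) (by positivity)).bound
    (c := 1 / 2) (by norm_num)
  have h2 := (tendsto_rpow_atTop (y := θ / 4) (by positivity)).eventually_ge_atTop 2
  have h3 := (tendsto_rpow_atTop (y := θ) hθ).eventually_ge_atTop K
  obtain ⟨N1, hN1⟩ := Filter.eventually_atTop.1 (h1.and (h2.and h3))
  refine ⟨max N1 256, le_max_right _ _, fun N hN => ?_⟩
  obtain ⟨a1, a2, a3⟩ := hN1 N ((le_max_left _ _).trans hN)
  have hN256 : 256 ≤ N := (le_max_right _ _).trans hN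
  have hN0 : 0 < N := by linarith
  have hlog : 0 ≤ Real.log N := Real.log_nonneg (by linarith)
  rw [Real.norm_of_nonneg hlog, Real.norm_of_nonneg (Real.rpow_nonneg hN0.le _)] at a1
  have b1 : 1 + Real.log N ≤ N ^ (θ / 4) := by linarith
  have b2 : (1 + Real.log N) ^ 4 ≤ N ^ θ := by
    calc (1 + Real.log N) ^ 4 ≤ (N ^ (θ / 4)) ^ 4 := pow_le_pow_left₀ (by linarith) b1 4
      _ = N ^ θ := by
        rw [← Real.rpow_natCast, ← Real.rpow_mul hN0.le]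
        congr 1
        push_cast
        ring
  calc K * (1 + Real.log N) ^ 4 ≤ N ^ θ * N ^ θ :=
        mul_le_mul a3 b2 (by positivity) (Real.rpow_nonneg hN0.le _)
    _ = N ^ (2 * θ) := by
        rw [← Real.rpow_add hN0]
        congr 1
        ring

private theorem rsu_coeff {a : ℝ} (ha : 0 < a) (k n : ℕ) (hn : 1 ≤ n) :
    0 ≤ a ^ (k + 1) * dco a k n ∧ a ^ (k + 1) * dco a k n ≤ a * (Real.log n / n) := by
  have hn0 : (0 : ℝ) < n := by exact_mod_cast hn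
  have hl : 0 ≤ Real.log n := Real.log_natCast_nonneg n
  have hL : ArithmeticFunction.vonMangoldt n ≤ Real.log n := ArithmeticFunction.vonMangoldt_le_log
  have hL0 : 0 ≤ ArithmeticFunction.vonMangoldt n := ArithmeticFunction.vonMangoldt_nonneg
  have h1 : (a * Real.log n) ^ k / (k.factorial : ℝ) ≤ Real.exp (a * Real.log n) :=
    Real.pow_div_factorial_le_exp _ (by positivity) k
  have h2 : (n : ℝ) ^ (-(1 + a)) = (n : ℝ)⁻¹ * Real.exp (-(a * Real.log n)) := by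
    rw [neg_add, Real.rpow_add hn0, Real.rpow_neg_one, Real.rpow_def_of_pos hn0 (-a)]
    congr 2
    ring
  have h3 : a ^ (k + 1) * dco a k n = a * ArithmeticFunction.vonMangoldt n * (n : ℝ)⁻¹ *
      ((a * Real.log n) ^ k / (k.factorial : ℝ) * Real.exp (-(a * Real.log n))) := by
    unfold dco
    rw [h2, mul_pow, pow_succ]
    ring
  have h4 : (a * Real.log n) ^ k / (k.factorial : ℝ) * Real.exp (-(a * Real.log n)) ≤ 1 := by
    calc (a * Real.log n) ^ k / (k.factorial : ℝ) * Real.exp (-(a * Real.log n))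
        ≤ Real.exp (a * Real.log n) * Real.exp (-(a * Real.log n)) :=
          mul_le_mul_of_nonneg_right h1 (Real.exp_nonneg _)
      _ = 1 := by rw [← Real.exp_add, add_neg_cancel, Real.exp_zero]
  have h5 : 0 ≤ (a * Real.log n) ^ k / (k.factorial : ℝ) * Real.exp (-(a * Real.log n)) := by
    positivity
  rw [h3]
  refine ⟨by positivity, ?_⟩
  calc a * ArithmeticFunction.vonMangoldt n * (n : ℝ)⁻¹ *
      ((a * Real.log n) ^ k / (k.factorial : ℝ) * Real.exp (-(a * Real.log n)))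
      ≤ a * ArithmeticFunction.vonMangoldt n * (n : ℝ)⁻¹ * 1 :=
        mul_le_mul_of_nonneg_left h4 (by positivity)
    _ ≤ a * Real.log n * (n : ℝ)⁻¹ * 1 := by gcongr
    _ = a * (Real.log n / n) := by ring

theorem rare_sepU {θ a : ℝ} (hθ : 0 < θ) (hθ1 : θ ≤ 1 / 8) (ha : 0 < a) :
    ∃ N0 : ℝ, 1 ≤ N0 ∧ ∀ (μ N T : ℝ) (X : Finset ℝ), 0 ≤ μ → N0 ≤ N →
      (∀ x ∈ X, T ≤ x ∧ x ≤ T + N) → (∀ x ∈ X, ∀ y ∈ X, x ≠ y → 1 ≤ |x - y|) →
      (∀ x ∈ X, ∃ k : ℕ, (k : ℝ) ≤ a * Real.log N ∧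
        N ^ (-μ) ≤ a ^ (k + 1) * ‖tPoly θ a k N x‖) →
      (X.card : ℝ) ≤ N ^ (2 * μ + 9 * θ) := by
  classical
  obtain ⟨C, hC0, hC⟩ := sep_mean
  obtain ⟨N0, hN0, hN⟩ := rsu_ev θ (4 * C * a ^ 2 * (a + 1)) hθ
  refine ⟨N0, by linarith, fun μ N T X hμ hNN hX hsep hbig => ?_⟩
  have hN256 : 256 ≤ N := hN0.trans hNN
  have hNpos : 0 < N := by linarith
  have hev := hN N hNN
  set L := Real.log N with hL
  have hL0 : 0 ≤ L := Real.log_nonneg (by linarith)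
  set Y := N ^ (1 - 7 * θ) with hY
  have hY1 : 1 ≤ Y := Real.one_le_rpow (by linarith) (by linarith)
  have hYpos : 0 < Y := by linarith
  have hfl : (⌊N⌋₊ : ℝ) ≤ N := Nat.floor_le hNpos.le
  have hfl1 : 1 ≤ ⌊N⌋₊ := Nat.le_floor (by push_cast; linarith)
  have hce1 : 1 ≤ ⌈Y⌉₊ := Nat.one_le_ceil_iff.2 hYpos
  set Xk : ℕ → Finset ℝ := fun k =>
    X.filter (fun x => N ^ (-μ) ≤ a ^ (k + 1) * ‖tPoly θ a k N x‖) with hXk
  have hsub : X ⊆ (Finset.range (⌊a * L⌋₊ + 1)).biUnion Xk := by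
    intro x hx
    obtain ⟨k, hk, hk2⟩ := hbig x hx
    rw [Finset.mem_biUnion]
    exact ⟨k, Finset.mem_range.2 (Nat.lt_succ_of_le (Nat.le_floor hk)),
      Finset.mem_filter.2 ⟨hx, hk2⟩⟩
  have hk : ∀ k, ((Xk k).card : ℝ) ≤
      N ^ (2 * μ) * (4 * C * a ^ 2 * (1 + L) ^ 3 * N ^ (7 * θ)) := by
    intro k
    have h := hC T N ⌊N⌋₊ (Finset.Icc ⌈Y⌉₊ ⌊N⌋₊)
      (fun n => ((a ^ (k + 1) * dco a k n : ℝ) : ℂ)) (Xk k) (by linarith) hfl1
      (fun n hn => ⟨hce1.trans (Finset.mem_Icc.1 hn).1, (Finset.mem_Icc.1 hn).2⟩)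
      (fun x hx => hX x (Finset.mem_filter.1 hx).1)
      (fun x hx y hy hxy => hsep x (Finset.mem_filter.1 hx).1 y (Finset.mem_filter.1 hy).1 hxy)
    have hlow : ((Xk k).card : ℝ) * N ^ (-(2 * μ)) ≤
        ∑ x ∈ Xk k, ‖∑ n ∈ Finset.Icc ⌈Y⌉₊ ⌊N⌋₊,
          ((a ^ (k + 1) * dco a k n : ℝ) : ℂ) * (n : ℂ) ^ (-(x * I))‖ ^ 2 := by
      rw [← nsmul_eq_mul]
      refine Finset.card_nsmul_le_sum _ _ _ fun x hx => ?_
      have h1 := (Finset.mem_filter.1 hx).2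
      have h2 : ∑ n ∈ Finset.Icc ⌈Y⌉₊ ⌊N⌋₊,
          ((a ^ (k + 1) * dco a k n : ℝ) : ℂ) * (n : ℂ) ^ (-(x * I)) =
          ((a ^ (k + 1) : ℝ) : ℂ) * tPoly θ a k N x := by
        unfold tPoly
        rw [Finset.mul_sum]
        refine Finset.sum_congr rfl fun n _ => ?_
        push_cast
        ring
      rw [h2, norm_mul, Complex.norm_real, Real.norm_of_nonneg (by positivity)]
      calc N ^ (-(2 * μ)) = (N ^ (-μ)) ^ 2 := by
            rw [← Real.rpow_natCast, ← Real.rpow_mul hNpos.le]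
            congr 1
            push_cast
            ring
        _ ≤ (a ^ (k + 1) * ‖tPoly θ a k N x‖) ^ 2 :=
            pow_le_pow_left₀ (Real.rpow_nonneg hNpos.le _) h1 2
    have hup : ∑ n ∈ Finset.Icc ⌈Y⌉₊ ⌊N⌋₊, ‖((a ^ (k + 1) * dco a k n : ℝ) : ℂ)‖ ^ 2 ≤
        a ^ 2 * L ^ 2 * (2 / Y) := by
      have e1 : ∑ n ∈ Finset.Icc ⌈Y⌉₊ ⌊N⌋₊, ‖((a ^ (k + 1) * dco a k n : ℝ) : ℂ)‖ ^ 2 ≤
          ∑ n ∈ Finset.Icc ⌈Y⌉₊ ⌊N⌋₊, a ^ 2 * L ^ 2 * ((n : ℝ) ^ 2)⁻¹ := by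
        refine Finset.sum_le_sum fun n hn => ?_
        have hn' := Finset.mem_Icc.1 hn
        have hn1 : 1 ≤ n := hce1.trans hn'.1
        have hnpos : (0 : ℝ) < n := by exact_mod_cast hn1
        obtain ⟨c1, c2⟩ := rsu_coeff ha k n hn1
        rw [Complex.norm_real, Real.norm_of_nonneg c1]
        have hnN : (n : ℝ) ≤ N := le_trans (by exact_mod_cast hn'.2) hfl
        have hln : Real.log n ≤ L := Real.log_le_log hnpos hnN
        have hln0 : 0 ≤ Real.log n := Real.log_natCast_nonneg n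
        have c3 : a * (Real.log n / n) ≤ a * (L / n) := by gcongr
        calc (a ^ (k + 1) * dco a k n) ^ 2 ≤ (a * (L / n)) ^ 2 :=
              pow_le_pow_left₀ c1 (c2.trans c3) 2
          _ = a ^ 2 * L ^ 2 * ((n : ℝ) ^ 2)⁻¹ := by
              field_simp
      have e2 : ∑ n ∈ Finset.Icc ⌈Y⌉₊ ⌊N⌋₊, ((n : ℝ) ^ 2)⁻¹ ≤ 2 / Y := by
        have e3 : Finset.Icc ⌈Y⌉₊ ⌊N⌋₊ = Finset.Ioo (⌈Y⌉₊ - 1) (⌊N⌋₊ + 1) := by
          ext x
          simp only [Finset.mem_Icc, Finset.mem_Ioo]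
          omega
        rw [e3]
        refine (sum_Ioo_inv_sq_le (α := ℝ) (⌈Y⌉₊ - 1) (⌊N⌋₊ + 1)).trans ?_
        have e4 : (((⌈Y⌉₊ - 1 : ℕ) : ℝ) + 1) = (⌈Y⌉₊ : ℝ) := by
          rw [Nat.cast_sub hce1]
          push_cast
          ring
        rw [e4]
        exact div_le_div_of_nonneg_left (by norm_num) hYpos (Nat.le_ceil Y)
      calc _ ≤ _ := e1
        _ = a ^ 2 * L ^ 2 * ∑ n ∈ Finset.Icc ⌈Y⌉₊ ⌊N⌋₊, ((n : ℝ) ^ 2)⁻¹ := by
            rw [Finset.mul_sum]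
        _ ≤ _ := by gcongr
    have hlogM : Real.log (⌊N⌋₊ : ℝ) ≤ L :=
      Real.log_le_log (by exact_mod_cast hfl1) hfl
    have hlogM0 : 0 ≤ Real.log (⌊N⌋₊ : ℝ) := Real.log_natCast_nonneg _
    have hall : ((Xk k).card : ℝ) * N ^ (-(2 * μ)) ≤
        4 * C * a ^ 2 * (1 + L) ^ 3 * N ^ (7 * θ) := by
      have f1 : N / Y = N ^ (7 * θ) := by
        rw [hY]
        nth_rewrite 1 [← Real.rpow_one N]
        rw [← Real.rpow_sub hNpos]
        congr 1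
        ring
      calc ((Xk k).card : ℝ) * N ^ (-(2 * μ)) ≤ _ := hlow
        _ ≤ _ := h
        _ ≤ C * (N + N) * (1 + L) * (a ^ 2 * L ^ 2 * (2 / Y)) := by
            gcongr
        _ ≤ C * (N + N) * (1 + L) * (a ^ 2 * (1 + L) ^ 2 * (2 / Y)) := by
            gcongr
            linarith
        _ = 4 * C * a ^ 2 * (1 + L) ^ 3 * (N / Y) := by ring
        _ = _ := by rw [f1]
    have hone : N ^ (2 * μ) * N ^ (-(2 * μ)) = 1 := by
      rw [← Real.rpow_add hNpos, add_neg_cancel, Real.rpow_zero]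
    calc ((Xk k).card : ℝ) = N ^ (2 * μ) * (((Xk k).card : ℝ) * N ^ (-(2 * μ))) := by
          rw [mul_comm ((Xk k).card : ℝ), ← mul_assoc, hone, one_mul]
      _ ≤ _ := mul_le_mul_of_nonneg_left hall (Real.rpow_nonneg hNpos.le _)
  have hcard : (X.card : ℝ) ≤ ∑ k ∈ Finset.range (⌊a * L⌋₊ + 1), ((Xk k).card : ℝ) := by
    have := (Finset.card_le_card hsub).trans Finset.card_biUnion_le
    exact_mod_cast this
  have hsum : ∑ k ∈ Finset.range (⌊a * L⌋₊ + 1), ((Xk k).card : ℝ) ≤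
      ((⌊a * L⌋₊ : ℝ) + 1) * (N ^ (2 * μ) * (4 * C * a ^ 2 * (1 + L) ^ 3 * N ^ (7 * θ))) := by
    refine (Finset.sum_le_sum fun k _ => hk k).trans ?_
    rw [Finset.sum_const, Finset.card_range, nsmul_eq_mul]
    push_cast
    exact le_refl _
  have hfa : (⌊a * L⌋₊ : ℝ) + 1 ≤ (a + 1) * (1 + L) := by
    have := Nat.floor_le (mul_nonneg ha.le hL0)
    nlinarith
  calc (X.card : ℝ) ≤ _ := hcard
    _ ≤ _ := hsum
    _ ≤ (a + 1) * (1 + L) * (N ^ (2 * μ) * (4 * C * a ^ 2 * (1 + L) ^ 3 * N ^ (7 * θ))) :=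
        mul_le_mul_of_nonneg_right hfa (by positivity)
    _ = (4 * C * a ^ 2 * (a + 1) * (1 + L) ^ 4) * (N ^ (2 * μ) * N ^ (7 * θ)) := by ring
    _ ≤ N ^ (2 * θ) * (N ^ (2 * μ) * N ^ (7 * θ)) :=
        mul_le_mul_of_nonneg_right hev (by positivity)
    _ = N ^ (2 * μ + 9 * θ) := by
        rw [← Real.rpow_add hNpos, ← Real.rpow_add hNpos]
        congr 1
        ring

end Pool.Agent.H52.Unc
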