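import Mathlib
import Pool.Agent.H76.CR.DerivL
import Pool.Agent.H76.CR.Tail

/-!
# TailU: only `n = exp ((1+O(θ)) k0/a)` matters in `∑ dco a k n`, any `a > 0`

Same statement and proof as `H76/CR/Tail.lean`, without the hypothesis `a ≤ 1` (copy that proof when
it is done; `C` may depend on `θ` and `a`).
For `x ≥ 0`, `l > 0`: `x^k/k! ≤ l^(-k) exp (l x)` (`Real.pow_div_factorial_le_exp`).  With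
`x = a log n`: `dco a k n = a^(-k) (Λ(n)/n) (x^k/k!) e^(-x)`.
LOWER part, `x ≤ (1-2θ) k0`: `l = 1+2θ`, so `dco ≤ a^(-k) (Λ(n)/n) (1+2θ)^(-k) exp(2θ x)
≤ a^(-k) (Λ(n)/n) exp(-k0 (2θ - 2θ²) + 2θ(1-2θ) k0) = a^(-k) (Λ(n)/n) exp(-2θ² k0)`
(`k ≥ k0`, `log(1+y) ≥ y - y²/2`), and `∑_{n ≤ N} Λ(n)/n ≤ N^(e) ∑ Λ(n) n^(-1-e)` with
`e = a θ²/4`, which costs `exp(θ² k0/4)`.
UPPER part, `x ≥ (1+4θ) k0`: `l = 1-θ`, `dco ≤ a^(-k) (Λ(n)/n) (1-θ)^(-k) exp(-θ x)`,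
`exp(-θ x) ≤ exp(-θ (1-θ/4) (1+4θ) k0) exp(-(θ²/4) x)`, `(1-θ)^(-k) ≤ exp((θ+θ²)(1+θ)k0)`
(`k ≤ (1+θ) k0`, `-log(1-θ) ≤ θ+θ²`), total exponent `≤ -(3/2) θ² k0`, and
`∑ Λ(n) n^(-1-aθ²/4) < ∞`.  Everything is `≤ C a^(-(k+1)) exp(-θ² k0)`.  About 130 lines.
-/

set_option autoImplicit false

open Complex

namespace Pool.Agent.H52.Unc

open Pool.Agent.H76.CR

theorem tailU {θ a : ℝ} (hθ : 0 < θ) (hθ1 : θ ≤ 1 / 8) (ha : 0 < a) :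
    ∃ C : ℝ, 0 < C ∧ ∀ (k0 k : ℕ) (N1 N2 : ℝ), k0 ≤ k → (k : ℝ) ≤ (1 + θ) * k0 → 0 < N1 → 0 < N2 →
      a * Real.log N1 ≤ (1 - 2 * θ) * k0 → (1 + 4 * θ) * k0 ≤ a * Real.log N2 →
      ∀ F : Finset ℕ, (∀ n : ℕ, N1 ≤ n → (n : ℝ) ≤ N2 → n ∈ F) →
      ∑' n : ℕ, (if n ∈ F then 0 else dco a k n) ≤ C * Real.exp (-(θ ^ 2 * k0)) / a ^ (k + 1) :=
  tail_gen hθ hθ1 ha

end Pool.Agent.H52.Unc
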