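import Mathlib
import Pool.Agent.H52.Unc.DetectU
import Pool.Agent.H52.Unc.TailU

/-!
# SeenU: an uncrowded zero is seen by the primes in `[N^(1-7θ), N]`

As `H76/CR/Seen.lean`.  `ha` gives `a ≥ 4(1-σ)/θ² ≥ 256 (1-σ)`.
Put `κ = min (η/8) (θ (1-σ)/(16 a))` (so `κ ≤ θ`, `κ ≤ θ²/16`), `k0 = ⌊a log N/(1+4θ)⌋`.  Then
`(1+4θ) k0 ≤ a log N`, and with `N1 = N^(1-7θ)`: `a log N1 = (1-7θ) a log N ≤ (1-2θ) k0` for `N`
large, because `k0 ≥ a log N/(1+4θ) - 1` and `(1-2θ)/(1+4θ) ≥ 1 - 6θ`.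
`N ≥ (log |γ|)^C`, `|γ| ≥ C`, with `C` large makes `N` as large as we like and
`k0 ≥ C1 loglog(|γ|+2) + C1`.
`detectU` gives `k ≤ (1+κ) k0` with `exp(-5κk0) ≤ R^(k+1) ‖Dk a k γ‖`, `R = a+1-β`, `β = re ρ`.
`(R/a)^(k+1) = (1 + (1-β)/a)^(k+1) ≤ exp((1-β)(k+1)/a)` and `(k+1)/a ≤ (1+κ) log N/(1+4θ) + 1/a ≤
log N` for `N` large (`(1+θ)/(1+4θ) ≤ 1 - 2θ`), so `a^(k+1) ‖Dk‖ ≥ N^(-(1-β)) exp(-5κk0)`.
With `F = Icc ⌈N^(1-7θ)⌉₊ ⌊N⌋₊`: `‖Dk - tPoly‖ ≤ tail ≤ C2 exp(-θ² k0)/a^(k+1)`, and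
`θ² k0 ≥ θ² (a log N/(1+4θ) - 1) ≥ (8/3)(1-σ) log N - 1 ≥ (1-β) log N + 5κk0 + log(2 C2)` for `N` large
(`1-β ≤ 1-σ`, `5κk0 ≤ 5κ a log N ≤ (5/16) θ (1-σ) log N`).  So
`a^(k+1) ‖tPoly‖ ≥ (1/2) N^(-(1-β)) exp(-5κ k0) ≥ N^(-(1-β)-θ)`.
`k ≤ (1+κ) k0 ≤ a log N`.  The constant `c = κ/log(160/κ) * a/4`: `c log N ≤ κ/log(160/κ) k0` since
`k0 ≥ a log N/4`.  About 170 lines.
-/

set_option autoImplicit false

open Complex

namespace Pool.Agent.H52.Unc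

open Pool.Agent.H76.CR

/-- A series with nonnegative coefficients and unimodular factors, minus a finite part. -/
private theorem tsum_sub_sum_le {g : ℕ → ℝ} (hg : ∀ n, 0 ≤ g n) (hs : Summable g) {z : ℕ → ℂ}
    (hz : ∀ n, ‖z n‖ ≤ 1) (F : Finset ℕ) :
    ‖(∑' n : ℕ, (g n : ℂ) * z n) - ∑ n ∈ F, (g n : ℂ) * z n‖ ≤
      ∑' n : ℕ, (if n ∈ F then 0 else g n) := by
  have hb : ∀ n, ‖(g n : ℂ) * z n‖ ≤ g n := by
    intro n
    rw [norm_mul, Complex.norm_real, Real.norm_of_nonneg (hg n)]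
    exact mul_le_of_le_one_right (hg n) (hz n)
  have hsz : Summable fun n => (g n : ℂ) * z n := Summable.of_norm_bounded hs hb
  have h1 : Summable fun n : ℕ => (if n ∈ F then (0 : ℂ) else (g n : ℂ) * z n) := by
    refine Summable.of_norm_bounded hs fun n => ?_
    split_ifs with h
    · simpa using hg n
    · exact hb n
  have h2 : Summable fun n : ℕ => (if n ∈ F then (g n : ℂ) * z n else 0) := by
    refine Summable.of_norm_bounded hs fun n => ?_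
    split_ifs with h
    · exact hb n
    · simpa using hg n
  have h3 : (∑' n : ℕ, (g n : ℂ) * z n) =
      (∑' n : ℕ, (if n ∈ F then (g n : ℂ) * z n else 0)) +
        ∑' n : ℕ, (if n ∈ F then (0 : ℂ) else (g n : ℂ) * z n) := by
    rw [← h2.tsum_add h1]
    refine tsum_congr fun n => ?_
    split_ifs <;> simp
  have h4 : (∑' n : ℕ, (if n ∈ F then (g n : ℂ) * z n else 0)) = ∑ n ∈ F, (g n : ℂ) * z n := by
    rw [tsum_eq_sum (s := F) (fun n hn => if_neg hn)]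
    exact Finset.sum_congr rfl fun n hn => if_pos hn
  rw [h3, h4, add_sub_cancel_left]
  have h5 : Summable fun n : ℕ => (if n ∈ F then (0 : ℝ) else g n) := by
    refine Summable.of_nonneg_of_le (fun n => ?_) (fun n => ?_) hs
    · split_ifs
      · exact le_rfl
      · exact hg n
    · split_ifs
      · exact hg n
      · exact le_rfl
  refine tsum_of_norm_bounded h5.hasSum fun n => ?_
  split_ifs with h
  · simp
  · exact hb n

private theorem norm_cpow_unit_le (n : ℕ) (t : ℝ) : ‖(n : ℂ) ^ (-(t * I))‖ ≤ 1 := by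
  rcases Nat.eq_zero_or_pos n with rfl | hn
  · rw [Nat.cast_zero]
    by_cases h : (-(t * I) : ℂ) = 0
    · rw [h]; simp
    · rw [Complex.zero_cpow h]; simp
  · rw [Complex.norm_natCast_cpow_of_pos hn]
    simp

private theorem par1 {θ a σ : ℝ} (hθ : 0 < θ) (hθ1 : θ ≤ 1 / 8) (hσ : σ < 1)
    (ha : 4 * (1 - σ) ≤ a * θ ^ 2) : 0 < a ∧ 256 * (1 - σ) ≤ a := by
  have hθ2 : θ ^ 2 ≤ 1 / 64 := by nlinarith
  have hθ20 : 0 < θ ^ 2 := by positivity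
  have ha0 : 0 < a := by
    by_contra h
    push Not at h
    nlinarith
  have := mul_le_mul_of_nonneg_left hθ2 ha0.le
  exact ⟨ha0, by linarith⟩

private theorem par2 {θ a σ η : ℝ} (hθ : 0 < θ) (hη : 0 < η)
    (hσ' : 0 < 1 - σ) (ha0 : 0 < a) (ha256 : 256 * (1 - σ) ≤ a) :
    ∃ κ : ℝ, 0 < κ ∧ 8 * κ ≤ η ∧ 16 * (κ * a) ≤ θ * (1 - σ) ∧ κ ≤ θ / 128 := by
  refine ⟨min (η / 8) (θ * (1 - σ) / (16 * a)), lt_min (by positivity) (by positivity), ?_⟩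
  obtain ⟨κ, hκ⟩ : ∃ κ : ℝ, κ = min (η / 8) (θ * (1 - σ) / (16 * a)) := ⟨_, rfl⟩
  have hκ0 : 0 < κ := by rw [hκ]; exact lt_min (by positivity) (by positivity)
  have hκη : 8 * κ ≤ η := by
    have : κ ≤ η / 8 := by rw [hκ]; exact min_le_left _ _
    linarith
  have hκa : 16 * (κ * a) ≤ θ * (1 - σ) := by
    have h1 : κ ≤ θ * (1 - σ) / (16 * a) := by rw [hκ]; exact min_le_right _ _
    rw [le_div_iff₀ (by positivity)] at h1
    linarith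
  rw [← hκ]
  refine ⟨hκη, hκa, ?_⟩
  have h1 : 16 * (κ * (256 * (1 - σ))) ≤ 16 * (κ * a) := by
    have := mul_le_mul_of_nonneg_left ha256 hκ0.le
    linarith
  have h2 : (16 * 256 * κ) * (1 - σ) ≤ θ * (1 - σ) := by linarith
  have h3 := le_of_mul_le_mul_right h2 hσ'
  linarith

private theorem loglog {C1 x : ℝ} (hC1 : 0 < C1) (hx : 3 ≤ x) (hl : 1 ≤ Real.log (Real.log x)) :
    C1 * Real.log (Real.log (x + 2)) + C1 ≤ 3 * C1 * Real.log (Real.log x) := by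
  have hl0 : 0 < Real.log x := Real.log_pos (by linarith)
  have e1 : Real.log (x + 2) ≤ 2 * Real.log x := by
    have : 2 * Real.log x = Real.log (x ^ 2) := by
      rw [Real.log_pow]; norm_num
    rw [this]
    apply Real.log_le_log (by linarith)
    nlinarith
  have e2 : Real.log (Real.log (x + 2)) ≤ 1 + Real.log (Real.log x) := by
    have e3 : 0 < Real.log (x + 2) := Real.log_pos (by linarith)
    calc Real.log (Real.log (x + 2)) ≤ Real.log (2 * Real.log x) := Real.log_le_log e3 e1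
      _ = Real.log 2 + Real.log (Real.log x) := Real.log_mul (by norm_num) hl0.ne'
      _ ≤ 1 + Real.log (Real.log x) := by
          have := Real.log_two_lt_d9
          linarith
  have e4 := mul_le_mul_of_nonneg_left e2 hC1.le
  have e5 := mul_le_mul_of_nonneg_left hl hC1.le
  linarith

private theorem consts {θ a σ C1 C2 : ℝ} (hθ : 0 < θ) (ha0 : 0 < a) (hσ' : 0 < 1 - σ)
    (hC1 : 0 < C1) (hC2 : 0 < C2) :
    ∃ C : ℝ, 1 ≤ C ∧ ∀ x N : ℝ, C ≤ x → Real.log x ^ C ≤ N →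
      C1 ≤ x ∧ 0 < N ∧ 0 < Real.log N ∧
      C1 * Real.log (Real.log (x + 2)) + C1 ≤ a * Real.log N / 4 ∧
      2 * C2 + 1 ≤ (1 - σ) * Real.log N ∧ 3 ≤ a * Real.log N ∧ 2 ≤ θ * a * Real.log N ∧
      2 ≤ θ * (1 - σ) * Real.log N := by
  have p0 : 0 < Real.exp (Real.exp 1) := Real.exp_pos _
  have p1 : 0 < 16 * C1 / a := by positivity
  have p2 : 0 < (2 * C2 + 1) / (1 - σ) := by positivity
  have p3 : 0 < 3 / a := by positivity
  have p4 : 0 < 2 / (θ * a) := by positivity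
  have p5 : 0 < 2 / (θ * (1 - σ)) := by positivity
  obtain ⟨C, hC⟩ : ∃ C : ℝ, C = Real.exp (Real.exp 1) + C1 + 16 * C1 / a +
    (2 * C2 + 1) / (1 - σ) + 3 / a + 2 / (θ * a) + 2 / (θ * (1 - σ)) := ⟨_, rfl⟩
  have hexp1 : (2 : ℝ) ≤ Real.exp 1 := by have := Real.add_one_le_exp (1 : ℝ); linarith
  have hexp2 : (3 : ℝ) ≤ Real.exp (Real.exp 1) := by
    have := Real.add_one_le_exp (Real.exp 1); linarith
  refine ⟨C, by linarith, ?_⟩
  intro x N hx hN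
  have hx3 : 3 ≤ x := by linarith
  have hl1 : Real.exp 1 ≤ Real.log x := by
    rw [Real.le_log_iff_exp_le (by linarith)]
    linarith
  have hl0 : 0 < Real.log x := by linarith
  have hll : 1 ≤ Real.log (Real.log x) := by
    rw [Real.le_log_iff_exp_le hl0]
    exact hl1
  have hN0 : 0 < N := lt_of_lt_of_le (Real.rpow_pos_of_pos hl0 _) hN
  have hCpos : 0 < C := by linarith
  have hL : C * Real.log (Real.log x) ≤ Real.log N := by
    rw [← Real.log_rpow hl0]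
    exact Real.log_le_log (Real.rpow_pos_of_pos hl0 _) hN
  obtain ⟨L, hLdef⟩ : ∃ L : ℝ, L = Real.log N := ⟨_, rfl⟩
  rw [← hLdef] at hL ⊢
  have hLC : C ≤ L := by
    have := mul_le_mul_of_nonneg_left hll hCpos.le
    linarith
  refine ⟨by linarith, hN0, by linarith, ?_, ?_, ?_, ?_, ?_⟩
  · have e5 : 16 * C1 / a * Real.log (Real.log x) ≤ L := by
      refine le_trans (mul_le_mul_of_nonneg_right ?_ (by linarith)) hL
      linarith
    have e6 : 16 * C1 * Real.log (Real.log x) ≤ a * L := by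
      have : 16 * C1 * Real.log (Real.log x) =
        a * (16 * C1 / a * Real.log (Real.log x)) := by field_simp
      rw [this]
      exact mul_le_mul_of_nonneg_left e5 ha0.le
    have e7 := loglog hC1 hx3 hll
    have e8 : 0 < C1 * Real.log (Real.log x) := by positivity
    linarith
  · have : (2 * C2 + 1) / (1 - σ) ≤ L := by linarith
    have h' := (div_le_iff₀ hσ').1 this
    linarith
  · have : 3 / a ≤ L := by linarith
    have h' := (div_le_iff₀ ha0).1 this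
    linarith
  · have : 2 / (θ * a) ≤ L := by linarith
    have h' := (div_le_iff₀ (by positivity)).1 this
    linarith
  · have : 2 / (θ * (1 - σ)) ≤ L := by linarith
    have h' := (div_le_iff₀ (by positivity)).1 this
    linarith

private theorem k0facts {θ M : ℝ} (hθ : 0 < θ) (hθ1 : θ ≤ 1 / 8) (hM : 3 ≤ M)
    (hM4 : 2 ≤ θ * M) :
    ∃ k0 : ℕ, (1 + 4 * θ) * k0 ≤ M ∧ M ≤ (k0 + 1) * (1 + 4 * θ) ∧ M / 4 ≤ k0 ∧
      (k0 : ℝ) ≤ M ∧ (1 - 7 * θ) * M ≤ (1 - 2 * θ) * k0 ∧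
      ∀ k : ℝ, k ≤ (1 + θ) * k0 → k + 1 ≤ M := by
  have h4 : 0 < 1 + 4 * θ := by linarith
  have hk0le : (⌊M / (1 + 4 * θ)⌋₊ : ℝ) ≤ M / (1 + 4 * θ) := Nat.floor_le (by positivity)
  have hk0lt : M / (1 + 4 * θ) < ⌊M / (1 + 4 * θ)⌋₊ + 1 := Nat.lt_floor_add_one _
  refine ⟨⌊M / (1 + 4 * θ)⌋₊, ?_⟩
  obtain ⟨k0, hk0⟩ : ∃ k0 : ℕ, k0 = ⌊M / (1 + 4 * θ)⌋₊ := ⟨_, rfl⟩
  rw [← hk0] at hk0le hk0lt ⊢
  have hk0' : (1 + 4 * θ) * k0 ≤ M := by
    rw [le_div_iff₀ h4] at hk0le; linarith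
  have hk0'' : M < (k0 + 1) * (1 + 4 * θ) := by
    rwa [div_lt_iff₀ h4] at hk0lt
  have hk0nn : (0 : ℝ) ≤ k0 := Nat.cast_nonneg _
  have hθk : 0 ≤ θ * k0 := by positivity
  have hθk8 : θ * k0 ≤ 1 / 8 * k0 := mul_le_mul_of_nonneg_right hθ1 hk0nn
  have hquarter : M / 4 ≤ k0 := by linarith
  have hthird : θ * (M / 4) ≤ θ * k0 := mul_le_mul_of_nonneg_left hquarter hθ.le
  have f2 : (1 - 6 * θ) * M ≤ (1 - 2 * θ) * (k0 + 1) := by
    have f1 : (1 - 6 * θ) * (1 + 4 * θ) ≤ 1 - 2 * θ := by nlinarith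
    have f3 : (1 - 6 * θ) * M ≤ (1 - 6 * θ) * ((k0 + 1) * (1 + 4 * θ)) :=
      mul_le_mul_of_nonneg_left hk0''.le (by linarith)
    have f4 : (1 - 6 * θ) * ((k0 + 1) * (1 + 4 * θ)) = (1 - 6 * θ) * (1 + 4 * θ) * (k0 + 1) := by
      ring
    have f5 := mul_le_mul_of_nonneg_right f1 (by linarith : (0 : ℝ) ≤ k0 + 1)
    linarith
  -- `M ≤ 3/2 (k0 + 1)`, so `3 θ k0 ≥ 1`
  have hM2 : M ≤ 3 / 2 * (k0 + 1) := by
    have := mul_le_mul_of_nonneg_left (by linarith : 1 + 4 * θ ≤ 3 / 2)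
      (by linarith : (0 : ℝ) ≤ k0 + 1)
    linarith
  have hθM : θ * M ≤ θ * (3 / 2 * (k0 + 1)) := mul_le_mul_of_nonneg_left hM2 hθ.le
  refine ⟨hk0', hk0''.le, hquarter, by linarith, by linarith, ?_⟩
  intro k hk
  linarith

private theorem rpowle {a β L : ℝ} (ha0 : 0 < a) (hβ : β ≤ 1) (k : ℕ) (hk : (k : ℝ) + 1 ≤ a * L) :
    (a + 1 - β) ^ (k + 1) ≤ a ^ (k + 1) * Real.exp ((1 - β) * L) := by
  have e1 : a + 1 - β = a * (1 + (1 - β) / a) := by field_simp; ring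
  rw [e1, mul_pow]
  refine mul_le_mul_of_nonneg_left ?_ (by positivity)
  have e2 : 1 + (1 - β) / a ≤ Real.exp ((1 - β) / a) := by
    have := Real.add_one_le_exp ((1 - β) / a)
    linarith
  have e3 : 0 ≤ 1 + (1 - β) / a := by
    have : 0 ≤ (1 - β) / a := div_nonneg (by linarith) ha0.le
    linarith
  calc (1 + (1 - β) / a) ^ (k + 1) ≤ Real.exp ((1 - β) / a) ^ (k + 1) :=
        pow_le_pow_left₀ e3 e2 _
    _ = Real.exp (((k + 1 : ℕ) : ℝ) * ((1 - β) / a)) := by rw [Real.exp_nat_mul]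
    _ ≤ Real.exp ((1 - β) * L) := by
        apply Real.exp_le_exp.2
        have e4 : ((k + 1 : ℕ) : ℝ) * ((1 - β) / a) = (1 - β) * (((k : ℝ) + 1) / a) := by
          push_cast; ring
        rw [e4]
        refine mul_le_mul_of_nonneg_left ?_ (by linarith)
        rw [div_le_iff₀ ha0]
        linarith

private theorem finish {θ a σ β L κ C2 D A Y k0 : ℝ} (hθ : 0 < θ) (hθ1 : θ ≤ 1 / 8)
    (hσ' : 0 < 1 - σ) (hL0 : 0 < L) (hβ : σ ≤ β) (hκ0 : 0 < κ)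
    (ha : 4 * (1 - σ) ≤ a * θ ^ 2) (hκa : 16 * (κ * a) ≤ θ * (1 - σ))
    (hk0L : k0 ≤ a * L) (hk0' : a * L ≤ (k0 + 1) * (1 + 4 * θ)) (hk0nn : 0 ≤ k0)
    (hC : 2 * C2 + 1 ≤ (1 - σ) * L) (h2 : 2 ≤ θ * (1 - σ) * L)
    (h3 : Real.exp (-(5 * κ * k0)) ≤ (A * Real.exp ((1 - β) * L)) * D)
    (h4 : A * D ≤ Y + C2 * Real.exp (-(θ ^ 2 * k0))) :
    Real.exp (L * (-(1 - β) - θ * (1 - σ))) ≤ Y := by
  have hX0 : 0 < (1 - σ) * L := by positivity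
  have hsmall : 5 * κ * k0 ≤ 5 / 16 * (θ * ((1 - σ) * L)) := by
    have h1 : 5 * κ * k0 ≤ 5 * κ * (a * L) := mul_le_mul_of_nonneg_left hk0L (by positivity)
    have h2 : 16 * (κ * a) * L ≤ θ * (1 - σ) * L := mul_le_mul_of_nonneg_right hκa hL0.le
    linarith
  have hθ20 : 0 < θ ^ 2 := by positivity
  have hθ2 : θ ^ 2 ≤ 1 / 64 := by nlinarith
  have w2 : Real.exp (-((1 - β) * L)) * Real.exp (-(5 * κ * k0)) ≤ A * D := by
    have e2 := mul_le_mul_of_nonneg_left h3 (Real.exp_pos (-((1 - β) * L))).le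
    have e3 : Real.exp (-((1 - β) * L)) * (A * Real.exp ((1 - β) * L) * D) = A * D := by
      have : Real.exp (-((1 - β) * L)) * Real.exp ((1 - β) * L) = 1 := by
        rw [← Real.exp_add]; simp
      calc _ = Real.exp (-((1 - β) * L)) * Real.exp ((1 - β) * L) * (A * D) := by ring
        _ = _ := by rw [this, one_mul]
    rw [e3] at e2
    exact e2
  have hβL : (1 - β) * L ≤ (1 - σ) * L := mul_le_mul_of_nonneg_right (by linarith) hL0.le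
  have hθk0 : 8 / 3 * ((1 - σ) * L) - 1 / 64 ≤ θ ^ 2 * k0 := by
    have g1 : 4 * (1 - σ) * L ≤ a * θ ^ 2 * L := mul_le_mul_of_nonneg_right ha hL0.le
    have g2 : θ ^ 2 * (a * L) ≤ θ ^ 2 * ((k0 + 1) * (1 + 4 * θ)) :=
      mul_le_mul_of_nonneg_left hk0' hθ20.le
    have g3 : θ ^ 2 * ((k0 + 1) * (1 + 4 * θ)) ≤ θ ^ 2 * ((k0 + 1) * (3 / 2)) := by
      refine mul_le_mul_of_nonneg_left ?_ hθ20.le
      refine mul_le_mul_of_nonneg_left ?_ (by linarith)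
      linarith
    linarith
  have q0 : θ * ((1 - σ) * L) ≤ 1 / 8 * ((1 - σ) * L) := mul_le_mul_of_nonneg_right hθ1 hX0.le
  have g3 : C2 * Real.exp (-(θ ^ 2 * k0)) ≤
      1 / 2 * (Real.exp (-((1 - β) * L)) * Real.exp (-(5 * κ * k0))) := by
    have q1 : Real.exp (-(θ ^ 2 * k0)) =
        Real.exp (-(θ ^ 2 * k0 - (1 - β) * L - 5 * κ * k0)) *
        (Real.exp (-((1 - β) * L)) * Real.exp (-(5 * κ * k0))) := by
      rw [← Real.exp_add, ← Real.exp_add]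
      congr 1
      ring
    have q2 : 2 * C2 ≤ θ ^ 2 * k0 - (1 - β) * L - 5 * κ * k0 := by linarith
    have q3 : C2 * Real.exp (-(θ ^ 2 * k0 - (1 - β) * L - 5 * κ * k0)) ≤ 1 / 2 := by
      rw [Real.exp_neg, ← div_eq_mul_inv, div_le_iff₀ (Real.exp_pos _)]
      have := Real.add_one_le_exp (θ ^ 2 * k0 - (1 - β) * L - 5 * κ * k0)
      linarith
    rw [q1, ← mul_assoc]
    exact mul_le_mul_of_nonneg_right q3 (by positivity)
  have g4 : Real.exp (L * (-(1 - β) - θ * (1 - σ))) ≤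
      1 / 2 * (Real.exp (-((1 - β) * L)) * Real.exp (-(5 * κ * k0))) := by
    have q2 : 0 < θ * ((1 - σ) * L) := by positivity
    have r4 : Real.exp (L * (-(1 - β) - θ * (1 - σ))) = Real.exp (-((1 - β) * L)) *
        (Real.exp (-(θ * (1 - σ) * L / 2)) * Real.exp (-(θ * (1 - σ) * L / 2))) := by
      rw [← Real.exp_add, ← Real.exp_add]; congr 1; ring
    rw [r4]
    have r5 : Real.exp (-(θ * (1 - σ) * L / 2)) ≤ 1 / 2 := by
      rw [Real.exp_neg, ← one_div]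
      apply one_div_le_one_div_of_le (by norm_num)
      have := Real.add_one_le_exp (θ * (1 - σ) * L / 2)
      linarith
    have r6 : Real.exp (-(θ * (1 - σ) * L / 2)) ≤ Real.exp (-(5 * κ * k0)) :=
      Real.exp_le_exp.2 (by linarith)
    have r7 : Real.exp (-(θ * (1 - σ) * L / 2)) * Real.exp (-(θ * (1 - σ) * L / 2)) ≤
        1 / 2 * Real.exp (-(5 * κ * k0)) := mul_le_mul r5 r6 (Real.exp_pos _).le (by norm_num)
    have r8 := mul_le_mul_of_nonneg_left r7 (Real.exp_pos (-((1 - β) * L))).le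
    linarith
  linarith

/-- The bound with the smaller loss `θ (1 - σ)`. -/
theorem seenV {θ a η σ σ1 : ℝ} (hθ : 0 < θ) (hθ1 : θ ≤ 1 / 8) (hη : 0 < η) (hη1 : η ≤ 1)
    (hσ1 : 1 / 2 < σ1) (hσ : σ < 1) (ha : 4 * (1 - σ) ≤ a * θ ^ 2)
    (hr : (1 + η) * (a + 1 - σ) ≤ a + 1 - σ1) :
    ∃ c C : ℝ, 0 < c ∧ 1 ≤ C ∧ ∀ (ρ : ℂ) (N : ℝ), riemannZeta ρ = 0 → σ ≤ ρ.re →
      C ≤ |ρ.im| → Real.log |ρ.im| ^ C ≤ N →
      (rz (3 * (a + 1 - σ)) (ρ.re - η * (a + 1 - σ)) ρ : ℝ) < c * Real.log N →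
      ∃ k : ℕ, (k : ℝ) ≤ a * Real.log N ∧
        N ^ (-(1 - ρ.re) - θ * (1 - σ)) ≤ a ^ (k + 1) * ‖tPoly θ a k N ρ.im‖ := by
  have hσ' : 0 < 1 - σ := by linarith
  obtain ⟨ha0, ha256⟩ := par1 hθ hθ1 hσ ha
  obtain ⟨κ, hκ0, hκη, hκa, hκθ⟩ := par2 hθ hη hσ' ha0 ha256
  obtain ⟨C1, hC1, hdet⟩ := detectU hκ0 hκη hη1 hσ1 hσ (by linarith : 1 - σ ≤ a) hr
  obtain ⟨C2, hC2, htail⟩ := tailU hθ hθ1 ha0
  obtain ⟨C, hCone, hC⟩ := consts hθ ha0 hσ' hC1 hC2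
  have hlog : 0 < Real.log (160 / κ) := by
    apply Real.log_pos
    rw [lt_div_iff₀ hκ0]
    linarith
  refine ⟨κ / Real.log (160 / κ) * (a / 4), C, by positivity, hCone, ?_⟩
  intro ρ N hζ hre hIm hN hnear
  have hre1 : ρ.re < 1 := by
    by_contra h
    push Not at h
    exact riemannZeta_ne_zero_of_one_le_re h hζ
  obtain ⟨c1, hN0, hL0, c2, c3, c4, c5, c6⟩ := hC |ρ.im| N hIm hN
  obtain ⟨k0, d1, d2, d3, d4, d5, d6⟩ := k0facts hθ hθ1 c4 (by linarith)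
  have hk0nn : (0 : ℝ) ≤ k0 := Nat.cast_nonneg _
  have hnear' : (rz (3 * (a + 1 - σ)) (ρ.re - η * (a + 1 - σ)) ρ : ℝ) ≤
      κ / Real.log (160 / κ) * k0 := by
    refine hnear.le.trans ?_
    have : κ / Real.log (160 / κ) * (a / 4) * Real.log N =
      κ / Real.log (160 / κ) * (a * Real.log N / 4) := by ring
    rw [this]
    exact mul_le_mul_of_nonneg_left d3 (by positivity)
  obtain ⟨k, hk1, hk2, hk3⟩ := hdet ρ k0 hζ hre c1 (c2.trans d3) hnear'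
  have hk1θ : (k : ℝ) ≤ (1 + θ) * k0 := by
    refine hk2.trans (mul_le_mul_of_nonneg_right ?_ hk0nn)
    linarith
  have hkaL := d6 k hk1θ
  have hN1 : 0 < N ^ (1 - 7 * θ) := Real.rpow_pos_of_pos hN0 _
  have hlogN1 : a * Real.log (N ^ (1 - 7 * θ)) ≤ (1 - 2 * θ) * k0 := by
    rw [Real.log_rpow hN0]
    linarith
  obtain ⟨F, hF⟩ : ∃ F : Finset ℕ, F = Finset.Icc ⌈N ^ (1 - 7 * θ)⌉₊ ⌊N⌋₊ := ⟨_, rfl⟩
  have hmem : ∀ n : ℕ, N ^ (1 - 7 * θ) ≤ n → (n : ℝ) ≤ N → n ∈ F := by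
    intro n h1 h2
    rw [hF, Finset.mem_Icc]
    exact ⟨Nat.ceil_le.2 h1, Nat.le_floor h2⟩
  have ht := htail k0 k (N ^ (1 - 7 * θ)) N hk1 hk1θ hN1 hN0 hlogN1 d1 F hmem
  have happ := tsum_sub_sum_le (fun n => dco_nonneg a k n) (summable_dco ha0 k)
    (fun n => norm_cpow_unit_le n ρ.im) F
  have hak : 0 < a ^ (k + 1) := pow_pos ha0 _
  refine ⟨k, by linarith, ?_⟩
  have htp : tPoly θ a k N ρ.im = ∑ n ∈ F, (dco a k n : ℂ) * (n : ℂ) ^ (-(ρ.im * I)) := by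
    rw [hF]; rfl
  rw [htp, Real.rpow_def_of_pos hN0]
  have g2 : a ^ (k + 1) * ‖Dk a k ρ.im‖ ≤
      a ^ (k + 1) * ‖∑ n ∈ F, (dco a k n : ℂ) * (n : ℂ) ^ (-(ρ.im * I))‖ +
      C2 * Real.exp (-(θ ^ 2 * k0)) := by
    have g0 := norm_le_norm_add_norm_sub' (Dk a k ρ.im)
      (∑ n ∈ F, (dco a k n : ℂ) * (n : ℂ) ^ (-(ρ.im * I)))
    have h' : ‖Dk a k ρ.im - ∑ n ∈ F, (dco a k n : ℂ) * (n : ℂ) ^ (-(ρ.im * I))‖ ≤
        C2 * Real.exp (-(θ ^ 2 * k0)) / a ^ (k + 1) := happ.trans ht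
    have g1 : ‖Dk a k ρ.im‖ ≤ ‖∑ n ∈ F, (dco a k n : ℂ) * (n : ℂ) ^ (-(ρ.im * I))‖ +
      C2 * Real.exp (-(θ ^ 2 * k0)) / a ^ (k + 1) := by linarith
    have := mul_le_mul_of_nonneg_left g1 hak.le
    rw [mul_add, mul_div_cancel₀ _ hak.ne'] at this
    exact this
  have w1 := rpowle (L := Real.log N) ha0 hre1.le k hkaL
  exact finish hθ hθ1 hσ' hL0 hre hκ0 ha hκa d4 d2 hk0nn c3 c6
    (hk3.trans (mul_le_mul_of_nonneg_right w1 (norm_nonneg _))) g2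

theorem seenU {θ a η σ σ1 : ℝ} (hθ : 0 < θ) (hθ1 : θ ≤ 1 / 8) (hη : 0 < η) (hη1 : η ≤ 1)
    (hσ1 : 1 / 2 < σ1) (hσ : σ < 1) (ha : 4 * (1 - σ) ≤ a * θ ^ 2)
    (hr : (1 + η) * (a + 1 - σ) ≤ a + 1 - σ1) :
    ∃ c C : ℝ, 0 < c ∧ 1 ≤ C ∧ ∀ (ρ : ℂ) (N : ℝ), riemannZeta ρ = 0 → σ ≤ ρ.re →
      C ≤ |ρ.im| → Real.log |ρ.im| ^ C ≤ N →
      (rz (3 * (a + 1 - σ)) (ρ.re - η * (a + 1 - σ)) ρ : ℝ) < c * Real.log N →
      ∃ k : ℕ, (k : ℝ) ≤ a * Real.log N ∧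
        N ^ (-(1 - ρ.re) - θ) ≤ a ^ (k + 1) * ‖tPoly θ a k N ρ.im‖ := by
  obtain ⟨c, C, hc, hC, h⟩ := seenV hθ hθ1 hη hη1 hσ1 hσ ha hr
  refine ⟨c, max C 3, hc, le_max_of_le_left hC, ?_⟩
  intro ρ N hζ hre hIm hN hnear
  have hIm1 : C ≤ |ρ.im| := (le_max_left _ _).trans hIm
  have hIm3 : 3 ≤ |ρ.im| := (le_max_right _ _).trans hIm
  have hl1 : 1 ≤ Real.log |ρ.im| := by
    rw [Real.le_log_iff_exp_le (by linarith)]
    have := Real.exp_one_lt_d9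
    linarith
  have hN1 : Real.log |ρ.im| ^ C ≤ N :=
    (Real.rpow_le_rpow_of_exponent_le hl1 (le_max_left _ _)).trans hN
  have hN2 : 1 ≤ N := (Real.one_le_rpow hl1 (by linarith)).trans hN1
  obtain ⟨k, hk, hk'⟩ := h ρ N hζ hre hIm1 hN1 hnear
  have hσσ : σ1 < σ := by
    obtain ⟨ha0, _⟩ := par1 hθ hθ1 hσ ha
    have : 0 < η * (a + 1 - σ) := mul_pos hη (by linarith)
    linarith
  refine ⟨k, hk, le_trans (Real.rpow_le_rpow_of_exponent_le hN2 ?_) hk'⟩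
  have : θ * (1 - σ) ≤ θ * 1 := mul_le_mul_of_nonneg_left (by linarith) hθ.le
  linarith

end Pool.Agent.H52.Unc
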