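import Mathlib
import Pool.Agent.H52.Unc.RareU
import Pool.Agent.H52.Unc.PartSumU
import Pool.Agent.H52.Unc.LargeU

/-!
# Main: the density hypothesis holds for uncrowded zeros
-/

set_option autoImplicit false

open Complex

namespace Pool.Agent.H52.Unc

open Pool.Agent.H76.CR

theorem main (ε : ℝ) (hε : 0 < ε) (hε1 : ε ≤ 1 / 4) :
    ∃ K : ℝ, 0 < K ∧ ∀ σ : ℝ, 1 / 2 < σ → σ < 1 → ∃ c C : ℝ, 0 < c ∧ 1 ≤ C ∧
      (∀ T H : ℝ, C ≤ T → Real.log T ^ C ≤ H → ∀ S : Finset ℂ,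
        (∀ ρ ∈ S, riemannZeta ρ = 0 ∧ σ ≤ ρ.re ∧ T ≤ ρ.im ∧ ρ.im ≤ T + H ∧
          (rz (K * (1 - σ)) (ρ.re - ε * (1 - σ)) ρ : ℝ) < c * Real.log H) →
        ∑ ρ ∈ S, (analyticOrderNatAt riemannZeta ρ : ℝ) ≤ H ^ (2 * (1 - σ) + ε)) ∧
      (∀ (ρ : ℂ) (N : ℝ), riemannZeta ρ = 0 → σ ≤ ρ.re → 1 / 2 + ε ≤ ρ.re → C ≤ ρ.im →
        Real.log ρ.im ^ C ≤ N →
        c * Real.log N ≤ rz (K * (1 - σ)) (ρ.re - ε * (1 - σ)) ρ ∨
        ∃ M : ℕ, N ^ (1 - ε) ≤ M ∧ (M : ℝ) ≤ N ∧ (M : ℝ) ^ (ρ.re - ε) ≤ ‖pSum M ρ.im‖) ∧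
      (∀ T H : ℝ, C ≤ T → Real.log T ^ C ≤ H →
        (∀ s : ℂ, σ - 2 * ε * (1 - σ) ≤ s.re → T - C ≤ s.im → s.im ≤ T + H + C →
          ‖riemannZeta s‖ ≤ H ^ c) → ∀ S : Finset ℂ,
        (∀ ρ ∈ S, riemannZeta ρ = 0 ∧ σ ≤ ρ.re ∧ T ≤ ρ.im ∧ ρ.im ≤ T + H) →
        ∑ ρ ∈ S, (analyticOrderNatAt riemannZeta ρ : ℝ) ≤ H ^ (2 * (1 - σ) + ε)) := by
  set θ : ℝ := ε / 28 with hθdef
  have hθ : 0 < θ := by positivity
  have hθ1 : θ ≤ 1 / 8 := by rw [hθdef]; linarith
  set L : ℝ := 4 / θ ^ 2 + 1 with hL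
  have hL0 : 0 < L := by positivity
  refine ⟨3 * L, by positivity, fun σ hσ hσ' => ?_⟩
  have hd : 0 < 1 - σ := by linarith
  set a : ℝ := 4 * (1 - σ) / θ ^ 2 with ha
  have ha0 : 0 < a := by positivity
  have haL : a + 1 - σ = L * (1 - σ) := by rw [ha, hL]; ring
  have haθ : 4 * (1 - σ) ≤ a * θ ^ 2 := by
    rw [ha]
    have : θ ^ 2 ≠ 0 := by positivity
    rw [div_mul_cancel₀ _ this]
  set σ1 : ℝ := (σ + 1 / 2) / 2 with hσ1
  have h1 : 1 / 2 < σ1 := by rw [hσ1]; linarith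
  have h2 : σ1 < σ := by rw [hσ1]; linarith
  have haL0 : 0 < L * (1 - σ) := by positivity
  set η : ℝ := min 1 (min ((σ - σ1) / (L * (1 - σ))) (ε / L)) with hη
  have hη0 : 0 < η := by
    refine lt_min one_pos (lt_min ?_ ?_)
    · have : 0 < σ - σ1 := by linarith
      positivity
    · positivity
  have hη1 : η ≤ 1 := min_le_left _ _
  have hη2 : η * (L * (1 - σ)) ≤ σ - σ1 := by
    have : η ≤ (σ - σ1) / (L * (1 - σ)) := (min_le_right _ _).trans (min_le_left _ _)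
    calc η * (L * (1 - σ)) ≤ (σ - σ1) / (L * (1 - σ)) * (L * (1 - σ)) := by gcongr
      _ = σ - σ1 := div_mul_cancel₀ _ haL0.ne'
  have hη3 : η * (L * (1 - σ)) ≤ ε * (1 - σ) := by
    have : η ≤ ε / L := (min_le_right _ _).trans (min_le_right _ _)
    calc η * (L * (1 - σ)) ≤ ε / L * (L * (1 - σ)) := by gcongr
      _ = ε * (1 - σ) := by field_simp
  have hr : (1 + η) * (a + 1 - σ) ≤ a + 1 - σ1 := by
    rw [haL, add_mul, one_mul]
    have : a + 1 - σ1 = L * (1 - σ) + (σ - σ1) := by rw [← haL]; ring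
    rw [this]
    linarith
  obtain ⟨c0, C0, hc0, hC0, hrare⟩ := rareU hθ hθ1 hη0 hη1 h1 h2 hσ' haθ hr
  obtain ⟨c2, C2, hc2, hC2, hseen⟩ := seenU hθ hθ1 hη0 hη1 h1 hσ' haθ hr
  obtain ⟨N0, hN0, hpart⟩ := part_sumU (θ := θ) (a := a) (ε := ε) hθ ha0 hε hε1
    (by rw [hθdef]; linarith)
  set c1 : ℝ := min c0 c2 with hc1
  have hc10 : 0 < c1 := lt_min hc0 hc2
  set r : ℝ := 3 * L * (1 - σ) with hr3
  have hr0 : 0 < r := by positivity
  have hr3' : 3 * (a + 1 - σ) = r := by rw [haL, hr3]; ring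
  have hεd : 0 < ε * (1 - σ) := by positivity
  obtain ⟨c', C', hc', hC', hlarge⟩ := largeU (r := r) (ε := ε * (1 - σ)) (c := c1) hr0 hεd
    (by nlinarith) hc10
  -- comparison of the two counts
  have hmono : ∀ ρ : ℂ, r < |ρ.im| → (rz (3 * (a + 1 - σ)) (ρ.re - η * (a + 1 - σ)) ρ : ℝ) ≤
      rz r (ρ.re - ε * (1 - σ)) ρ := by
    intro ρ hρ
    rw [hr3', haL]
    exact_mod_cast rz_mono hρ le_rfl (by linarith)
  set C : ℝ := max (max (max C0 C2) (max (r + 1) C')) (max (Real.exp N0 + Real.exp C') (Real.exp 1)) + C' + N0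
    with hC
  have hCC0 : C0 ≤ C := by
    have : C0 ≤ max (max (max C0 C2) (max (r + 1) C')) (max (Real.exp N0 + Real.exp C') (Real.exp 1)) :=
      ((le_max_left _ _).trans (le_max_left _ _)).trans (le_max_left _ _)
    linarith
  have hCC2 : C2 ≤ C := by
    have : C2 ≤ max (max (max C0 C2) (max (r + 1) C')) (max (Real.exp N0 + Real.exp C') (Real.exp 1)) :=
      ((le_max_right _ _).trans (le_max_left _ _)).trans (le_max_left _ _)
    linarith
  have hCr : r + 1 ≤ C := by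
    have : r + 1 ≤ max (max (max C0 C2) (max (r + 1) C')) (max (Real.exp N0 + Real.exp C') (Real.exp 1)) :=
      ((le_max_left _ _).trans (le_max_right _ _)).trans (le_max_left _ _)
    linarith
  have hCC' : C' ≤ C := by
    have : C' ≤ max (max (max C0 C2) (max (r + 1) C')) (max (Real.exp N0 + Real.exp C') (Real.exp 1)) :=
      ((le_max_right _ _).trans (le_max_right _ _)).trans (le_max_left _ _)
    linarith
  have hCN0 : Real.exp N0 + Real.exp C' ≤ C := by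
    have : Real.exp N0 + Real.exp C' ≤ max (max (max C0 C2) (max (r + 1) C')) (max (Real.exp N0 + Real.exp C') (Real.exp 1)) :=
      (le_max_left _ _).trans (le_max_right _ _)
    linarith
  have hCN : Real.exp N0 ≤ C := by
    have := Real.exp_pos C'
    linarith
  have hCCC : Real.exp C' ≤ C := by
    have := Real.exp_pos N0
    linarith
  have hCe : Real.exp 1 ≤ C := by
    have : Real.exp 1 ≤ max (max (max C0 C2) (max (r + 1) C')) (max (Real.exp N0 + Real.exp C') (Real.exp 1)) :=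
      (le_max_right _ _).trans (le_max_right _ _)
    linarith
  have hC1 : 1 ≤ C := hC0.trans hCC0
  -- the logarithm power is monotone and at least its base
  have hlog : ∀ T : ℝ, C ≤ T → N0 ≤ Real.log T ∧ 1 ≤ Real.log T := by
    intro T hT
    constructor
    · rw [Real.le_log_iff_exp_le (by linarith)]
      linarith
    · rw [Real.le_log_iff_exp_le (by linarith)]
      linarith
  have hpow : ∀ T : ℝ, C ≤ T → ∀ D : ℝ, D ≤ C → Real.log T ^ D ≤ Real.log T ^ C := by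
    intro T hT D hD
    exact Real.rpow_le_rpow_of_exponent_le (hlog T hT).2 hD
  have hpow1 : ∀ T : ℝ, C ≤ T → Real.log T ≤ Real.log T ^ C := by
    intro T hT
    have := hpow T hT 1 hC1
    rwa [Real.rpow_one] at this
  have hexp : 2 * (1 - σ) + 12 * θ ≤ 2 * (1 - σ) + ε := by rw [hθdef]; linarith
  -- the first part for a general small constant
  have part1 : ∀ T H : ℝ, C ≤ T → Real.log T ^ C ≤ H → ∀ S : Finset ℂ,
        (∀ ρ ∈ S, riemannZeta ρ = 0 ∧ σ ≤ ρ.re ∧ T ≤ ρ.im ∧ ρ.im ≤ T + H ∧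
          (rz r (ρ.re - ε * (1 - σ)) ρ : ℝ) < c1 * Real.log H) →
        ∑ ρ ∈ S, (analyticOrderNatAt riemannZeta ρ : ℝ) ≤ H ^ (2 * (1 - σ) + ε) := by
    intro T H hT hH S hS
    have hH1 : 1 ≤ H := (hlog T hT).2.trans ((hpow1 T hT).trans hH)
    have h := hrare c1 C T H (min_le_left _ _) hCC0 hT hH S (by
      intro ρ hρ
      obtain ⟨a1, a2, a3, a4, a5⟩ := hS ρ hρ
      refine ⟨a1, a2, a3, a4, lt_of_le_of_lt (hmono ρ ?_) a5⟩
      have : T ≤ |ρ.im| := a3.trans (le_abs_self _)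
      linarith)
    exact h.trans (Real.rpow_le_rpow_of_exponent_le hH1 hexp)
  refine ⟨min c1 (c' / 2), C, lt_min hc10 (by positivity), hC1, ?_, ?_, ?_⟩
  · intro T H hT hH S hS
    have hH1 : 1 ≤ H := (hlog T hT).2.trans ((hpow1 T hT).trans hH)
    refine part1 T H hT hH S fun ρ hρ => ?_
    obtain ⟨a1, a2, a3, a4, a5⟩ := hS ρ hρ
    refine ⟨a1, a2, a3, a4, lt_of_lt_of_le a5 ?_⟩
    have := Real.log_nonneg hH1
    gcongr
    exact min_le_left _ _
  · intro ρ N hρ hre hre2 him hN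
    by_contra hcon
    push Not at hcon
    obtain ⟨hc, hM⟩ := hcon
    have hN1 : 1 ≤ N := (hlog _ him).2.trans ((hpow1 _ him).trans hN)
    have hNN : N0 ≤ N := (hlog _ him).1.trans ((hpow1 _ him).trans hN)
    have habs : |ρ.im| = ρ.im := abs_of_nonneg (by linarith)
    obtain ⟨k, hk, hbig⟩ := hseen ρ N hρ hre (by rw [habs]; linarith) (by
      rw [habs]
      exact (hpow _ him _ hCC2).trans hN) (by
      refine lt_of_le_of_lt (hmono ρ (by rw [habs]; linarith)) (lt_of_lt_of_le hc ?_)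
      have := Real.log_nonneg hN1
      gcongr
      exact (min_le_left _ _).trans (min_le_right _ _))
    have hre1 : ρ.re < 1 := re_lt_one hρ
    have hsmall := hpart ρ.re N ρ.im k hre2 hre1.le hNN hk (fun M h3 h4 => hM M h3 h4)
    have h5 : N ^ (-(1 - ρ.re) - ε / 4) ≤ N ^ (-(1 - ρ.re) - θ) := by
      apply Real.rpow_le_rpow_of_exponent_le hN1
      rw [hθdef]
      linarith
    linarith
  · intro T H hT hH hζ S hS
    have hH1 : 1 ≤ H := (hlog T hT).2.trans ((hpow1 T hT).trans hH)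
    refine part1 T H hT hH S fun ρ hρ => ?_
    obtain ⟨a1, a2, a3, a4⟩ := hS ρ hρ
    refine ⟨a1, a2, a3, a4, ?_⟩
    by_contra hcon
    rw [not_lt] at hcon
    have hHC : C' ≤ H := by
      have h7 : C' ≤ Real.log T := by
        rw [Real.le_log_iff_exp_le (by linarith)]
        linarith
      exact h7.trans ((hpow1 T hT).trans hH)
    obtain ⟨s, hs1, hs2, hs3⟩ := hlarge ρ H a1 (by linarith) (by
      have : T ≤ |ρ.im| := a3.trans (le_abs_self _)
      linarith) hHC hcon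
    have him := (Complex.abs_im_le_norm (s - ρ)).trans hs2
    rw [Complex.sub_im, abs_le] at him
    have h5 := hζ s (by nlinarith) (by linarith [him.1]) (by linarith [him.2])
    have h6 : H ^ (min c1 (c' / 2)) ≤ H ^ c' := by
      apply Real.rpow_le_rpow_of_exponent_le hH1
      exact (min_le_right _ _).trans (by linarith)
    linarith

end Pool.Agent.H52.Unc
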