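import Mathlib
import Pool.Agent.H76.CR.DerivL
import Pool.Agent.H52.Unc.Defs
import Pool.Agent.H52.Unc.Gram
import Pool.Agent.H52.Unc.Halasz

/-!
# RareSepH: few separated points where one of the polynomials is large, by Halász's inequality

`S = Icc ⌈N^(1-7θ)⌉₊ ⌊N⌋₊`, `N1 = ⌈N^(1-7θ)⌉₊`, `b n = a^(k+1) dco a k n`, `0 ≤ b n ≤ a log n/n`
(see `rsu_coeff` in `RareSepU.lean`), so `D = ∑ n ‖b n‖² ≤ a² (1 + log N)³`.  For fixed `k ≤ a log N`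
let `X_k` be the points of `X` with `N^(-μ) ≤ a^(k+1) ‖tPoly‖`, `R = card X_k`.  `halasz` with
`G = C (1 + log N)`: `R² N^(-2μ) ≤ D G (R (3 + 2 log H) + R² g)`.  If `2 D G g ≤ N^(-2μ)` then
`R ≤ 2 D G (3 + 2 log H) N^(2μ) ≤ C (1 + log N)^5 N^(2μ)`; sum over the at most `a log N + 1` values
of `k`: `≤ N^(2μ+τ)` for `N ≥ N0`.
`rare_sepH`: `g = √H/N1` (`gram2`; `H ≤ N^(2-14θ) ≤ N1²`), `√H ≤ N^(1-7θ-2μ-τ/2)`, so
`2 D G g ≤ C (1 + log N)^4 N^(-2μ-τ/2) ≤ N^(-2μ)`.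
`rare_sepK`: `g = N1^(-δ')` (`gramK k0`; `H ≤ N^((1-7θ) k0) ≤ N1^k0`), `g ≤ N^(-(1-7θ)δ') ≤ N^(-δ'/2)`,
`δ = δ'/2`, `-2μ ≥ -δ + τ`.
If `⌈N^(1-7θ)⌉₊ > ⌊N⌋₊` (not for `N` large).  About 200 lines; please prove the common part once.
-/

set_option autoImplicit false

open Complex

namespace Pool.Agent.H52.Unc

open Pool.Agent.H76.CR

private theorem rsh_ev (τ K : ℝ) (hτ : 0 < τ) : ∃ N0 : ℝ, 256 ≤ N0 ∧ ∀ N : ℝ, N0 ≤ N →
    K * (1 + Real.log N) ^ 6 ≤ N ^ τ := by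
  have h1 := (isLittleO_log_rpow_atTop (r := τ / 12) (by positivity)).bound
    (c := 1 / 2) (by norm_num)
  have h2 := (tendsto_rpow_atTop (y := τ / 12) (by positivity)).eventually_ge_atTop 2
  have h3 := (tendsto_rpow_atTop (y := τ / 2) (by positivity)).eventually_ge_atTop K
  obtain ⟨N1, hN1⟩ := Filter.eventually_atTop.1 (h1.and (h2.and h3))
  refine ⟨max N1 256, le_max_right _ _, fun N hN => ?_⟩
  obtain ⟨a1, a2, a3⟩ := hN1 N ((le_max_left _ _).trans hN)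
  have hN256 : 256 ≤ N := (le_max_right _ _).trans hN
  have hN0 : 0 < N := by linarith
  have hlog : 0 ≤ Real.log N := Real.log_nonneg (by linarith)
  rw [Real.norm_of_nonneg hlog, Real.norm_of_nonneg (Real.rpow_nonneg hN0.le _)] at a1
  have b1 : 1 + Real.log N ≤ N ^ (τ / 12) := by linarith
  have b2 : (1 + Real.log N) ^ 6 ≤ N ^ (τ / 2) := by
    calc (1 + Real.log N) ^ 6 ≤ (N ^ (τ / 12)) ^ 6 := pow_le_pow_left₀ (by linarith) b1 6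
      _ = N ^ (τ / 2) := by
        rw [← Real.rpow_natCast, ← Real.rpow_mul hN0.le]
        congr 1
        push_cast
        ring
  calc K * (1 + Real.log N) ^ 6 ≤ N ^ (τ / 2) * N ^ (τ / 2) :=
        mul_le_mul a3 b2 (by positivity) (Real.rpow_nonneg hN0.le _)
    _ = N ^ τ := by
        rw [← Real.rpow_add hN0]
        congr 1
        ring

private theorem rsh_coeff {a : ℝ} (ha : 0 < a) (k n : ℕ) (hn : 1 ≤ n) :
    0 ≤ a ^ (k + 1) * dco a k n ∧ a ^ (k + 1) * dco a k n ≤ a * (Real.log n / n) := by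
  have hn0 : (0 : ℝ) < n := by exact_mod_cast hn
  have hl : 0 ≤ Real.log n := Real.log_natCast_nonneg n
  have hL : ArithmeticFunction.vonMangoldt n ≤ Real.log n := ArithmeticFunction.vonMangoldt_le_log
  have hL0 : 0 ≤ ArithmeticFunction.vonMangoldt n := ArithmeticFunction.vonMangoldt_nonneg
  have h1 : (a * Real.log n) ^ k / (k.factorial : ℝ) ≤ Real.exp (a * Real.log n) :=
    Real.pow_div_factorial_le_exp _ (by positivity) k
  have h2 : (n : ℝ) ^ (-(1 + a)) = (n : ℝ)⁻¹ * Real.exp (-(a * Real.log n)) := by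
    rw [neg_add, Real.rpow_add hn0, Real.rpow_neg_one, Real.rpow_def_of_pos hn0 (-a)]
    congr 2
    ring
  have h3 : a ^ (k + 1) * dco a k n = a * ArithmeticFunction.vonMangoldt n * (n : ℝ)⁻¹ *
      ((a * Real.log n) ^ k / (k.factorial : ℝ) * Real.exp (-(a * Real.log n))) := by
    unfold dco
    rw [h2, mul_pow, pow_succ]
    ring
  have h4 : (a * Real.log n) ^ k / (k.factorial : ℝ) * Real.exp (-(a * Real.log n)) ≤ 1 := by
    calc (a * Real.log n) ^ k / (k.factorial : ℝ) * Real.exp (-(a * Real.log n))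
        ≤ Real.exp (a * Real.log n) * Real.exp (-(a * Real.log n)) :=
          mul_le_mul_of_nonneg_right h1 (Real.exp_nonneg _)
      _ = 1 := by rw [← Real.exp_add, add_neg_cancel, Real.exp_zero]
  have h5 : 0 ≤ (a * Real.log n) ^ k / (k.factorial : ℝ) * Real.exp (-(a * Real.log n)) := by
    positivity
  rw [h3]
  refine ⟨by positivity, ?_⟩
  calc a * ArithmeticFunction.vonMangoldt n * (n : ℝ)⁻¹ *
      ((a * Real.log n) ^ k / (k.factorial : ℝ) * Real.exp (-(a * Real.log n)))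
      ≤ a * ArithmeticFunction.vonMangoldt n * (n : ℝ)⁻¹ * 1 :=
        mul_le_mul_of_nonneg_left h4 (by positivity)
    _ ≤ a * Real.log n * (n : ℝ)⁻¹ * 1 := by gcongr
    _ = a * (Real.log n / n) := by ring

private theorem rsh_harm (N1 N2 : ℕ) (h1 : 1 ≤ N1) :
    ∑ n ∈ Finset.Icc N1 N2, ((n : ℝ))⁻¹ ≤ 1 + Real.log N2 := by
  have h2 : ∑ n ∈ Finset.Icc N1 N2, ((n : ℝ))⁻¹ ≤ ∑ n ∈ Finset.Icc 1 N2, ((n : ℝ))⁻¹ := by
    refine Finset.sum_le_sum_of_subset_of_nonneg (Finset.Icc_subset_Icc_left h1) ?_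
    intro n _ _
    positivity
  have h3 := harmonic_le_one_add_log N2
  have h4 : ((harmonic N2 : ℚ) : ℝ) = ∑ n ∈ Finset.Icc 1 N2, ((n : ℝ))⁻¹ := by
    rw [harmonic_eq_sum_Icc]
    push_cast
    rfl
  rw [h4] at h3
  exact h2.trans h3

private theorem rsh_core {θ a C M : ℝ} (ha : 0 < a) (hC : 1 ≤ C) (hM : 1 ≤ M)
    (μ N T H g : ℝ) (X : Finset ℝ) (hN256 : 256 ≤ N) (hH : 1 ≤ H)
    (hNN : ⌈N ^ (1 - 7 * θ)⌉₊ ≤ ⌊N⌋₊) (hg : 0 ≤ g)
    (hlogH : 3 + 2 * Real.log H ≤ M * (1 + Real.log N))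
    (hgsmall : 2 * a ^ 2 * C * (1 + Real.log N) ^ 4 * g ≤ N ^ (-(2 * μ)))
    (hgram : ∀ u : ℝ, 1 ≤ |u| → |u| ≤ H →
      ‖∑ n ∈ Finset.Icc ⌈N ^ (1 - 7 * θ)⌉₊ ⌊N⌋₊, (n : ℂ)⁻¹ * (n : ℂ) ^ (-(u * I))‖ ≤
        C * (1 + Real.log (⌊N⌋₊ : ℕ)) * (1 / |u| + g))
    (hX : ∀ x ∈ X, T ≤ x ∧ x ≤ T + H) (hsep : ∀ x ∈ X, ∀ y ∈ X, x ≠ y → 1 ≤ |x - y|)
    (hbig : ∀ x ∈ X, ∃ k : ℕ, (k : ℝ) ≤ a * Real.log N ∧
        N ^ (-μ) ≤ a ^ (k + 1) * ‖tPoly θ a k N x‖) :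
    (X.card : ℝ) ≤ (2 * C * a ^ 2 * (a + 1) * M) * (1 + Real.log N) ^ 6 * N ^ (2 * μ) := by
  classical
  have hNpos : 0 < N := by linarith
  set L := Real.log N with hL
  have hL0 : 0 ≤ L := Real.log_nonneg (by linarith)
  have hfl : (⌊N⌋₊ : ℝ) ≤ N := Nat.floor_le hNpos.le
  have hfl1 : 1 ≤ ⌊N⌋₊ := Nat.le_floor (by push_cast; linarith)
  have hYpos : 0 < N ^ (1 - 7 * θ) := Real.rpow_pos_of_pos hNpos _
  have hce1 : 1 ≤ ⌈N ^ (1 - 7 * θ)⌉₊ := Nat.one_le_ceil_iff.2 hYpos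
  have hlogM : Real.log (⌊N⌋₊ : ℝ) ≤ L :=
    Real.log_le_log (by exact_mod_cast hfl1) hfl
  have hlogM0 : 0 ≤ Real.log (⌊N⌋₊ : ℝ) := Real.log_natCast_nonneg _
  set Xk : ℕ → Finset ℝ := fun k =>
    X.filter (fun x => N ^ (-μ) ≤ a ^ (k + 1) * ‖tPoly θ a k N x‖) with hXk
  have hsub : X ⊆ (Finset.range (⌊a * L⌋₊ + 1)).biUnion Xk := by
    intro x hx
    obtain ⟨k, hk, hk2⟩ := hbig x hx
    rw [Finset.mem_biUnion]
    exact ⟨k, Finset.mem_range.2 (Nat.lt_succ_of_le (Nat.le_floor hk)),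
      Finset.mem_filter.2 ⟨hx, hk2⟩⟩
  have hlogHnn : 0 ≤ 3 + 2 * Real.log H := by
    have := Real.log_nonneg hH
    linarith
  have hmain : ∀ k, ((Xk k).card : ℝ) ≤
      2 * C * a ^ 2 * M * (1 + L) ^ 5 * N ^ (2 * μ) := by
    intro k
    have h := halasz (N1 := ⌈N ^ (1 - 7 * θ)⌉₊) (N2 := ⌊N⌋₊) hce1
      (fun n => ((a ^ (k + 1) * dco a k n : ℝ) : ℂ)) (Xk k) (T := T) (H := H)
      (G := C * (1 + L)) (g := g) hH
      (by nlinarith) hg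
      (fun x hx => hX x (Finset.mem_filter.1 hx).1)
      (fun x hx y hy hxy => hsep x (Finset.mem_filter.1 hx).1 y (Finset.mem_filter.1 hy).1 hxy)
      (by
        intro u hu1 hu2
        refine (hgram u hu1 hu2).trans ?_
        have : 0 ≤ 1 / |u| + g := by positivity
        have h2 : C * (1 + Real.log (⌊N⌋₊ : ℕ)) ≤ C * (1 + L) := by gcongr
        exact mul_le_mul_of_nonneg_right h2 this)
    set R : ℝ := ((Xk k).card : ℝ) with hR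
    have hR0 : 0 ≤ R := Nat.cast_nonneg _
    have hlow : R * N ^ (-μ) ≤
        ∑ x ∈ Xk k, ‖∑ n ∈ Finset.Icc ⌈N ^ (1 - 7 * θ)⌉₊ ⌊N⌋₊,
          ((a ^ (k + 1) * dco a k n : ℝ) : ℂ) * (n : ℂ) ^ (-(x * I))‖ := by
      rw [hR, ← nsmul_eq_mul]
      refine Finset.card_nsmul_le_sum _ _ _ fun x hx => ?_
      have h1 := (Finset.mem_filter.1 hx).2
      have h2 : ∑ n ∈ Finset.Icc ⌈N ^ (1 - 7 * θ)⌉₊ ⌊N⌋₊,
          ((a ^ (k + 1) * dco a k n : ℝ) : ℂ) * (n : ℂ) ^ (-(x * I)) =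
          ((a ^ (k + 1) : ℝ) : ℂ) * tPoly θ a k N x := by
        unfold tPoly
        rw [Finset.mul_sum]
        refine Finset.sum_congr rfl fun n _ => ?_
        push_cast
        ring
      rw [h2, norm_mul, Complex.norm_real, Real.norm_of_nonneg (by positivity)]
      exact h1
    have hlow2 : R ^ 2 * N ^ (-(2 * μ)) ≤
        (∑ x ∈ Xk k, ‖∑ n ∈ Finset.Icc ⌈N ^ (1 - 7 * θ)⌉₊ ⌊N⌋₊,
          ((a ^ (k + 1) * dco a k n : ℝ) : ℂ) * (n : ℂ) ^ (-(x * I))‖) ^ 2 := by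
      have e1 : N ^ (-(2 * μ)) = (N ^ (-μ)) ^ 2 := by
        rw [← Real.rpow_natCast, ← Real.rpow_mul hNpos.le]
        congr 1
        push_cast
        ring
      rw [e1, ← mul_pow]
      exact pow_le_pow_left₀ (mul_nonneg hR0 (Real.rpow_nonneg hNpos.le _)) hlow 2
    have hup : ∑ n ∈ Finset.Icc ⌈N ^ (1 - 7 * θ)⌉₊ ⌊N⌋₊,
        (n : ℝ) * ‖((a ^ (k + 1) * dco a k n : ℝ) : ℂ)‖ ^ 2 ≤ a ^ 2 * (1 + L) ^ 3 := by
      have e1 : ∑ n ∈ Finset.Icc ⌈N ^ (1 - 7 * θ)⌉₊ ⌊N⌋₊,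
          (n : ℝ) * ‖((a ^ (k + 1) * dco a k n : ℝ) : ℂ)‖ ^ 2 ≤
          ∑ n ∈ Finset.Icc ⌈N ^ (1 - 7 * θ)⌉₊ ⌊N⌋₊, a ^ 2 * L ^ 2 * ((n : ℝ))⁻¹ := by
        refine Finset.sum_le_sum fun n hn => ?_
        have hn' := Finset.mem_Icc.1 hn
        have hn1 : 1 ≤ n := hce1.trans hn'.1
        have hnpos : (0 : ℝ) < n := by exact_mod_cast hn1
        obtain ⟨c1, c2⟩ := rsh_coeff ha k n hn1
        rw [Complex.norm_real, Real.norm_of_nonneg c1]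
        have hnN : (n : ℝ) ≤ N := le_trans (by exact_mod_cast hn'.2) hfl
        have hln : Real.log n ≤ L := Real.log_le_log hnpos hnN
        have hln0 : 0 ≤ Real.log n := Real.log_natCast_nonneg n
        have c3 : a * (Real.log n / n) ≤ a * (L / n) := by gcongr
        calc (n : ℝ) * (a ^ (k + 1) * dco a k n) ^ 2 ≤ (n : ℝ) * (a * (L / n)) ^ 2 :=
              mul_le_mul_of_nonneg_left (pow_le_pow_left₀ c1 (c2.trans c3) 2) hnpos.le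
          _ = a ^ 2 * L ^ 2 * ((n : ℝ))⁻¹ := by
              field_simp
      have e2 := rsh_harm ⌈N ^ (1 - 7 * θ)⌉₊ ⌊N⌋₊ hce1
      calc _ ≤ _ := e1
        _ = a ^ 2 * L ^ 2 * ∑ n ∈ Finset.Icc ⌈N ^ (1 - 7 * θ)⌉₊ ⌊N⌋₊, ((n : ℝ))⁻¹ := by
            rw [Finset.mul_sum]
        _ ≤ a ^ 2 * (1 + L) ^ 2 * (1 + L) := by
            have e3 : ∑ n ∈ Finset.Icc ⌈N ^ (1 - 7 * θ)⌉₊ ⌊N⌋₊, ((n : ℝ))⁻¹ ≤ 1 + L := by
              linarith
            have e4 : L ^ 2 ≤ (1 + L) ^ 2 := by nlinarith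
            have e5 : 0 ≤ ∑ n ∈ Finset.Icc ⌈N ^ (1 - 7 * θ)⌉₊ ⌊N⌋₊, ((n : ℝ))⁻¹ :=
              Finset.sum_nonneg fun n _ => by positivity
            have e6 : a ^ 2 * L ^ 2 ≤ a ^ 2 * (1 + L) ^ 2 :=
              mul_le_mul_of_nonneg_left e4 (by positivity)
            exact mul_le_mul e6 e3 e5 (by positivity)
        _ = _ := by ring
    have hall : R ^ 2 * N ^ (-(2 * μ)) ≤
        a ^ 2 * (1 + L) ^ 3 * (C * (1 + L) * (R * (M * (1 + L)) + R ^ 2 * g)) := by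
      refine hlow2.trans (h.trans ?_)
      have e7 : 0 ≤ C * (1 + L) := by positivity
      have e8 : C * (1 + L) * (R * (3 + 2 * Real.log H) + R ^ 2 * g) ≤
          C * (1 + L) * (R * (M * (1 + L)) + R ^ 2 * g) := by
        apply mul_le_mul_of_nonneg_left _ e7
        have := mul_le_mul_of_nonneg_left hlogH hR0
        linarith
      have e9 : 0 ≤ C * (1 + L) * (R * (3 + 2 * Real.log H) + R ^ 2 * g) := by positivity
      exact mul_le_mul hup e8 e9 (by positivity)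
    have hP : 0 < N ^ (-(2 * μ)) := Real.rpow_pos_of_pos hNpos _
    have hkey : R ^ 2 * N ^ (-(2 * μ)) ≤ 2 * C * a ^ 2 * M * (1 + L) ^ 5 * R := by
      have f1 : a ^ 2 * (1 + L) ^ 3 * (C * (1 + L) * (R ^ 2 * g)) =
          R ^ 2 * (2 * a ^ 2 * C * (1 + L) ^ 4 * g) / 2 := by ring
      have f2 : R ^ 2 * (2 * a ^ 2 * C * (1 + L) ^ 4 * g) ≤ R ^ 2 * N ^ (-(2 * μ)) :=
        mul_le_mul_of_nonneg_left hgsmall (by positivity)
      have f3 : a ^ 2 * (1 + L) ^ 3 * (C * (1 + L) * (R * (M * (1 + L)) + R ^ 2 * g)) =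
          C * a ^ 2 * M * (1 + L) ^ 5 * R + a ^ 2 * (1 + L) ^ 3 * (C * (1 + L) * (R ^ 2 * g)) := by
        ring
      rw [f3, f1] at hall
      linarith
    rcases eq_or_lt_of_le hR0 with h0 | hpos
    · rw [← h0]
      have : 0 < M := by linarith
      have : 0 < C := by linarith
      positivity
    · have g1 : R * N ^ (-(2 * μ)) ≤ 2 * C * a ^ 2 * M * (1 + L) ^ 5 := by
        have g2 : R * (R * N ^ (-(2 * μ))) ≤ R * (2 * C * a ^ 2 * M * (1 + L) ^ 5) := by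
          calc R * (R * N ^ (-(2 * μ))) = R ^ 2 * N ^ (-(2 * μ)) := by ring
            _ ≤ _ := hkey
            _ = _ := by ring
        exact le_of_mul_le_mul_left g2 hpos
      have hone : N ^ (-(2 * μ)) * N ^ (2 * μ) = 1 := by
        rw [← Real.rpow_add hNpos, neg_add_cancel, Real.rpow_zero]
      calc R = (R * N ^ (-(2 * μ))) * N ^ (2 * μ) := by rw [mul_assoc, hone, mul_one]
        _ ≤ _ := mul_le_mul_of_nonneg_right g1 (Real.rpow_nonneg hNpos.le _)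
  have hcard : (X.card : ℝ) ≤ ∑ k ∈ Finset.range (⌊a * L⌋₊ + 1), ((Xk k).card : ℝ) := by
    have := (Finset.card_le_card hsub).trans Finset.card_biUnion_le
    exact_mod_cast this
  have hsum : ∑ k ∈ Finset.range (⌊a * L⌋₊ + 1), ((Xk k).card : ℝ) ≤
      ((⌊a * L⌋₊ : ℝ) + 1) * (2 * C * a ^ 2 * M * (1 + L) ^ 5 * N ^ (2 * μ)) := by
    refine (Finset.sum_le_sum fun k _ => hmain k).trans ?_
    rw [Finset.sum_const, Finset.card_range, nsmul_eq_mul]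
    push_cast
    exact le_refl _
  have hfa : (⌊a * L⌋₊ : ℝ) + 1 ≤ (a + 1) * (1 + L) := by
    have := Nat.floor_le (mul_nonneg ha.le hL0)
    nlinarith
  have hM0 : 0 < M := by linarith
  have hC0 : 0 < C := by linarith
  have hNP : 0 ≤ N ^ (2 * μ) := Real.rpow_nonneg hNpos.le _
  calc (X.card : ℝ) ≤ _ := hcard
    _ ≤ _ := hsum
    _ ≤ (a + 1) * (1 + L) * (2 * C * a ^ 2 * M * (1 + L) ^ 5 * N ^ (2 * μ)) :=
        mul_le_mul_of_nonneg_right hfa (by positivity)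
    _ = _ := by ring

private theorem rsh_ceil {θ N : ℝ} (hN : 256 ≤ N) (h : 2 ≤ N ^ (7 * θ)) :
    ⌈N ^ (1 - 7 * θ)⌉₊ ≤ ⌊N⌋₊ := by
  have hNpos : 0 < N := by linarith
  rw [Nat.ceil_le]
  have h1 : N ^ (1 - 7 * θ) * N ^ (7 * θ) = N := by
    rw [← Real.rpow_add hNpos]
    have : 1 - 7 * θ + 7 * θ = 1 := by ring
    rw [this, Real.rpow_one]
  have h2 : 0 < N ^ (1 - 7 * θ) := Real.rpow_pos_of_pos hNpos _
  have h3 : N ^ (1 - 7 * θ) * 2 ≤ N := by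
    calc N ^ (1 - 7 * θ) * 2 ≤ N ^ (1 - 7 * θ) * N ^ (7 * θ) :=
          mul_le_mul_of_nonneg_left h h2.le
      _ = N := h1
  have h4 := Nat.lt_floor_add_one N
  linarith

theorem rare_sepH {θ a τ : ℝ} (hθ : 0 < θ) (hθ1 : θ ≤ 1 / 8) (ha : 0 < a) (hτ : 0 < τ) :
    ∃ N0 : ℝ, 1 ≤ N0 ∧ ∀ (μ N T H : ℝ) (X : Finset ℝ), 0 ≤ μ → N0 ≤ N → 1 ≤ H →
      H ≤ N ^ (2 - 14 * θ - 4 * μ - τ) →
      (∀ x ∈ X, T ≤ x ∧ x ≤ T + H) → (∀ x ∈ X, ∀ y ∈ X, x ≠ y → 1 ≤ |x - y|) →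
      (∀ x ∈ X, ∃ k : ℕ, (k : ℝ) ≤ a * Real.log N ∧
        N ^ (-μ) ≤ a ^ (k + 1) * ‖tPoly θ a k N x‖) →
      (X.card : ℝ) ≤ N ^ (2 * μ + τ) := by
  obtain ⟨C, hC1, hC⟩ := gram2
  obtain ⟨N1, hN1, hev1⟩ := rsh_ev τ (2 * C * a ^ 2 * (a + 1) * 4) hτ
  obtain ⟨N2, hN2, hev2⟩ := rsh_ev (τ / 2) (2 * a ^ 2 * C) (by positivity)
  obtain ⟨N3, hev3⟩ := Filter.eventually_atTop.1
    ((tendsto_rpow_atTop (y := 7 * θ) (by positivity)).eventually_ge_atTop 2)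
  refine ⟨max N1 (max N2 N3), by linarith [le_max_left N1 (max N2 N3)],
    fun μ N T H X hμ hNN hH hHN hX hsep hbig => ?_⟩
  have hNN1 : N1 ≤ N := (le_max_left _ _).trans hNN
  have hNN2 : N2 ≤ N := ((le_max_left _ _).trans (le_max_right _ _)).trans hNN
  have hNN3 : N3 ≤ N := ((le_max_right _ _).trans (le_max_right _ _)).trans hNN
  have hN256 : 256 ≤ N := hN1.trans hNN1
  have hNpos : 0 < N := by linarith
  have hNone : 1 ≤ N := by linarith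
  have hL0 : 0 ≤ Real.log N := Real.log_nonneg hNone
  have hNpow : H ≤ N ^ (2 : ℝ) := hHN.trans
    (Real.rpow_le_rpow_of_exponent_le hNone (by linarith))
  have hlogH : Real.log H ≤ 2 * Real.log N := by
    have := Real.log_le_log (by linarith) hNpow
    rwa [Real.log_rpow hNpos] at this
  have hYpos : 0 < N ^ (1 - 7 * θ) := Real.rpow_pos_of_pos hNpos _
  have hce : N ^ (1 - 7 * θ) ≤ (⌈N ^ (1 - 7 * θ)⌉₊ : ℝ) := Nat.le_ceil _
  have hce1 : 1 ≤ ⌈N ^ (1 - 7 * θ)⌉₊ := Nat.one_le_ceil_iff.2 hYpos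
  have hcepos : (0 : ℝ) < (⌈N ^ (1 - 7 * θ)⌉₊ : ℝ) := by linarith
  have hceil := rsh_ceil hN256 (hev3 N hNN3)
  have hHsq : H ≤ (⌈N ^ (1 - 7 * θ)⌉₊ : ℝ) ^ 2 := by
    calc H ≤ N ^ (2 - 14 * θ - 4 * μ - τ) := hHN
      _ ≤ N ^ ((1 - 7 * θ) * 2) := Real.rpow_le_rpow_of_exponent_le hNone (by linarith)
      _ = (N ^ (1 - 7 * θ)) ^ 2 := by
        rw [Real.rpow_mul hNpos.le]
        norm_cast
      _ ≤ _ := pow_le_pow_left₀ hYpos.le hce 2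
  have hgle : √H / (⌈N ^ (1 - 7 * θ)⌉₊ : ℝ) ≤ N ^ (-(2 * μ) - τ / 2) := by
    have e1 : √H ≤ N ^ ((2 - 14 * θ - 4 * μ - τ) / 2) := by
      rw [Real.sqrt_le_left (Real.rpow_nonneg hNpos.le _)]
      refine hHN.trans (le_of_eq ?_)
      rw [← Real.rpow_natCast, ← Real.rpow_mul hNpos.le]
      congr 1
      push_cast
      ring
    calc √H / (⌈N ^ (1 - 7 * θ)⌉₊ : ℝ) ≤ N ^ ((2 - 14 * θ - 4 * μ - τ) / 2) / N ^ (1 - 7 * θ) := by
          gcongr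
      _ = _ := by
          rw [← Real.rpow_sub hNpos]
          congr 1
          ring
  have h := rsh_core (θ := θ) (C := C) (M := 4) ha hC1 (by norm_num) μ N T H
    (√H / (⌈N ^ (1 - 7 * θ)⌉₊ : ℝ)) X hN256 hH hceil (by positivity) (by linarith) ?_ ?_ hX hsep hbig
  · refine h.trans ?_
    calc _ = (2 * C * a ^ 2 * (a + 1) * 4 * (1 + Real.log N) ^ 6) * N ^ (2 * μ) := by ring
      _ ≤ N ^ τ * N ^ (2 * μ) :=
        mul_le_mul_of_nonneg_right (hev1 N hNN1) (Real.rpow_nonneg hNpos.le _)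
      _ = _ := by
        rw [← Real.rpow_add hNpos]
        congr 1
        ring
  · have e4 : (1 + Real.log N) ^ 4 ≤ (1 + Real.log N) ^ 6 :=
      pow_le_pow_right₀ (by linarith) (by norm_num)
    have hC0 : 0 < C := by linarith
    calc 2 * a ^ 2 * C * (1 + Real.log N) ^ 4 * (√H / (⌈N ^ (1 - 7 * θ)⌉₊ : ℝ))
        ≤ 2 * a ^ 2 * C * (1 + Real.log N) ^ 6 * N ^ (-(2 * μ) - τ / 2) := by
          gcongr
      _ ≤ N ^ (τ / 2) * N ^ (-(2 * μ) - τ / 2) :=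
          mul_le_mul_of_nonneg_right (hev2 N hNN2) (Real.rpow_nonneg hNpos.le _)
      _ = _ := by
          rw [← Real.rpow_add hNpos]
          congr 1
          ring
  · intro u hu1 hu2
    exact hC _ _ H u hce1 hceil hu1 hu2 hHsq

theorem rare_sepK (k0 : ℕ) (hk : 1 ≤ k0) : ∃ δ : ℝ, 0 < δ ∧
    ∀ θ a τ : ℝ, 0 < θ → θ ≤ 1 / 14 → 0 < a → 0 < τ →
    ∃ N0 : ℝ, 1 ≤ N0 ∧ ∀ (μ N T H : ℝ) (X : Finset ℝ), 0 ≤ μ → 2 * μ + τ ≤ δ → N0 ≤ N → 1 ≤ H →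
      H ≤ N ^ ((1 - 7 * θ) * k0) →
      (∀ x ∈ X, T ≤ x ∧ x ≤ T + H) → (∀ x ∈ X, ∀ y ∈ X, x ≠ y → 1 ≤ |x - y|) →
      (∀ x ∈ X, ∃ k : ℕ, (k : ℝ) ≤ a * Real.log N ∧
        N ^ (-μ) ≤ a ^ (k + 1) * ‖tPoly θ a k N x‖) →
      (X.card : ℝ) ≤ N ^ (2 * μ + τ) := by
  obtain ⟨δ, C, hδ0, hδ1, hC1, hC⟩ := gramK k0 hk
  refine ⟨δ / 2, by positivity, fun θ a τ hθ hθ1 ha hτ => ?_⟩
  have hM1 : (1 : ℝ) ≤ 3 + 2 * k0 := by
    have : (0 : ℝ) ≤ k0 := Nat.cast_nonneg _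
    linarith
  obtain ⟨N1, hN1, hev1⟩ := rsh_ev τ (2 * C * a ^ 2 * (a + 1) * (3 + 2 * k0)) hτ
  obtain ⟨N2, hN2, hev2⟩ := rsh_ev τ (2 * a ^ 2 * C) hτ
  obtain ⟨N3, hev3⟩ := Filter.eventually_atTop.1
    ((tendsto_rpow_atTop (y := 7 * θ) (by positivity)).eventually_ge_atTop 2)
  refine ⟨max N1 (max N2 N3), by linarith [le_max_left N1 (max N2 N3)],
    fun μ N T H X hμ hμδ hNN hH hHN hX hsep hbig => ?_⟩
  have hNN1 : N1 ≤ N := (le_max_left _ _).trans hNN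
  have hNN2 : N2 ≤ N := ((le_max_left _ _).trans (le_max_right _ _)).trans hNN
  have hNN3 : N3 ≤ N := ((le_max_right _ _).trans (le_max_right _ _)).trans hNN
  have hN256 : 256 ≤ N := hN1.trans hNN1
  have hNpos : 0 < N := by linarith
  have hNone : 1 ≤ N := by linarith
  have hL0 : 0 ≤ Real.log N := Real.log_nonneg hNone
  have hk0 : (0 : ℝ) ≤ k0 := Nat.cast_nonneg _
  have hNpow : H ≤ N ^ (k0 : ℝ) := hHN.trans
    (Real.rpow_le_rpow_of_exponent_le hNone (by nlinarith))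
  have hlogH : Real.log H ≤ k0 * Real.log N := by
    have := Real.log_le_log (by linarith) hNpow
    rwa [Real.log_rpow hNpos] at this
  have hYpos : 0 < N ^ (1 - 7 * θ) := Real.rpow_pos_of_pos hNpos _
  have hce : N ^ (1 - 7 * θ) ≤ (⌈N ^ (1 - 7 * θ)⌉₊ : ℝ) := Nat.le_ceil _
  have hce1 : 1 ≤ ⌈N ^ (1 - 7 * θ)⌉₊ := Nat.one_le_ceil_iff.2 hYpos
  have hcepos : (0 : ℝ) < (⌈N ^ (1 - 7 * θ)⌉₊ : ℝ) := by linarith
  have hceil := rsh_ceil hN256 (hev3 N hNN3)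
  have hHk : H ≤ (⌈N ^ (1 - 7 * θ)⌉₊ : ℝ) ^ k0 := by
    calc H ≤ N ^ ((1 - 7 * θ) * k0) := hHN
      _ = (N ^ (1 - 7 * θ)) ^ k0 := by
        rw [Real.rpow_mul hNpos.le, Real.rpow_natCast]
      _ ≤ _ := pow_le_pow_left₀ hYpos.le hce k0
  have hgle : (⌈N ^ (1 - 7 * θ)⌉₊ : ℝ) ^ (-δ) ≤ N ^ (-(2 * μ) - τ) := by
    calc (⌈N ^ (1 - 7 * θ)⌉₊ : ℝ) ^ (-δ) ≤ (N ^ (1 - 7 * θ)) ^ (-δ) :=
          Real.rpow_le_rpow_of_nonpos hYpos hce (by linarith)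
      _ = N ^ ((1 - 7 * θ) * (-δ)) := by rw [← Real.rpow_mul hNpos.le]
      _ ≤ _ := by
          apply Real.rpow_le_rpow_of_exponent_le hNone
          nlinarith
  have hlogH2 : 3 + 2 * Real.log H ≤ (3 + 2 * (k0 : ℝ)) * (1 + Real.log N) := by
    nlinarith [mul_nonneg hk0 hL0]
  have h := rsh_core (θ := θ) (C := C) (M := 3 + 2 * k0) ha hC1 hM1 μ N T H
    ((⌈N ^ (1 - 7 * θ)⌉₊ : ℝ) ^ (-δ)) X hN256 hH hceil (by positivity) hlogH2 ?_ ?_ hX hsep hbig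
  · refine h.trans ?_
    calc _ = (2 * C * a ^ 2 * (a + 1) * (3 + 2 * k0) * (1 + Real.log N) ^ 6) * N ^ (2 * μ) := by
          ring
      _ ≤ N ^ τ * N ^ (2 * μ) :=
        mul_le_mul_of_nonneg_right (hev1 N hNN1) (Real.rpow_nonneg hNpos.le _)
      _ = _ := by
        rw [← Real.rpow_add hNpos]
        congr 1
        ring
  · have e4 : (1 + Real.log N) ^ 4 ≤ (1 + Real.log N) ^ 6 :=
      pow_le_pow_right₀ (by linarith) (by norm_num)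
    have hC0 : 0 < C := by linarith
    calc 2 * a ^ 2 * C * (1 + Real.log N) ^ 4 * (⌈N ^ (1 - 7 * θ)⌉₊ : ℝ) ^ (-δ)
        ≤ 2 * a ^ 2 * C * (1 + Real.log N) ^ 6 * N ^ (-(2 * μ) - τ) := by
          gcongr
      _ ≤ N ^ τ * N ^ (-(2 * μ) - τ) :=
          mul_le_mul_of_nonneg_right (hev2 N hNN2) (Real.rpow_nonneg hNpos.le _)
      _ = _ := by
          rw [← Real.rpow_add hNpos]
          congr 1
          ring
  · intro u hu1 hu2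
    exact hC _ _ u hce1 hceil hu1 (hu2.trans hHk)

end Pool.Agent.H52.Unc
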