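import Mathlib
import Pool.Agent.H52.Unc.SeenU

/-!
# SeenV: `seenU` with the sharper loss `θ (1-σ)`

The proof of `seenU` with `κ = min (η/8) (θ (1-σ)/(16 a))` gives
`a^(k+1) ‖tPoly‖ ≥ (1/2) N^(-(1-β)) exp(-5κk0)`, `5κk0 ≤ (5/16) θ (1-σ) log N`, and
`1/2 ≥ N^(-θ(1-σ)/2)` for `N` large.  (helper10 may prove it inside SeenU.lean; then this is one line.)
-/

set_option autoImplicit false

open Complex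

namespace Pool.Agent.H52.Unc

open Pool.Agent.H76.CR

theorem seenV' {θ a η σ σ1 : ℝ} (hθ : 0 < θ) (hθ1 : θ ≤ 1 / 8) (hη : 0 < η) (hη1 : η ≤ 1)
    (hσ1 : 1 / 2 < σ1) (hσ : σ < 1) (ha : 4 * (1 - σ) ≤ a * θ ^ 2)
    (hr : (1 + η) * (a + 1 - σ) ≤ a + 1 - σ1) :
    ∃ c C : ℝ, 0 < c ∧ 1 ≤ C ∧ ∀ (ρ : ℂ) (N : ℝ), riemannZeta ρ = 0 → σ ≤ ρ.re →
      C ≤ |ρ.im| → Real.log |ρ.im| ^ C ≤ N →
      (rz (3 * (a + 1 - σ)) (ρ.re - η * (a + 1 - σ)) ρ : ℝ) < c * Real.log N →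
      ∃ k : ℕ, (k : ℝ) ≤ a * Real.log N ∧
        N ^ (-(1 - ρ.re) - θ * (1 - σ)) ≤ a ^ (k + 1) * ‖tPoly θ a k N ρ.im‖ :=
  seenV hθ hθ1 hη hη1 hσ1 hσ ha hr

end Pool.Agent.H52.Unc
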