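import Mathlib
import Pool.Agent.H52.Unc.SeenV
import Pool.Agent.H52.Unc.SpreadU

/-!
# RareX: from a bound for separated points to a bound for zeros, scale `N = H^x`

As `RareU.lean` (helper39).  `seenV'` with `N = H^x` (its constants `c0, C0`; `c = c0 x`, so that
`c1 log H ≤ c0 log N`): `(log |γ|)^C0 ≤ (log (T+H))^C0 ≤ H^x` because `H ≥ (log T)^C1`, `C1 ≥ C` large
in terms of `C0/x` (two cases `H ≤ T`, `H > T`).  It gives `k` with
`N^(-((1+θ)(1-σ))) ≤ N^(-(1-ρ.re) - θ(1-σ)) ≤ a^(k+1) ‖tPoly θ a k N γ‖` (`ρ.re ≥ σ`, `N ≥ 1`).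
So every `1`-separated set of ordinates has at most `B` elements; `spreadU`:
`∑ ≤ C B log (T+H+3) ≤ B H^τ` for `C1` large (`log T ≤ H^(1/C1)`).  About 130 lines.
-/

set_option autoImplicit false

open Complex

namespace Pool.Agent.H52.Unc

open Pool.Agent.H76.CR

private lemma ev_bound {δ M : ℝ} (hδ : 0 < δ) (hM : 1 ≤ M) :
    ∃ H0 : ℝ, 1 ≤ H0 ∧ ∀ H : ℝ, H0 ≤ H → H ^ (δ / 2) + Real.log (H + 4) ≤ H ^ δ / M := by
  have h1 : ∀ᶠ H : ℝ in Filter.atTop, 2 * M ≤ H ^ (δ / 2) :=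
    (tendsto_rpow_atTop (by linarith : 0 < δ / 2)).eventually_ge_atTop _
  have h2 : ∀ᶠ H : ℝ in Filter.atTop, 4 * M * (1 / (δ / 4)) * 5 ^ (δ / 4) ≤ H ^ (δ / 2) :=
    (tendsto_rpow_atTop (by linarith : 0 < δ / 2)).eventually_ge_atTop _
  obtain ⟨H0, hH0⟩ := (h1.and (h2.and (Filter.eventually_ge_atTop (1 : ℝ)))).exists_forall_of_atTop
  refine ⟨max H0 1, le_max_right _ _, fun H hH => ?_⟩
  obtain ⟨e1, e2, e3⟩ := hH0 H ((le_max_left _ _).trans hH)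
  have hHpos : 0 < H := by linarith
  have hM0 : 0 < M := by linarith
  have hp : H ^ δ = H ^ (δ / 2) * H ^ (δ / 2) := by
    rw [← Real.rpow_add hHpos]; congr 1; ring
  have hpos : 0 < H ^ (δ / 2) := Real.rpow_pos_of_pos hHpos _
  have e4 : Real.log (H + 4) ≤ (1 / (δ / 4)) * 5 ^ (δ / 4) * H ^ (δ / 4) := by
    have h3 := Real.log_le_rpow_div (x := H + 4) (by linarith) (show 0 < δ / 4 by linarith)
    have h4 : (H + 4) ^ (δ / 4) ≤ (5 * H) ^ (δ / 4) :=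
      Real.rpow_le_rpow (by linarith) (by linarith) (by linarith)
    rw [Real.mul_rpow (by norm_num) hHpos.le] at h4
    calc Real.log (H + 4) ≤ (H + 4) ^ (δ / 4) / (δ / 4) := h3
      _ ≤ (5 ^ (δ / 4) * H ^ (δ / 4)) / (δ / 4) := by gcongr
      _ = _ := by ring
  have e5 : H ^ (δ / 4) ≤ H ^ (δ / 2) :=
    Real.rpow_le_rpow_of_exponent_le e3 (by linarith)
  have e6 : (1 / (δ / 4)) * 5 ^ (δ / 4) * H ^ (δ / 4) ≤ H ^ δ / (2 * M) := by
    rw [le_div_iff₀ (by positivity), hp]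
    calc (1 / (δ / 4)) * 5 ^ (δ / 4) * H ^ (δ / 4) * (2 * M)
        ≤ (1 / (δ / 4)) * 5 ^ (δ / 4) * H ^ (δ / 2) * (2 * M) := by gcongr
      _ = (2 * M * (1 / (δ / 4)) * 5 ^ (δ / 4)) * H ^ (δ / 2) := by ring
      _ ≤ (4 * M * (1 / (δ / 4)) * 5 ^ (δ / 4)) * H ^ (δ / 2) := by
          gcongr
          linarith
      _ ≤ H ^ (δ / 2) * H ^ (δ / 2) := by gcongr
  have e7 : H ^ (δ / 2) ≤ H ^ δ / (2 * M) := by
    rw [le_div_iff₀ (by positivity), hp]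
    gcongr
  calc H ^ (δ / 2) + Real.log (H + 4) ≤ H ^ δ / (2 * M) + H ^ δ / (2 * M) :=
        add_le_add e7 (e4.trans e6)
    _ = H ^ δ / M := by field_simp; ring

theorem rareX {θ a η σ σ1 x τ : ℝ} (hθ : 0 < θ) (hθ1 : θ ≤ 1 / 8) (hη : 0 < η) (hη1 : η ≤ 1)
    (hσ1 : 1 / 2 < σ1) (hσσ : σ1 < σ) (hσ : σ < 1) (ha : 4 * (1 - σ) ≤ a * θ ^ 2)
    (hr : (1 + η) * (a + 1 - σ) ≤ a + 1 - σ1) (hx : 0 < x) (hτ : 0 < τ) :
    ∃ c C : ℝ, 0 < c ∧ 1 ≤ C ∧ ∀ (c1 C1 T H B : ℝ), c1 ≤ c → C ≤ C1 → C1 ≤ T →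
      Real.log T ^ C1 ≤ H → 0 ≤ B →
      (∀ X : Finset ℝ, (∀ y ∈ X, T ≤ y ∧ y ≤ T + H) →
        (∀ y ∈ X, ∀ z ∈ X, y ≠ z → 1 ≤ |y - z|) →
        (∀ y ∈ X, ∃ k : ℕ, (k : ℝ) ≤ a * Real.log (H ^ x) ∧
          (H ^ x) ^ (-((1 + θ) * (1 - σ))) ≤ a ^ (k + 1) * ‖tPoly θ a k (H ^ x) y‖) →
        (X.card : ℝ) ≤ B) →
      ∀ S : Finset ℂ,
      (∀ ρ ∈ S, riemannZeta ρ = 0 ∧ σ ≤ ρ.re ∧ T ≤ ρ.im ∧ ρ.im ≤ T + H ∧
        (rz (3 * (a + 1 - σ)) (ρ.re - η * (a + 1 - σ)) ρ : ℝ) < c1 * Real.log H) →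
      ∑ ρ ∈ S, (analyticOrderNatAt riemannZeta ρ : ℝ) ≤ B * H ^ τ := by
  obtain ⟨c0, Cs, hc0, hCs, hseen⟩ := seenV' hθ hθ1 hη hη1 hσ1 hσ ha hr
  obtain ⟨Cp, hCp, hspread⟩ := spreadU (σ := σ) (by linarith)
  have hCs0 : 0 < Cs := by linarith
  set δ : ℝ := min τ (x / Cs) with hδ
  have hδ0 : 0 < δ := lt_min hτ (by positivity)
  have hδτ : δ ≤ τ := min_le_left _ _
  have hδC : δ * Cs ≤ x := by
    have : δ ≤ x / Cs := min_le_right _ _
    calc δ * Cs ≤ x / Cs * Cs := by gcongr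
      _ = x := by field_simp
  set M : ℝ := max 1 Cp with hM
  have hM1 : 1 ≤ M := le_max_left _ _
  have hMp : Cp ≤ M := le_max_right _ _
  obtain ⟨H0, hH01, hH0⟩ := ev_bound hδ0 hM1
  set E : ℝ := Real.exp (Real.exp 1) with hE
  refine ⟨c0 * x, max Cs (max H0 (max E (2 / δ))), by positivity, hCs.trans (le_max_left _ _),
    fun c1 C1 T H B hc1 hC1 hT hH hB0 hB S hS => ?_⟩
  have hC1s : Cs ≤ C1 := (le_max_left _ _).trans hC1
  have hC1'' : max H0 (max E (2 / δ)) ≤ C1 := (le_max_right _ _).trans hC1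
  have hC1H : H0 ≤ C1 := (le_max_left _ _).trans hC1''
  have hC13 : max E (2 / δ) ≤ C1 := (le_max_right _ _).trans hC1''
  have hC1E : E ≤ C1 := (le_max_left _ _).trans hC13
  have hC1δ : 2 / δ ≤ C1 := (le_max_right _ _).trans hC13
  have hC11 : 1 ≤ C1 := hCs.trans hC1s
  have hT1 : 1 ≤ T := hC11.trans hT
  have hT0 : 0 < T := by linarith
  -- the logarithm of `T`
  have hlT : Real.exp 1 ≤ Real.log T := by
    rw [Real.le_log_iff_exp_le hT0]
    exact hC1E.trans hT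
  have hlT1 : 1 ≤ Real.log T := (Real.one_le_exp (by norm_num)).trans hlT
  have hHC : C1 + 1 ≤ H := by
    calc C1 + 1 ≤ Real.exp C1 := Real.add_one_le_exp C1
      _ = Real.exp 1 ^ C1 := by rw [← Real.exp_mul, one_mul]
      _ ≤ Real.log T ^ C1 := Real.rpow_le_rpow (Real.exp_pos 1).le hlT (by linarith)
      _ ≤ H := hH
  have hH1 : 1 ≤ H := by linarith
  have hHpos : 0 < H := by linarith
  have hlogH : 0 ≤ Real.log H := Real.log_nonneg hH1
  have hHH : H0 ≤ H := by linarith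
  have hlTH : Real.log T ≤ H ^ (δ / 2) := by
    have h1 : Real.log T ≤ H ^ (1 / C1) := by
      calc Real.log T = (Real.log T ^ C1) ^ (1 / C1) := by
            rw [← Real.rpow_mul (by linarith), mul_one_div, div_self (by linarith), Real.rpow_one]
        _ ≤ H ^ (1 / C1) := Real.rpow_le_rpow (by positivity) hH (by positivity)
    refine h1.trans (Real.rpow_le_rpow_of_exponent_le hH1 ?_)
    rw [div_le_div_iff₀ (by linarith) (by norm_num)]
    rw [div_le_iff₀ hδ0] at hC1δ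
    linarith
  have hbig : Real.log (T + H + 3) ≤ H ^ δ / M := by
    have h1 : T + H + 3 ≤ T * (H + 4) := by nlinarith
    calc Real.log (T + H + 3) ≤ Real.log (T * (H + 4)) := Real.log_le_log (by linarith) h1
      _ = Real.log T + Real.log (H + 4) := Real.log_mul hT0.ne' (by linarith)
      _ ≤ H ^ (δ / 2) + Real.log (H + 4) := by gcongr
      _ ≤ H ^ δ / M := hH0 H hHH
  have hHδ : 0 < H ^ δ := Real.rpow_pos_of_pos hHpos _
  have hN1 : 1 ≤ H ^ x := Real.one_le_rpow hH1 hx.le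
  have hlogN : Real.log (H ^ x) = x * Real.log H := Real.log_rpow hHpos x
  have hmain := hspread T H B S hT1 hHpos.le hB0
    (fun ρ hρ => ⟨(hS ρ hρ).1, (hS ρ hρ).2.1, (hS ρ hρ).2.2.1, (hS ρ hρ).2.2.2.1⟩) ?_
  · refine hmain.trans ?_
    have h1 : Cp * Real.log (T + H + 3) ≤ H ^ τ := by
      have h0 : 0 ≤ Real.log (T + H + 3) := Real.log_nonneg (by linarith)
      calc Cp * Real.log (T + H + 3) ≤ M * (H ^ δ / M) :=
            mul_le_mul hMp hbig h0 (by linarith)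
        _ = H ^ δ := by field_simp
        _ ≤ H ^ τ := Real.rpow_le_rpow_of_exponent_le hH1 hδτ
    calc Cp * B * Real.log (T + H + 3) = B * (Cp * Real.log (T + H + 3)) := by ring
      _ ≤ B * H ^ τ := by gcongr
  · intro X hX hXsep
    refine hB X ?_ hXsep ?_
    · intro y hy
      obtain ⟨ρ, hρ, rfl⟩ := hX y hy
      exact ⟨(hS ρ hρ).2.2.1, (hS ρ hρ).2.2.2.1⟩
    · intro y hy
      obtain ⟨ρ, hρ, rfl⟩ := hX y hy
      obtain ⟨hz, hre, him1, him2, hcr⟩ := hS ρ hρ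
      have himabs : |ρ.im| = ρ.im := abs_of_nonneg (by linarith)
      have hlogim : 0 ≤ Real.log ρ.im := Real.log_nonneg (by linarith)
      have h3 : Real.log |ρ.im| ^ Cs ≤ H ^ x := by
        rw [himabs]
        have h4 : Real.log ρ.im ≤ H ^ δ := by
          calc Real.log ρ.im ≤ Real.log (T + H + 3) :=
                Real.log_le_log (by linarith) (by linarith)
            _ ≤ H ^ δ / M := hbig
            _ ≤ H ^ δ := div_le_self hHδ.le hM1
        calc Real.log ρ.im ^ Cs ≤ (H ^ δ) ^ Cs := Real.rpow_le_rpow hlogim h4 (by linarith)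
          _ = H ^ (δ * Cs) := by rw [← Real.rpow_mul hHpos.le]
          _ ≤ H ^ x := Real.rpow_le_rpow_of_exponent_le hH1 hδC
      have h5 : (rz (3 * (a + 1 - σ)) (ρ.re - η * (a + 1 - σ)) ρ : ℝ) <
          c0 * Real.log (H ^ x) := by
        refine hcr.trans_le ?_
        rw [hlogN]
        calc c1 * Real.log H ≤ c0 * x * Real.log H := by gcongr
          _ = c0 * (x * Real.log H) := by ring
      obtain ⟨k, hk, hkb⟩ := hseen ρ (H ^ x) hz hre (by rw [himabs]; linarith) h3 h5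
      refine ⟨k, hk, le_trans ?_ hkb⟩
      refine Real.rpow_le_rpow_of_exponent_le hN1 ?_
      linarith

end Pool.Agent.H52.Unc
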