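import Mathlib
import Pool.Agent.H52.Unc.RareU
import Pool.Agent.H52.Unc.PartSumU
import Pool.Agent.H52.Unc.LargeU
import Pool.Agent.H52.Unc.RareX
import Pool.Agent.H52.Unc.RareSepH
import Pool.Agent.H52.Unc.DBounds

/-!
# Main2: zero density for uncrowded zeros, with Halász's inequality near `1`
-/

set_option autoImplicit false

open Complex

namespace Pool.Agent.H52.Unc

open Pool.Agent.H76.CR

/-- the hypothesis on a finite set of zeros -/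
private def Unc (r β' σ c1 T H : ℝ) (S : Finset ℂ) : Prop :=
  ∀ ρ ∈ S, riemannZeta ρ = 0 ∧ σ ≤ ρ.re ∧ T ≤ ρ.im ∧ ρ.im ≤ T + H ∧
    (rz r (ρ.re - β') ρ : ℝ) < c1 * Real.log H

private theorem partB {θ a η σ σ1 ε : ℝ} (hε : 0 < ε) (hε1 : ε ≤ 1 / 4) (hθε : θ = ε / 32)
    (hη : 0 < η) (hη1 : η ≤ 1) (hσ1 : 1 / 2 < σ1) (hσσ : σ1 < σ) (hσ : σ < 1)
    (ha0 : 0 < a) (ha : 4 * (1 - σ) ≤ a * θ ^ 2)
    (hr : (1 + η) * (a + 1 - σ) ≤ a + 1 - σ1) :
    ∃ c C : ℝ, 0 < c ∧ 1 ≤ C ∧ (3 / 4 < σ → ∀ (c1 C1 T H : ℝ), c1 ≤ c → C ≤ C1 → C1 ≤ T →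
      Real.log T ^ C1 ≤ H → ∀ S : Finset ℂ,
      Unc (3 * (a + 1 - σ)) (η * (a + 1 - σ)) σ c1 T H S →
      ∑ ρ ∈ S, (analyticOrderNatAt riemannZeta ρ : ℝ) ≤ H ^ ((1 - σ) / (2 * σ - 1) + ε)) := by
  have hθ : 0 < θ := by rw [hθε]; positivity
  have hθ1 : θ ≤ 1 / 8 := by rw [hθε]; linarith
  by_cases h34 : 3 / 4 < σ
  swap
  · exact ⟨1, 1, one_pos, le_rfl, fun h => absurd h h34⟩
  set τ : ℝ := ε / 8 with hτ
  have hτ0 : 0 < τ := by positivity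
  set D' : ℝ := 4 * σ - 2 - 15 * θ - τ with hD'
  have hD'2 : 1 / 2 ≤ D' := by rw [hD', hθε, hτ]; linarith
  have hD'0 : 0 < D' := by linarith
  set x : ℝ := 1 / D' with hx
  have hx0 : 0 < x := by positivity
  obtain ⟨N0, hN0, hsep⟩ := rare_sepH (θ := θ) (a := a) (τ := τ) hθ hθ1 ha0 hτ0
  obtain ⟨c, C, hc, hC, hmain⟩ := rareX (θ := θ) (a := a) (η := η) (σ := σ) (σ1 := σ1) (x := x)
    (τ := τ) hθ hθ1 hη hη1 hσ1 hσσ hσ ha hr hx0 hτ0
  have hE0 : 0 < Real.exp (N0 ^ (1 / x)) := Real.exp_pos _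
  refine ⟨c, C + Real.exp (N0 ^ (1 / x)) + Real.exp 1, hc, by
    have := Real.exp_pos 1
    linarith, fun _ c1 C1 T H hc1 hC1 hT hH S hS => ?_⟩
  have he1 := Real.exp_pos 1
  have hCC1 : C ≤ C1 := by linarith
  have hlogT : 1 ≤ Real.log T := by
    rw [Real.le_log_iff_exp_le (by linarith)]
    linarith
  have hlogT2 : N0 ^ (1 / x) ≤ Real.log T := by
    rw [Real.le_log_iff_exp_le (by linarith)]
    linarith
  have hHlog : Real.log T ≤ H := by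
    refine le_trans ?_ hH
    calc Real.log T = Real.log T ^ (1 : ℝ) := (Real.rpow_one _).symm
      _ ≤ Real.log T ^ C1 := Real.rpow_le_rpow_of_exponent_le hlogT (by linarith)
  have hH1 : 1 ≤ H := hlogT.trans hHlog
  have hH0 : 0 < H := by linarith
  have hN : N0 ≤ H ^ x := by
    calc N0 = (N0 ^ (1 / x)) ^ x := by
          rw [← Real.rpow_mul (by linarith), one_div, inv_mul_cancel₀ hx0.ne', Real.rpow_one]
      _ ≤ H ^ x := by
          apply Real.rpow_le_rpow (by positivity) (hlogT2.trans hHlog) hx0.le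
  set μ : ℝ := (1 + θ) * (1 - σ) with hμ
  have hσ0 : 0 < 1 - σ := by linarith
  have hμ0 : 0 ≤ μ := by positivity
  have hB := hmain c1 C1 T H ((H ^ x) ^ (2 * μ + τ)) hc1 hCC1 hT hH (by positivity) (by
    intro X hX1 hX2 hX3
    refine hsep μ (H ^ x) T H X hμ0 hN hH1 ?_ hX1 hX2 hX3
    rw [← Real.rpow_mul hH0.le]
    calc H = H ^ (1 : ℝ) := (Real.rpow_one H).symm
      _ ≤ H ^ (x * (2 - 14 * θ - 4 * μ - τ)) := by
          apply Real.rpow_le_rpow_of_exponent_le hH1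
          have h1 : D' ≤ 2 - 14 * θ - 4 * μ - τ := by
            rw [hD', hμ]
            nlinarith
          calc (1 : ℝ) = x * D' := by rw [hx]; field_simp
            _ ≤ _ := by gcongr) S hS
  refine hB.trans ?_
  rw [← Real.rpow_mul hH0.le, ← Real.rpow_add hH0]
  apply Real.rpow_le_rpow_of_exponent_le hH1
  -- the exponents
  have hD : 0 < 2 * σ - 1 := by linarith
  have hx2 : x ≤ 2 := by
    rw [hx, div_le_iff₀ hD'0]
    linarith
  have h2 : x * (2 * (1 - σ)) ≤ (1 - σ) / (2 * σ - 1) + (15 * θ + τ) := by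
    have h3 : (1 - σ) / (2 * σ - 1) = 2 * (1 - σ) / (4 * σ - 2) := by
      have h4 : 4 * σ - 2 = 2 * (2 * σ - 1) := by ring
      rw [h4]
      field_simp
    have h5 : (1 : ℝ) < 4 * σ - 2 := by linarith
    have hgen : ∀ E D u v : ℝ, 0 < E → 0 < D → E - D = v →
        1 / D * u - u / E = u * v * (1 / D * (1 / E)) := by
      intro E D u v hE hD hv
      rw [← hv]
      field_simp
    have h6 : x * (2 * (1 - σ)) - 2 * (1 - σ) / (4 * σ - 2) =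
        (2 * (1 - σ)) * (15 * θ + τ) * (x * (1 / (4 * σ - 2))) := by
      rw [hx]
      exact hgen _ _ _ _ (by linarith) hD'0 (by rw [hD']; ring)
    have h7 : x * (1 / (4 * σ - 2)) ≤ 2 * 1 := by
      apply mul_le_mul hx2 _ (by positivity) (by norm_num)
      rw [div_le_one (by linarith)]
      exact h5.le
    have h8 : (2 * (1 - σ)) * (15 * θ + τ) * (x * (1 / (4 * σ - 2))) ≤
        (2 * (1 - σ)) * (15 * θ + τ) * (2 * 1) := by
      gcongr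
    rw [h3]
    nlinarith
  have h9 : x * (2 * μ + τ) = x * (2 * (1 - σ)) + x * (2 * θ * (1 - σ) + τ) := by
    rw [hμ]
    ring
  have h10 : x * (2 * θ * (1 - σ) + τ) ≤ 2 * (θ / 2 + τ) := by
    apply mul_le_mul hx2 _ (by positivity) (by norm_num)
    nlinarith
  have h11 : 16 * θ + 4 * τ = ε := by rw [hθε, hτ]; ring
  linarith

private theorem partC {ε : ℝ} (hε : 0 < ε) (hε1 : ε ≤ 1 / 4) : ∃ σ2 : ℝ, σ2 < 1 ∧
    ∀ θ a η σ σ1 : ℝ, θ = ε / 32 → 0 < η → η ≤ 1 → 1 / 2 < σ1 → σ1 < σ → σ < 1 → 0 < a →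
    4 * (1 - σ) ≤ a * θ ^ 2 → (1 + η) * (a + 1 - σ) ≤ a + 1 - σ1 →
    ∃ c C : ℝ, 0 < c ∧ 1 ≤ C ∧ (σ2 ≤ σ → ∀ (c1 C1 T H : ℝ), c1 ≤ c → C ≤ C1 → C1 ≤ T →
      Real.log T ^ C1 ≤ H → ∀ S : Finset ℂ,
      Unc (3 * (a + 1 - σ)) (η * (a + 1 - σ)) σ c1 T H S →
      ∑ ρ ∈ S, (analyticOrderNatAt riemannZeta ρ : ℝ) ≤ H ^ (ε * (1 - σ))) := by
  set k0 : ℕ := ⌈8 / ε⌉₊ with hk0
  have hk08 : 8 / ε ≤ k0 := Nat.le_ceil _
  have hk1 : 1 ≤ k0 := Nat.one_le_iff_ne_zero.2 (Nat.ceil_pos.2 (by positivity)).ne'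
  have hk0r : (0 : ℝ) < k0 := by exact_mod_cast hk1
  obtain ⟨δ, hδ, hsepK⟩ := rare_sepK k0 hk1
  refine ⟨1 - min (1 / 4) (δ / 4), by
    have : 0 < min (1 / 4 : ℝ) (δ / 4) := lt_min (by norm_num) (by positivity)
    linarith, ?_⟩
  intro θ a η σ σ1 hθε hη hη1 hσ1 hσσ hσ ha0 ha hr
  have hθ : 0 < θ := by rw [hθε]; positivity
  have hθ1 : θ ≤ 1 / 8 := by rw [hθε]; linarith
  have hθ14 : θ ≤ 1 / 14 := by rw [hθε]; linarith
  by_cases hcase : 1 - min (1 / 4) (δ / 4) ≤ σ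
  swap
  · exact ⟨1, 1, one_pos, le_rfl, fun h => absurd h hcase⟩
  have hσ4 : 1 - σ ≤ 1 / 4 := by
    have := min_le_left (1 / 4 : ℝ) (δ / 4)
    linarith
  have hσδ : 1 - σ ≤ δ / 4 := by
    have := min_le_right (1 / 4 : ℝ) (δ / 4)
    linarith
  have hσ0 : 0 < 1 - σ := by linarith
  set τ : ℝ := ε / 8 * (1 - σ) with hτ
  have hτ0 : 0 < τ := by positivity
  set x : ℝ := 2 / k0 with hx
  have hx0 : 0 < x := by positivity
  obtain ⟨N0, hN0, hsep⟩ := hsepK θ a τ hθ hθ14 ha0 hτ0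
  obtain ⟨c, C, hc, hC, hmain⟩ := rareX (θ := θ) (a := a) (η := η) (σ := σ) (σ1 := σ1) (x := x)
    (τ := τ) hθ hθ1 hη hη1 hσ1 hσσ hσ ha hr hx0 hτ0
  have hE0 : 0 < Real.exp (N0 ^ (1 / x)) := Real.exp_pos _
  refine ⟨c, C + Real.exp (N0 ^ (1 / x)) + Real.exp 1, hc, by
    have := Real.exp_pos 1
    linarith, fun _ c1 C1 T H hc1 hC1 hT hH S hS => ?_⟩
  have he1 := Real.exp_pos 1
  have hCC1 : C ≤ C1 := by linarith
  have hlogT : 1 ≤ Real.log T := by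
    rw [Real.le_log_iff_exp_le (by linarith)]
    linarith
  have hlogT2 : N0 ^ (1 / x) ≤ Real.log T := by
    rw [Real.le_log_iff_exp_le (by linarith)]
    linarith
  have hHlog : Real.log T ≤ H := by
    refine le_trans ?_ hH
    calc Real.log T = Real.log T ^ (1 : ℝ) := (Real.rpow_one _).symm
      _ ≤ Real.log T ^ C1 := Real.rpow_le_rpow_of_exponent_le hlogT (by linarith)
  have hH1 : 1 ≤ H := hlogT.trans hHlog
  have hH0 : 0 < H := by linarith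
  have hN : N0 ≤ H ^ x := by
    calc N0 = (N0 ^ (1 / x)) ^ x := by
          rw [← Real.rpow_mul (by linarith), one_div, inv_mul_cancel₀ hx0.ne', Real.rpow_one]
      _ ≤ H ^ x := by
          apply Real.rpow_le_rpow (by positivity) (hlogT2.trans hHlog) hx0.le
  set μ : ℝ := (1 + θ) * (1 - σ) with hμ
  have hμ0 : 0 ≤ μ := by positivity
  have h3 : 2 * μ + τ ≤ 3 * (1 - σ) := by
    rw [hμ, hτ]
    nlinarith
  have hB := hmain c1 C1 T H ((H ^ x) ^ (2 * μ + τ)) hc1 hCC1 hT hH (by positivity) (by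
    intro X hX1 hX2 hX3
    refine hsep μ (H ^ x) T H X hμ0 (by linarith) hN hH1 ?_ hX1 hX2 hX3
    rw [← Real.rpow_mul hH0.le]
    calc H = H ^ (1 : ℝ) := (Real.rpow_one H).symm
      _ ≤ H ^ (x * ((1 - 7 * θ) * k0)) := by
          apply Real.rpow_le_rpow_of_exponent_le hH1
          have h4 : x * ((1 - 7 * θ) * k0) = 2 * (1 - 7 * θ) := by
            rw [hx]
            field_simp
          rw [h4]
          linarith) S hS
  refine hB.trans ?_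
  rw [← Real.rpow_mul hH0.le, ← Real.rpow_add hH0]
  apply Real.rpow_le_rpow_of_exponent_le hH1
  have hx2 : x ≤ ε / 4 := by
    rw [hx, div_le_iff₀ hk0r]
    rw [div_le_iff₀ hε] at hk08
    linarith
  calc x * (2 * μ + τ) + τ ≤ ε / 4 * (3 * (1 - σ)) + ε / 8 * (1 - σ) := by
        gcongr
    _ ≤ ε * (1 - σ) := by nlinarith

theorem main2 (ε : ℝ) (hε : 0 < ε) (hε1 : ε ≤ 1 / 4) :
    ∃ K σ2 : ℝ, 0 < K ∧ σ2 < 1 ∧ ∀ σ : ℝ, 1 / 2 < σ → σ < 1 → ∃ c C : ℝ, 0 < c ∧ 1 ≤ C ∧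
      (∀ T H : ℝ, C ≤ T → Real.log T ^ C ≤ H → ∀ S : Finset ℂ,
        (∀ ρ ∈ S, riemannZeta ρ = 0 ∧ σ ≤ ρ.re ∧ T ≤ ρ.im ∧ ρ.im ≤ T + H ∧
          (rz (K * (1 - σ)) (ρ.re - ε * (1 - σ)) ρ : ℝ) < c * Real.log H) →
        DensityBounds ε σ2 σ H (∑ ρ ∈ S, (analyticOrderNatAt riemannZeta ρ : ℝ))) ∧
      (∀ (ρ : ℂ) (N : ℝ), riemannZeta ρ = 0 → σ ≤ ρ.re → 1 / 2 + ε ≤ ρ.re → C ≤ ρ.im →
        Real.log ρ.im ^ C ≤ N →
        c * Real.log N ≤ rz (K * (1 - σ)) (ρ.re - ε * (1 - σ)) ρ ∨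
        ∃ M : ℕ, N ^ (1 - ε) ≤ M ∧ (M : ℝ) ≤ N ∧ (M : ℝ) ^ (ρ.re - ε) ≤ ‖pSum M ρ.im‖) ∧
      (∀ T H : ℝ, C ≤ T → Real.log T ^ C ≤ H →
        (∀ s : ℂ, σ - 2 * ε * (1 - σ) ≤ s.re → T - C ≤ s.im → s.im ≤ T + H + C →
          ‖riemannZeta s‖ ≤ H ^ c) → ∀ S : Finset ℂ,
        (∀ ρ ∈ S, riemannZeta ρ = 0 ∧ σ ≤ ρ.re ∧ T ≤ ρ.im ∧ ρ.im ≤ T + H) →
        DensityBounds ε σ2 σ H (∑ ρ ∈ S, (analyticOrderNatAt riemannZeta ρ : ℝ))) := by
  set θ : ℝ := ε / 32 with hθdef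
  have hθ : 0 < θ := by positivity
  have hθ1 : θ ≤ 1 / 8 := by rw [hθdef]; linarith
  set L : ℝ := 4 / θ ^ 2 + 1 with hL
  have hL0 : 0 < L := by positivity
  obtain ⟨σ2, hσ2, hpC⟩ := partC hε hε1
  refine ⟨3 * L, σ2, by positivity, hσ2, fun σ hσ hσ' => ?_⟩
  have hd : 0 < 1 - σ := by linarith
  set a : ℝ := 4 * (1 - σ) / θ ^ 2 with ha
  have ha0 : 0 < a := by positivity
  have haL : a + 1 - σ = L * (1 - σ) := by rw [ha, hL]; ring
  have haθ : 4 * (1 - σ) ≤ a * θ ^ 2 := by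
    rw [ha]
    have : θ ^ 2 ≠ 0 := by positivity
    rw [div_mul_cancel₀ _ this]
  set σ1 : ℝ := (σ + 1 / 2) / 2 with hσ1
  have h1 : 1 / 2 < σ1 := by rw [hσ1]; linarith
  have h2 : σ1 < σ := by rw [hσ1]; linarith
  have haL0 : 0 < L * (1 - σ) := by positivity
  set η : ℝ := min 1 (min ((σ - σ1) / (L * (1 - σ))) (ε / L)) with hη
  have hη0 : 0 < η := by
    refine lt_min one_pos (lt_min ?_ ?_)
    · have : 0 < σ - σ1 := by linarith
      positivity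
    · positivity
  have hη1 : η ≤ 1 := min_le_left _ _
  have hη2 : η * (L * (1 - σ)) ≤ σ - σ1 := by
    have : η ≤ (σ - σ1) / (L * (1 - σ)) := (min_le_right _ _).trans (min_le_left _ _)
    calc η * (L * (1 - σ)) ≤ (σ - σ1) / (L * (1 - σ)) * (L * (1 - σ)) := by gcongr
      _ = σ - σ1 := div_mul_cancel₀ _ haL0.ne'
  have hη3 : η * (L * (1 - σ)) ≤ ε * (1 - σ) := by
    have : η ≤ ε / L := (min_le_right _ _).trans (min_le_right _ _)
    calc η * (L * (1 - σ)) ≤ ε / L * (L * (1 - σ)) := by gcongr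
      _ = ε * (1 - σ) := by field_simp
  have hr : (1 + η) * (a + 1 - σ) ≤ a + 1 - σ1 := by
    rw [haL, add_mul, one_mul]
    have : a + 1 - σ1 = L * (1 - σ) + (σ - σ1) := by rw [← haL]; ring
    rw [this]
    linarith
  obtain ⟨c0, C0, hc0, hC0, hrare⟩ := rareU hθ hθ1 hη0 hη1 h1 h2 hσ' haθ hr
  obtain ⟨cB, CB, hcB, hCB, hrareB⟩ := partB hε hε1 hθdef hη0 hη1 h1 h2 hσ' ha0 haθ hr
  obtain ⟨cC, CC, hcC, hCC, hrareC⟩ := hpC θ a η σ σ1 hθdef hη0 hη1 h1 h2 hσ' ha0 haθ hr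
  obtain ⟨c2, C2, hc2, hC2, hseen⟩ := seenU hθ hθ1 hη0 hη1 h1 hσ' haθ hr
  obtain ⟨N0, hN0, hpart⟩ := part_sumU (θ := θ) (a := a) (ε := ε) hθ ha0 hε hε1
    (by rw [hθdef]; linarith)
  set c1 : ℝ := min (min c0 c2) (min cB cC) with hc1
  have hc10 : 0 < c1 := lt_min (lt_min hc0 hc2) (lt_min hcB hcC)
  have hc1c0 : c1 ≤ c0 := (min_le_left _ _).trans (min_le_left _ _)
  have hc1c2 : c1 ≤ c2 := (min_le_left _ _).trans (min_le_right _ _)
  have hc1cB : c1 ≤ cB := (min_le_right _ _).trans (min_le_left _ _)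
  have hc1cC : c1 ≤ cC := (min_le_right _ _).trans (min_le_right _ _)
  set r : ℝ := 3 * L * (1 - σ) with hr3
  have hr0 : 0 < r := by positivity
  have hr3' : 3 * (a + 1 - σ) = r := by rw [haL, hr3]; ring
  have hεd : 0 < ε * (1 - σ) := by positivity
  obtain ⟨c', C', hc', hC', hlarge⟩ := largeU (r := r) (ε := ε * (1 - σ)) (c := c1) hr0 hεd
    (by nlinarith) hc10
  -- comparison of the two counts
  have hmono : ∀ ρ : ℂ, r < |ρ.im| → (rz (3 * (a + 1 - σ)) (ρ.re - η * (a + 1 - σ)) ρ : ℝ) ≤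
      rz r (ρ.re - ε * (1 - σ)) ρ := by
    intro ρ hρ
    rw [hr3', haL]
    exact_mod_cast rz_mono hρ le_rfl (by linarith)
  have e1 := Real.exp_pos N0
  have e2 := Real.exp_pos C'
  have e3 := Real.exp_pos 1
  set C : ℝ := C0 + C2 + CB + CC + (r + 1) + C' + Real.exp N0 + Real.exp C' + Real.exp 1 with hC
  have hCC0 : C0 ≤ C := by rw [hC]; linarith
  have hCC2 : C2 ≤ C := by rw [hC]; linarith
  have hCCB : CB ≤ C := by rw [hC]; linarith
  have hCCC : CC ≤ C := by rw [hC]; linarith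
  have hCr : r + 1 ≤ C := by rw [hC]; linarith
  have hCC' : C' ≤ C := by rw [hC]; linarith
  have hCN : Real.exp N0 ≤ C := by rw [hC]; linarith
  have hCeC : Real.exp C' ≤ C := by rw [hC]; linarith
  have hCe : Real.exp 1 ≤ C := by rw [hC]; linarith
  have hC1 : 1 ≤ C := hC0.trans hCC0
  have hlog : ∀ T : ℝ, C ≤ T → N0 ≤ Real.log T ∧ 1 ≤ Real.log T := by
    intro T hT
    constructor
    · rw [Real.le_log_iff_exp_le (by linarith)]
      linarith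
    · rw [Real.le_log_iff_exp_le (by linarith)]
      linarith
  have hpow : ∀ T : ℝ, C ≤ T → ∀ D : ℝ, D ≤ C → Real.log T ^ D ≤ Real.log T ^ C := by
    intro T hT D hD
    exact Real.rpow_le_rpow_of_exponent_le (hlog T hT).2 hD
  have hpow1 : ∀ T : ℝ, C ≤ T → Real.log T ≤ Real.log T ^ C := by
    intro T hT
    have := hpow T hT 1 hC1
    rwa [Real.rpow_one] at this
  have hexp : 2 * (1 - σ) + 12 * θ ≤ 2 * (1 - σ) + ε := by rw [hθdef]; linarith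
  -- the first part for a general small constant
  have part1 : ∀ T H : ℝ, C ≤ T → Real.log T ^ C ≤ H → ∀ S : Finset ℂ,
        (∀ ρ ∈ S, riemannZeta ρ = 0 ∧ σ ≤ ρ.re ∧ T ≤ ρ.im ∧ ρ.im ≤ T + H ∧
          (rz r (ρ.re - ε * (1 - σ)) ρ : ℝ) < c1 * Real.log H) →
        DensityBounds ε σ2 σ H (∑ ρ ∈ S, (analyticOrderNatAt riemannZeta ρ : ℝ)) := by
    intro T H hT hH S hS
    have hH1 : 1 ≤ H := (hlog T hT).2.trans ((hpow1 T hT).trans hH)
    have hS' : ∀ ρ ∈ S, riemannZeta ρ = 0 ∧ σ ≤ ρ.re ∧ T ≤ ρ.im ∧ ρ.im ≤ T + H ∧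
        (rz (3 * (a + 1 - σ)) (ρ.re - η * (a + 1 - σ)) ρ : ℝ) < c1 * Real.log H := by
      intro ρ hρ
      obtain ⟨a1, a2, a3, a4, a5⟩ := hS ρ hρ
      refine ⟨a1, a2, a3, a4, lt_of_le_of_lt (hmono ρ ?_) a5⟩
      have : T ≤ |ρ.im| := a3.trans (le_abs_self _)
      linarith
    refine ⟨?_, fun h34 => ?_, fun hs2 => ?_⟩
    · exact (hrare c1 C T H hc1c0 hCC0 hT hH S hS').trans
        (Real.rpow_le_rpow_of_exponent_le hH1 hexp)
    · exact hrareB h34 c1 C T H hc1cB hCCB hT hH S hS'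
    · exact hrareC hs2 c1 C T H hc1cC hCCC hT hH S hS'
  refine ⟨min c1 (c' / 2), C, lt_min hc10 (by positivity), hC1, ?_, ?_, ?_⟩
  · intro T H hT hH S hS
    have hH1 : 1 ≤ H := (hlog T hT).2.trans ((hpow1 T hT).trans hH)
    refine part1 T H hT hH S fun ρ hρ => ?_
    obtain ⟨a1, a2, a3, a4, a5⟩ := hS ρ hρ
    refine ⟨a1, a2, a3, a4, lt_of_lt_of_le a5 ?_⟩
    have := Real.log_nonneg hH1
    gcongr
    exact min_le_left _ _
  · intro ρ N hρ hre hre2 him hN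
    by_contra hcon
    push Not at hcon
    obtain ⟨hc, hM⟩ := hcon
    have hN1 : 1 ≤ N := (hlog _ him).2.trans ((hpow1 _ him).trans hN)
    have hNN : N0 ≤ N := (hlog _ him).1.trans ((hpow1 _ him).trans hN)
    have habs : |ρ.im| = ρ.im := abs_of_nonneg (by linarith)
    obtain ⟨k, hk, hbig⟩ := hseen ρ N hρ hre (by rw [habs]; linarith) (by
      rw [habs]
      exact (hpow _ him _ hCC2).trans hN) (by
      refine lt_of_le_of_lt (hmono ρ (by rw [habs]; linarith)) (lt_of_lt_of_le hc ?_)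
      have := Real.log_nonneg hN1
      gcongr
      exact (min_le_left _ _).trans hc1c2)
    have hre1 : ρ.re < 1 := re_lt_one hρ
    have hsmall := hpart ρ.re N ρ.im k hre2 hre1.le hNN hk (fun M h3 h4 => hM M h3 h4)
    have h5 : N ^ (-(1 - ρ.re) - ε / 4) ≤ N ^ (-(1 - ρ.re) - θ) := by
      apply Real.rpow_le_rpow_of_exponent_le hN1
      rw [hθdef]
      linarith
    linarith
  · intro T H hT hH hζ S hS
    have hH1 : 1 ≤ H := (hlog T hT).2.trans ((hpow1 T hT).trans hH)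
    refine part1 T H hT hH S fun ρ hρ => ?_
    obtain ⟨a1, a2, a3, a4⟩ := hS ρ hρ
    refine ⟨a1, a2, a3, a4, ?_⟩
    by_contra hcon
    rw [not_lt] at hcon
    have hHC : C' ≤ H := by
      have h7 : C' ≤ Real.log T := by
        rw [Real.le_log_iff_exp_le (by linarith)]
        linarith
      exact h7.trans ((hpow1 T hT).trans hH)
    obtain ⟨s, hs1, hs2, hs3⟩ := hlarge ρ H a1 (by linarith) (by
      have : T ≤ |ρ.im| := a3.trans (le_abs_self _)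
      linarith) hHC hcon
    have him := (Complex.abs_im_le_norm (s - ρ)).trans hs2
    rw [Complex.sub_im, abs_le] at him
    have h5 := hζ s (by nlinarith) (by linarith [him.1]) (by linarith [him.2])
    have h6 : H ^ (min c1 (c' / 2)) ≤ H ^ c' := by
      apply Real.rpow_le_rpow_of_exponent_le hH1
      exact (min_le_right _ _).trans (by linarith)
    linarith

end Pool.Agent.H52.Unc
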